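import Pool.Agent.MP_c853c5_nt.DS.Basic

/-! Cutting a quadratic form into translated cells. -/

set_option autoImplicit false

open Finset Filter Real
open scoped ComplexConjugate

namespace Pool.Agent.MP_c853c5_nt.DS

open Pool.Agent.MP_88bd62_nt.U (ex)

/-- the pair lies in one of `j` consecutive cells -/
def In_Blk (Q j c : ℕ) (u : ℕ × ℕ) : Prop := c ≤ Q * u.2 / u.1 ∧ Q * u.2 / u.1 < c + j

open Classical in
/-- the part of the form inside `j` consecutive cells -/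
noncomputable def F_Blk (U : Finset (ℕ × ℕ)) (g : ℕ × ℕ → ℕ × ℕ → ℝ) (Q j c : ℕ) : ℝ :=
  ∑ u ∈ U, if In_Blk Q j c u then ∑ v ∈ U, if In_Blk Q j c v then g u v else 0 else 0

lemma near_Blk {K H Q k p k' p' : ℕ} (hK : 1 ≤ K) (hk : K ≤ k) (hk' : K ≤ k')
    (hQ : Q * H ≤ K ^ 2) (h : k' * p ≤ k * p' + H) : Q * p / k ≤ Q * p' / k' + 1 := by
  rw [← Nat.add_div_right _ (by omega : 0 < k'), Nat.le_div_iff_mul_le (by omega)]
  have h1 := Nat.div_mul_le_self (Q * p) k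
  have h2 : K ^ 2 ≤ k * k' := by
    rw [sq]
    exact Nat.mul_le_mul hk hk'
  refine Nat.le_of_mul_le_mul_left (c := k) ?_ (by omega)
  calc k * (Q * p / k * k') = Q * p / k * k * k' := by ring
    _ ≤ Q * p * k' := Nat.mul_le_mul_right _ h1
    _ = Q * (k' * p) := by ring
    _ ≤ Q * (k * p' + H) := Nat.mul_le_mul_left _ h
    _ = k * (Q * p') + Q * H := by ring
    _ ≤ k * (Q * p') + k * k' := by omega
    _ = k * (Q * p' + k') := by ring

lemma total_Blk (U : Finset (ℕ × ℕ)) (g : ℕ × ℕ → ℕ × ℕ → ℝ) (Q lo N : ℕ)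
    (h1 : ∀ u ∈ U, lo + 1 ≤ Q * u.2 / u.1 ∧ Q * u.2 / u.1 < lo + N)
    (h2 : ∀ u ∈ U, ∀ v ∈ U, g u v ≠ 0 →
      Q * u.2 / u.1 ≤ Q * v.2 / v.1 + 1 ∧ Q * v.2 / v.1 ≤ Q * u.2 / u.1 + 1) :
    ∑ u ∈ U, ∑ v ∈ U, g u v = ∑ c ∈ range N, (F_Blk U g Q 2 (lo + c) - F_Blk U g Q 1 (lo + c)) := by
  classical
  have e : ∀ j c, F_Blk U g Q j c =
      ∑ u ∈ U, ∑ v ∈ U, if In_Blk Q j c u ∧ In_Blk Q j c v then g u v else 0 := by
    intro j c
    refine sum_congr rfl fun u _ => ?_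
    by_cases h : In_Blk Q j c u <;> simp [h]
  simp only [e, ← sum_sub_distrib]
  rw [sum_comm (s := range N)]
  refine sum_congr rfl fun u hu => ?_
  rw [sum_comm (s := range N)]
  refine sum_congr rfl fun v hv => ?_
  by_cases h0 : g u v = 0
  · simp [h0]
  obtain ⟨k1, k2⟩ := h2 u hu v hv h0
  obtain ⟨k3, k4⟩ := h1 u hu
  obtain ⟨k5, k6⟩ := h1 v hv
  unfold In_Blk
  generalize Q * u.2 / u.1 = a at *
  generalize Q * v.2 / v.1 = b at *
  rw [sum_eq_single (max a b - 1 - lo)]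
  · rw [if_pos (by omega), if_neg (by omega), sub_zero]
  · intro c _ hc
    by_cases h : (lo + c ≤ a ∧ a < lo + c + 1) ∧ lo + c ≤ b ∧ b < lo + c + 1
    · rw [if_pos h, if_pos (by omega), sub_self]
    · rw [if_neg h, if_neg (by omega), sub_self]
  · intro h
    exact absurd (mem_range.2 (by omega)) h

lemma reidx_Blk (f : ℕ → ℝ) (Q S : ℕ) :
    ∑ c ∈ range (Q * S), f c = ∑ c ∈ range Q, ∑ s ∈ range S, f (c + Q * s) := by
  induction S with
  | zero => simp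
  | succ S ih =>
    rw [Nat.mul_succ, sum_range_add, ih, ← sum_add_distrib]
    refine sum_congr rfl fun c _ => ?_
    rw [sum_range_succ, add_comm (Q * S) c]

lemma in_iff_Blk {Q j c k q : ℕ} (hk : 0 < k) :
    In_Blk Q j c (k, q) ↔ c * k ≤ Q * q ∧ Q * q < (c + j) * k := by
  unfold In_Blk
  rw [Nat.le_div_iff_mul_le hk, Nat.div_lt_iff_lt_mul hk]

lemma uniq_Blk {Q j c k q q' : ℕ} (hk : 0 < k) (hj : j ≤ 2) (hQ : 2 * k ≤ Q)
    (h : In_Blk Q j c (k, q)) (h' : In_Blk Q j c (k, q')) : q ≤ q' := by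
  rw [in_iff_Blk hk] at h h'
  by_contra hlt
  have h1 : Q * (q' + 1) ≤ Q * q := Nat.mul_le_mul_left _ (by omega)
  have h2 : j * k ≤ 2 * k := Nat.mul_le_mul_right _ hj
  have h3 := h.2
  have h4 := h'.1
  rw [add_mul] at h3
  rw [mul_add] at h1
  omega

lemma shift_Blk {Q j c k q s : ℕ} (hk : 0 < k) :
    In_Blk Q j (c + Q * s) (k, q + s * k) ↔ In_Blk Q j c (k, q) := by
  unfold In_Blk
  have : Q * (q + s * k) / k = Q * q / k + Q * s := by
    rw [mul_add, ← mul_assoc, Nat.add_mul_div_right _ _ hk]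
  simp only [this]
  omega

lemma unshift_Blk {Q j c k p s : ℕ} (hk : 0 < k) (hQ : 0 < Q)
    (h : In_Blk Q j (c + Q * s) (k, p)) : ∃ q, p = q + s * k := by
  rw [in_iff_Blk hk] at h
  have h1 : Q * (s * k) ≤ Q * p := by
    have := h.1
    rw [add_mul, mul_assoc] at this
    omega
  exact ⟨p - s * k, (Nat.sub_add_cancel (Nat.le_of_mul_le_mul_left h1 hQ)).symm⟩

open Classical in
lemma pick_Blk {K Q j c : ℕ} {D₀ D R : Finset ℕ} {q : ℕ → ℕ} (hK : 1 ≤ K) (hD : PrK K D₀)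
    (hj : j ≤ 2) (hQ : 4 * K ≤ Q)
    (h1 : D = D₀.filter fun k => ∃ t, ¬ k ∣ t ∧ In_Blk Q j c (k, t))
    (h2 : ∀ k ∈ D, In_Blk Q j c (k, q k)) (s : ℕ) (φ : ℕ × ℕ → ℝ)
    (hφ : ∀ u : ℕ × ℕ, K ≤ u.1 → u.1 ∣ u.2 → φ u = 0) :
    ∑ u ∈ D₀ ×ˢ R, (if In_Blk Q j (c + Q * s) u then φ u else 0) =
      ∑ a ∈ D, if q a + s * a ∈ R then φ (a, q a + s * a) else 0 := by
  have hsub : D ⊆ D₀ := h1 ▸ filter_subset _ _
  rw [sum_product, ← sum_subset hsub]
  · refine sum_congr rfl fun a ha => ?_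
    obtain ⟨-, k1, k2⟩ := hD a (hsub ha)
    rw [← sum_ite_eq' R (q a + s * a) fun p => φ (a, p)]
    refine sum_congr rfl fun p _ => if_congr ⟨fun h => ?_, fun h => ?_⟩ rfl rfl
    · obtain ⟨t, rfl⟩ := unshift_Blk (by omega) (by omega) h
      rw [shift_Blk (by omega)] at h
      rw [le_antisymm (uniq_Blk (by omega) hj (by omega) h (h2 a ha))
        (uniq_Blk (by omega) hj (by omega) (h2 a ha) h)]
    · rw [h, shift_Blk (by omega)]
      exact h2 a ha
  · intro a ha hn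
    obtain ⟨-, k1, k2⟩ := hD a ha
    refine sum_eq_zero fun p _ => ?_
    split_ifs with h
    · obtain ⟨t, rfl⟩ := unshift_Blk (by omega) (by omega) h
      rw [shift_Blk (by omega)] at h
      have : a ∣ t := by
        by_contra hd
        exact hn (h1 ▸ mem_filter.2 ⟨ha, t, hd, h⟩)
      exact hφ _ k1 (Dvd.dvd.add this (Dvd.intro_left _ rfl))
    · rfl

lemma inj_Blk {K k q k' q' : ℕ} (hk : 0 < k) (h1 : k < 2 * K) (hk' : 0 < k') (h2 : k' < 2 * K)
    (e : 4 * K ^ 2 * q / k = 4 * K ^ 2 * q' / k') : q' * k ≤ q * k' := by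
  by_contra hlt
  have a1 := Nat.div_mul_le_self (4 * K ^ 2 * q) k
  have a2 : 4 * K ^ 2 * q' < (4 * K ^ 2 * q' / k' + 1) * k' :=
    (Nat.div_lt_iff_lt_mul hk').1 (Nat.lt_succ_self _)
  rw [← e] at a2
  generalize 4 * K ^ 2 * q / k = m at a1 a2
  have a3 : k * k' ≤ 4 * K ^ 2 := by nlinarith
  have a4 : 4 * K ^ 2 * (q * k' + 1) ≤ 4 * K ^ 2 * (q' * k) := Nat.mul_le_mul_left _ (by omega)
  have a5 : 4 * K ^ 2 * q' * k < (m + 1) * k' * k := Nat.mul_lt_mul_of_pos_right a2 hk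
  have a6 : m * k * k' ≤ 4 * K ^ 2 * q * k' := Nat.mul_le_mul_right _ a1
  nlinarith

lemma card_Blk {K Q H j c : ℕ} {D : Finset ℕ} {q : ℕ → ℕ} (hK : 1 ≤ K) (hD : PrK K D)
    (hj : j ≤ 2) (hH : K ^ 2 ≤ 2 * Q * H)
    (h : ∀ k ∈ D, ¬ k ∣ q k ∧ In_Blk Q j c (k, q k)) : D.card ≤ 33 * H := by
  have hK2 : 0 < K ^ 2 := by positivity
  have hQ : 0 < Q := Nat.pos_of_ne_zero fun e => by simp [e] at hH; omega
  have hH1 : 0 < H := Nat.pos_of_ne_zero fun e => by simp [e] at hH; omega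
  have := card_le_card_of_injOn (s := D)
    (t := Ico (4 * K ^ 2 * c / Q) (4 * K ^ 2 * c / Q + (1 + 16 * H)))
    (fun k => 4 * K ^ 2 * q k / k) (fun k hk => ?_) fun k hk k' hk' e => ?_
  · rw [Nat.card_Ico] at this
    omega
  · obtain ⟨-, k1, k2⟩ := hD k hk
    have hk0 : 0 < k := by omega
    obtain ⟨b1, b2⟩ := (in_iff_Blk hk0).1 (h k hk).2
    have a1 := Nat.div_mul_le_self (4 * K ^ 2 * c) Q
    have a2 : 4 * K ^ 2 * c < (4 * K ^ 2 * c / Q + 1) * Q :=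
      (Nat.div_lt_iff_lt_mul hQ).1 (Nat.lt_succ_self _)
    generalize 4 * K ^ 2 * c / Q = m at a1 a2 ⊢
    have a0 : 4 * K ^ 2 * j ≤ 16 * H * Q := by nlinarith
    have hM : 0 < 4 * K ^ 2 := by omega
    generalize 4 * K ^ 2 = M at a1 a2 a0 hM ⊢
    refine mem_coe.2 (mem_Ico.2 ⟨?_, ?_⟩)
    · rw [Nat.le_div_iff_mul_le hk0]
      refine Nat.le_of_mul_le_mul_left (c := Q) ?_ hQ
      calc Q * (m * k) = m * Q * k := by ring
        _ ≤ M * c * k := Nat.mul_le_mul_right _ a1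
        _ = M * (c * k) := by ring
        _ ≤ M * (Q * q k) := Nat.mul_le_mul_left _ b1
        _ = Q * (M * q k) := by ring
    · rw [Nat.div_lt_iff_lt_mul hk0]
      refine Nat.lt_of_mul_lt_mul_left (a := Q) ?_
      calc Q * (M * q k) = M * (Q * q k) := by ring
        _ < M * ((c + j) * k) := Nat.mul_lt_mul_of_pos_left b2 hM
        _ = (M * c + M * j) * k := by ring
        _ ≤ ((m + 1) * Q + 16 * H * Q) * k := Nat.mul_le_mul_right _ (by omega)
        _ = Q * ((m + (1 + 16 * H)) * k) := by ring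
  · obtain ⟨p1, k1, k2⟩ := hD k hk
    obtain ⟨p2, k3, k4⟩ := hD k' hk'
    have e1 : q k' * k = q k * k' := le_antisymm (inj_Blk (by omega) k2 (by omega) k4 e)
      (inj_Blk (by omega) k4 (by omega) k2 e.symm)
    rcases (Nat.Prime.dvd_mul p1).1 (Dvd.intro_left _ e1) with d | d
    · exact absurd d (h k hk).1
    · exact (Nat.prime_dvd_prime_iff_eq p1 p2).1 d

lemma cell_Blk {Q j c k q : ℕ} (hk : 0 < k) (hQ : 0 < Q) (hj : j ≤ 2)
    (h : In_Blk Q j c (k, q)) : (c : ℝ) / Q ≤ (q : ℝ) / k ∧ (q : ℝ) / k < (c : ℝ) / Q + 2 / Q := by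
  obtain ⟨b1, b2⟩ := (in_iff_Blk hk).1 h
  have b3 : Q * q < (c + 2) * k := b2.trans_le (Nat.mul_le_mul_right _ (by omega))
  have hk' : (0 : ℝ) < k := by exact_mod_cast hk
  have hQ' : (0 : ℝ) < Q := by exact_mod_cast hQ
  rw [← add_div, div_le_div_iff₀ hQ' hk', div_lt_div_iff₀ hk' hQ', mul_comm (q : ℝ) Q]
  exact ⟨by exact_mod_cast b1, by exact_mod_cast b3⟩

theorem blk_stmt (hO : OpStmt) : BlkStmt := by
  classical
  intro K P Λ H Q r D₀ G α W hr hΛ hD hK hP hQ hQH hH hHK hG hG' hα hW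
  set R := Icc P (Λ * P) with hR
  set S := Λ * P / K + 1 with hS
  set s₀ := P / (4 * K) with hs₀
  have hQ0 : 0 < Q := by omega
  have a1 : s₀ * (4 * K) ≤ P := Nat.div_mul_le_self _ _
  have a2 : P < (s₀ + 1) * (4 * K) := (Nat.div_lt_iff_lt_mul (by omega)).1 (Nat.lt_succ_self _)
  have a3 : 2 ≤ s₀ := (Nat.le_div_iff_mul_le (by omega)).2 (by omega)
  have a4 : Λ * P < S * K := (Nat.div_lt_iff_lt_mul (by omega)).1 (Nat.lt_succ_self _)
  have hz : ∀ u v : ℕ × ℕ, K ≤ u.1 → u.1 ∣ u.2 → G u v = 0 := by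
    rintro ⟨k, p⟩ ⟨k', p'⟩ hk ⟨n, hn⟩
    by_contra h0
    obtain ⟨b1, b2, b3⟩ := hG' _ _ h0
    dsimp only at hk hn b1 b2 b3
    have e : k' * p = k * (k' * n) := by rw [hn]; ring
    rw [e] at b1 b2 b3
    rcases lt_trichotomy (k' * n) p' with h | h | h
    · have := Nat.mul_le_mul_left k (Nat.succ_le_of_lt h)
      rw [Nat.mul_succ] at this
      omega
    · exact b1 (by rw [h])
    · have := Nat.mul_le_mul_left k (Nat.succ_le_of_lt h)
      rw [Nat.mul_succ] at this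
      omega
  set g : ℕ × ℕ → ℕ × ℕ → ℝ := fun u v => α u * α v * G u v with hg
  have key : ∀ j, j ≤ 2 → ∀ c, c < Q →
      ∑ s ∈ range S, |F_Blk (D₀ ×ˢ R) g Q j (s₀ * Q + c + Q * s)| ^ (2 * r) ≤
        (33 * H : ℝ) ^ (2 * r) * W := by
    intro j hj c hc
    obtain ⟨D, hD1⟩ : ∃ D, D = D₀.filter fun k => ∃ t, ¬ k ∣ t ∧ In_Blk Q j (s₀ * Q + c) (k, t) :=
      ⟨_, rfl⟩
    have hsub : D ⊆ D₀ := hD1 ▸ filter_subset _ _
    have hq : ∀ k, ∃ t, k ∈ D → ¬ k ∣ t ∧ In_Blk Q j (s₀ * Q + c) (k, t) := fun k => by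
      by_cases h : k ∈ D
      · obtain ⟨t, ht⟩ := (mem_filter.1 (hD1 ▸ h)).2
        exact ⟨t, fun _ => ht⟩
      · exact ⟨0, fun h' => absurd h' h⟩
    choose q hq using hq
    have hc1 : D.card ≤ 33 * H := card_Blk hK (fun k hk => hD k (hsub hk)) hj hH hq
    have hQ' : (0 : ℝ) < Q := by exact_mod_cast hQ0
    have hw := hW D q (((s₀ * Q + c : ℕ) : ℝ) / Q) hsub hc1 ?_ ?_ fun k hk =>
      cell_Blk (hD k (hsub hk)).1.pos hQ0 hj (hq k hk).2
    · refine le_trans ?_ (mul_le_mul_of_nonneg_left hw (by positivity))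
      rw [mul_sum]
      refine sum_le_sum fun s _ => ?_
      have e : F_Blk (D₀ ×ˢ R) g Q j (s₀ * Q + c + Q * s) = ∑ a ∈ D, ∑ b ∈ D,
          α (a, q a + s * a) * α (b, q b + s * b) * loc G R q s a b := by
        unfold F_Blk
        rw [pick_Blk hK hD hj hQ hD1 (fun k hk => (hq k hk).2) s _ fun u h1 h2 =>
          sum_eq_zero fun v _ => by simp [hg, hz u v h1 h2]]
        refine sum_congr rfl fun a _ => ?_
        rw [pick_Blk hK hD hj hQ hD1 (fun k hk => (hq k hk).2) s _ fun v h1 h2 => by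
          simp [hg, hG _ v, hz v _ h1 h2]]
        by_cases h : q a + s * a ∈ R
        · rw [if_pos h]
          refine sum_congr rfl fun b _ => ?_
          by_cases h' : q b + s * b ∈ R <;> simp [loc, hg, h, h']
        · simp [loc, h]
      rw [e]
      refine (hO D (loc G R q s) (fun a => α (a, q a + s * a)) r hr (fun a b => ?_)
        fun a => hα _).trans (mul_le_mul_of_nonneg_right ?_ (by positivity))
      · unfold loc
        rw [hG]
        exact if_congr and_comm rfl rfl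
      · exact pow_le_pow_left₀ (by positivity) (by exact_mod_cast hc1) _
    · rw [← mul_div_assoc, le_div_iff₀ hQ']
      have : P * Q ≤ 8 * K * (s₀ * Q + c) := by
        have b : P ≤ 8 * K * s₀ := by nlinarith
        calc P * Q ≤ 8 * K * s₀ * Q := Nat.mul_le_mul_right _ b
          _ ≤ 8 * K * (s₀ * Q + c) := by
            rw [mul_assoc (8 * K)]
            exact Nat.mul_le_mul_left _ (by omega)
      exact_mod_cast this
    · rw [← mul_div_assoc, div_le_iff₀ hQ']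
      have : K * (s₀ * Q + c) ≤ P * Q := by
        have b : K * (s₀ + 1) ≤ P := by nlinarith
        calc K * (s₀ * Q + c) ≤ K * ((s₀ + 1) * Q) :=
              Nat.mul_le_mul_left _ (by rw [add_mul]; omega)
          _ = K * (s₀ + 1) * Q := by ring
          _ ≤ P * Q := Nat.mul_le_mul_right _ b
      exact_mod_cast this
  have tot := total_Blk (D₀ ×ˢ R) g Q (s₀ * Q) (Q * S) ?_ ?_
  · rw [reidx_Blk] at tot
    have h1 : |∑ u ∈ D₀ ×ˢ R, ∑ v ∈ D₀ ×ˢ R, g u v| ≤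
        ∑ z ∈ (({1, 2} : Finset ℕ) ×ˢ range Q) ×ˢ range S,
          |F_Blk (D₀ ×ˢ R) g Q z.1.1 (s₀ * Q + z.1.2 + Q * z.2)| := by
      rw [tot, sum_product, sum_product, sum_pair (by norm_num), ← sum_add_distrib]
      refine (abs_sum_le_sum_abs _ _).trans (sum_le_sum fun c _ => ?_)
      rw [← sum_add_distrib]
      refine (abs_sum_le_sum_abs _ _).trans (sum_le_sum fun s _ => ?_)
      rw [← add_assoc, add_comm |_|]
      exact abs_sub _ _
    refine (pow_le_pow_left₀ (abs_nonneg _) h1 _).trans ?_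
    have h2 := pow_sum_le_card_mul_sum_pow
      (s := (({1, 2} : Finset ℕ) ×ˢ range Q) ×ˢ range S)
      (f := fun z => |F_Blk (D₀ ×ˢ R) g Q z.1.1 (s₀ * Q + z.1.2 + Q * z.2)|)
      (fun _ _ => abs_nonneg _) (2 * r - 1)
    rw [show 2 * r - 1 + 1 = 2 * r by omega, card_product, card_product, card_range, card_range,
      card_pair (by norm_num)] at h2
    refine h2.trans ?_
    push_cast
    rw [mul_assoc ((2 * Q * S : ℝ) ^ (2 * r - 1))]
    refine mul_le_mul_of_nonneg_left ?_ (by positivity)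
    rw [sum_product]
    refine (sum_le_card_nsmul _ _ ((33 * H : ℝ) ^ (2 * r) * W) fun z hz => ?_).trans ?_
    · obtain ⟨z1, z2⟩ := mem_product.1 hz
      refine key z.1 ?_ z.2 (mem_range.1 z2)
      simp only [mem_insert, mem_singleton] at z1
      omega
    · rw [card_product, card_range, card_pair (by norm_num), nsmul_eq_mul]
      push_cast
      exact le_of_eq (by ring)
  · rintro ⟨k, p⟩ hu
    obtain ⟨u1, u2⟩ := mem_product.1 hu
    obtain ⟨-, k1, k2⟩ := hD k u1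
    obtain ⟨p1, p2⟩ := mem_Icc.1 u2
    dsimp only at k1 k2 p1 p2 ⊢
    constructor
    · rw [Nat.le_div_iff_mul_le (by omega)]
      have b1 : s₀ * (2 * k) ≤ P := le_trans (Nat.mul_le_mul_left _ (by omega)) a1
      have b2 : Q * (s₀ * (2 * k)) ≤ Q * p := Nat.mul_le_mul_left _ (b1.trans p1)
      have b3 : Q * 1 ≤ Q * p := Nat.mul_le_mul_left _ (by omega)
      nlinarith
    · refine lt_of_lt_of_le ?_ (Nat.le_add_left _ _)
      rw [Nat.div_lt_iff_lt_mul (by omega), mul_assoc]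
      exact Nat.mul_lt_mul_of_pos_left
        (p2.trans_lt (a4.trans_le (Nat.mul_le_mul_left _ k1))) hQ0
  · intro u hu v hv h0
    obtain ⟨-, b2, b3⟩ := hG' u v (right_ne_zero_of_mul h0)
    have k1 := (hD _ (mem_product.1 hu).1).2.1
    have k2 := (hD _ (mem_product.1 hv).1).2.1
    exact ⟨near_Blk hK k1 k2 hQH b2, near_Blk hK k2 k1 hQH b3⟩

end Pool.Agent.MP_c853c5_nt.DS
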