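import Pool.Agent.MP_c853c5_nt.DS.Basic

set_option autoImplicit false

open Finset Filter Real
open scoped ComplexConjugate

namespace Pool.Agent.MP_c853c5_nt.DS

open Pool.Agent.MP_88bd62_nt.U (ex)

lemma win_BoxV {γ : ℝ} (hγ : 0 < γ) : ∀ᶠ x : ℝ in atTop, ∀ τ : ℝ,
    0 ≤ τ → τ ≤ 1 / 2 → ∃ T : ℕ, 1 ≤ T ∧ (T : ℝ) ≤ x ^ (τ + γ) ∧
      x ^ τ * Real.log x ≤ T ∧ x ^ τ * Real.log x ≤ x := by
  filter_upwards [E.ev_log_le 2 1 hγ, E.ev_log_le 1 1 one_half_pos, E.ev_le_log 1,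
    eventually_ge_atTop 1] with x h1 h2 h3 h4 τ a1 a2
  rw [pow_one] at h1 h2
  have x0 : 0 < x := by linarith
  have b2 : 1 ≤ x ^ τ := Real.one_le_rpow h4 a1
  have b3 : 1 ≤ x ^ τ * Real.log x := one_le_mul_of_one_le_of_one_le b2 h3
  refine ⟨⌈x ^ τ * Real.log x⌉₊, Nat.ceil_pos.2 (by linarith), ?_, Nat.le_ceil _, ?_⟩
  · have := Nat.ceil_lt_add_one (zero_le_one.trans b3)
    rw [Real.rpow_add x0]
    nlinarith
  · calc _ ≤ x ^ (1 / 2 : ℝ) * x ^ (1 / 2 : ℝ) :=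
          mul_le_mul (Real.rpow_le_rpow_of_exponent_le h4 a2) (by linarith) (by linarith)
            (by positivity)
      _ = x := by rw [← Real.rpow_add x0, add_halves, Real.rpow_one]

theorem boxV_stmt (hG : GridVStmt) (hI : E.GrdStmt) : BoxVStmt := by
  intro ι _ K A η c₀ ia ic h1 hη hc
  obtain ⟨γ, hγ, hG⟩ := hG ι K A η c₀ ia ic h1 hη hc
  refine ⟨γ, hγ, ?_⟩
  filter_upwards [hG, win_BoxV hγ, eventually_gt_atTop 0] with
    x hG hW x0 τ T₁ b N c a1 a2 a3 a4 a5 a6 a7 a8 a9 a10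
  obtain ⟨T, t1, t2, t3, t4⟩ := hW τ a1 a2
  exact hI (fun t => ∏ j, ‖E.BP (N j) (c j) t‖ ^ 2) _ _ _ T
    (continuous_finsetProd _ fun j _ => (E.continuous_BP _ _).norm.pow 2)
    (fun t => prod_nonneg fun _ _ => sq_nonneg _) a3
    (by linarith [Real.rpow_nonneg x0.le (1 / 2000 : ℝ)]) fun u S hS hm =>
      hG τ u b T N c S a1 a2 a5 a6 t1 t2 a7 a8 a9 hS fun m h =>
        a10 _ (hm m h).1 ((hm m h).2.trans (a4.trans t4))

end Pool.Agent.MP_c853c5_nt.DS
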