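import Pool.Agent.MP_c853c5_nt.DS.Basic
set_option autoImplicit false
open Finset Filter Real
open scoped ComplexConjugate
namespace Pool.Agent.MP_c853c5_nt.DS
open Pool.Agent.MP_88bd62_nt.U (ex)

lemma dd_mono_CEdge (Δ Γ n' : ℝ) {n m : ℝ} (hn : 0 ≤ n) (h : n ≤ m) :
    dd Δ Γ n n' ≤ dd Δ Γ m n' := by
  unfold dd
  gcongr

lemma le_dd_CEdge (Δ Γ n' : ℝ) {n m : ℝ} (hn : 0 ≤ n) (h : n ≤ m) :
    n ^ 2 * Γ ^ 2 ≤ dd Δ Γ m n' := by
  refine le_trans ?_ (dd_mono_CEdge Δ Γ n' hn h)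
  unfold dd
  exact le_add_of_nonneg_right (by positivity)

/-- the exponent of the second factor -/
noncomputable def gg_CEdge (Δ Γ n' n : ℝ) : ℝ := π * (n - n') ^ 2 / dd Δ Γ n n'

lemma gg_nonneg_CEdge (Δ Γ n' n : ℝ) : 0 ≤ gg_CEdge Δ Γ n' n := by
  unfold gg_CEdge dd
  positivity

lemma gg_anti_CEdge (Δ : ℝ) {Γ n' n m : ℝ} (hΓ : 0 < Γ) (hn : 0 < n) (h : n ≤ m) (h' : m ≤ n') :
    gg_CEdge Δ Γ n' m ≤ gg_CEdge Δ Γ n' n := by
  unfold gg_CEdge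
  refine div_le_div₀ (by positivity) ?_ (dd_pos n' hΓ hn) (dd_mono_CEdge Δ Γ n' hn.le h)
  exact mul_le_mul_of_nonneg_left (by nlinarith) pi_pos.le

lemma gg_mono_CEdge (Δ : ℝ) {Γ n' n m : ℝ} (hΓ : 0 < Γ) (hn : 0 < n') (h' : n' ≤ n) (h : n ≤ m) :
    gg_CEdge Δ Γ n' n ≤ gg_CEdge Δ Γ n' m := by
  unfold gg_CEdge
  have h0 : 0 < n := hn.trans_le h'
  rw [div_le_div_iff₀ (dd_pos n' hΓ h0) (dd_pos n' hΓ (h0.trans_le h)), mul_assoc, mul_assoc]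
  refine mul_le_mul_of_nonneg_left ?_ pi_pos.le
  have h1 : 0 ≤ n - n' := sub_nonneg.2 h'
  have h2 : (n - n') ^ 2 ≤ (m - n') ^ 2 := by gcongr
  have h3 : ((n - n') * m) ^ 2 ≤ ((m - n') * n) ^ 2 :=
    pow_le_pow_left₀ (mul_nonneg h1 (h0.le.trans h)) (by nlinarith) 2
  have h4 := mul_le_mul_of_nonneg_right h2 (by positivity : 0 ≤ n' ^ 2 * Δ ^ 2)
  have h5 := mul_le_mul_of_nonneg_right h3 (sq_nonneg Γ)
  unfold dd
  linarith

lemma gg_split_CEdge (Δ Γ n' n : ℝ) :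
    gg_CEdge Δ Γ n' n = gg_CEdge Δ Γ n' (min n n') + gg_CEdge Δ Γ n' (max n n') := by
  have e : gg_CEdge Δ Γ n' n' = 0 := by simp [gg_CEdge]
  rcases le_total n n' with h | h <;> simp [h, e]

lemma nv_am_CEdge {X Δ Γ n' N : ℝ} (S : ℕ) (h : ℤ) {n : ℕ → ℝ} (hX : 0 < X) (hΓ : 0 < Γ)
    (hn' : 0 < n') (hN : 0 < N) (h0 : ∀ s, N ≤ n s) (h1 : ∀ s, n s ≤ n (s + 1)) :
    nv S (fun s => (am X Δ Γ (n s) n' h : ℝ)) ≤ 4 * (X / (Γ * N)) := by
  have hp : ∀ s, 0 < n s := fun s => hN.trans_le (h0 s)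
  have hd : ∀ s, 0 < dd Δ Γ (n s) n' := fun s => dd_pos n' hΓ (hp s)
  have hm : ∀ s, dd Δ Γ (n s) n' ≤ dd Δ Γ (n (s + 1)) n' := fun s =>
    dd_mono_CEdge Δ Γ n' (hp s).le (h1 s)
  have k1 : nv S (fun s => ((X / √(dd Δ Γ (n s) n') : ℝ) : ℂ)) ≤ 2 * (X / (Γ * N)) := by
    refine nv_antitone (fun s _ => ?_) ?_ (by positivity)
    · have := hd s
      have := hm s
      gcongr
    · refine div_le_div_of_nonneg_left hX.le (by positivity) (le_sqrt_of_sq_le ?_)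
      rw [mul_pow, mul_comm]
      exact le_dd_CEdge Δ Γ n' hN.le (h0 0)
  have k2 : nv S (fun s => ((Real.exp (-gg_CEdge Δ Γ n' (min (n s) n')) : ℝ) : ℂ)) ≤ 1 := by
    refine nv_monotone (fun s _ => ?_) (by positivity) ?_
    · exact exp_le_exp.2 (neg_le_neg (gg_anti_CEdge Δ hΓ (lt_min (hp s) hn')
        (min_le_min_right _ (h1 s)) (min_le_right _ _)))
    · exact exp_le_one_iff.2 (neg_nonpos.2 (gg_nonneg_CEdge _ _ _ _))
  have k3 : nv S (fun s => ((Real.exp (-gg_CEdge Δ Γ n' (max (n s) n')) : ℝ) : ℂ)) ≤ 2 * 1 := by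
    refine nv_antitone (fun s _ => ?_) ?_ (by positivity)
    · exact exp_le_exp.2 (neg_le_neg (gg_mono_CEdge Δ hΓ hn' (le_max_right _ _)
        (max_le_max_right _ (h1 s))))
    · exact exp_le_one_iff.2 (neg_nonpos.2 (gg_nonneg_CEdge _ _ _ _))
  have k4 : nv S (fun s => ((Real.exp (-(π * (h : ℝ) ^ 2 * (X * Δ * Γ) ^ 2 /
      dd Δ Γ (n s) n')) : ℝ) : ℂ)) ≤ 1 := by
    refine nv_monotone (fun s _ => ?_) (by positivity) ?_
    · exact exp_le_exp.2 (neg_le_neg (div_le_div_of_nonneg_left (by positivity) (hd s) (hm s)))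
    · have := hd S
      exact exp_le_one_iff.2 (neg_nonpos.2 (by positivity))
  refine le_trans (le_of_eq ?_) ((nv_mul_le (nv_mul_le k1 (nv_mul_le k2 k3)) k4).trans_eq
    (by ring))
  congr 1
  ext s
  rw [← Complex.ofReal_mul, ← Complex.ofReal_mul, ← Complex.ofReal_mul, ← Real.exp_add, ← neg_add,
    ← gg_split_CEdge]
  rfl

lemma nv_ct_CEdge {X Δ Γ n' N w : ℝ} (S : ℕ) (h : ℝ) {n : ℕ → ℝ} (hX : 0 < X) (hΓ : 0 < Γ)
    (hn' : 0 < n') (hN : 0 < N) (hw : 1 ≤ w) (hw' : n' ≤ w * N) (h0 : ∀ s, N ≤ n s)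
    (h1 : ∀ s, n s ≤ n (s + 1)) :
    nv S (fun s => ((h * (ct X Δ Γ (n s) n' - X / n s) : ℝ) : ℂ)) ≤
      4 * (w ^ 2 * |h| * X * Δ ^ 2 / (N * Γ ^ 2)) := by
  have hp : ∀ s, 0 < n s := fun s => hN.trans_le (h0 s)
  have hd : ∀ s, 0 < dd Δ Γ (n s) n' := fun s => dd_pos n' hΓ (hp s)
  have hm : ∀ s, dd Δ Γ (n s) n' ≤ dd Δ Γ (n (s + 1)) n' := fun s =>
    dd_mono_CEdge Δ Γ n' (hp s).le (h1 s)
  have hl := le_dd_CEdge Δ Γ n' hN.le (h0 0)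
  have k1 : nv S (fun s => ((n' / dd Δ Γ (n s) n' : ℝ) : ℂ)) ≤ 2 * (w ^ 2 / (N * Γ ^ 2)) := by
    refine nv_antitone (fun s _ => div_le_div_of_nonneg_left hn'.le (hd s) (hm s)) ?_
      (div_pos hn' (hd S)).le
    refine (div_le_div₀ (c := w ^ 2 * N) (by positivity) (hw'.trans ?_) (by positivity)
      hl).trans_eq (by field_simp)
    exact mul_le_mul_of_nonneg_right (by nlinarith) hN.le
  have k2 : nv S (fun s => ((n' ^ 2 / (n s * dd Δ Γ (n s) n') : ℝ) : ℂ)) ≤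
      2 * (w ^ 2 / (N * Γ ^ 2)) := by
    refine nv_antitone (fun s _ => div_le_div_of_nonneg_left (by positivity)
      (mul_pos (hp s) (hd s)) (mul_le_mul (h1 s) (hm s) (hd s).le (hp _).le)) ?_
      (div_pos (by positivity) (mul_pos (hp S) (hd S))).le
    exact (div_le_div₀ (c := (w * N) ^ 2) (d := N * (N ^ 2 * Γ ^ 2)) (by positivity)
      (pow_le_pow_left₀ hn'.le hw' 2) (by positivity)
      (mul_le_mul (h0 0) hl (by positivity) (hp 0).le)).trans_eq (by field_simp)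
  have k3 : ∀ c : ℝ, |c| = |h| * X * Δ ^ 2 → nv S (fun _ => (c : ℂ)) ≤ |h| * X * Δ ^ 2 :=
    fun c hc => by rw [nv_const, Complex.norm_real, Real.norm_eq_abs, hc]
  have k4 : |h * X * Δ ^ 2| = |h| * X * Δ ^ 2 := by
    rw [abs_mul, abs_mul, abs_of_pos hX, abs_of_nonneg (sq_nonneg Δ)]
  refine le_trans (le_of_eq ?_) (((nv_add _ _ _).trans (add_le_add (nv_mul_le (k3 _ k4) k1)
    (nv_mul_le (k3 _ ((abs_neg _).trans k4)) k2))).trans_eq (by ring))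
  congr 1
  ext s
  rw [← Complex.ofReal_mul, ← Complex.ofReal_mul, ← Complex.ofReal_add]
  congr 1
  have e1 := (hd s).ne'
  have e2 := (hp s).ne'
  unfold ct
  field_simp
  unfold dd
  ring

theorem cEdge_stmt : CEdgeStmt := by
  refine ⟨32 * π, by positivity, fun X Δ Γ n' w K P S k h hX hΔ hΓ hn' hw hK hP hk hw' => ?_⟩
  have hK' : (0 : ℝ) < K := by exact_mod_cast hK
  have hP' : (0 : ℝ) < P := by exact_mod_cast hP
  have hk' : (K : ℝ) ≤ k := by exact_mod_cast hk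
  have h0 : ∀ s : ℕ, (K : ℝ) * P ≤ (k : ℝ) * (P + s : ℕ) := fun s =>
    mul_le_mul hk' (by exact_mod_cast Nat.le_add_right P s) hP'.le (hK'.le.trans hk')
  have h1 : ∀ s : ℕ, (k : ℝ) * (P + s : ℕ) ≤ (k : ℝ) * (P + (s + 1) : ℕ) := fun s =>
    mul_le_mul_of_nonneg_left (by exact_mod_cast (by omega)) (hK'.le.trans hk')
  have k1 := nv_am_CEdge (Δ := Δ) S h hX hΓ hn' (mul_pos hK' hP') h0 h1
  have k2 := (nv_ex S _).trans (add_le_add le_rfl (mul_le_mul_of_nonneg_left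
    (nv_ct_CEdge (Δ := Δ) S h hX hΓ hn' (mul_pos hK' hP') hw hw' h0 h1) (by positivity)))
  refine le_trans (le_of_eq ?_) ((nv_mul_le k1 k2).trans ?_)
  · congr 1
    ext s
    unfold ec
    rw [Nat.cast_add, add_comm (s : ℝ)]
  · have e : 0 ≤ X / (Γ * (K * P)) := by positivity
    have := mul_le_mul_of_nonneg_right two_le_pi e
    linarith

end Pool.Agent.MP_c853c5_nt.DS
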