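import Pool.Agent.MP_c853c5_nt.DS.Basic

/-!
One row of the mixed form.
-/

set_option autoImplicit false

open Finset Filter Real
open scoped ComplexConjugate

namespace Pool.Agent.MP_c853c5_nt.DS

open Pool.Agent.MP_88bd62_nt.U (ex)

lemma row_CRow {ι : Type} (E : Finset ι) (S : ℕ) (ρ V : ℝ) (f : ι → ℕ → ℂ) (θ : ι → ℝ)
    (y : ℕ → ℝ) (Z : ι → ι → ℝ) (hy : ∀ s, (y s : ℂ) = ∑ e ∈ E, f e s * ex (θ e / (s + ρ)))
    (hf : ∀ e ∈ E, nv S (f e) ≤ V)
    (hZ : ∀ e ∈ E, ∀ e' ∈ E, ∀ i, ‖∑ s ∈ Ico i S, ex ((θ e - θ e') / (s + ρ))‖ ≤ Z e e') :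
    ∑ s ∈ range S, y s ^ 2 ≤ ∑ e ∈ E, ∑ e' ∈ E, V * V * Z e e' := by
  have h1 : ((∑ s ∈ range S, y s ^ 2 : ℝ) : ℂ) = ∑ e ∈ E, ∑ e' ∈ E, ∑ s ∈ range S,
      f e s * conj (f e' s) * ex ((θ e - θ e') / (s + ρ)) := by
    have h2 : ∀ s, ((y s ^ 2 : ℝ) : ℂ) = ∑ e ∈ E, ∑ e' ∈ E,
        f e s * conj (f e' s) * ex ((θ e - θ e') / (s + ρ)) := by
      intro s
      have h3 : ((y s ^ 2 : ℝ) : ℂ) = (y s : ℂ) * conj (y s : ℂ) := by
        rw [Complex.conj_ofReal, Complex.ofReal_pow, sq]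
      rw [h3, hy, map_sum, sum_mul_sum]
      refine sum_congr rfl fun e _ => sum_congr rfl fun e' _ => ?_
      rw [map_mul, conj_ex, sub_div, sub_eq_add_neg, ex_add]
      ring
    rw [Complex.ofReal_sum, sum_congr rfl fun s _ => h2 s, sum_comm]
    exact sum_congr rfl fun e _ => sum_comm
  have h2 : ∑ s ∈ range S, y s ^ 2 ≤ ‖((∑ s ∈ range S, y s ^ 2 : ℝ) : ℂ)‖ := by
    rw [Complex.norm_real, Real.norm_eq_abs]
    exact le_abs_self _
  rw [h1] at h2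
  refine h2.trans ((norm_sum_le _ _).trans (sum_le_sum fun e he =>
    (norm_sum_le _ _).trans (sum_le_sum fun e' he' => ?_)))
  refine (nv_abel (fun s => f e s * conj (f e' s)) _ (hZ e he e' he')).trans ?_
  exact mul_le_mul_of_nonneg_right (nv_mul_le (hf e he) ((nv_conj S _).trans_le (hf e' he')))
    ((norm_nonneg _).trans (hZ e he e' he' 0))

lemma sep_CRow {K B : ℕ} {D : Finset ℕ} (hD : PrK K D) (hB : B < K) {e e' : ℕ × ℤ}
    (he : e ∈ D ×ˢ hs B) (he' : e' ∈ D ×ˢ hs B) (hne : e ≠ e') {X : ℝ} (hX : 0 < X) :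
    X / (4 * K ^ 2) ≤ |e.2 * X / e.1 - e'.2 * X / e'.1| := by
  obtain ⟨k, h⟩ := e
  obtain ⟨k', h'⟩ := e'
  obtain ⟨h1, h2⟩ := mem_product.1 he
  obtain ⟨h1', h2'⟩ := mem_product.1 he'
  obtain ⟨p1, p2, p3⟩ := hD k h1
  obtain ⟨p1', p2', p3'⟩ := hD k' h1'
  have hk : (0 : ℝ) < k := by exact_mod_cast p1.pos
  have hk' : (0 : ℝ) < k' := by exact_mod_cast p1'.pos
  have h3 : h * k' - h' * k ≠ 0 := by
    intro h4
    have h5 : h * k' = h' * k := sub_eq_zero.1 h4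
    by_cases e : k = k'
    · subst e
      exact hne (Prod.ext rfl (mul_right_cancel₀ (by exact_mod_cast p1.ne_zero) h5))
    · have h6 : IsCoprime (k : ℤ) k' :=
        Nat.isCoprime_iff_coprime.2 ((Nat.coprime_primes p1 p1').2 e)
      have h7 : (k : ℤ) ∣ h := h6.dvd_of_dvd_mul_right ⟨h', by rw [h5, mul_comm]⟩
      obtain ⟨h8, h9⟩ := mem_hs.1 h2
      have := Int.le_of_dvd (abs_pos.2 h8) ((dvd_abs _ _).2 h7)
      simp only at h9 this
      omega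
  have h4 : (1 : ℝ) ≤ |(h : ℝ) * k' - h' * k| := by exact_mod_cast Int.one_le_abs h3
  have h5 : (h : ℝ) * X / k - h' * X / k' = (h * k' - h' * k) * (X / (k * k')) := by
    field_simp
  have h6 : (k : ℝ) ≤ 2 * K := by exact_mod_cast p3.le
  have h7 : (k' : ℝ) ≤ 2 * K := by exact_mod_cast p3'.le
  simp only
  rw [h5, abs_mul, abs_of_pos (by positivity : 0 < X / (k * k'))]
  calc X / (4 * K ^ 2) ≤ X / (k * k') :=
        div_le_div_of_nonneg_left hX.le (by positivity) (by nlinarith)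
    _ ≤ _ := le_mul_of_one_le_left (by positivity) h4

theorem cRow_stmt (hE : CEdgeStmt) (h2 : Exp2Stmt) : CRowStmt := by
  obtain ⟨C₁, hC₁, hE⟩ := hE
  obtain ⟨C₂, hC₂, h2⟩ := h2
  refine ⟨64 * C₁ ^ 2 * C₂, by positivity, ?_⟩
  intro X Δ Γ n' w F K P Λ B D b c hX hΔ hΓ hn hK hP hΛ hw hnw hD hB hBX hF hb hc
  have hK' : (1 : ℝ) ≤ K := by exact_mod_cast hK
  have hP' : (1 : ℝ) ≤ P := by exact_mod_cast hP
  have hΛ' : (1 : ℝ) ≤ Λ := by exact_mod_cast hΛ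
  have hw1 : 1 ≤ w := by linarith
  obtain ⟨S, hS⟩ : ∃ S, P + S = Λ * P + 1 :=
    ⟨Λ * P + 1 - P, by have := Nat.le_mul_of_pos_left P hΛ; omega⟩
  have hS' : (P : ℝ) + S = Λ * P + 1 := by exact_mod_cast hS
  have hS1 : (P : ℝ) + S ≤ w * P := by nlinarith
  have hS2 : (S : ℝ) ≤ w * P := by linarith
  set A := X / (Γ * (K * P)) with hA
  have hA0 : 0 < A := by positivity
  set T := 4 * (P * K * (K * P) / X) + √F + √(P : ℝ) with hT
  have hT0 : 0 ≤ T := by positivity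
  let y : ℕ → ℝ := fun s => ∑ k ∈ D, b k * rb X Δ Γ B ((k : ℝ) * (P + s : ℕ)) n'
  have e1 : ∑ u ∈ D ×ˢ Icc P (Λ * P), b u.1 * c u.2 * rb X Δ Γ B ((u.1 : ℝ) * u.2) n' =
      ∑ s ∈ range S, c (P + s) * y s := by
    rw [sum_product, sum_comm, ← Finset.Ico_add_one_right_eq_Icc, ← hS, sum_Ico_eq_sum_range,
      Nat.add_sub_cancel_left]
    refine sum_congr rfl fun s _ => ?_
    rw [mul_sum]
    exact sum_congr rfl fun k _ => by ring
  have e2 : ∑ s ∈ range S, c (P + s) ^ 2 ≤ w * P := by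
    have h3 := sum_le_card_nsmul (range S) (fun s => c (P + s) ^ 2) 1 fun s _ =>
      (sq_le_one_iff_abs_le_one _).2 (hc _)
    rw [card_range, nsmul_eq_mul, mul_one] at h3
    exact h3.trans hS2
  have hth : ∀ e ∈ D ×ˢ hs B, |(e.2 : ℝ) * X / e.1| ≤ B * X / K := by
    intro e he
    obtain ⟨h3, h4⟩ := mem_product.1 he
    have h5 : (K : ℝ) ≤ e.1 := by exact_mod_cast (hD _ h3).2.1
    have h6 := abs_le_of_hs h4
    rw [abs_div, abs_mul, abs_of_pos hX, Nat.abs_cast]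
    gcongr
  have e3 := row_CRow (D ×ˢ hs B) S P (2 * C₁ * w ^ 2 * A)
    (fun e s => (b e.1 : ℂ) * ec X Δ Γ n' P s e.1 e.2) (fun e => e.2 * X / e.1) y
    (fun e e' => C₂ * w ^ 4 * ((if e = e' then (P : ℝ) else 0) + T)) (fun s => ?_)
    (fun e he => ?_) fun e he e' he' i => ?_
  · have h3 : (((D ×ˢ hs B).card : ℕ) : ℝ) ≤ 2 * (K * B) := by
      rw [card_product, card_hs]
      have : (D.card : ℝ) ≤ K := by exact_mod_cast hD.card_le
      push_cast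
      nlinarith [Nat.cast_nonneg (α := ℝ) B]
    generalize D ×ˢ hs B = E at e3 h3
    have h4 : ∑ e ∈ E, ∑ e' ∈ E, 2 * C₁ * w ^ 2 * A * (2 * C₁ * w ^ 2 * A) *
        (C₂ * w ^ 4 * ((if e = e' then (P : ℝ) else 0) + T)) =
        4 * C₁ ^ 2 * C₂ * w ^ 8 * A ^ 2 * (E.card * P + E.card ^ 2 * T) := by
      have h5 : ∀ e ∈ E, ∑ e' ∈ E, 2 * C₁ * w ^ 2 * A * (2 * C₁ * w ^ 2 * A) *
          (C₂ * w ^ 4 * ((if e = e' then (P : ℝ) else 0) + T)) =
          4 * C₁ ^ 2 * C₂ * w ^ 8 * A ^ 2 * (P + E.card * T) := by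
        intro e he
        rw [← mul_sum, ← mul_sum, sum_add_distrib, sum_ite_eq, if_pos he, sum_const, nsmul_eq_mul]
        ring
      rw [sum_congr rfl h5, sum_const, nsmul_eq_mul]
      ring
    rw [h4] at e3
    have h5 : (E.card : ℝ) * P + E.card ^ 2 * T ≤
        16 * (K * B * P + K ^ 2 * B ^ 2 * (P * K * (K * P) / X + √F + √(P : ℝ))) := by
      have h6 : T ≤ 4 * (P * K * (K * P) / X + √F + √(P : ℝ)) := by
        rw [hT]
        linarith [Real.sqrt_nonneg F, Real.sqrt_nonneg (P : ℝ)]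
      calc (E.card : ℝ) * P + E.card ^ 2 * T ≤ 2 * (K * B) * P + (2 * (K * B)) ^ 2 *
            (4 * (P * K * (K * P) / X + √F + √(P : ℝ))) := by gcongr
        _ ≤ _ := by
          have : (0 : ℝ) ≤ K * B * P := by positivity
          linarith
    rw [e1]
    calc _ ≤ (∑ s ∈ range S, c (P + s) ^ 2) * ∑ s ∈ range S, y s ^ 2 :=
          sum_mul_sq_le_sq_mul_sq _ _ _
      _ ≤ w * P * (4 * C₁ ^ 2 * C₂ * w ^ 8 * A ^ 2 * (E.card * P + E.card ^ 2 * T)) :=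
          mul_le_mul e2 e3 (sum_nonneg fun _ _ => sq_nonneg _) (by positivity)
      _ ≤ w * P * (4 * C₁ ^ 2 * C₂ * w ^ 8 * A ^ 2 * (16 * (K * B * P + K ^ 2 * B ^ 2 *
          (P * K * (K * P) / X + √F + √(P : ℝ))))) := by gcongr
      _ = _ := by ring
  · simp only [y]
    rw [Complex.ofReal_sum, sum_product]
    refine sum_congr rfl fun k _ => ?_
    rw [Complex.ofReal_mul, rb_eq, mul_sum]
    refine sum_congr rfl fun h _ => ?_
    rw [ec, mul_assoc, mul_assoc, ← ex_add]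
    congr 3
    rw [div_div]
    ring
  · obtain ⟨h3, h4⟩ := mem_product.1 he
    have h5 := hE X Δ Γ n' w K P S e.1 e.2 hX hΔ hΓ hn hw1 hK hP (hD _ h3).2.1 hnw
    have h6 : w ^ 2 * |(e.2 : ℝ)| * X * Δ ^ 2 / (K * P * Γ ^ 2) ≤ w ^ 2 := by
      rw [div_le_iff₀ (by positivity)]
      calc w ^ 2 * |(e.2 : ℝ)| * X * Δ ^ 2 ≤ w ^ 2 * B * X * Δ ^ 2 := by
            have := abs_le_of_hs h4
            gcongr
        _ = w ^ 2 * (B * X * Δ ^ 2) := by ring
        _ ≤ _ := by gcongr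
    have h7 : 1 ≤ w ^ 2 := one_le_pow₀ hw1
    have h8 : nv S (fun _ => (b e.1 : ℂ)) ≤ 1 := by
      rw [nv_const, Complex.norm_real, Real.norm_eq_abs]
      exact hb _
    refine (nv_mul_le h8 h5).trans ?_
    calc 1 * (C₁ * A * (1 + w ^ 2 * |(e.2 : ℝ)| * X * Δ ^ 2 / (K * P * Γ ^ 2))) ≤
          1 * (C₁ * A * (w ^ 2 + w ^ 2)) := by gcongr
      _ = _ := by ring
  · have h3 : |(e.2 : ℝ) * X / e.1 - e'.2 * X / e'.1| ≤ F * P := by
      refine (abs_sub _ _).trans ((add_le_add (hth e he) (hth e' he')).trans ?_)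
      rw [← add_div, div_le_iff₀ (by positivity)]
      linarith
    refine (h2 _ P w F i S hP' hw1 hS1 h3).trans (mul_le_mul_of_nonneg_left ?_ (by positivity))
    have h4 : 0 ≤ 4 * (P * K * (K * P) / X) := by positivity
    rw [hT]
    split_ifs with h5
    · have := mul_le_of_le_one_right (by positivity : (0 : ℝ) ≤ P)
        (fm_le_one (by positivity : (0 : ℝ) < P) ((e.2 : ℝ) * X / e.1 - e'.2 * X / e'.1))
      linarith
    · have h6 := sep_CRow hD hB he he' h5 hX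
      have h7 : P * fm P ((e.2 : ℝ) * X / e.1 - e'.2 * X / e'.1) ≤ 4 * (P * K * (K * P) / X) := by
        rw [fm]
        calc (P : ℝ) * (P / (P + |(e.2 : ℝ) * X / e.1 - e'.2 * X / e'.1|)) ≤
              P * (P / (X / (4 * K ^ 2))) := by
              gcongr
              linarith
          _ = _ := by field_simp
      linarith

end Pool.Agent.MP_c853c5_nt.DS
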