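import Pool.Agent.MP_c853c5_nt.DS.Basic

/-!
Comparison of the logarithmic and the linear Gaussian.
-/

set_option autoImplicit false

open Finset Filter Real
open scoped ComplexConjugate

namespace Pool.Agent.MP_c853c5_nt.DS

open Pool.Agent.MP_88bd62_nt.U (ex)

theorem low_Cmp0 {z δ : ℝ} (hz : 0 < z) (h0 : 0 ≤ δ) (h1 : δ ≤ 1 / 2) (h : δ ≤ |z - 1|) :
    δ ^ 2 ≤ π * Real.log z ^ 2 := by
  have h2 : 2 / 3 * δ ≤ |Real.log z| := by
    rcases le_abs.1 h with k | k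
    · have k1 := Real.one_sub_inv_le_log_of_pos hz
      have k2 : z⁻¹ ≤ 1 - 2 / 3 * δ := by
        rw [inv_le_iff_one_le_mul₀ hz]
        nlinarith
      exact le_trans (by linarith) (le_abs_self _)
    · have k1 := Real.log_le_sub_one_of_pos hz
      exact le_trans (by linarith) (neg_le_abs _)
  have h3 := pow_le_pow_left₀ (by positivity) h2 2
  rw [sq_abs] at h3
  nlinarith [Real.pi_gt_three, sq_nonneg δ]

theorem exp_Cmp0 {m p q : ℝ} (hp : m ≤ p) (hq : m ≤ q) :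
    |Real.exp (-p) - Real.exp (-q)| ≤ |p - q| * Real.exp (-m) := by
  wlog h : p ≤ q generalizing p q
  · rw [abs_sub_comm, abs_sub_comm p]
    exact this hq hp (le_of_not_ge h)
  have h1 : Real.exp (-q) = Real.exp (-p) * Real.exp (p - q) := by
    rw [← Real.exp_add]
    ring_nf
  have h2 := Real.add_one_le_exp (p - q)
  have h3 := Real.exp_le_exp.2 (neg_le_neg hp)
  have h4 := Real.exp_pos (-p)
  rw [abs_of_nonneg (sub_nonneg.2 (Real.exp_le_exp.2 (neg_le_neg h))),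
    abs_of_nonpos (sub_nonpos.2 h), h1]
  nlinarith

theorem near_Cmp0 {z : ℝ} (hz : 0 < z) (h : |z - 1| ≤ 1 / 2) :
    |Real.log z ^ 2 - (z - 1) ^ 2| ≤ 6 * |z - 1| ^ 3 := by
  have k1 := Real.one_sub_inv_le_log_of_pos hz
  have k2 := Real.log_le_sub_one_of_pos hz
  have k3 := (abs_le.1 h).1
  have k4 : z⁻¹ ≤ 2 - z + 2 * (z - 1) ^ 2 := by
    rw [inv_le_iff_one_le_mul₀ hz]
    nlinarith [mul_nonneg (sq_nonneg (z - 1)) (by linarith : 0 ≤ 2 * z - 1)]
  have k5 : |Real.log z - (z - 1)| ≤ 2 * |z - 1| ^ 2 := by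
    rw [sq_abs, abs_of_nonpos (by linarith)]
    linarith
  have k0 := abs_nonneg (z - 1)
  have k6 : |Real.log z + (z - 1)| ≤ 3 * |z - 1| := by
    have k7 := abs_add_le (Real.log z - (z - 1)) (2 * (z - 1))
    rw [abs_mul, abs_two, show Real.log z - (z - 1) + 2 * (z - 1) = Real.log z + (z - 1) by ring]
      at k7
    nlinarith
  rw [sq_sub_sq, abs_mul]
  exact (mul_le_mul k6 k5 (abs_nonneg _) (by positivity)).trans (le_of_eq (by ring))

theorem sqrt_Cmp0 {z : ℝ} (hz : 0 < z) : |1 - √z| ≤ |z - 1| := by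
  have h1 : z - 1 = (√z - 1) * (√z + 1) := by nlinarith [Real.sq_sqrt hz.le]
  rw [h1, abs_mul, abs_sub_comm]
  exact le_mul_of_one_le_right (abs_nonneg _)
    (le_trans (by linarith [Real.sqrt_nonneg z]) (le_abs_self _))

theorem cmp0_stmt : Cmp0Stmt := by
  refine ⟨25, by norm_num, fun z Δ hz h0 h1 => ⟨fun h => ?_, fun δ d0 d1 d2 => ⟨?_, ?_⟩⟩⟩
  · have p3 := Real.pi_gt_three
    have p4 := Real.pi_le_four
    obtain ⟨u, hu⟩ : ∃ u, u = |z - 1| / Δ := ⟨_, rfl⟩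
    have u0 : 0 ≤ u := by rw [hu]; positivity
    have u2 : u ^ 2 = (z - 1) ^ 2 / Δ ^ 2 := by rw [hu, div_pow, sq_abs]
    have a1 : u ^ 2 ≤ π * Real.log z ^ 2 / Δ ^ 2 := by
      rw [u2, ← sq_abs (z - 1)]
      exact div_le_div_of_nonneg_right (low_Cmp0 hz (abs_nonneg _) h le_rfl) (by positivity)
    have a2 : u ^ 2 ≤ π * (z - 1) ^ 2 / Δ ^ 2 := by
      rw [mul_div_assoc, ← u2]
      nlinarith [sq_nonneg u]
    have a3 := exp_Cmp0 a1 a2
    have a4 : Δ⁻¹ * |π * Real.log z ^ 2 / Δ ^ 2 - π * (z - 1) ^ 2 / Δ ^ 2| ≤ 24 * u ^ 3 := by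
      rw [← sub_div, ← mul_sub, abs_div, abs_mul, abs_of_pos Real.pi_pos,
        abs_of_pos (pow_pos h0 2), hu]
      have := mul_le_mul p4 (near_Cmp0 hz h) (abs_nonneg _) (by norm_num)
      refine (mul_le_mul_of_nonneg_left (div_le_div_of_nonneg_right this (by positivity))
        (by positivity)).trans (le_of_eq ?_)
      field_simp
      ring
    have e0 := Real.exp_pos (-u ^ 2)
    have e1 : Real.exp (u ^ 2) * Real.exp (-u ^ 2) = 1 := by rw [← Real.exp_add]; simp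
    have e2 := Real.quadratic_le_exp_of_nonneg (sq_nonneg u)
    have a5 : u ^ 3 * Real.exp (-u ^ 2) ≤ 1 := by
      rw [← e1]
      exact mul_le_mul_of_nonneg_right (by nlinarith [sq_nonneg (u ^ 2 - u), sq_nonneg u]) e0.le
    have a6 : u * Real.exp (-(π * (z - 1) ^ 2 / Δ ^ 2)) ≤ 1 := by
      refine le_trans ?_ e1.le
      exact mul_le_mul (by nlinarith [sq_nonneg (u - 1), sq_nonneg (u ^ 2)])
        (Real.exp_le_exp.2 (neg_le_neg a2)) (Real.exp_pos _).le (Real.exp_pos _).le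
    have e : Z.gg Δ (Real.log z) - √z * Z.gg Δ (z - 1) =
        Δ⁻¹ * (Real.exp (-(π * Real.log z ^ 2 / Δ ^ 2)) - Real.exp (-(π * (z - 1) ^ 2 / Δ ^ 2))) +
          (1 - √z) * (Δ⁻¹ * Real.exp (-(π * (z - 1) ^ 2 / Δ ^ 2))) := by
      simp only [Z.gg]
      ring
    rw [e]
    refine (abs_add_le _ _).trans ?_
    rw [abs_mul, abs_mul, abs_of_pos (inv_pos.2 h0), abs_of_pos (a := Δ⁻¹ * _) (by positivity)]
    have b1 := mul_le_mul_of_nonneg_left a3 (inv_pos.2 h0).le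
    have b2 := mul_le_mul_of_nonneg_right a4 e0.le
    have b3 := mul_le_mul_of_nonneg_right (sqrt_Cmp0 hz)
      (by positivity : 0 ≤ Δ⁻¹ * Real.exp (-(π * (z - 1) ^ 2 / Δ ^ 2)))
    rw [hu, div_eq_mul_inv, mul_assoc] at a6
    rw [mul_assoc] at b2
    linarith
  · have a1 := Real.exp_le_exp.2 (neg_le_neg
      (div_le_div_of_nonneg_right (low_Cmp0 hz d0 d1 d2) (sq_nonneg Δ)))
    rw [Z.gg, div_eq_mul_inv 25]
    exact mul_le_mul (by linarith [inv_pos.2 h0]) a1 (Real.exp_pos _).le (by positivity)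
  · have a0 : (z - 1) ^ 2 ≤ (z - 1) ^ 2 / Δ ^ 2 :=
      le_div_self (sq_nonneg _) (by positivity) (pow_le_one₀ h0.le h1)
    have a1 : √z ≤ 25 * Real.exp ((z - 1) ^ 2 / Δ ^ 2) := by
      have := Real.add_one_le_exp ((z - 1) ^ 2 / Δ ^ 2)
      nlinarith [Real.sq_sqrt hz.le, sq_nonneg (√z - 1), sq_nonneg (z - 2)]
    have a2 : δ ^ 2 ≤ (z - 1) ^ 2 := by
      rw [← sq_abs (z - 1)]
      exact pow_le_pow_left₀ d0 d2 2
    have a3 : Real.exp ((z - 1) ^ 2 / Δ ^ 2) * Real.exp (-(π * (z - 1) ^ 2 / Δ ^ 2)) ≤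
        Real.exp (-(δ ^ 2 / Δ ^ 2)) := by
      rw [← Real.exp_add, ← neg_div, ← neg_div, ← add_div]
      refine Real.exp_le_exp.2 (div_le_div_of_nonneg_right ?_ (sq_nonneg Δ))
      nlinarith [Real.pi_gt_three, sq_nonneg (z - 1)]
    rw [Z.gg]
    refine (mul_le_mul_of_nonneg_right a1 (by positivity)).trans ?_
    have a4 := mul_le_mul_of_nonneg_left a3 (by positivity : 0 ≤ 25 / Δ)
    exact le_trans (le_of_eq (by ring)) a4

end Pool.Agent.MP_c853c5_nt.DS
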