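import Pool.Agent.MP_c853c5_nt.DS.Basic

/-!
From logarithmic to linear Gaussians in the inner sum.
-/

set_option autoImplicit false

open Finset Filter Real
open scoped ComplexConjugate

namespace Pool.Agent.MP_c853c5_nt.DS

open Pool.Agent.MP_88bd62_nt.U (ex)

lemma card_Cmp1 {S : Finset ℕ} {L : ℝ} (hL : 0 ≤ L) (h : ∀ a ∈ S, ∀ b ∈ S, (a : ℝ) - b ≤ L) :
    (S.card : ℝ) ≤ L + 1 := by
  rcases S.eq_empty_or_nonempty with rfl | hS
  · rw [card_empty, Nat.cast_zero]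
    linarith
  have h1 : S ⊆ Icc (S.min' hS) (S.max' hS) := fun a ha =>
    mem_Icc.2 ⟨min'_le S a ha, le_max' S a ha⟩
  have h2 := card_le_card h1
  have h3 : S.min' hS ≤ S.max' hS := min'_le_max' S hS
  rw [Nat.card_Icc] at h2
  have h4 : S.card + S.min' hS ≤ S.max' hS + 1 := by omega
  have h5 : (S.card : ℝ) + S.min' hS ≤ S.max' hS + 1 := by exact_mod_cast h4
  linarith [h _ (max'_mem S hS) _ (min'_mem S hS)]

lemma near_Cmp1 {y δ : ℝ} (hy : 0 < y) (h0 : 0 ≤ δ) (h1 : δ ≤ 1 / 2) (P Q : ℕ) :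
    (((Icc P Q).filter fun p : ℕ => |y * p - 1| ≤ δ).card : ℝ) ≤ 4 * δ * Q + 1 := by
  refine card_Cmp1 (by positivity) fun a ha b hb => ?_
  obtain ⟨-, a2⟩ := abs_le.1 (mem_filter.1 ha).2
  obtain ⟨b1, -⟩ := abs_le.1 (mem_filter.1 hb).2
  have b2 : (b : ℝ) ≤ Q := by exact_mod_cast (mem_Icc.1 (mem_filter.1 hb).1).2
  have b3 : 1 ≤ 2 * (y * Q) := by nlinarith [mul_le_mul_of_nonneg_left b2 hy.le]
  refine le_of_mul_le_mul_left ?_ hy
  nlinarith [mul_le_mul_of_nonneg_left b3 h0]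

lemma gg_nonneg_Cmp1 {Δ : ℝ} (h : 0 < Δ) (z : ℝ) : 0 ≤ Z.gg Δ z := by
  unfold Z.gg
  positivity

lemma term_Cmp1 {C : ℝ} (hC : 0 < C) (h : ∀ z Δ : ℝ, 0 < z → 0 < Δ → Δ ≤ 1 →
      (|z - 1| ≤ 1 / 2 → |Z.gg Δ (Real.log z) - √z * Z.gg Δ (z - 1)| ≤ C) ∧
      ∀ δ : ℝ, 0 ≤ δ → δ ≤ 1 / 2 → δ ≤ |z - 1| →
        Z.gg Δ (Real.log z) ≤ C / Δ * Real.exp (-(δ ^ 2 / Δ ^ 2)) ∧
        √z * Z.gg Δ (z - 1) ≤ C / Δ * Real.exp (-(δ ^ 2 / Δ ^ 2)))
    {z Δ Γ l g : ℝ} (hz : 0 < z) (hΔ : 0 < Δ) (h1 : Δ ≤ Γ) (hl : 1 ≤ l) (h2 : Γ * l ≤ 1 / 2)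
    (h3 : Real.exp (-l) ≤ g * Δ) :
    |Z.gg Δ (Real.log z) - Z.gg Γ (Real.log z) - √z * (Z.gg Δ (z - 1) - Z.gg Γ (z - 1))| ≤
      (if |z - 1| ≤ Γ * l then 2 * C else 0) + 2 * C * g := by
  have hΓ : 0 < Γ := hΔ.trans_le h1
  have g1 : Γ ≤ 1 := by nlinarith
  have g0 : 0 < g := (mul_pos_iff_of_pos_right hΔ).1 ((Real.exp_pos _).trans_le h3)
  obtain ⟨a1, a2⟩ := h z Δ hz hΔ (h1.trans g1)
  obtain ⟨a3, a4⟩ := h z Γ hz hΓ g1
  rw [mul_sub]
  split_ifs with hn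
  · obtain ⟨b1, b2⟩ := abs_le.1 (a1 (hn.trans h2))
    obtain ⟨b3, b4⟩ := abs_le.1 (a3 (hn.trans h2))
    have : 0 ≤ 2 * C * g := by positivity
    rw [abs_le]
    constructor <;> linarith
  have key : ∀ D : ℝ, Δ ≤ D → D ≤ Γ → C / D * Real.exp (-((Γ * l) ^ 2 / D ^ 2)) ≤ C * g := by
    intro D d1 d2
    have d0 : 0 < D := hΔ.trans_le d1
    have e1 : l ≤ (Γ * l) ^ 2 / D ^ 2 := by
      rw [le_div_iff₀ (by positivity), mul_pow, mul_comm]
      exact mul_le_mul (by gcongr) (by nlinarith) (by linarith) (by positivity)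
    have e2 : Real.exp (-((Γ * l) ^ 2 / D ^ 2)) ≤ g * D :=
      ((Real.exp_le_exp.2 (neg_le_neg e1)).trans h3).trans (by gcongr)
    refine (mul_le_mul_of_nonneg_left e2 (by positivity)).trans_eq ?_
    field_simp
  obtain ⟨b1, b2⟩ := a2 _ (by positivity) h2 (not_le.1 hn).le
  obtain ⟨b3, b4⟩ := a4 _ (by positivity) h2 (not_le.1 hn).le
  have c1 := key Δ le_rfl h1
  have c2 := key Γ h1 le_rfl
  have c3 := gg_nonneg_Cmp1 hΔ (Real.log z)
  have c4 := gg_nonneg_Cmp1 hΓ (Real.log z)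
  have c5 := mul_nonneg (Real.sqrt_nonneg z) (gg_nonneg_Cmp1 hΔ (z - 1))
  have c6 := mul_nonneg (Real.sqrt_nonneg z) (gg_nonneg_Cmp1 hΓ (z - 1))
  rw [abs_le]
  constructor <;> linarith

lemma eq_Cmp1 {X : ℝ} (hX : 0 < X) (Δ Γ : ℝ) {K P m k p : ℕ} (hK : 1 ≤ K) (hP : 1 ≤ P)
    (hm : 1 ≤ m) (hk : 1 ≤ k) (hp : 1 ≤ p) (b c : ℕ → ℝ) :
    b k * c p * E.dg (Real.log X) Δ Γ (Real.log ((m : ℝ) * k * p)) -
      √(m * (K * P) / X) * (sq' K b k * sq' P c p *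
        (Z.gg Δ (m * ((k : ℝ) * p) / X - 1) - Z.gg Γ (m * ((k : ℝ) * p) / X - 1))) =
      b k * c p * (Z.gg Δ (Real.log (m * k / X * p)) - Z.gg Γ (Real.log (m * k / X * p)) -
        √(m * k / X * p) * (Z.gg Δ (m * k / X * p - 1) - Z.gg Γ (m * k / X * p - 1))) := by
  have K0 : (0 : ℝ) < K := by exact_mod_cast hK
  have P0 : (0 : ℝ) < P := by exact_mod_cast hP
  have m0 : (0 : ℝ) < m := by exact_mod_cast hm
  have k0 : (0 : ℝ) < k := by exact_mod_cast hk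
  have p0 : (0 : ℝ) < p := by exact_mod_cast hp
  have e1 : (m : ℝ) * (k * p) / X = m * k / X * p := by ring
  have e2 : Real.log X - Real.log ((m : ℝ) * k * p) = -Real.log (m * k / X * p) := by
    rw [div_mul_eq_mul_div, Real.log_div (by positivity) hX.ne', neg_sub]
  have e3 : √((m : ℝ) * k / X * p) = √(m * (K * P) / X) * √((k : ℝ) / K) * √((p : ℝ) / P) := by
    rw [← Real.sqrt_mul (by positivity), ← Real.sqrt_mul (by positivity)]
    congr 1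
    field_simp
  have e4 : ∀ D z : ℝ, Z.gg D (-z) = Z.gg D z := fun D z => by rw [Z.gg, Z.gg, neg_sq]
  rw [E.dg, e1, e2, e3, e4, e4, sq', sq']
  ring

theorem cmp1_stmt (h0 : Cmp0Stmt) : Cmp1Stmt := by
  obtain ⟨C, hC, h⟩ := h0
  intro Λ hΛ
  filter_upwards [E.ev_log_le (12 * C * Λ) 1 (show (0 : ℝ) < 1 / 2000 by norm_num),
    E.ev_log_le 2 1 (show (0 : ℝ) < 1 / 1000 by norm_num), E.ev_le_log 1, eventually_gt_atTop 1]
    with x x1 x2 x3 x4 X Δ Γ K P m D b c ⟨hX, d1, d2, d3, hK, hP, hD⟩ hm hb hc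
  rw [pow_one] at x1 x2
  have x0 : 0 < x := by linarith
  have L1 : (1 : ℝ) ≤ Λ := by exact_mod_cast hΛ
  have hΔ : 0 < Δ := (Real.rpow_pos_of_pos x0 _).trans_le d1
  obtain ⟨g, hg⟩ : ∃ g, g = x ^ (-(1 / 1000) : ℝ) := ⟨_, rfl⟩
  have g0 : 0 < g := hg ▸ Real.rpow_pos_of_pos x0 _
  have g1 : g * x ^ (1 / 1000 : ℝ) = 1 := by
    rw [hg, ← Real.rpow_add x0, neg_add_cancel, Real.rpow_zero]
  have g2 : g * x ^ (1 / 2000 : ℝ) = x ^ (-(1 / 2000) : ℝ) := by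
    rw [hg, ← Real.rpow_add x0]
    norm_num
  have g3 : 1 ≤ g * P := g1.ge.trans (mul_le_mul_of_nonneg_left
    ((Real.rpow_le_rpow_of_exponent_le x4.le (by norm_num)).trans hP) g0.le)
  have g4 : Real.exp (-Real.log x) ≤ g * Δ := by
    refine le_trans ?_ (mul_le_mul_of_nonneg_left d1 g0.le)
    rw [hg, ← Real.rpow_add x0, Real.exp_neg, Real.exp_log x0, ← Real.rpow_neg_one]
    exact Real.rpow_le_rpow_of_exponent_le x4.le (by norm_num)
  rw [← hg] at d3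
  have g5 : Γ * Real.log x ≤ g * Real.log x := by gcongr
  have g6 : Γ * Real.log x ≤ 1 / 2 := by nlinarith [mul_le_mul_of_nonneg_left x2 g0.le]
  have g7 : 0 ≤ Γ * Real.log x := mul_nonneg (hΔ.le.trans d2) (by linarith)
  have P1 : 1 ≤ P := by
    rcases Nat.eq_zero_or_pos P with rfl | e
    · norm_num at g3
    · exact e
  have P0 : (0 : ℝ) < P := by exact_mod_cast P1
  have m0 : (0 : ℝ) < m := by exact_mod_cast hm
  have cD : (D.card : ℝ) ≤ K := by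
    have := card_le_card hD
    rw [Nat.card_Ico] at this
    exact_mod_cast (by omega : D.card ≤ K)
  have cR : ((Icc P (Λ * P)).card : ℝ) ≤ Λ * P := by exact_mod_cast card_Icc_le P1
  rw [FF, FL, mul_sum, ← sum_sub_distrib, sum_product, mul_assoc]
  refine (abs_sum_le_sum_abs _ _).trans ((sum_le_card_nsmul _ _ _ fun k hk => ?_).trans
    ((nsmul_eq_mul _ _).trans_le (mul_le_mul_of_nonneg_right cD (by positivity))))
  have k1 : 1 ≤ k := hK.trans (mem_Ico.1 (hD hk)).1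
  have k0 : (0 : ℝ) < k := by exact_mod_cast k1
  have y0 : 0 < (m : ℝ) * k / X := by positivity
  refine (abs_sum_le_sum_abs _ _).trans ((sum_le_sum (g := fun p : ℕ =>
    (if |m * k / X * p - 1| ≤ Γ * Real.log x then 2 * C else 0) + 2 * C * g) fun p hp => ?_).trans
    ?_)
  · have p1 : 1 ≤ p := P1.trans (mem_Icc.1 hp).1
    have p0 : (0 : ℝ) < p := by exact_mod_cast p1
    rw [eq_Cmp1 hX Δ Γ hK P1 hm k1 p1, abs_mul, abs_mul]
    exact (mul_le_of_le_one_left (abs_nonneg _) (mul_le_one₀ (hb k) (abs_nonneg _) (hc p))).trans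
      (term_Cmp1 hC h (by positivity) hΔ d2 x3 g6 g4)
  · have n1 := near_Cmp1 y0 g7 g6 P (Λ * P)
    rw [sum_add_distrib, ← sum_filter, sum_const, sum_const, nsmul_eq_mul, nsmul_eq_mul, ← g2]
    push_cast at n1
    have n2 : 1 ≤ Λ * Real.log x := one_le_mul_of_one_le_of_one_le L1 x3
    have n3 : 4 * (Γ * Real.log x) * (Λ * P) + 1 ≤ 5 * (g * P * (Λ * Real.log x)) := by
      nlinarith [mul_le_mul_of_nonneg_right g5 (show 0 ≤ (Λ : ℝ) * P by positivity),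
        one_le_mul_of_one_le_of_one_le g3 n2]
    have n4 : Λ * P * g ≤ g * P * (Λ * Real.log x) := by
      nlinarith [mul_le_mul_of_nonneg_left x3 (show 0 ≤ Λ * P * g by positivity)]
    nlinarith [mul_le_mul_of_nonneg_right (n1.trans n3) hC.le,
      mul_le_mul_of_nonneg_right cR (show 0 ≤ C * g by positivity),
      mul_le_mul_of_nonneg_right n4 hC.le,
      mul_le_mul_of_nonneg_left x1 (show 0 ≤ g * P by positivity)]

end Pool.Agent.MP_c853c5_nt.DS
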