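import Pool.Agent.MP_c853c5_nt.DS.Basic

set_option autoImplicit false

open Finset Filter Real
open scoped ComplexConjugate

namespace Pool.Agent.MP_c853c5_nt.DS

open Pool.Agent.MP_88bd62_nt.U (ex)

lemma am_Cmp2 {X Δ Γ n n' : ℝ} (hX : 0 < X) (hΓ : 0 < Γ) (hn : 0 < n) (hn' : 0 < n') :
    √(n * n') / X * am X Δ Γ n n' 0 =
      √(n' / n) * Z.gg (√(Γ ^ 2 + (n' / n) ^ 2 * Δ ^ 2)) (n' / n - 1) := by
  obtain ⟨z, rfl⟩ : ∃ z, n' = n * z := ⟨n' / n, by field_simp⟩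
  rw [mul_div_cancel_left₀ _ hn.ne']
  have h0 : 0 < Γ ^ 2 + z ^ 2 * Δ ^ 2 := by positivity
  have h1 : dd Δ Γ n (n * z) = n ^ 2 * (Γ ^ 2 + z ^ 2 * Δ ^ 2) := by
    unfold dd
    ring
  have h2 : √(n * (n * z)) = n * √z := by
    rw [← mul_assoc, Real.sqrt_mul (mul_self_nonneg n), Real.sqrt_mul_self hn.le]
  have h3 : π * (n - n * z) ^ 2 / (n ^ 2 * (Γ ^ 2 + z ^ 2 * Δ ^ 2)) =
      π * (z - 1) ^ 2 / (Γ ^ 2 + z ^ 2 * Δ ^ 2) := by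
    field_simp
    ring
  have h4 : 0 < √(Γ ^ 2 + z ^ 2 * Δ ^ 2) := Real.sqrt_pos.2 h0
  unfold am Z.gg
  rw [h1, h2, h3, Real.sq_sqrt h0.le, Real.sqrt_mul (sq_nonneg n), Real.sqrt_sq hn.le]
  simp only [Int.cast_zero, ne_eq, OfNat.ofNat_ne_zero, not_false_eq_true, zero_pow, mul_zero,
    zero_mul, zero_div, neg_zero, Real.exp_zero, mul_one]
  field_simp

lemma exp_Cmp2 {p q m : ℝ} (hp : m ≤ p) (hq : m ≤ q) :
    |Real.exp (-p) - Real.exp (-q)| ≤ |p - q| * Real.exp (-m) := by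
  have key : ∀ {p q : ℝ}, m ≤ p → p ≤ q →
      |Real.exp (-p) - Real.exp (-q)| ≤ (q - p) * Real.exp (-m) := by
    intro p q h1 h2
    have h3 : Real.exp (-q) ≤ Real.exp (-p) := Real.exp_le_exp.2 (by linarith)
    have h4 : Real.exp (-p) ≤ Real.exp (-m) := Real.exp_le_exp.2 (by linarith)
    have h5 : Real.exp (-q) = Real.exp (-p) * Real.exp (-(q - p)) := by
      rw [← Real.exp_add]
      congr 1
      ring
    have h6 := mul_le_mul_of_nonneg_left (Real.add_one_le_exp (-(q - p))) (Real.exp_pos (-p)).le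
    have h7 := mul_le_mul_of_nonneg_left h4 (sub_nonneg.2 h2)
    rw [abs_of_nonneg (by linarith)]
    linarith
  rcases le_total p q with h | h
  · rw [abs_sub_comm p q, abs_of_nonneg (sub_nonneg.2 h)]
    exact key hp h
  · rw [abs_sub_comm, abs_of_nonneg (sub_nonneg.2 h)]
    exact key hq h

lemma gg_Cmp2 {s σ y : ℝ} (hs : 0 < s) (hσ : 0 < σ) (h1 : s ^ 2 ≤ 2 * σ ^ 2)
    (h2 : σ ^ 2 ≤ 2 * s ^ 2) (h3 : |σ ^ 2 - s ^ 2| ≤ 2 * |y| * s ^ 2) :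
    |Z.gg σ y - Z.gg s y| ≤ 36 := by
  obtain ⟨u, hu0, hu⟩ : ∃ u : ℝ, 0 ≤ u ∧ |y| = u * s := ⟨|y| / s, by positivity, by field_simp⟩
  have hy : y ^ 2 = u ^ 2 * s ^ 2 := by rw [← sq_abs, hu, mul_pow]
  have hπ := Real.pi_gt_three
  have hπ' := Real.pi_le_four
  have a1 : u ^ 2 ≤ π * y ^ 2 / σ ^ 2 := by
    rw [le_div_iff₀ (by positivity), hy]
    calc u ^ 2 * σ ^ 2 ≤ u ^ 2 * (2 * s ^ 2) := by gcongr
      _ = 2 * (u ^ 2 * s ^ 2) := by ring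
      _ ≤ π * (u ^ 2 * s ^ 2) := by
          gcongr
          linarith
  have a2 : u ^ 2 ≤ π * y ^ 2 / s ^ 2 := by
    rw [le_div_iff₀ (by positivity), hy]
    exact le_mul_of_one_le_left (by positivity) (by linarith)
  have a3 : s ≤ 2 * σ := le_of_pow_le_pow_left₀ (n := 2) (by norm_num) (by positivity)
    (by nlinarith [sq_nonneg σ])
  have b1 : |σ⁻¹ - s⁻¹| ≤ 4 * u := by
    have e : σ⁻¹ - s⁻¹ = -(σ ^ 2 - s ^ 2) / (σ * s * (σ + s)) := by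
      field_simp
      ring
    rw [e, abs_div, abs_neg, abs_of_pos (show 0 < σ * s * (σ + s) by positivity),
      div_le_iff₀ (by positivity)]
    calc |σ ^ 2 - s ^ 2| ≤ 2 * |y| * s ^ 2 := h3
      _ = 2 * u * s * (s * s) := by
          rw [hu]
          ring
      _ ≤ 2 * u * s * (2 * σ * (σ + s)) := by
          gcongr
          linarith
      _ = _ := by ring
  have b2 : |π * y ^ 2 / σ ^ 2 - π * y ^ 2 / s ^ 2| ≤ 16 * u ^ 3 * s := by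
    have e : π * y ^ 2 / σ ^ 2 - π * y ^ 2 / s ^ 2 = -(σ ^ 2 - s ^ 2) * (π * u ^ 2 / σ ^ 2) := by
      rw [hy]
      field_simp
      ring
    rw [e, abs_mul, abs_neg, abs_of_nonneg (show 0 ≤ π * u ^ 2 / σ ^ 2 by positivity)]
    calc |σ ^ 2 - s ^ 2| * (π * u ^ 2 / σ ^ 2)
        ≤ 2 * (u * s) * (2 * σ ^ 2) * (4 * u ^ 2 / σ ^ 2) := by
          gcongr
          rw [← hu]
          exact h3.trans (by gcongr)
      _ = _ := by
          field_simp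
          ring
  have c0 := Real.quadratic_le_exp_of_nonneg (sq_nonneg u)
  have c1 : u * Real.exp (-u ^ 2) ≤ 1 := by
    rw [Real.exp_neg, ← div_eq_mul_inv, div_le_one (Real.exp_pos _)]
    nlinarith [sq_nonneg (u - 1), sq_nonneg (u ^ 2)]
  have c2 : u ^ 3 * Real.exp (-u ^ 2) ≤ 2 := by
    rw [Real.exp_neg, ← div_eq_mul_inv, div_le_iff₀ (Real.exp_pos _)]
    nlinarith [sq_nonneg (u ^ 2 - u), sq_nonneg u, sq_nonneg (u ^ 2)]
  have e : Z.gg σ y - Z.gg s y = (σ⁻¹ - s⁻¹) * Real.exp (-(π * y ^ 2 / σ ^ 2)) +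
      s⁻¹ * (Real.exp (-(π * y ^ 2 / σ ^ 2)) - Real.exp (-(π * y ^ 2 / s ^ 2))) := by
    unfold Z.gg
    ring
  have d1 : |(σ⁻¹ - s⁻¹) * Real.exp (-(π * y ^ 2 / σ ^ 2))| ≤ 4 * u * Real.exp (-u ^ 2) := by
    rw [abs_mul, abs_of_pos (Real.exp_pos _)]
    gcongr
  have d2 : |s⁻¹ * (Real.exp (-(π * y ^ 2 / σ ^ 2)) - Real.exp (-(π * y ^ 2 / s ^ 2)))| ≤
      16 * u ^ 3 * Real.exp (-u ^ 2) := by
    rw [abs_mul, abs_of_pos (inv_pos.2 hs), inv_mul_le_iff₀ hs]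
    refine (exp_Cmp2 a1 a2).trans ((mul_le_mul_of_nonneg_right b2 (Real.exp_pos _).le).trans_eq ?_)
    ring
  rw [e]
  refine (abs_add_le _ _).trans ?_
  linarith

theorem cmp2_stmt (h0 : Cmp0Stmt) : Cmp2Stmt := by
  obtain ⟨C, hC0, hC⟩ := h0
  refine ⟨C + 72, by linarith, fun X Δ Γ n n' hX hΔ hΔΓ hΓ1 hn hn' => ?_⟩
  have hΓ : 0 < Γ := hΔ.trans_le hΔΓ
  have hz : 0 < n' / n := by positivity
  have hl : ∀ s : ℝ, Z.gg s (Real.log n - Real.log n') = Z.gg s (Real.log (n' / n)) := by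
    intro s
    unfold Z.gg
    rw [Real.log_div hn'.ne' hn.ne', ← neg_sub, neg_sq]
  rw [am_Cmp2 hX hΓ hn hn', hl]
  generalize n' / n = z at hz
  have hsq : Δ ^ 2 ≤ Γ ^ 2 := by gcongr
  have hs0 : 0 < Δ ^ 2 + Γ ^ 2 := by positivity
  have hσ0 : 0 < Γ ^ 2 + z ^ 2 * Δ ^ 2 := by positivity
  have hs := Real.sq_sqrt hs0.le
  have hσ := Real.sq_sqrt hσ0.le
  have hs1 := Real.sqrt_pos.2 hs0
  have hσ1 := Real.sqrt_pos.2 hσ0
  have hs2 : Γ ≤ √(Δ ^ 2 + Γ ^ 2) := Real.le_sqrt_of_sq_le (by linarith [sq_nonneg Δ])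
  have hσ2 : Γ ≤ √(Γ ^ 2 + z ^ 2 * Δ ^ 2) :=
    Real.le_sqrt_of_sq_le (le_add_of_nonneg_right (by positivity))
  obtain ⟨k1, k2⟩ := hC z _ hz hs1 (Real.sqrt_le_one.2 (by nlinarith))
  generalize √(Δ ^ 2 + Γ ^ 2) = s at hs hs1 hs2 k1 k2
  generalize √(Γ ^ 2 + z ^ 2 * Δ ^ 2) = σ at hσ hσ1 hσ2
  have hΔ2 : 0 < Δ ^ 2 := by positivity
  refine ⟨fun hy => ?_, fun δ hδ0 hδ1 hδ => ⟨?_, (k2 δ hδ0 hδ1 hδ).1.trans ?_⟩⟩
  · obtain ⟨hy1, hy2⟩ := abs_le.1 hy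
    have a1 : z ^ 2 * Δ ^ 2 ≤ 9 / 4 * Δ ^ 2 := by
      gcongr
      nlinarith
    have a2 : 0 ≤ z ^ 2 * Δ ^ 2 := by positivity
    have a3 : |σ ^ 2 - s ^ 2| ≤ 2 * |z - 1| * s ^ 2 := by
      have e : σ ^ 2 - s ^ 2 = (z - 1) * ((z + 1) * Δ ^ 2) := by
        rw [hs, hσ]
        ring
      rw [e, abs_mul, abs_of_pos (show 0 < (z + 1) * Δ ^ 2 by positivity), mul_comm 2, mul_assoc]
      refine mul_le_mul_of_nonneg_left ?_ (abs_nonneg _)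
      have := mul_le_mul_of_nonneg_right (show z + 1 ≤ 4 by linarith) hΔ2.le
      linarith
    have a4 := gg_Cmp2 hs1 hσ1 (by linarith) (by linarith) a3
    have a5 : √z ≤ 2 := Real.sqrt_le_iff.2 ⟨by norm_num, by linarith⟩
    have a6 : |√z * (Z.gg σ (z - 1) - Z.gg s (z - 1))| ≤ 2 * 36 := by
      rw [abs_mul, abs_of_nonneg (Real.sqrt_nonneg z)]
      gcongr
    have a7 := abs_le.1 (k1 hy)
    have a8 := abs_le.1 a6
    rw [abs_le]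
    constructor <;> linarith [a7.1, a7.2, a8.1, a8.2]
  · have a1 : δ ^ 2 ≤ (z - 1) ^ 2 := by
      rw [← sq_abs (z - 1)]
      gcongr
    have a2 : δ ^ 2 * (1 + z ^ 2) ≤ 4 * (z - 1) ^ 2 := by
      have b1 : 1 + z ^ 2 ≤ 3 + 2 * (z - 1) ^ 2 := by nlinarith [sq_nonneg (z - 2)]
      have b2 := mul_le_mul_of_nonneg_left b1 (sq_nonneg δ)
      have b3 : δ ^ 2 * (z - 1) ^ 2 ≤ 1 / 4 * (z - 1) ^ 2 := by
        gcongr
        nlinarith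
      nlinarith [sq_nonneg (z - 1)]
    have a3 : δ ^ 2 / (4 * Γ ^ 2) ≤ π * (z - 1) ^ 2 / σ ^ 2 := by
      rw [div_le_div_iff₀ (by positivity) (by positivity), hσ]
      calc δ ^ 2 * (Γ ^ 2 + z ^ 2 * Δ ^ 2) ≤ δ ^ 2 * (Γ ^ 2 + z ^ 2 * Γ ^ 2) := by gcongr
        _ = δ ^ 2 * (1 + z ^ 2) * Γ ^ 2 := by ring
        _ ≤ 4 * (z - 1) ^ 2 * Γ ^ 2 := by gcongr
        _ = 1 * (z - 1) ^ 2 * (4 * Γ ^ 2) := by ring
        _ ≤ π * (z - 1) ^ 2 * (4 * Γ ^ 2) := by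
            gcongr
            linarith [Real.pi_gt_three]
    unfold Z.gg
    calc √z * (σ⁻¹ * Real.exp (-(π * (z - 1) ^ 2 / σ ^ 2)))
        = 1 / σ * √z * Real.exp (-(π * (z - 1) ^ 2 / σ ^ 2)) := by ring
      _ ≤ _ := by
          gcongr
          linarith
  · have a1 : s ^ 2 ≤ 4 * Γ ^ 2 := by linarith
    gcongr
    linarith

end Pool.Agent.MP_c853c5_nt.DS
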