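import Pool.Agent.MP_c853c5_nt.DS.Basic

set_option autoImplicit false

open Finset Filter Real
open scoped ComplexConjugate

namespace Pool.Agent.MP_c853c5_nt.DS

open Pool.Agent.MP_88bd62_nt.U (ex)

lemma card_Cmp3 (S : Finset ℕ) {L : ℝ} (hL : 0 ≤ L) (h : ∀ a ∈ S, ∀ b ∈ S, (a : ℝ) - b ≤ L) :
    (S.card : ℝ) ≤ L + 1 := by
  rcases S.eq_empty_or_nonempty with rfl | hS
  · simp only [card_empty, Nat.cast_zero]
    linarith
  have h1 : S ⊆ Icc (S.min' hS) (S.min' hS + ⌊L⌋₊) := fun a ha => by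
    have h2 := S.min'_le a ha
    have h3 : a - S.min' hS ≤ ⌊L⌋₊ := Nat.le_floor (by
      rw [Nat.cast_sub h2]
      exact h a ha _ (S.min'_mem hS))
    exact mem_Icc.2 ⟨h2, by omega⟩
  have h2 : S.card ≤ ⌊L⌋₊ + 1 := by
    have := card_le_card h1
    rw [Nat.card_Icc] at this
    omega
  have h3 : (S.card : ℝ) ≤ ⌊L⌋₊ + 1 := by exact_mod_cast h2
  linarith [Nat.floor_le hL]

lemma cardD_Cmp3 {K : ℕ} {D : Finset ℕ} (hD : D ⊆ Ico K (2 * K)) : (D.card : ℝ) ≤ K := by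
  have := card_le_card hD
  rw [Nat.card_Ico] at this
  exact_mod_cast (by omega : D.card ≤ K)

lemma row_Cmp3 {K : ℕ} {D : Finset ℕ} (R : Finset ℕ) (hK : 1 ≤ K) (hD : D ⊆ Ico K (2 * K))
    {n δ C Y : ℝ} (hn : 0 < n) (hn2 : n ≤ 2 * K * Y) (hδ : 0 ≤ δ) (hC : 0 ≤ C) :
    ∑ v ∈ D ×ˢ R, (if |(v.1 : ℝ) * v.2 / n - 1| ≤ δ then C else 0) ≤
      K * (C * (4 * δ * Y + 1)) := by
  have hK0 : (0 : ℝ) < K := by exact_mod_cast hK
  have hY : 0 < Y := (pos_iff_pos_of_mul_pos (hn.trans_le hn2)).1 (by positivity)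
  rw [sum_product]
  refine (sum_le_card_nsmul _ _ (C * (4 * δ * Y + 1)) fun k hk => ?_).trans ?_
  · rw [← sum_filter, sum_const, nsmul_eq_mul, mul_comm]
    refine mul_le_mul_of_nonneg_left (card_Cmp3 _ (by positivity) fun a ha b hb => ?_) hC
    have k1 : (K : ℝ) ≤ k := by exact_mod_cast (mem_Ico.1 (hD hk)).1
    have h1 := (abs_le.1 (mem_filter.1 ha).2).2
    have h2 := (abs_le.1 (mem_filter.1 hb).2).1
    dsimp only at h1 h2
    have h3 : (k : ℝ) * (a - b) / n ≤ 2 * δ := by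
      rw [mul_sub, sub_div]
      linarith
    rw [div_le_iff₀ hn] at h3
    have h4 : 2 * δ * n ≤ 2 * δ * (2 * k * Y) :=
      mul_le_mul_of_nonneg_left (hn2.trans (by gcongr)) (by positivity)
    refine le_of_mul_le_mul_left ?_ (hK0.trans_le k1)
    linarith
  · rw [nsmul_eq_mul]
    exact mul_le_mul_of_nonneg_right (cardD_Cmp3 hD) (by positivity)

lemma sqrt_Cmp3 {K P k p k' p' : ℝ} (hK : 0 < K) (hP : 0 < P) (h1 : 0 ≤ k) (h2 : 0 ≤ p)
    (h3 : 0 ≤ k') (h4 : 0 ≤ p') :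
    √(k / K) * √(p / P) * (√(k' / K) * √(p' / P)) = √(k * p * (k' * p')) / (K * P) := by
  rw [← Real.sqrt_mul (by positivity), ← Real.sqrt_mul (by positivity),
    ← Real.sqrt_mul (by positivity), ← Real.sqrt_sq (show 0 ≤ K * P by positivity),
    ← Real.sqrt_div (by positivity)]
  congr 1
  field_simp

lemma diff_Cmp3 {K P : ℕ} (hK : 1 ≤ K) (hP : 1 ≤ P) {X : ℝ} (hX : 0 < X) (D R : Finset ℕ)
    {b c : ℕ → ℝ} (hb : ∀ n, |b n| ≤ 1) (hc : ∀ n, |c n| ≤ 1) (f g : ℝ → ℝ → ℝ) :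
    |QF D R (sq' K b) (sq' P c) f - X / (K * P) * QF D R b c g| ≤ X / (K * P) *
      ∑ u ∈ D ×ˢ R, ∑ v ∈ D ×ˢ R, |√((u.1 : ℝ) * u.2 * (v.1 * v.2)) / X *
        f (u.1 * u.2) (v.1 * v.2) - g (u.1 * u.2) (v.1 * v.2)| := by
  have hK0 : (0 : ℝ) < K := by exact_mod_cast hK
  have hP0 : (0 : ℝ) < P := by exact_mod_cast hP
  unfold QF
  rw [mul_sum, mul_sum, ← sum_sub_distrib]
  refine (abs_sum_le_sum_abs _ _).trans (sum_le_sum fun u _ => ?_)
  rw [mul_sum, mul_sum, ← sum_sub_distrib]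
  refine (abs_sum_le_sum_abs _ _).trans (sum_le_sum fun v _ => ?_)
  have e : sq' K b u.1 * sq' P c u.2 * (sq' K b v.1 * sq' P c v.2) =
      b u.1 * c u.2 * (b v.1 * c v.2) * (√((u.1 : ℝ) * u.2 * (v.1 * v.2)) / (K * P)) := by
    rw [← sqrt_Cmp3 hK0 hP0 (by positivity) (by positivity) (by positivity) (by positivity)]
    unfold sq'
    ring
  have e2 : sq' K b u.1 * sq' P c u.2 * (sq' K b v.1 * sq' P c v.2) * f (u.1 * u.2) (v.1 * v.2) -
      X / (K * P) * (b u.1 * c u.2 * (b v.1 * c v.2) * g (u.1 * u.2) (v.1 * v.2)) =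
      X / (K * P) * (b u.1 * c u.2 * (b v.1 * c v.2) * (√((u.1 : ℝ) * u.2 * (v.1 * v.2)) / X *
        f (u.1 * u.2) (v.1 * v.2) - g (u.1 * u.2) (v.1 * v.2))) := by
    rw [e]
    field_simp
  rw [e2, abs_mul, abs_of_pos (show 0 < X / (K * P) by positivity), abs_mul]
  refine mul_le_mul_of_nonneg_left (mul_le_of_le_one_left (abs_nonneg _) ?_) (by positivity)
  rw [abs_mul, abs_mul, abs_mul]
  exact mul_le_one₀ (mul_le_one₀ (hb _) (abs_nonneg _) (hc _)) (by positivity)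
    (mul_le_one₀ (hb _) (abs_nonneg _) (hc _))

lemma tail_Cmp3 {x Γ : ℝ} (hx : 1 < x) (hl : 1 ≤ Real.log x) (hΓ : x ^ (-(1 / 2) : ℝ) ≤ Γ) :
    1 / Γ * Real.exp (-((3 * Γ * Real.log x) ^ 2 / (4 * Γ ^ 2))) ≤ x ^ (-(1 / 1000) : ℝ) := by
  have x0 : 0 < x := by linarith
  have h0 : 0 < x ^ (-(1 / 2) : ℝ) := Real.rpow_pos_of_pos x0 _
  have g0 : 0 < Γ := h0.trans_le hΓ
  have h1 : 1 / Γ ≤ x ^ (1 / 2 : ℝ) := by
    refine (one_div_le_one_div_of_le h0 hΓ).trans_eq ?_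
    rw [Real.rpow_neg x0.le, one_div, inv_inv]
  have h2 : Real.exp (-((3 * Γ * Real.log x) ^ 2 / (4 * Γ ^ 2))) ≤ x ^ (-1 : ℝ) := by
    rw [Real.rpow_def_of_pos x0]
    refine Real.exp_le_exp.2 ?_
    have e : (3 * Γ * Real.log x) ^ 2 / (4 * Γ ^ 2) = 9 / 4 * Real.log x ^ 2 := by
      field_simp
      norm_num
    rw [e]
    nlinarith
  refine (mul_le_mul h1 h2 (Real.exp_pos _).le (by positivity)).trans ?_
  rw [← Real.rpow_add x0]
  exact Real.rpow_le_rpow_of_exponent_le hx.le (by norm_num)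

theorem cmp3_stmt (h2 : Cmp2Stmt) : Cmp3Stmt := by
  obtain ⟨C, hC, h⟩ := h2
  intro Λ hΛ
  have hΛ1 : (1 : ℝ) ≤ Λ := by exact_mod_cast hΛ
  filter_upwards [eventually_gt_atTop 1, E.ev_le_log 1,
    E.ev_log_le 6 1 (show (0 : ℝ) < 1 / 1000 by norm_num),
    E.ev_log_le (Λ * (C * (12 * Λ + 1) + Λ * (C * (2 * Λ + 1)))) 1
      (show (0 : ℝ) < 1 / 2000 by norm_num)] with x hx hl e1 e2 X Δ Γ K P D b c hS hb hc
  obtain ⟨hX, d1, d2, d3, hK, p1, hD⟩ := hS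
  rw [pow_one] at e1 e2
  have x0 : 0 < x := by linarith
  have d0 : 0 < Δ := (Real.rpow_pos_of_pos x0 _).trans_le d1
  have g0 : 0 < Γ := d0.trans_le d2
  have hK0 : (0 : ℝ) < K := by exact_mod_cast hK
  have hP0 : (0 : ℝ) < P := (Real.rpow_pos_of_pos x0 _).trans_le p1
  have hP : 1 ≤ P := by exact_mod_cast hP0
  have t1 := tail_Cmp3 hx hl (d1.trans d2)
  have y1 : x ^ (1 / 1000 : ℝ) * x ^ (-(1 / 1000) : ℝ) = 1 := by
    rw [← Real.rpow_add x0]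
    norm_num
  have y2 : x ^ (1 / 2000 : ℝ) * x ^ (-(1 / 1000) : ℝ) = x ^ (-(1 / 2000) : ℝ) := by
    rw [← Real.rpow_add x0]
    norm_num
  have y3 : 1 ≤ P * x ^ (-(1 / 1000) : ℝ) := by
    have : x ^ (1 / 1000 : ℝ) ≤ x ^ (1 / 400 : ℝ) :=
      Real.rpow_le_rpow_of_exponent_le hx.le (by norm_num)
    exact y1.ge.trans (mul_le_mul_of_nonneg_right (this.trans p1) (by positivity))
  have y0 : 0 < x ^ (-(1 / 1000) : ℝ) := by positivity
  generalize x ^ (-(1 / 1000) : ℝ) = y at *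
  generalize Real.log x = l at *
  obtain ⟨δ, hδ⟩ : ∃ δ : ℝ, δ = 3 * Γ * l := ⟨_, rfl⟩
  rw [← hδ] at t1
  have δ0 : 0 ≤ δ := by rw [hδ]; positivity
  have δ1 : δ ≤ 3 * (l * y) := by
    have := mul_le_mul_of_nonneg_left d3 (show 0 ≤ l by linarith)
    linarith
  have δ2 : δ ≤ 1 / 2 := by
    have := mul_le_mul_of_nonneg_right e1 y0.le
    linarith
  have g1 : Γ ≤ 1 / 4 := by
    have := mul_le_mul_of_nonneg_left hl g0.le
    linarith
  have ly : y ≤ l * y := le_mul_of_one_le_left y0.le hl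
  have rng : ∀ u ∈ D ×ˢ Icc P (Λ * P), (K : ℝ) * P ≤ (u.1 : ℝ) * u.2 ∧
      (u.1 : ℝ) * u.2 ≤ 2 * K * (Λ * P) := fun u hu => by
    obtain ⟨a1, a2⟩ := mem_product.1 hu
    have a3 := mem_Ico.1 (hD a1)
    have a4 := mem_Icc.1 a2
    exact ⟨by exact_mod_cast Nat.mul_le_mul a3.1 a4.1,
      by exact_mod_cast Nat.mul_le_mul a3.2.le a4.2⟩
  have cU : ((D ×ˢ Icc P (Λ * P)).card : ℝ) ≤ K * (Λ * P) := by
    rw [card_product, Nat.cast_mul]
    exact mul_le_mul (cardD_Cmp3 hD) (by exact_mod_cast card_Icc_le hP) (by positivity) hK0.le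
  have pt : ∀ n n' : ℝ, (K : ℝ) * P ≤ n → 0 < n' → n' ≤ 2 * K * (Λ * P) →
      |√(n * n') / X * am X Δ Γ n n' 0 - Z.gg (√(Δ ^ 2 + Γ ^ 2)) (Real.log n - Real.log n')| ≤
        (if |n' / n - 1| ≤ δ then C else 0) + C * (2 * Λ + 1) * y := by
    intro n n' a1 a2 a3
    have n0 : 0 < n := lt_of_lt_of_le (by positivity) a1
    obtain ⟨b1, b2⟩ := h X Δ Γ n n' hX d0 d2 g1 n0 a2
    have b0 : 0 ≤ C * (2 * Λ + 1) * y := by positivity
    split_ifs with e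
    · linarith [b1 (e.trans δ2)]
    · obtain ⟨b3, b4⟩ := b2 δ δ0 δ2 (not_le.1 e).le
      have b5 : 0 ≤ √(n * n') / X * am X Δ Γ n n' 0 :=
        mul_nonneg (by positivity) (am_nonneg hX.le _ _ _ _ _)
      have b6 : 0 ≤ Z.gg (√(Δ ^ 2 + Γ ^ 2)) (Real.log n - Real.log n') := by
        unfold Z.gg
        positivity
      have b7 : √(n' / n) ≤ 2 * Λ := by
        refine Real.sqrt_le_iff.2 ⟨by positivity, le_trans ?_
          (le_self_pow₀ (by linarith) (by norm_num))⟩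
        rw [div_le_iff₀ n0]
        have := mul_le_mul_of_nonneg_left a1 (show (0 : ℝ) ≤ 2 * Λ by positivity)
        linarith
      have b8 : C / Γ * Real.exp (-(δ ^ 2 / (4 * Γ ^ 2))) ≤ C * y := by
        rw [div_eq_mul_one_div C, mul_assoc]
        exact mul_le_mul_of_nonneg_left t1 hC.le
      have b9 := mul_le_mul b8 b7 (by positivity) (by positivity)
      rw [abs_le]
      constructor <;> linarith
  have row : ∀ u ∈ D ×ˢ Icc P (Λ * P), ∑ v ∈ D ×ˢ Icc P (Λ * P),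
      |√((u.1 : ℝ) * u.2 * (v.1 * v.2)) / X * am X Δ Γ (u.1 * u.2) (v.1 * v.2) 0 -
        Z.gg (√(Δ ^ 2 + Γ ^ 2)) (Real.log (u.1 * u.2) - Real.log (v.1 * v.2))| ≤
      K * P * ((C * (12 * Λ + 1) + Λ * (C * (2 * Λ + 1))) * (l * y)) := by
    intro u hu
    refine (sum_le_sum fun v hv => pt _ _ (rng u hu).1
      (lt_of_lt_of_le (by positivity) (rng v hv).1) (rng v hv).2).trans ?_
    rw [sum_add_distrib, sum_const, nsmul_eq_mul]
    have a1 := row_Cmp3 (Icc P (Λ * P)) hK hD (lt_of_lt_of_le (by positivity) (rng u hu).1)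
      (rng u hu).2 δ0 hC.le
    have a2 : 4 * δ * (Λ * P) + 1 ≤ P * ((12 * Λ + 1) * (l * y)) := by
      have b1 := mul_le_mul_of_nonneg_right δ1 (show (0 : ℝ) ≤ 4 * (Λ * P) by positivity)
      have b2 := mul_le_mul_of_nonneg_left ly hP0.le
      linarith
    have a3 := mul_le_mul_of_nonneg_left a2 (show (0 : ℝ) ≤ K * C by positivity)
    have a4 := mul_le_mul cU (mul_le_mul_of_nonneg_left ly
      (show (0 : ℝ) ≤ C * (2 * Λ + 1) by positivity)) (by positivity) (by positivity)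
    linarith
  refine (diff_Cmp3 hK hP hX _ _ hb hc _ _).trans ?_
  have a1 := (sum_le_card_nsmul _ _ _ row).trans ((nsmul_eq_mul _ _).le.trans
    (mul_le_mul_of_nonneg_right cU (by positivity)))
  have a2 := mul_le_mul_of_nonneg_right e2 y0.le
  rw [y2] at a2
  have a3 := mul_le_mul_of_nonneg_left a2 (show (0 : ℝ) ≤ (K * P) ^ 2 by positivity)
  refine (mul_le_mul_of_nonneg_left (a1.trans (le_trans (le_of_eq (by ring)) a3))
    (by positivity)).trans (le_of_eq ?_)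
  field_simp

end Pool.Agent.MP_c853c5_nt.DS
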