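import Pool.Agent.MP_c853c5_nt.DS.Basic

set_option autoImplicit false

open Finset Filter Real
open scoped ComplexConjugate

namespace Pool.Agent.MP_c853c5_nt.DS

open Pool.Agent.MP_88bd62_nt.U (ex)
open MeasureTheory

lemma gg_nonneg_Conv {d : ℝ} (h : 0 < d) (y : ℝ) : 0 ≤ Z.gg d y := by
  unfold Z.gg
  positivity

lemma gg_le_Conv {d e : ℝ} (h : 0 < d) (he : d ≤ e) (y : ℝ) : Z.gg e y ≤ d⁻¹ :=
  (mul_le_of_le_one_right (inv_nonneg.2 (h.le.trans he))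
    (exp_le_one_iff.2 (neg_nonpos.2 (by positivity)))).trans (inv_anti₀ h he)

lemma gg_int_Conv {d : ℝ} (h : 0 < d) : Integrable (Z.gg d) ∧ ∫ z, Z.gg d z = 1 := by
  have e : Z.gg d = fun z => d⁻¹ * exp (-(π / d ^ 2) * z ^ 2) := funext fun z => by
    rw [Z.gg]
    congr 2
    ring
  rw [e]
  refine ⟨(integrable_exp_neg_mul_sq (by positivity)).const_mul _, ?_⟩
  rw [integral_const_mul, integral_gaussian, div_div_cancel₀ pi_ne_zero, sqrt_sq h.le,
    inv_mul_cancel₀ h.ne']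

/-- convolution of two Gaussians -/
lemma conv_Conv {s d r : ℝ} (hs : 0 < s) (hd : 0 < d) (hr : 0 < r) (e : r ^ 2 = s ^ 2 + d ^ 2)
    (w : ℝ) : Integrable (fun y => Z.gg s y * Z.gg d (w - y)) ∧
      ∫ y, Z.gg s y * Z.gg d (w - y) = Z.gg r w := by
  have h1 : (fun y => Z.gg s y * Z.gg d (w - y)) =
      fun y => Z.gg r w * Z.gg (s * d / r) (y - w * s ^ 2 / r ^ 2) := funext fun y => by
    unfold Z.gg
    rw [mul_mul_mul_comm, ← exp_add, mul_mul_mul_comm r⁻¹, ← exp_add]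
    congr 1
    · field_simp
    · congr 1
      rw [div_pow, e]
      field_simp
      ring
  have h2 := gg_int_Conv (show 0 < s * d / r by positivity)
  rw [h1]
  refine ⟨(h2.1.comp_sub_right _).const_mul _, ?_⟩
  rw [integral_const_mul, integral_sub_right_eq_self (Z.gg (s * d / r)), h2.2, mul_one]

lemma tail_Conv {s D y : ℝ} (hs : 0 < s) (hD : s ≤ D) (hy : 1 / 2 ≤ |y|) :
    Z.gg s y ≤ 2 * exp (-(1 / (4 * D ^ 2))) * Z.gg (2 * s) y := by
  have h1 : 1 / 4 ≤ y ^ 2 := by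
    have := pow_le_pow_left₀ (by norm_num) hy 2
    rw [sq_abs] at this
    linarith
  have h2 : 1 / (4 * D ^ 2) ≤ 1 / (4 * s ^ 2) := by gcongr
  have h3 : 1 / (4 * s ^ 2) + π * y ^ 2 / (2 * s) ^ 2 ≤ π * y ^ 2 / s ^ 2 := by
    rw [show (2 * s) ^ 2 = 4 * s ^ 2 by ring, ← add_div, div_le_div_iff₀ (by positivity)
      (by positivity)]
    have h4 : 1 ≤ 3 * (π * y ^ 2) := by nlinarith [pi_gt_three]
    nlinarith [mul_le_mul_of_nonneg_right h4 (sq_nonneg s)]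
  have h4 : 2 * exp (-(1 / (4 * D ^ 2))) * Z.gg (2 * s) y =
      s⁻¹ * exp (-(1 / (4 * D ^ 2)) + -(π * y ^ 2 / (2 * s) ^ 2)) := by
    rw [Z.gg, exp_add]
    field_simp
  rw [h4, Z.gg]
  gcongr
  linarith

theorem conv_stmt : ConvStmt := by
  refine ⟨2, two_pos, fun ι s a z v Δ₁ Δ Γ B h1 h2 h3 _ h => ?_⟩
  have hS : 0 ≤ ∑ i ∈ s, |a i| := sum_nonneg fun _ _ => abs_nonneg _
  have h0 := h v (by norm_num)
  rcases h2.eq_or_lt with rfl | h2
  · rw [sub_add_cancel, sqrt_sq (by linarith)] at h0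
    exact h0.trans (le_add_of_nonneg_right (by positivity))
  have hB : 0 ≤ B := (abs_nonneg _).trans h0
  have q1 : Δ₁ ^ 2 < Δ ^ 2 := by gcongr
  have q2 : Δ ^ 2 ≤ Γ ^ 2 := pow_le_pow_left₀ (by linarith) h3 2
  obtain ⟨σ, s0, s1, s2⟩ : ∃ σ : ℝ, 0 < σ ∧ σ ≤ Δ ∧ Δ ^ 2 = σ ^ 2 + Δ₁ ^ 2 :=
    ⟨√(Δ ^ 2 - Δ₁ ^ 2), sqrt_pos.2 (by linarith),
      sqrt_le_iff.2 ⟨by linarith, by nlinarith⟩, by rw [sq_sqrt (by linarith)]; ring⟩
  have g1 : Δ₁ ≤ √(Γ ^ 2 - Δ ^ 2 + Δ₁ ^ 2) := le_sqrt_of_sq_le (by linarith)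
  have g2 : Γ ^ 2 = σ ^ 2 + √(Γ ^ 2 - Δ ^ 2 + Δ₁ ^ 2) ^ 2 := by
    rw [sq_sqrt (by nlinarith)]
    linarith
  generalize √(Γ ^ 2 - Δ ^ 2 + Δ₁ ^ 2) = G at h g1 g2
  have k : ∀ i, Integrable (fun y => a i * (Z.gg σ y * E.dg (v - y) Δ₁ G (z i))) ∧
      ∫ y, a i * (Z.gg σ y * E.dg (v - y) Δ₁ G (z i)) = a i * E.dg v Δ Γ (z i) := fun i => by
    have c1 := conv_Conv s0 h1 (by linarith) s2 (v - z i)
    have c2 := conv_Conv s0 (h1.trans_le g1) (by linarith) g2 (v - z i)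
    simp only [E.dg, mul_sub (Z.gg σ _), sub_right_comm v _ (z i)]
    refine ⟨(c1.1.sub c2.1).const_mul _, ?_⟩
    rw [integral_const_mul, integral_sub c1.1 c2.1, c1.2, c2.2]
  have i1 := gg_int_Conv s0
  have i2 := gg_int_Conv (show 0 < 2 * σ by positivity)
  set T := 2 * (∑ i ∈ s, |a i|) / Δ₁ * exp (-(1 / (4 * Δ ^ 2))) with hT
  have hT0 : 0 ≤ T := by positivity
  rw [← sum_congr rfl fun i _ => (k i).2, ← integral_finsetSum s fun i _ => (k i).1,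
    ← Real.norm_eq_abs]
  refine (norm_integral_le_of_norm_le ((i1.1.const_mul B).add (i2.1.const_mul T))
    (ae_of_all _ fun y => ?_)).trans_eq ?_
  · have p1 := gg_nonneg_Conv s0 y
    have p2 := gg_nonneg_Conv (show 0 < 2 * σ by positivity) y
    simp only [mul_left_comm (a _), ← mul_sum, Pi.add_apply]
    rw [Real.norm_eq_abs, abs_mul, abs_of_nonneg p1]
    rcases le_total |y| (1 / 2) with hy | hy
    · rw [mul_comm]
      exact (mul_le_mul_of_nonneg_right (h (v - y) (by simpa using hy)) p1).trans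
        (le_add_of_nonneg_right (by positivity))
    · have p3 : |∑ i ∈ s, a i * E.dg (v - y) Δ₁ G (z i)| ≤ (∑ i ∈ s, |a i|) * Δ₁⁻¹ := by
        rw [sum_mul]
        refine (abs_sum_le_sum_abs _ _).trans (sum_le_sum fun i _ => ?_)
        rw [abs_mul]
        refine mul_le_mul_of_nonneg_left (abs_le.2 ⟨?_, ?_⟩) (abs_nonneg _) <;> unfold E.dg <;>
          linarith [gg_nonneg_Conv h1 (v - y - z i), gg_nonneg_Conv (h1.trans_le g1) (v - y - z i),
            gg_le_Conv h1 le_rfl (v - y - z i), gg_le_Conv h1 g1 (v - y - z i)]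
      refine (mul_le_mul (tail_Conv s0 s1 hy) p3 (abs_nonneg _) (by positivity)).trans
        (le_add_of_nonneg_of_le (by positivity) (le_of_eq ?_))
      rw [hT]
      ring
  · simp only [Pi.add_apply]
    rw [integral_add (i1.1.const_mul B) (i2.1.const_mul T), integral_const_mul,
      integral_const_mul, i1.2, i2.2, mul_one, mul_one]

end Pool.Agent.MP_c853c5_nt.DS
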