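import Pool.Agent.MP_c853c5_nt.DS.Basic

set_option autoImplicit false

open Finset Filter Real
open scoped ComplexConjugate

namespace Pool.Agent.MP_c853c5_nt.DS

open Pool.Agent.MP_88bd62_nt.U (ex)

lemma tail_Cross {X Δ Γ n n' N A l : ℝ} (B : ℕ) (hX : 0 < X) (hΔ : 0 < Δ) (hΓ : Δ ≤ Γ)
    (hN : 0 < N) (h1 : N ≤ n) (h2 : n ≤ 2 * A * N) (h3 : 0 ≤ n') (h4 : n' ≤ 2 * A * N)
    (hA : 1 ≤ A) (hl : 1 ≤ l) (hB : 3 * A * l * N ≤ (B + 1) * (X * Δ)) :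
    4 * (1 + √(dd Δ Γ n n') / (X * Δ * Γ)) * am X Δ Γ n n' ((B : ℤ) + 1) ≤
      4 * (1 + 3 * A * N / (X * Δ)) * (X / (N * Γ) * Real.exp (-(3 * l))) := by
  have hΓ0 : 0 < Γ := hΔ.trans_le hΓ
  have hn : 0 < n := hN.trans_le h1
  have d0 := dd_pos (Δ := Δ) n' hΓ0 hn
  have d1 : (N * Γ) ^ 2 ≤ dd Δ Γ n n' := by
    unfold dd
    have : N ^ 2 * Γ ^ 2 ≤ n ^ 2 * Γ ^ 2 := by gcongr
    nlinarith [mul_nonneg (sq_nonneg n') (sq_nonneg Δ)]
  have d2 : dd Δ Γ n n' ≤ 8 * (A * N * Γ) ^ 2 := by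
    unfold dd
    have a1 : n ^ 2 * Γ ^ 2 ≤ (2 * A * N) ^ 2 * Γ ^ 2 := by gcongr
    have a2 : n' ^ 2 * Δ ^ 2 ≤ (2 * A * N) ^ 2 * Γ ^ 2 := by gcongr
    nlinarith
  have p0 : 0 < A * N * Γ := by positivity
  have s1 : N * Γ ≤ √(dd Δ Γ n n') := Real.le_sqrt_of_sq_le d1
  have s2 : √(dd Δ Γ n n') ≤ 3 * A * N * Γ :=
    Real.sqrt_le_iff.2 ⟨by positivity, by nlinarith [sq_nonneg (A * N * Γ)]⟩
  have e1 : √(dd Δ Γ n n') / (X * Δ * Γ) ≤ 3 * A * N / (X * Δ) := by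
    rw [← mul_div_mul_right (3 * A * N) (X * Δ) hΓ0.ne']
    gcongr
  have e2 : 3 * l ≤ π * (((B : ℤ) + 1 : ℤ) : ℝ) ^ 2 * (X * Δ * Γ) ^ 2 / dd Δ Γ n n' := by
    rw [le_div_iff₀ d0]
    push_cast
    have a1 : (3 * A * l * N * Γ) ^ 2 ≤ ((B + 1) * (X * Δ) * Γ) ^ 2 := by gcongr
    have a2 : 3 * l * dd Δ Γ n n' ≤ 3 * l * (8 * (A * N * Γ) ^ 2) := by gcongr
    have a3 : l * (A * N * Γ) ^ 2 ≤ l ^ 2 * (A * N * Γ) ^ 2 := by
      gcongr
      nlinarith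
    have a4 : 3 * ((B + 1) * (X * Δ) * Γ) ^ 2 ≤ π * ((B + 1) * (X * Δ) * Γ) ^ 2 := by
      gcongr
      exact Real.pi_gt_three.le
    have a5 : 0 ≤ l ^ 2 * (A * N * Γ) ^ 2 := by positivity
    nlinarith
  have e3 : am X Δ Γ n n' ((B : ℤ) + 1) ≤ X / (N * Γ) * Real.exp (-(3 * l)) := by
    unfold am
    have a1 : Real.exp (-(π * (n - n') ^ 2 / dd Δ Γ n n')) ≤ 1 :=
      Real.exp_le_one_iff.2 (neg_nonpos.2 (by positivity))
    have a2 : X / √(dd Δ Γ n n') ≤ X / (N * Γ) := by gcongr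
    refine mul_le_mul ?_ (Real.exp_le_exp.2 (by linarith)) (Real.exp_pos _).le (by positivity)
    exact (mul_le_of_le_one_right (by positivity) a1).trans a2
  exact mul_le_mul (by linarith) e3 (am_nonneg hX.le _ _ _ _ _) (by positivity)

lemma tail2_Cross {x X Δ Γ N A z : ℝ} (hX : 0 < X) (hΔ : 0 < Δ) (hΓ : 0 < Γ) (hN : 0 < N)
    (hA : 1 ≤ A) (hz : 2 ≤ z) (hx : z ^ 8 ≤ x) (hNX : N ≤ X) (h1 : 1 ≤ x * Δ)
    (h2 : 1 ≤ 2 * z ^ 8 * Γ) (h3 : 64 * A ^ 3 ≤ z) :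
    (A * N) ^ 2 * (4 * (1 + 3 * A * N / (X * Δ)) * (X / (N * Γ) * (x ^ 3)⁻¹)) ≤
      X * N * z⁻¹ / 2 := by
  have z8 : z ^ 2 ≤ z ^ 8 := pow_le_pow_right₀ (by linarith) (by norm_num)
  have x1 : 1 ≤ x := by nlinarith
  have x0 : 0 < x := by linarith
  have a1 : 3 * A * N / (X * Δ) ≤ 3 * A * x := by
    rw [div_le_iff₀ (by positivity)]
    have : N ≤ X * (x * Δ) := by nlinarith
    nlinarith
  have a2 : 1 + 3 * A * N / (X * Δ) ≤ 4 * A * x := by nlinarith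
  have a3 : X / (N * Γ) ≤ 2 * x * X / N := by
    rw [div_le_div_iff₀ (by positivity) hN]
    have : 1 ≤ 2 * x * Γ := by nlinarith
    nlinarith [mul_pos hX hN]
  calc (A * N) ^ 2 * (4 * (1 + 3 * A * N / (X * Δ)) * (X / (N * Γ) * (x ^ 3)⁻¹))
      ≤ (A * N) ^ 2 * (4 * (4 * A * x) * (2 * x * X / N * (x ^ 3)⁻¹)) := by gcongr
    _ = X * N * (32 * A ^ 3 / x) := by
        field_simp
        ring
    _ ≤ X * N * (z⁻¹ / 2) := by
        refine mul_le_mul_of_nonneg_left ?_ (by positivity)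
        rw [div_le_iff₀ x0, inv_eq_one_div, div_div, div_mul_eq_mul_div, one_mul,
          le_div_iff₀ (by positivity)]
        nlinarith
    _ = _ := by ring

lemma main_Cross {C X Δ Γ K P A l z L B : ℝ} (hC : 0 < C) (hX : 0 < X) (hΔ : 0 < Δ)
    (hΓ : 0 < Γ) (hK : 0 < K) (hP : 0 < P) (hA : 1 ≤ A) (hl : 1 ≤ l) (hz : 2 ≤ z) (hL : 1 ≤ L)
    (hB0 : 0 ≤ B) (hB : B ≤ 3 * A * l * L) (h1 : P * Δ ≤ 1) (h2 : 1 ≤ 2 * z ^ 8 * Γ)
    (h5 : L * z ^ 20 ≤ K) (h6 : L ^ 2 * K * (K * P) * z ^ 20 ≤ X)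
    (h7 : L ^ 2 * √(1 / Δ) * z ^ 20 ≤ P) (h8 : C * 614400 * A ^ 14 * l ^ 3 ≤ z ^ 2) :
    C * (2 * A) ^ 9 * P * (X / (Γ * (K * P))) ^ 2 *
      (K * B * P + K ^ 2 * B ^ 2 * (P * K * (K * P) / X + √(6 * A * l / Δ) + √P)) ≤
      (X * z⁻¹ / (2 * A)) ^ 2 := by
  have z0 : 0 < z := by linarith
  set m : ℝ := A * l with hm
  have m1 : 1 ≤ m := one_le_mul_of_one_le_of_one_le hA hl
  set y : ℝ := (z ^ 20)⁻¹ with hy
  have y0 : 0 < y := by positivity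
  have y1 : z ^ 20 * y = 1 := mul_inv_cancel₀ (by positivity)
  have hB' : B ≤ 3 * m * L := by rw [hm]; linarith
  have hB2 : B ^ 2 ≤ 9 * m ^ 2 * L ^ 2 := by nlinarith
  set s : ℝ := √(1 / Δ) with hs
  have s0 : 0 ≤ s := Real.sqrt_nonneg _
  have a1 : B / K ≤ 3 * m * y := by
    rw [div_le_iff₀ hK]
    have : L ≤ y * K := by nlinarith [mul_le_mul_of_nonneg_left h5 y0.le]
    nlinarith
  have a2 : B ^ 2 * (K * (K * P) / X) ≤ 9 * m ^ 2 * y := by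
    have : L ^ 2 * (K * (K * P) / X) ≤ y := by
      rw [← mul_div_assoc, div_le_iff₀ hX]
      have b := mul_le_mul_of_nonneg_left h6 y0.le
      have e : y * (L ^ 2 * K * (K * P) * z ^ 20) = L ^ 2 * (K * (K * P)) * (z ^ 20 * y) := by
        ring
      rw [e, y1, mul_one] at b
      exact b
    calc _ ≤ 9 * m ^ 2 * L ^ 2 * (K * (K * P) / X) := by gcongr
      _ = 9 * m ^ 2 * (L ^ 2 * (K * (K * P) / X)) := by ring
      _ ≤ _ := by gcongr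
  have a3 : B ^ 2 * (s / P) ≤ 9 * m ^ 2 * y := by
    have : L ^ 2 * (s / P) ≤ y := by
      rw [← mul_div_assoc, div_le_iff₀ hP]
      have b := mul_le_mul_of_nonneg_left h7 y0.le
      have e : y * (L ^ 2 * s * z ^ 20) = L ^ 2 * s * (z ^ 20 * y) := by ring
      rw [e, y1, mul_one] at b
      exact b
    calc _ ≤ 9 * m ^ 2 * L ^ 2 * (s / P) := by gcongr
      _ = 9 * m ^ 2 * (L ^ 2 * (s / P)) := by ring
      _ ≤ _ := by gcongr
  have a4 : √(6 * A * l / Δ) ≤ 6 * m * s := by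
    have e : 6 * A * l / Δ = 6 * m * (1 / Δ) := by rw [hm]; ring
    rw [e, Real.sqrt_mul (by positivity)]
    gcongr
    exact Real.sqrt_le_iff.2 ⟨by positivity, by nlinarith⟩
  have a5 : √P ≤ s := Real.sqrt_le_sqrt ((le_div_iff₀ hΔ).2 h1)
  have a6 : √(6 * A * l / Δ) + √P ≤ 7 * m * s := by nlinarith
  have a7 : Γ⁻¹ ≤ 2 * z ^ 8 := by
    rw [inv_eq_one_div, div_le_iff₀ hΓ]
    exact h2
  have a8 : B / K + B ^ 2 * (K * (K * P) / X) + 7 * m * (B ^ 2 * (s / P)) ≤ 75 * m ^ 3 * y := by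
    have b1 : 7 * m * (B ^ 2 * (s / P)) ≤ 7 * m * (9 * m ^ 2 * y) := by gcongr
    have b2 : m * y ≤ m ^ 3 * y := by
      gcongr
      nlinarith
    have b3 : m ^ 2 * y ≤ m ^ 3 * y :=
      mul_le_mul_of_nonneg_right (pow_le_pow_right₀ m1 (by norm_num)) y0.le
    nlinarith
  calc _ ≤ C * (2 * A) ^ 9 * P * (X / (Γ * (K * P))) ^ 2 *
        (K * B * P + K ^ 2 * B ^ 2 * (P * K * (K * P) / X + 7 * m * s)) := by
        rw [add_assoc (P * K * (K * P) / X)]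
        gcongr
    _ = C * (2 * A) ^ 9 * X ^ 2 * Γ⁻¹ ^ 2 *
        (B / K + B ^ 2 * (K * (K * P) / X) + 7 * m * (B ^ 2 * (s / P))) := by
        field_simp
        ring
    _ ≤ C * (2 * A) ^ 9 * X ^ 2 * (2 * z ^ 8) ^ 2 * (75 * m ^ 3 * y) := by gcongr
    _ = (X * z⁻¹ / (2 * A)) ^ 2 * ((C * 614400 * A ^ 14 * l ^ 3) / z ^ 2) := by
        rw [hm, hy]
        field_simp
        ring
    _ ≤ _ := mul_le_of_le_one_right (by positivity) ((div_le_one (by positivity)).2 h8)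

theorem cross_stmt (hP : PoisStmt) (hR : CRowStmt) : CrossStmt := by
  obtain ⟨C, hC, hR⟩ := hR
  intro r Λ μ hr hΛ hμ
  have hA : (1 : ℝ) ≤ Λ := by exact_mod_cast hΛ
  have n0 : (0 : ℝ) < 1 / 8000 := by norm_num
  refine ⟨1 / 8000, n0, ?_⟩
  filter_upwards [eventually_gt_atTop 1, E.ev_le_log 1, E.ev_const_le 2 n0,
    E.ev_const_le (64 * (Λ : ℝ) ^ 3) n0, E.ev_log_le (12 * (Λ : ℝ)) 1 n0,
    E.ev_log_le (C * 614400 * (Λ : ℝ) ^ 14) 3 n0] with x hx hl hz c1 c2 c3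
  intro X Δ Γ K P D b c hG hW hD hb hc
  have x0 : 0 < x := by linarith
  have hpw : ∀ k : ℕ, x ^ ((k : ℝ) / 8000) = (x ^ (1 / 8000 : ℝ)) ^ k := fun k => by
    rw [← Real.rpow_natCast, ← Real.rpow_mul x0.le]
    congr 1
    ring
  have e20 : x ^ (1 / 400 : ℝ) = (x ^ (1 / 8000 : ℝ)) ^ 20 := by
    rw [← hpw]
    norm_num
  have e8 : x ^ (-(1 / 1000) : ℝ) = ((x ^ (1 / 8000 : ℝ)) ^ 8)⁻¹ := by
    rw [← hpw, Real.rpow_neg x0.le]
    norm_num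
  have e8' : (x ^ (1 / 8000 : ℝ)) ^ 8 ≤ x := by
    rw [← hpw]
    exact (Real.rpow_le_rpow_of_exponent_le hx.le (by norm_num)).trans (Real.rpow_one x).le
  have d2 : Δ ≤ ((x ^ (1 / 8000 : ℝ)) ^ 20)⁻¹ := by
    rw [← e20, ← Real.rpow_neg x0.le]
    exact hG.d2.trans (Real.rpow_le_rpow_of_exponent_le hx.le (by norm_num))
  have d1 : x⁻¹ ≤ Δ := by
    rw [← Real.rpow_neg_one]
    exact (Real.rpow_le_rpow_of_exponent_le hx.le (by norm_num)).trans hG.d1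
  have m1 : 1 ≤ x ^ μ := Real.one_le_rpow hx.le hμ.le
  obtain ⟨x1, -, -, -, k1, p1, h1, -, h3, -, h5, h6, h7⟩ := hG
  obtain ⟨w1, -⟩ := hW
  rw [e20] at h5 h6 h7
  rw [e8] at w1
  rw [pow_one] at c2
  rw [Real.rpow_neg x0.le]
  have ex3 : Real.exp (-(3 * Real.log x)) = (x ^ 3)⁻¹ := by
    rw [Real.exp_neg, show 3 * Real.log x = Real.log (x ^ 3) by rw [Real.log_pow]; norm_num,
      Real.exp_log (by positivity)]
  generalize x ^ (1 / 8000 : ℝ) = z at *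
  have z0 : 0 < z := by linarith
  have hX : 0 < X := by linarith
  have hΔ : 0 < Δ := (inv_pos.2 x0).trans_le d1
  have hΓ : 0 < Γ := lt_of_lt_of_le (by positivity) w1
  have hK : (1 : ℝ) ≤ K := by exact_mod_cast k1
  have hP1 : (1 : ℝ) ≤ P := by exact_mod_cast p1
  have hN : (0 : ℝ) < K * P := by positivity
  have g1 : 1 ≤ 2 * z ^ 8 * Γ := by
    have := mul_le_mul_of_nonneg_left w1 (show 0 ≤ 2 * z ^ 8 by positivity)
    rwa [show 2 * z ^ 8 * ((z ^ 8)⁻¹ / 2) = 1 by field_simp] at this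
  have g2 : z ^ 20 * Δ ≤ 1 := by
    have := mul_le_mul_of_nonneg_left d2 (show 0 ≤ z ^ 20 by positivity)
    rwa [mul_inv_cancel₀ (by positivity)] at this
  have g3 : 1 ≤ x * Δ := by
    have := mul_le_mul_of_nonneg_left d1 x0.le
    rwa [mul_inv_cancel₀ x0.ne'] at this
  have z1 : ∀ i j : ℕ, i ≤ j → z ^ i ≤ z ^ j := fun i j h => pow_le_pow_right₀ (by linarith) h
  have g4 : Δ ≤ Γ := by
    have a1 : 2 * z ^ 8 ≤ z ^ 20 := by
      have : z * z ^ 8 ≤ z ^ 20 := by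
        rw [← pow_succ']
        exact z1 _ _ (by norm_num)
      nlinarith [pow_pos z0 8]
    have a2 : z ^ 20 * Δ ≤ z ^ 20 * Γ := by nlinarith
    exact le_of_mul_le_mul_left a2 (by positivity)
  have g5 : (K : ℝ) * P ≤ X :=
    (le_mul_of_one_le_left hN.le (one_le_pow₀ hK)).trans h3
  have g6 : P * Δ ≤ 1 := (le_mul_of_one_le_right (by positivity) m1).trans h1
  have hL := one_le_Lm X Δ K P
  set B := bb x X Δ Λ K P with hB
  have q0 : 0 ≤ 3 * Λ * Real.log x * (K * P / (X * Δ)) := by positivity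
  have b1 : (B : ℝ) ≤ 3 * Λ * Real.log x * (K * P / (X * Δ)) := Nat.floor_le q0
  have b2 : 3 * Λ * Real.log x * (K * P / (X * Δ)) < B + 1 := Nat.lt_floor_add_one _
  have b3 : (B : ℝ) ≤ 3 * Λ * Real.log x * Lm X Δ K P :=
    b1.trans (mul_le_mul_of_nonneg_left (le_Lm X Δ K P) (by positivity))
  have b4 : B * (X * Δ) ≤ 3 * Λ * Real.log x * (K * P) := by
    rwa [← mul_div_assoc, le_div_iff₀ (by positivity)] at b1
  have b5 : 3 * Λ * Real.log x * (K * P) ≤ (B + 1) * (X * Δ) := by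
    rw [← mul_div_assoc, div_lt_iff₀ (by positivity)] at b2
    exact b2.le
  have b6 : B < K := by
    have a1 : z ≤ z ^ 20 := by simpa using z1 1 20 (by norm_num)
    have a2 : 3 * Λ * Real.log x < z ^ 20 := by
      have : (0 : ℝ) < Λ * Real.log x := by positivity
      linarith
    have a3 : (B : ℝ) < K := by nlinarith
    exact_mod_cast a3
  have b7 : B * X * Δ ^ 2 ≤ K * P * Γ ^ 2 := by
    have a1 : 12 * Λ * Real.log x * z ^ 16 ≤ z ^ 20 := by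
      have : z * z ^ 16 ≤ z ^ 20 := by
        rw [← pow_succ']
        exact z1 _ _ (by norm_num)
      nlinarith [pow_pos z0 16]
    have a2 : 12 * Λ * Real.log x * z ^ 16 * Δ ≤ 1 := by nlinarith
    have a3 : 1 ≤ (2 * z ^ 8 * Γ) ^ 2 := one_le_pow₀ g1
    have a4 : z ^ 16 * (12 * Λ * Real.log x * Δ) ≤ z ^ 16 * (4 * Γ ^ 2) := by nlinarith
    have a5 := le_of_mul_le_mul_left a4 (by positivity)
    have a6 := mul_le_mul_of_nonneg_right b4 hΔ.le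
    have a7 := mul_le_mul_of_nonneg_left a5 hN.le
    nlinarith
  have b8 : 2 * B * X ≤ 6 * Λ * Real.log x / Δ * (K * P) := by
    rw [div_mul_eq_mul_div, le_div_iff₀ hΔ]
    linarith
  set U := D ×ˢ Icc P (Λ * P) with hU
  have u0 : (U.card : ℝ) ≤ Λ * (K * P) := by
    have : U.card ≤ K * (Λ * P) := by
      rw [hU, card_product]
      exact Nat.mul_le_mul hD.card_le (card_Icc_le p1)
    have a : (U.card : ℝ) ≤ K * (Λ * P) := by exact_mod_cast this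
    linarith
  have u1 : ∀ u ∈ U, (K : ℝ) * P ≤ (u.1 : ℝ) * u.2 ∧ (u.1 : ℝ) * u.2 ≤ 2 * Λ * (K * P) := by
    intro u hu
    obtain ⟨a1, a2⟩ := mem_product.1 hu
    obtain ⟨-, a3, a4⟩ := hD _ a1
    obtain ⟨a5, a6⟩ := mem_Icc.1 a2
    have a7 : K * P ≤ u.1 * u.2 := Nat.mul_le_mul a3 a5
    have a8 : u.1 * u.2 ≤ 2 * Λ * (K * P) :=
      (Nat.mul_le_mul a4.le a6).trans (le_of_eq (by ring))
    exact ⟨by exact_mod_cast a7, by exact_mod_cast a8⟩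
  have u2 : ∀ u : ℕ × ℕ, |b u.1 * c u.2| ≤ 1 := fun u => by
    rw [abs_mul]
    exact mul_le_one₀ (hb _) (abs_nonneg _) (hc _)
  have t1 : |∑ u ∈ U, ∑ v ∈ U, b u.1 * c u.2 * (b v.1 * c v.2) *
      (og X Δ Γ ((u.1 : ℝ) * u.2) ((v.1 : ℝ) * v.2) -
        rb X Δ Γ B ((u.1 : ℝ) * u.2) ((v.1 : ℝ) * v.2))| ≤ X * (K * P) * z⁻¹ / 2 := by
    refine le_trans ?_ (tail2_Cross hX hΔ hΓ hN hA hz e8' g5 g3 g1 c1)
    set T := 4 * (1 + 3 * Λ * ((K : ℝ) * P) / (X * Δ)) * (X / (K * P * Γ) * (x ^ 3)⁻¹) with hT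
    have T0 : 0 ≤ T := by positivity
    have a1 : ∀ u ∈ U, |∑ v ∈ U, b u.1 * c u.2 * (b v.1 * c v.2) *
        (og X Δ Γ ((u.1 : ℝ) * u.2) ((v.1 : ℝ) * v.2) -
          rb X Δ Γ B ((u.1 : ℝ) * u.2) ((v.1 : ℝ) * v.2))| ≤ Λ * (K * P) * T := by
      intro u hu
      refine (abs_sum_le_sum_abs _ _).trans ((sum_le_card_nsmul _ _ T fun v hv => ?_).trans ?_)
      · rw [abs_mul, abs_mul]
        refine (mul_le_of_le_one_left (abs_nonneg _)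
          (mul_le_one₀ (u2 u) (abs_nonneg _) (u2 v))).trans ?_
        refine (hP X Δ Γ _ _ B hX hΔ hΓ (hN.trans_le (u1 u hu).1)
          (hN.trans_le (u1 v hv).1)).2.trans ?_
        rw [hT, ← ex3]
        exact tail_Cross B hX hΔ g4 hN (u1 u hu).1 (u1 u hu).2 (hN.le.trans (u1 v hv).1)
          (u1 v hv).2 hA hl b5
      · rw [nsmul_eq_mul]
        gcongr
    refine (abs_sum_le_sum_abs _ _).trans ((sum_le_card_nsmul _ _ _ a1).trans ?_)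
    rw [nsmul_eq_mul, sq, mul_assoc ((Λ : ℝ) * (K * P))]
    gcongr
  have t2 : |∑ u ∈ U, ∑ v ∈ U, b u.1 * c u.2 * (b v.1 * c v.2) *
      rb X Δ Γ B ((u.1 : ℝ) * u.2) ((v.1 : ℝ) * v.2)| ≤ X * (K * P) * z⁻¹ / 2 := by
    rw [sum_comm]
    have a1 : ∀ v ∈ U, |∑ u ∈ U, b u.1 * c u.2 * (b v.1 * c v.2) *
        rb X Δ Γ B ((u.1 : ℝ) * u.2) ((v.1 : ℝ) * v.2)| ≤ X * z⁻¹ / (2 * Λ) := by
      intro v hv
      have e : ∑ u ∈ U, b u.1 * c u.2 * (b v.1 * c v.2) *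
          rb X Δ Γ B ((u.1 : ℝ) * u.2) ((v.1 : ℝ) * v.2) = b v.1 * c v.2 *
          ∑ u ∈ U, b u.1 * c u.2 * rb X Δ Γ B ((u.1 : ℝ) * u.2) ((v.1 : ℝ) * v.2) := by
        rw [mul_sum]
        exact sum_congr rfl fun u _ => by ring
      rw [e, abs_mul]
      refine (mul_le_of_le_one_left (abs_nonneg _) (u2 v)).trans
        (abs_le_of_sq_le_sq ?_ (by positivity))
      refine (hR X Δ Γ _ (2 * Λ) (6 * Λ * Real.log x / Δ) K P Λ B D b c hX hΔ hΓ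
        (hN.trans_le (u1 v hv).1) k1 p1 hΛ le_rfl (u1 v hv).2 hD b6 b7 b8 hb hc).trans ?_
      refine main_Cross hC hX hΔ hΓ (by linarith) (by linarith) hA hl hz hL (Nat.cast_nonneg _)
        b3 g6 g1 h5 h6 h7 (c3.trans ?_)
      simpa using z1 1 2 (by norm_num)
    refine (abs_sum_le_sum_abs _ _).trans ((sum_le_card_nsmul _ _ _ a1).trans ?_)
    rw [nsmul_eq_mul]
    refine (mul_le_mul_of_nonneg_right u0 (by positivity)).trans (le_of_eq ?_)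
    field_simp
  have e : QF D (Icc P (Λ * P)) b c (og X Δ Γ) =
      ∑ u ∈ U, ∑ v ∈ U, b u.1 * c u.2 * (b v.1 * c v.2) *
        (og X Δ Γ ((u.1 : ℝ) * u.2) ((v.1 : ℝ) * v.2) -
          rb X Δ Γ B ((u.1 : ℝ) * u.2) ((v.1 : ℝ) * v.2)) +
      ∑ u ∈ U, ∑ v ∈ U, b u.1 * c u.2 * (b v.1 * c v.2) *
        rb X Δ Γ B ((u.1 : ℝ) * u.2) ((v.1 : ℝ) * v.2) := by
    rw [← sum_add_distrib]
    refine sum_congr rfl fun u _ => ?_
    rw [← sum_add_distrib]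
    exact sum_congr rfl fun v _ => by ring
  show |QF D (Icc P (Λ * P)) b c (og X Δ Γ)| ≤ _
  rw [e]
  exact (abs_add_le _ _).trans (by linarith)

end Pool.Agent.MP_c853c5_nt.DS
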