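import Pool.Agent.MP_c853c5_nt.DS.Basic
import Pool.Agent.MP_88bd62_nt.U.KL
set_option autoImplicit false
open Finset Filter Real
open scoped ComplexConjugate
namespace Pool.Agent.MP_c853c5_nt.DS
open Pool.Agent.MP_88bd62_nt.U (ex)

theorem mono_D2 {d : ℕ → ℝ} {A B : ℕ} {lam : ℝ}
    (h : ∀ n, A ≤ n → n < B → d (n + 1) + lam ≤ d n) {n m : ℕ} (h1 : A ≤ n) (h2 : n ≤ m)
    (h3 : m ≤ B) : d m + (m - n) * lam ≤ d n := by
  induction m, h2 using Nat.le_induction with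
  | base => simp
  | succ k hk ih =>
    have := ih (by omega)
    have := h k (by omega) (by omega)
    push_cast
    linarith

theorem card_D2 (S : Finset ℕ) {L : ℝ} (hL : 0 ≤ L)
    (h : ∀ n ∈ S, ∀ m ∈ S, n ≤ m → (m : ℝ) - n ≤ L) : (S.card : ℝ) ≤ L + 1 := by
  rcases S.eq_empty_or_nonempty with rfl | hS
  · simp only [card_empty, Nat.cast_zero]
    linarith
  · have h2 := card_le_card (show S ⊆ Icc (S.min' hS) (S.max' hS) from
      fun x hx => mem_Icc.2 ⟨S.min'_le x hx, S.le_max' x hx⟩)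
    rw [Nat.card_Icc] at h2
    have h0 := S.min'_le_max' hS
    have h3 := h _ (S.min'_mem hS) _ (S.max'_mem hS) h0
    have h5 : (S.card : ℝ) + S.min' hS ≤ S.max' hS + 1 := by
      exact_mod_cast (by omega : S.card + S.min' hS ≤ S.max' hS + 1)
    linarith

theorem conv_D2 (S : Finset ℕ) (h : ∀ a ∈ S, ∀ b ∈ S, ∀ n, a ≤ n → n ≤ b → n ∈ S) :
    ∃ a b, S = Ico a b := by
  rcases S.eq_empty_or_nonempty with rfl | hS
  · exact ⟨0, 0, by simp⟩
  · refine ⟨S.min' hS, S.max' hS + 1, Finset.ext fun x => ?_⟩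
    rw [mem_Ico, Nat.lt_succ_iff]
    exact ⟨fun hx => ⟨S.min'_le x hx, S.le_max' x hx⟩,
      fun hx => h _ (S.min'_mem hS) _ (S.max'_mem hS) x hx.1 hx.2⟩

theorem fib_D2 {φ : ℕ → ℝ} {A B : ℕ} {lam : ℝ} (hl : 0 < lam)
    (h : ∀ n, A ≤ n → n < B → φ (n + 2) - φ (n + 1) + lam ≤ φ (n + 1) - φ n) (ν : ℤ) :
    ‖∑ n ∈ (Ico A B).filter fun n => ⌊φ (n + 1) - φ n + √lam⌋ = ν, ex (φ n)‖ ≤
      3 * (1 / √lam + 1) := by
  have he : 0 < √lam := sqrt_pos.2 hl
  have he2 : √lam * √lam = lam := mul_self_sqrt hl.le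
  have mo := fun n m => @mono_D2 (fun n => φ (n + 1) - φ n) A B lam h n m
  generalize √lam = e at he he2
  rw [← sum_filter_add_sum_filter_not _ fun n => φ (n + 1) - φ n < ν + e]
  refine (norm_add_le _ _).trans ?_
  have b1 : ‖∑ n ∈ ((Ico A B).filter fun n => ⌊φ (n + 1) - φ n + e⌋ = ν).filter
      fun n => φ (n + 1) - φ n < ν + e, ex (φ n)‖ ≤ 2 / e + 1 := by
    refine (norm_sum_le _ _).trans ?_
    simp only [ex, Complex.norm_exp_ofReal_mul_I, sum_const, nsmul_eq_mul, mul_one]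
    refine card_D2 _ (by positivity) fun n hn m hm hnm => ?_
    simp only [mem_filter, mem_Ico, Int.floor_eq_iff] at hn hm
    have := mo n m hn.1.1.1 hnm hm.1.1.2.le
    rw [le_div_iff₀ he]
    refine le_of_mul_le_mul_right ?_ he
    rw [mul_assoc, he2]
    linarith [hn.2, hm.1.2.1]
  obtain ⟨a, b, hab⟩ := conv_D2 (((Ico A B).filter fun n => ⌊φ (n + 1) - φ n + e⌋ = ν).filter
      fun n => ¬ φ (n + 1) - φ n < ν + e) fun a ha b hb n h1 h2 => by
    simp only [mem_filter, mem_Ico, Int.floor_eq_iff, not_lt] at ha hb ⊢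
    have m1 := mo a n ha.1.1.1 h1 (by omega)
    have m2 := mo n b (by omega) h2 hb.1.1.2.le
    have m3 : 0 ≤ ((n : ℝ) - a) * lam := mul_nonneg (sub_nonneg.2 (by exact_mod_cast h1)) hl.le
    have m4 : 0 ≤ ((b : ℝ) - n) * lam := mul_nonneg (sub_nonneg.2 (by exact_mod_cast h2)) hl.le
    exact ⟨⟨⟨by omega, by omega⟩, by linarith [hb.2], by linarith [ha.1.2.2]⟩, by linarith [hb.2]⟩
  have key : ∀ n, a ≤ n → n < b → (A ≤ n ∧ n < B) ∧ ν + e ≤ φ (n + 1) - φ n ∧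
      φ (n + 1) - φ n ≤ ν + 1 - e := fun n h1 h2 => by
    have := mem_Ico.2 ⟨h1, h2⟩
    rw [← hab] at this
    simp only [mem_filter, mem_Ico, Int.floor_eq_iff, not_lt] at this
    exact ⟨this.1.1, this.2, by linarith [this.1.2.2]⟩
  have b2 := MP_88bd62_nt.U.stKL φ (fun _ => 1) a b ν e e he he (fun n h1 h2 => (key n h1 h2).2)
    (fun n h1 h2 => by
      have := (key n h1 (by omega)).1
      linarith [h n this.1 this.2]) fun _ _ => ⟨zero_le_one, le_rfl⟩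
  simp only [Complex.ofReal_one, one_mul] at b2
  rw [hab]
  have b3 : 1 / (π * e) ≤ 1 / (2 * e) :=
    one_div_le_one_div_of_le (by positivity) (mul_le_mul_of_nonneg_right two_le_pi he.le)
  have b4 : 1 / (2 * e) = 1 / e / 2 := by field_simp
  have b5 : 2 / e = 2 * (1 / e) := by ring
  linarith

theorem d2_stmt : D2Stmt := by
  refine ⟨6, by norm_num, fun φ A B lam V hl hV h hAB => ?_⟩
  have he : 0 < √lam := sqrt_pos.2 hl
  rcases le_or_gt B A with hBA | hBA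
  · rw [Ico_eq_empty_of_le hBA, sum_empty, norm_zero]
    positivity
  have mo := fun n m => @mono_D2 (fun n => φ (n + 1) - φ n) A B lam h n m
  have mo' : ∀ n m, A ≤ n → n ≤ m → m ≤ B → φ (m + 1) - φ m + √lam ≤ φ (n + 1) - φ n + √lam :=
    fun n m h1 h2 h3 => by
      have m1 := mo n m h1 h2 h3
      have : 0 ≤ ((m : ℝ) - n) * lam := mul_nonneg (sub_nonneg.2 (by exact_mod_cast h2)) hl.le
      linarith
  rw [← sum_fiberwise_of_maps_to (t := Icc ⌊φ (B + 1) - φ B + √lam⌋ ⌊φ (A + 1) - φ A + √lam⌋)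
    (g := fun n => ⌊φ (n + 1) - φ n + √lam⌋) fun n hn => by
      rw [mem_Ico] at hn
      exact mem_Icc.2 ⟨Int.floor_mono (mo' n B hn.1 hn.2.le le_rfl),
        Int.floor_mono (mo' A n le_rfl hn.1 hn.2.le)⟩]
  refine (norm_sum_le _ _).trans ((sum_le_card_nsmul _ _ _ fun ν _ => fib_D2 hl h ν).trans ?_)
  have c1 : ((Icc ⌊φ (B + 1) - φ B + √lam⌋ ⌊φ (A + 1) - φ A + √lam⌋).card : ℝ) ≤ 2 * (V + 1) := by
    have f0 := Int.floor_mono (mo' A B le_rfl hBA.le le_rfl)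
    have f1 := Int.card_Icc_of_le _ _ (f0.trans (Int.le_add_one le_rfl))
    have f2 := congrArg (Int.cast : ℤ → ℝ) f1
    push_cast at f2
    linarith [Int.floor_le (φ (A + 1) - φ A + √lam), Int.lt_floor_add_one (φ (B + 1) - φ B + √lam)]
  rw [nsmul_eq_mul]
  exact (mul_le_mul_of_nonneg_right c1 (by positivity)).trans_eq (by ring)

end Pool.Agent.MP_c853c5_nt.DS
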