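import Pool.Agent.MP_c853c5_nt.DS.Basic
import Pool.Agent.MP_c853c5_nt.E.GlueII
import Pool.Agent.MP_2a1f0e_nt.Div

set_option autoImplicit false

open Finset Filter Real
open scoped ComplexConjugate

namespace Pool.Agent.MP_c853c5_nt.DS

open Pool.Agent.MP_88bd62_nt.U (ex)
open S (AF Slot prI Dl)
open Topology

lemma div_E3d (k Λ : ℕ) {ε : ℝ} (hε : 0 < ε) : ∀ᶠ x : ℝ in atTop, ∀ n m : ℕ, m ≤ k →
    (n : ℝ) ≤ Λ * (2 * x) → (n.divisors.card : ℝ) ^ m ≤ x ^ ε := by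
  have h0 : 0 < ε / (3 * (k + 1)) := by positivity
  obtain ⟨C, hC, h⟩ := MP_2a1f0e_nt.divisor_bound h0
  filter_upwards [E.ev_const_le C h0, eventually_ge_atTop (2 * (Λ : ℝ)), eventually_ge_atTop 1]
    with x h1 h2 x1 n m hm hn
  have x0 : 0 < x := by linarith
  have h3 : (n : ℝ) ≤ x ^ (2 : ℝ) := by
    rw [Real.rpow_two]
    nlinarith
  have h4 : (n.divisors.card : ℝ) ≤ x ^ (ε / (k + 1)) := by
    refine (h n).trans ((mul_le_mul h1 (Real.rpow_le_rpow (Nat.cast_nonneg _) h3 h0.le)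
      (by positivity) (by positivity)).trans_eq ?_)
    rw [← Real.rpow_mul x0.le, ← Real.rpow_add x0]
    congr 1
    field_simp
    ring
  refine (pow_le_pow_left₀ (Nat.cast_nonneg _) h4 m).trans ?_
  rw [← Real.rpow_mul_natCast x0.le]
  refine Real.rpow_le_rpow_of_exponent_le x1 ?_
  rw [div_mul_eq_mul_div, div_le_iff₀ (by positivity)]
  have : (m : ℝ) ≤ k := by exact_mod_cast hm
  nlinarith

lemma l2_E3d (hL : L2Stmt) (k Λ : ℕ) (hΛ : 1 ≤ Λ) : ∀ᶠ x : ℝ in atTop, ∀ (M m : ℕ) (a : ℕ → ℝ),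
    m ≤ k → 1 ≤ M → (M : ℝ) ≤ 2 * x →
    (∀ n, |a n| ≤ (((ArithmeticFunction.zeta ^ m : ArithmeticFunction ℕ) n : ℕ) : ℝ)) →
    ∑ n ∈ Icc M (Λ * M), a n ^ 2 ≤ M * Real.log x ^ (k ^ 2 + 1) := by
  filter_upwards [E.ev_le_log (Λ * 3 ^ (k ^ 2)), E.ev_le_log 1,
    eventually_ge_atTop (2 * (Λ : ℝ)), eventually_ge_atTop 1] with x h1 l1 h2 x1 M m a hm hM hx ha
  have hY : 1 ≤ Λ * M := Nat.mul_pos hΛ hM
  have hY' : (1 : ℝ) ≤ (Λ * M : ℕ) := by exact_mod_cast hY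
  have h3 : Real.log (Λ * M : ℕ) ≤ 2 * Real.log x := by
    have h4 : ((Λ * M : ℕ) : ℝ) ≤ x ^ 2 := by
      push_cast
      have := mul_le_mul_of_nonneg_left hx (Nat.cast_nonneg (α := ℝ) Λ)
      nlinarith
    simpa using Real.log_le_log (by linarith) h4
  have h4 : 0 ≤ Real.log (Λ * M : ℕ) := Real.log_nonneg hY'
  calc ∑ n ∈ Icc M (Λ * M), a n ^ 2 ≤ ∑ n ∈ Icc 1 (Λ * M), a n ^ 2 :=
        sum_le_sum_of_subset_of_nonneg (Icc_subset_Icc_left hM) fun _ _ _ => sq_nonneg _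
    _ ≤ (Λ * M : ℕ) * (1 + Real.log (Λ * M : ℕ)) ^ (m ^ 2) := by
        refine le_trans (sum_le_sum fun n _ => ?_) (hL m _ hY)
        rw [← sq_abs]
        exact pow_le_pow_left₀ (abs_nonneg _) (ha n) 2
    _ ≤ (Λ * M : ℕ) * (3 * Real.log x) ^ (k ^ 2) := by
        refine mul_le_mul_of_nonneg_left ?_ (Nat.cast_nonneg _)
        exact (pow_le_pow_left₀ (by linarith) (by linarith) _).trans
          (pow_le_pow_right₀ (by linarith) (Nat.pow_le_pow_left hm 2))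
    _ = M * (Real.log x ^ (k ^ 2) * (Λ * 3 ^ (k ^ 2))) := by
        push_cast
        ring
    _ ≤ _ := by
        rw [pow_succ (Real.log x)]
        gcongr

lemma size_E3d {ι : Type} [Fintype ι] {x γ γ' : ℝ} (x1 : 1 ≤ x) (hγ : 0 ≤ γ)
    (h : γ ≤ γ' / (Fintype.card ι + 1)) {a : ι → ℝ} {N : ι → ℕ}
    (hN : ∀ i, x ^ (a i - γ) ≤ N i ∧ (N i : ℝ) ≤ x ^ (a i + γ)) (A : Finset ι) :
    x ^ (∑ l ∈ A, a l - γ') ≤ (∏ l ∈ A, N l : ℕ) ∧
      ((∏ l ∈ A, N l : ℕ) : ℝ) ≤ x ^ (∑ l ∈ A, a l + γ') := by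
  have x0 : 0 < x := by linarith
  have h1 : (A.card : ℝ) * γ ≤ γ' := by
    rw [le_div_iff₀ (by positivity)] at h
    have : (A.card : ℝ) ≤ Fintype.card ι := by exact_mod_cast card_le_univ A
    nlinarith
  push_cast
  constructor
  · refine le_trans ?_ (prod_le_prod (fun l _ => by positivity) fun l _ => (hN l).1)
    rw [← Real.rpow_sum_of_pos x0]
    refine Real.rpow_le_rpow_of_exponent_le x1 ?_
    rw [sum_sub_distrib, sum_const, nsmul_eq_mul]
    linarith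
  · refine (prod_le_prod (fun l _ => Nat.cast_nonneg _) fun l _ => (hN l).2).trans ?_
    rw [← Real.rpow_sum_of_pos x0]
    refine Real.rpow_le_rpow_of_exponent_le x1 ?_
    rw [sum_add_distrib, sum_const, nsmul_eq_mul]
    linarith

lemma BP_one_E3d (u : ℝ) : E.BP 1 (fun n => if n = 1 then 1 else 0) u = 1 := by
  rw [E.BP, E.FP, sum_eq_single 1]
  · simp [MP_2a1f0e_nt.GM.pw]
  · intro n _ hn
    simp [hn]
  · simp

lemma FP_eq_E3d {s s' : Finset ℕ} {c : ℕ → ℝ} (h : ∀ n, c n ≠ 0 → n ∈ s)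
    (h' : ∀ n, c n ≠ 0 → n ∈ s') (u : ℝ) : E.FP s c u = E.FP s' c u := by
  have key : ∀ s s' : Finset ℕ, (∀ n, c n ≠ 0 → n ∈ s') → E.FP s c u = E.FP (s ∩ s') c u := by
    intro s s' h'
    refine (sum_subset inter_subset_left fun n hn hn' => ?_).symm
    have : c n = 0 := by
      by_contra h0
      exact hn' (mem_inter.2 ⟨hn, h' n h0⟩)
    simp [this]
  rw [key s s' h', key s' s h, inter_comm]

lemma split_E3d {ι M : Type} [Fintype ι] [DecidableEq ι] [CommMonoid M] {A : Finset ι} {i : ι}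
    (hi : i ∉ A) (f : ι → M) :
    ∏ l, f l = (∏ l ∈ A, f l) * f i * ∏ l ∈ (univ \ A).erase i, f l := by
  rw [mul_assoc, mul_prod_erase _ _ (mem_sdiff.2 ⟨mem_univ i, hi⟩), mul_comm,
    prod_sdiff (subset_univ A)]

theorem e3d_of (hT : TriStmt) (hG : GeoStmt) (hB : BoxVStmt) (hL : L2Stmt) (hR : GrpStmt)
    (hP : Z.PrStmt) : E3D := by
  intro ι _ τ t η K A ht htτ hτ hη
  classical
  set k := Fintype.card ι with hk
  have h2 : 0 < η / 2 := by positivity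
  have hΛ : 1 ≤ 2 ^ k := Nat.one_le_two_pow
  have keyG := fun r : {r : Fin (K + 1) // 2 ≤ (r : ℕ)} => hG r.1 η r.2 hη
  choose μ γG hμ hγG hGq using keyG
  have keyT := fun r : {r : Fin (K + 1) // 2 ≤ (r : ℕ)} =>
    hT r.1 (2 ^ k) A (k ^ 2 + 1) (μ r) r.2 hΛ (hμ r)
  choose ε hε hTq using keyT
  have keyB := fun q : {q : ι × ι // q.1 ≠ q.2} =>
    hB ι K (2 * A + (k ^ 2 + 1) + 2) η (η / 2) q.1.1 q.1.2 q.2 hη h2
  choose f hf hq using keyB
  have hγG' : ∀ r, 0 < γG r / (k + 1) := fun r => div_pos (hγG r) (by positivity)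
  obtain ⟨γ, ⟨hγ2, hγ3⟩, hγ, hγ1⟩ := (((eventually_all.2 fun q => Ioc_mem_nhdsGT (hf q)).and
    (eventually_all.2 fun r => Ioc_mem_nhdsGT (hγG' r))).and (Ioc_mem_nhdsGT h2)).exists
  refine ⟨γ, hγ, ?_⟩
  filter_upwards [eventually_all.2 hq, eventually_all.2 hGq, eventually_all.2 hTq,
    eventually_all.2 fun r => div_E3d k (2 ^ k) (hε r), l2_E3d hL k (2 ^ k) hΛ,
    E.prime_slot hP h2 (show (0 : ℝ) < 1 / 2000 by norm_num) (2 * A + (k ^ 2 + 1) + 2 + 2),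
    E.ev_le_log 1, eventually_ge_atTop 1]
    with x hx hxG hxT hd hl2 hp l1 x1 pr a N g ha hE hS hN hpr hle
  obtain ⟨B, i, j, r, hr2, hrK, hiB, hjB, hij, hi, aj, hD, hE⟩ := hE
  have x0 : 0 < x := by linarith
  let r' : {r : Fin (K + 1) // 2 ≤ (r : ℕ)} := ⟨⟨r, by omega⟩, hr2⟩
  set R := (univ \ B).erase i with hRdef
  have ai : η ≤ a i := by linarith [hD.2.2.2.2.1, le_max_left 0 (τ - ∑ l ∈ B, a l)]
  have low : ∀ l, η ≤ a l → x ^ (η / 2) ≤ (N l : ℝ) := fun l hl =>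
    (Real.rpow_le_rpow_of_exponent_le x1 (by linarith)).trans (hN l).1
  obtain ⟨P, Q, hg⟩ := hpr i hi
  have sz := size_E3d x1 hγ.le (hγ3 r').2 hN
  have hM1 : ∀ C : Finset ι, 1 ≤ ∏ l ∈ C, N l := fun C =>
    Nat.succ_le_of_lt (prod_pos fun l _ => (hS l).1)
  have hM1' : ∀ C : Finset ι, (1 : ℝ) ≤ (∏ l ∈ C, N l : ℕ) := fun C => by exact_mod_cast hM1 C
  have hK1 : (1 : ℝ) ≤ N i := by exact_mod_cast (hS i).1
  have hle' : ((∏ l ∈ B, N l : ℕ) : ℝ) * (N i * (∏ l ∈ R, N l : ℕ)) ≤ 2 * x := by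
    rw [split_E3d hiB] at hle
    push_cast
    rwa [← mul_assoc]
  have hKP : (1 : ℝ) ≤ N i * (∏ l ∈ R, N l : ℕ) := one_le_mul_of_one_le_of_one_le hK1 (hM1' R)
  have hMx : ((∏ l ∈ B, N l : ℕ) : ℝ) ≤ 2 * x :=
    (le_mul_of_one_le_right (Nat.cast_nonneg _) hKP).trans hle'
  have hPx : ((∏ l ∈ R, N l : ℕ) : ℝ) ≤ 2 * x :=
    ((le_mul_of_one_le_left (Nat.cast_nonneg _) hK1).trans
      (le_mul_of_one_le_left (by positivity) (hM1' B))).trans hle'
  have hsup : ∀ (C : Finset ι) (n : ℕ), (∏ l ∈ C, g l) n ≠ 0 →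
      n ∈ Icc (∏ l ∈ C, N l) (2 ^ k * ∏ l ∈ C, N l) := fun C n hn =>
    Icc_subset_Icc_right (Nat.mul_le_mul_right _ (Nat.pow_le_pow_right two_pos (card_le_univ C)))
      ((hR ι C N g fun l _ => hS l).1 n hn)
  have hbd : ∀ C : Finset ι, ((∏ l ∈ C, N l : ℕ) : ℝ) ≤ 2 * x → ∀ n,
      |(∏ l ∈ C, g l) n| ≤ x ^ ε r' := by
    intro C hC n
    by_cases hn : (∏ l ∈ C, g l) n = 0
    · rw [hn, abs_zero]
      positivity
    refine ((hR ι C N g fun l _ => hS l).2.2.1 n).trans (hd r' n _ (card_le_univ C) ?_)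
    have h3 : (n : ℝ) ≤ (2 ^ k * ∏ l ∈ C, N l : ℕ) := by
      exact_mod_cast (mem_Icc.1 (hsup C n hn)).2
    rw [Nat.cast_mul] at h3
    exact h3.trans (mul_le_mul_of_nonneg_left hC (Nat.cast_nonneg _))
  have hDs : ∀ n, g i n ≠ 0 → n ∈ (Ico (N i) (2 * N i)).filter Nat.Prime := by
    intro n hn
    refine mem_filter.2 ⟨mem_Ico.2 ((hS i).2.2 n hn), ?_⟩
    by_contra h0
    simp [hg, prI, h0] at hn
  have ht1 : max t (τ - η / 2) ≤ τ := max_le htτ.le (by linarith)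
  have ht2 : 1 / 3 ≤ max t (τ - η / 2) := ht.trans (le_max_left _ _)
  have hγi : γ ≤ γG r' := (hγ3 r').2.trans (div_le_self (hγG r').le (by simp))
  rw [split_E3d hiB]
  refine hxT r' t (max t (τ - η / 2)) (∏ l ∈ B, N l) (N i) (∏ l ∈ R, N l)
    ((Ico (N i) (2 * N i)).filter Nat.Prime) _ _ _ ht (le_max_left _ _)
    (hxG r' τ _ _ _ _ _ _ _ ht2 ht1 hτ (le_max_right _ _) hD (sz B).1
      ((Real.rpow_le_rpow_of_exponent_le x1 (by linarith)).trans (hN i).1)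
      ((hN i).2.trans (Real.rpow_le_rpow_of_exponent_le x1 (by linarith))) (sz R).1 (sz R).2 hle')
    (fun n hn => ⟨(mem_filter.1 hn).2, mem_Ico.1 (mem_filter.1 hn).1⟩) (hM1 B) hle' (hsup B) hDs
    (hsup R) (hbd B hMx) (hS i).2.1 (hbd R hPx)
    (hl2 _ _ _ (card_le_univ B) (hM1 B) hMx (hR ι B N g fun l _ => hS l).2.1) ?_
  have hf' := (hγ2 ⟨(j, i), hij.symm⟩).2
  have eT : Real.log x / x ^ (-max t (τ - η / 2)) = x ^ max t (τ - η / 2) * Real.log x := by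
    rw [Real.rpow_neg x0.le, div_inv_eq_mul, mul_comm]
  have hsum : ∑ l, (if l ∈ B then 0 else a l) = ∑ l ∈ univ \ B, a l := by
    rw [← sum_sdiff (subset_univ B), sum_eq_zero (s := B) fun l hl => if_pos hl, add_zero]
    exact sum_congr rfl fun l hl => if_neg (mem_sdiff.1 hl).2
  have hRB : ∀ l ∈ R, l ∉ B := fun l hl => (mem_sdiff.1 (mem_of_mem_erase hl)).2
  have b1 := hx ⟨(j, i), hij.symm⟩ τ (Real.log x / x ^ (-max t (τ - η / 2)))
    (fun l => if l ∈ B then 0 else a l) (fun l => if l ∈ B then 1 else N l)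
    (fun l => if l ∈ B then fun n => if n = 1 then 1 else 0 else g l) (by linarith) hτ
    (by
      rw [eT]
      exact (Real.rpow_le_rpow_of_exponent_le x1 (by linarith)).trans
        (le_mul_of_one_le_right (by positivity) l1))
    (by
      rw [eT]
      exact mul_le_mul_of_nonneg_right (Real.rpow_le_rpow_of_exponent_le x1 ht1) (by linarith))
    (fun l => by
      split_ifs
      · exact ⟨le_rfl, zero_le_one⟩
      · exact ha l)
    (by
      rw [hsum]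
      exact hE)
    (fun l => by
      split_ifs
      · refine ⟨le_rfl, ?_, ?_⟩
        · simpa using Real.rpow_le_one_of_one_le_of_nonpos x1 (neg_nonpos.2 (hγ.le.trans hf'))
        · simpa using Real.one_le_rpow x1 (hγ.le.trans hf')
      · exact ⟨(hS l).1, (Real.rpow_le_rpow_of_exponent_le x1 (by linarith)).trans (hN l).1,
          (hN l).2.trans (Real.rpow_le_rpow_of_exponent_le x1 (by linarith))⟩)
    (by simpa only [if_neg hjB] using low j aj)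
    (fun l n => by
      split_ifs
      · beta_reduce
        split_ifs <;> simp
      · exact (hS l).2.1 n)
    (fun s h3 h4 => by
      simp only [if_neg hiB, hg]
      exact hp _ P Q s (low i ai) h3 h4)
  refine le_of_eq_of_le (intervalIntegral.integral_congr fun u _ => ?_) (b1.trans_eq ?_)
  · have hfp : E.FP (Icc (∏ l ∈ R, N l) (2 ^ k * ∏ l ∈ R, N l)) (⇑(∏ l ∈ R, g l)) u =
        ∏ l ∈ R, E.BP (N l) (g l) u := (hR ι R N g fun l _ => hS l).2.2.2 _ u (hsup R)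
    rw [split_E3d hiB, prod_eq_one (s := B) fun l hl => by
      rw [if_pos hl, if_pos hl, BP_one_E3d, norm_one, one_pow], one_mul, if_neg hiB, if_neg hiB,
      hfp, norm_prod, ← prod_pow]
    congr 1
    · rw [E.BP, FP_eq_E3d hDs fun n hn =>
        mem_Icc.2 ⟨((hS i).2.2 n hn).1, ((hS i).2.2 n hn).2.le⟩]
    · exact prod_congr rfl fun l hl => by rw [if_neg (hRB l hl), if_neg (hRB l hl)]
  · rw [split_E3d hiB, prod_eq_one (s := B) fun l hl => by rw [if_pos hl, Nat.cast_one],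
      one_mul, if_neg hiB, Nat.cast_prod,
      prod_congr rfl fun l hl => by rw [if_neg (hRB l hl)]]

end Pool.Agent.MP_c853c5_nt.DS
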