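import Pool.Agent.MP_c853c5_nt.DS.Basic

/-!
The slowly varying part of an edge has bounded variation.
-/

set_option autoImplicit false

open Finset Filter Real
open scoped ComplexConjugate

namespace Pool.Agent.MP_c853c5_nt.DS

open Pool.Agent.MP_88bd62_nt.U (ex)

lemma exp_Edge {S : ℕ} {d : ℕ → ℝ} {c : ℝ} (hc : 0 ≤ c) (hd : ∀ s, 0 < d s)
    (hm : ∀ s, d s ≤ d (s + 1)) :
    nv S (fun s => ((Real.exp (-(c / d s)) : ℝ) : ℂ)) ≤ 1 := by
  refine nv_monotone (f := fun s => Real.exp (-(c / d s))) (fun s _ => ?_) (Real.exp_pos _).le ?_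
  · exact Real.exp_le_exp.2 (neg_le_neg (div_le_div_of_nonneg_left hc (hd s) (hm s)))
  · exact Real.exp_le_one_iff.2 (neg_nonpos.2 (div_nonneg hc (hd S).le))

lemma am_Edge {X Δ ρ m al be : ℝ} (S : ℕ) (h : ℤ) (hX : 0 < X) (hΔ : 0 < Δ) (hρ : 1 ≤ ρ)
    (hm : 0 < m) (hal : 0 ≤ al) (hbe : 0 ≤ be) :
    nv S (fun s => ((am X Δ Δ (m * (s + ρ + al)) (m * (s + ρ + be)) h : ℝ) : ℂ)) ≤
      2 * (X / (Δ * m * ρ)) := by
  set d : ℕ → ℝ := fun s => dd Δ Δ (m * (s + ρ + al)) (m * (s + ρ + be)) with hd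
  have hρ0 : 0 < ρ := by linarith
  have dpos : ∀ s, 0 < d s := fun s => dd_pos _ hΔ (by positivity)
  have dmono : ∀ s, d s ≤ d (s + 1) := by
    intro s
    simp only [hd, dd]
    push_cast
    gcongr <;> linarith
  have h1 : nv S (fun s => ((X / √(d s) : ℝ) : ℂ)) ≤ 2 * (X / (Δ * m * ρ)) := by
    refine nv_antitone (f := fun s => X / √(d s)) (fun s _ => ?_) ?_ (by positivity)
    · exact div_le_div_of_nonneg_left hX.le (Real.sqrt_pos.2 (dpos s))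
        (Real.sqrt_le_sqrt (dmono s))
    · refine div_le_div_of_nonneg_left hX.le (by positivity) (Real.le_sqrt_of_sq_le ?_)
      simp only [hd, dd, Nat.cast_zero, zero_add]
      have e1 : (Δ * m * ρ) ^ 2 ≤ (m * (ρ + al)) ^ 2 * Δ ^ 2 := by
        rw [← mul_pow, show Δ * m * ρ = m * ρ * Δ by ring]
        gcongr
        linarith
      have e2 : 0 ≤ (m * (ρ + be)) ^ 2 * Δ ^ 2 := by positivity
      linarith
  have h2 := exp_Edge (S := S) (c := π * (m * (al - be)) ^ 2) (by positivity) dpos dmono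
  have h3 := exp_Edge (S := S) (c := π * (h : ℝ) ^ 2 * (X * Δ * Δ) ^ 2) (by positivity) dpos dmono
  have h4 := nv_mul_le (nv_mul_le h1 h2) h3
  rw [mul_one, mul_one] at h4
  refine le_of_eq_of_le ?_ h4
  congr 1
  funext s
  rw [am, show m * (s + ρ + al) - m * (s + ρ + be) = m * (al - be) by ring]
  simp only [hd, Complex.ofReal_mul]

lemma ph_Edge {X Δ ρ m al be δ : ℝ} (S : ℕ) (h : ℤ) (hX : 0 < X) (hΔ : 0 < Δ) (hρ : 1 ≤ ρ)
    (hm : 0 < m) (hal : 0 ≤ al) (hbe : 0 ≤ be) (hal' : al ≤ δ) (hbe' : be ≤ δ) (hδ : δ ≤ 1) :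
    nv S (fun s => (((h : ℝ) * (ct X Δ Δ (m * (s + ρ + al)) (m * (s + ρ + be)) -
      X / (m * (s + ρ))) : ℝ) : ℂ)) ≤ |(h : ℝ)| * (X / m) * (2 * (2 * δ / ρ ^ 2)) := by
  have hρ0 : 0 < ρ := by linarith
  set T : ℕ → ℝ := fun s => (al + be) / ((s + ρ + al) ^ 2 + (s + ρ + be) ^ 2) +
    (al ^ 2 + be ^ 2) / ((s + ρ) * ((s + ρ + al) ^ 2 + (s + ρ + be) ^ 2)) with hT
  have h1 : nv S (fun s => ((T s : ℝ) : ℂ)) ≤ 2 * (2 * δ / ρ ^ 2) := by
    refine nv_antitone (f := T) (fun s _ => ?_) ?_ (by simp only [hT]; positivity)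
    · simp only [hT]
      push_cast
      gcongr <;> linarith
    · simp only [hT, Nat.cast_zero, zero_add]
      have e0 : 2 * ρ ^ 2 ≤ (ρ + al) ^ 2 + (ρ + be) ^ 2 := by nlinarith
      have e1 : (al + be) / ((ρ + al) ^ 2 + (ρ + be) ^ 2) ≤ (2 * δ) / (2 * ρ ^ 2) := by
        gcongr
        · linarith
        · linarith
      have e2 : (al ^ 2 + be ^ 2) / (ρ * ((ρ + al) ^ 2 + (ρ + be) ^ 2)) ≤
          (2 * δ) / (1 * (2 * ρ ^ 2)) := by
        gcongr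
        · linarith
        · nlinarith
      have e3 : (2 * δ) / (2 * ρ ^ 2) + (2 * δ) / (1 * (2 * ρ ^ 2)) = 2 * δ / ρ ^ 2 := by
        field_simp
        ring
      linarith
  have h2 : nv S (fun _ => ((-((h : ℝ) * (X / m)) : ℝ) : ℂ)) ≤ |(h : ℝ)| * (X / m) := by
    rw [nv_const, Complex.norm_real, Real.norm_eq_abs, abs_neg, abs_mul,
      abs_of_pos (by positivity : 0 < X / m)]
  refine le_of_eq_of_le ?_ (nv_mul_le h2 h1)
  congr 1
  funext s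
  rw [← Complex.ofReal_mul]
  congr 1
  have p1 : (0 : ℝ) < s + ρ := by positivity
  have p2 : (0 : ℝ) < (s + ρ + al) ^ 2 + (s + ρ + be) ^ 2 := by positivity
  have e : dd Δ Δ (m * (s + ρ + al)) (m * (s + ρ + be)) =
      m ^ 2 * Δ ^ 2 * ((s + ρ + al) ^ 2 + (s + ρ + be) ^ 2) := by
    rw [dd]
    ring
  simp only [hT]
  rw [ct, e]
  field_simp
  ring

theorem edge_stmt : EdgeStmt := by
  refine ⟨256, by norm_num, ?_⟩
  intro X Δ ρ K Q H S a b q h hX hΔ hρ hK ha hb hQ hQH hC _ _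
  have hρ0 : 0 < ρ := by linarith
  have hK' : (1 : ℝ) ≤ K := by exact_mod_cast hK
  have ha' : (K : ℝ) ≤ a := by exact_mod_cast ha
  have hb' : (K : ℝ) ≤ b := by exact_mod_cast hb
  have hQ' : (2 : ℝ) ≤ Q := by exact_mod_cast hQ
  have hQH' : (K : ℝ) ^ 2 ≤ 2 * Q * H := by exact_mod_cast hQH
  have a0 : (0 : ℝ) < a := by linarith
  have b0 : (0 : ℝ) < b := by linarith
  have K0 : (0 : ℝ) < K := by linarith
  have Q0 : (0 : ℝ) < Q := by linarith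
  obtain ⟨ca1, ca2⟩ := hC a (by simp)
  obtain ⟨cb1, cb2⟩ := hC b (by simp)
  have hm : (0 : ℝ) < a * b := by positivity
  have hm2 : (K : ℝ) ^ 2 ≤ a * b := by
    rw [sq]
    gcongr
  have hδ : (2 : ℝ) / Q ≤ 1 := by
    rw [div_le_one Q0]
    exact hQ'
  have h1 := am_Edge (X := X) (Δ := Δ) (ρ := ρ) (m := a * b) (al := (q a : ℝ) / a - ρ)
    (be := (q b : ℝ) / b - ρ) S h hX hΔ hρ hm (by linarith) (by linarith)
  have h2 := ph_Edge (X := X) (Δ := Δ) (ρ := ρ) (m := a * b) (al := (q a : ℝ) / a - ρ)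
    (be := (q b : ℝ) / b - ρ) (δ := 2 / Q) S h hX hΔ hρ hm (by linarith) (by linarith)
    (by linarith) (by linarith) hδ
  have h3 := (nv_ex S _).trans
    (add_le_add le_rfl (mul_le_mul_of_nonneg_left h2 (by positivity : (0 : ℝ) ≤ 2 * π)))
  have h4 := nv_mul_le h1 h3
  have e1 : ∀ s : ℕ, (b : ℝ) * (q a + s * a : ℕ) = a * b * (s + ρ + ((q a : ℝ) / a - ρ)) := by
    intro s
    push_cast
    field_simp
    ring
  have e2 : ∀ s : ℕ, (a : ℝ) * (q b + s * b : ℕ) = a * b * (s + ρ + ((q b : ℝ) / b - ρ)) := by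
    intro s
    push_cast
    field_simp
    ring
  have e3 : (fun s => ed X Δ ρ q s a b h) = fun s : ℕ =>
      ((am X Δ Δ (a * b * (s + ρ + ((q a : ℝ) / a - ρ))) (a * b * (s + ρ + ((q b : ℝ) / b - ρ)))
        h : ℝ) : ℂ) * ex ((h : ℝ) * (ct X Δ Δ (a * b * (s + ρ + ((q a : ℝ) / a - ρ)))
          (a * b * (s + ρ + ((q b : ℝ) / b - ρ))) - X / (a * b * (s + ρ)))) := by
    funext s
    rw [ed, e1, e2]
  rw [e3]
  refine h4.trans ?_
  have g1 : X / (Δ * (a * b) * ρ) ≤ X / (Δ * K ^ 2 * ρ) := by gcongr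
  have g2 : X / ((a : ℝ) * b) ≤ X / K ^ 2 := by gcongr
  have g3 : (2 : ℝ) / Q ≤ 4 * H / K ^ 2 := by
    rw [div_le_div_iff₀ Q0 (by positivity)]
    nlinarith
  have g4 : |(h : ℝ)| * (X / (a * b)) * (2 * (2 * (2 / Q) / ρ ^ 2)) ≤
      |(h : ℝ)| * (X / K ^ 2) * (2 * (2 * (4 * H / K ^ 2) / ρ ^ 2)) := by gcongr
  have g5 : |(h : ℝ)| * (X / K ^ 2) * (2 * (2 * (4 * H / K ^ 2) / ρ ^ 2)) =
      16 * (|(h : ℝ)| * X * H / (K ^ 4 * ρ ^ 2)) := by
    field_simp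
    ring
  have g6 : 0 ≤ |(h : ℝ)| * X * H / (K ^ 4 * ρ ^ 2) := by positivity
  have g7 : 1 + 2 * π * (|(h : ℝ)| * (X / (a * b)) * (2 * (2 * (2 / Q) / ρ ^ 2))) ≤
      128 * (1 + |(h : ℝ)| * X * H / (K ^ 4 * ρ ^ 2)) := by
    have p4 : 2 * π ≤ 8 := by linarith [Real.pi_le_four]
    have := mul_le_mul p4 (g4.trans_eq g5) (by positivity) (by norm_num)
    linarith
  calc _ ≤ 2 * (X / (Δ * K ^ 2 * ρ)) * (128 * (1 + |(h : ℝ)| * X * H / (K ^ 4 * ρ ^ 2))) := by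
        gcongr
    _ = _ := by ring

end Pool.Agent.MP_c853c5_nt.DS
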