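import Pool.Agent.MP_c853c5_nt.DS.Basic
set_option autoImplicit false
open Finset Filter Real
open scoped ComplexConjugate
namespace Pool.Agent.MP_c853c5_nt.DS
open Pool.Agent.MP_88bd62_nt.U (ex)

theorem sqrt_le_Exp (F0 ρ : ℝ) (h0 : 0 ≤ F0) (hρ : 0 ≤ ρ) (h : F0 ≤ ρ * √ρ) :
    √F0 ≤ F0 ^ (1 / 6 : ℝ) * √ρ := by
  have e1 : √F0 = F0 ^ (1 / 6 : ℝ) * F0 ^ (1 / 3 : ℝ) := by
    rw [Real.sqrt_eq_rpow, ← Real.rpow_add' h0 (by norm_num)]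
    norm_num
  have e2 : F0 ^ (1 / 3 : ℝ) ≤ √ρ := by
    have hs : 0 ≤ √ρ := Real.sqrt_nonneg ρ
    have e3 : ρ * √ρ = (√ρ) ^ (3 : ℕ) := by
      have := Real.mul_self_sqrt hρ
      calc ρ * √ρ = (√ρ * √ρ) * √ρ := by rw [this]
        _ = (√ρ) ^ (3 : ℕ) := by ring
    calc F0 ^ (1 / 3 : ℝ) ≤ ((√ρ) ^ (3 : ℕ)) ^ (1 / 3 : ℝ) :=
          Real.rpow_le_rpow h0 (e3 ▸ h) (by norm_num)
      _ = √ρ := by
          rw [← Real.rpow_natCast, ← Real.rpow_mul hs]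
          norm_num
  rw [e1]
  exact mul_le_mul_of_nonneg_left e2 (Real.rpow_nonneg h0 _)

theorem exp_stmt (h2 : Exp2Stmt) (h3 : Exp3Stmt) : ExpStmt := by
  obtain ⟨C2, hC2, h2⟩ := h2
  obtain ⟨C3, hC3, h3⟩ := h3
  refine ⟨max C2 C3, lt_max_of_lt_left hC2, ?_⟩
  intro Y ρ w F i S hρ hw hS hY
  have hρ0 : 0 < ρ := by linarith
  have hF0 : 0 ≤ |Y| / ρ := div_nonneg (abs_nonneg Y) hρ0.le
  have hF0F : |Y| / ρ ≤ F := by rw [div_le_iff₀ hρ0]; exact hY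
  have hF : 0 ≤ F := hF0.trans hF0F
  have hw4 : 0 ≤ w ^ 4 := by positivity
  have hfm : 0 ≤ ρ * fm ρ Y := mul_nonneg hρ0.le (fm_pos hρ0 Y).le
  have hsρ : 0 ≤ √ρ := Real.sqrt_nonneg ρ
  have hzb : 0 ≤ zb F ρ := le_min (Real.sqrt_nonneg F) (mul_nonneg (Real.rpow_nonneg hF _) hsρ)
  have hmono : (|Y| / ρ) ^ (1 / 6 : ℝ) * √ρ ≤ F ^ (1 / 6 : ℝ) * √ρ :=
    mul_le_mul_of_nonneg_right (Real.rpow_le_rpow hF0 hF0F (by norm_num)) hsρ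
  have fin : ∀ (C X T : ℝ), 0 ≤ C → C ≤ max C2 C3 → 0 ≤ X → X ≤ ρ * fm ρ Y + zb F ρ + √ρ →
      T ≤ C * w ^ 4 * X → T ≤ max C2 C3 * w ^ 4 * (ρ * fm ρ Y + zb F ρ + √ρ) := by
    intro C X T hC hCm hX hXle hT
    refine hT.trans ?_
    exact mul_le_mul (mul_le_mul_of_nonneg_right hCm hw4) hXle hX
      (mul_nonneg (hC.trans hCm) hw4)
  by_cases hc : ρ ^ 2 * √ρ ≤ |Y|
  · rcases le_total (√F) (F ^ (1 / 6 : ℝ) * √ρ) with hm | hm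
    · have hz : zb F ρ = √F := min_eq_left hm
      refine fin C2 _ _ hC2.le (le_max_left _ _) ?_ ?_ (h2 Y ρ w F i S hρ hw hS hY)
      · have := Real.sqrt_nonneg F
        linarith
      · rw [hz]
    · have hz : zb F ρ = F ^ (1 / 6 : ℝ) * √ρ := min_eq_right hm
      refine fin C3 _ _ hC3.le (le_max_right _ _) ?_ ?_ (h3 Y ρ w i S hρ hw hS hc)
      · exact mul_nonneg (Real.rpow_nonneg hF0 _) hsρ
      · rw [hz]
        linarith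
  · have hlt : |Y| / ρ ≤ ρ * √ρ := by
      rw [div_le_iff₀ hρ0]
      have := (not_le.mp hc).le
      calc |Y| ≤ ρ ^ 2 * √ρ := this
        _ = ρ * √ρ * ρ := by ring
    have hY0 : |Y| ≤ |Y| / ρ * ρ := by rw [div_mul_cancel₀ _ hρ0.ne']
    have hz : √(|Y| / ρ) ≤ zb F ρ :=
      le_min (Real.sqrt_le_sqrt hF0F) ((sqrt_le_Exp _ _ hF0 hρ0.le hlt).trans hmono)
    refine fin C2 _ _ hC2.le (le_max_left _ _) ?_ ?_ (h2 Y ρ w (|Y| / ρ) i S hρ hw hS hY0)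
    · have := Real.sqrt_nonneg (|Y| / ρ)
      linarith
    · linarith

end Pool.Agent.MP_c853c5_nt.DS
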