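import Pool.Agent.MP_c853c5_nt.DS.Basic
import Pool.Agent.MP_88bd62_nt.U.KL

set_option autoImplicit false

open Finset Filter Real
open scoped ComplexConjugate

namespace Pool.Agent.MP_c853c5_nt.DS

open Pool.Agent.MP_88bd62_nt.U (ex)

lemma triv_Exp2 (φ : ℕ → ℝ) (i S : ℕ) : ‖∑ s ∈ Ico i S, ex (φ s)‖ ≤ S := by
  refine (norm_sum_le _ _).trans ?_
  simp only [norm_ex, sum_const, Nat.card_Ico, nsmul_eq_mul, mul_one]
  exact_mod_cast Nat.sub_le S i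

lemma conj_Exp2 (Y ρ : ℝ) (i S : ℕ) :
    ‖∑ s ∈ Ico i S, ex (Y / (s + ρ))‖ = ‖∑ s ∈ Ico i S, ex (-|Y| / (s + ρ))‖ := by
  rcases le_total 0 Y with h | h
  · rw [abs_of_nonneg h, ← Complex.norm_conj, map_sum]
    simp only [conj_ex, neg_div]
  · rw [abs_of_nonpos h, neg_neg]

lemma del_Exp2 (y : ℝ) {ρ : ℝ} (hρ : 1 ≤ ρ) (n : ℕ) :
    -y / (((n + 1 : ℕ) : ℝ) + ρ) - -y / (n + ρ) = y / ((n + ρ) * (n + 1 + ρ)) := by
  have : (0 : ℝ) ≤ n := Nat.cast_nonneg n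
  have h1 : (n : ℝ) + ρ ≠ 0 := by positivity
  have h2 : (n : ℝ) + 1 + ρ ≠ 0 := by positivity
  push_cast
  field_simp
  ring

lemma del2_Exp2 (y : ℝ) {ρ : ℝ} (hρ : 1 ≤ ρ) (n : ℕ) :
    (-y / (((n + 1 : ℕ) : ℝ) + ρ) - -y / (n + ρ)) -
      (-y / (((n + 2 : ℕ) : ℝ) + ρ) - -y / (((n + 1 : ℕ) : ℝ) + ρ)) =
      2 * y / ((n + ρ) * (n + 1 + ρ) * (n + 2 + ρ)) := by
  have : (0 : ℝ) ≤ n := Nat.cast_nonneg n
  have h1 : (n : ℝ) + ρ ≠ 0 := by positivity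
  have h2 : (n : ℝ) + 1 + ρ ≠ 0 := by positivity
  have h3 : (n : ℝ) + 2 + ρ ≠ 0 := by positivity
  push_cast
  field_simp
  ring

lemma del_le_Exp2 {y ρ : ℝ} (hy : 0 ≤ y) (hρ : 1 ≤ ρ) (n : ℕ) :
    y / ((n + ρ) * (n + 1 + ρ)) ≤ y / ρ ^ 2 := by
  have : (0 : ℝ) ≤ n := Nat.cast_nonneg n
  refine div_le_div_of_nonneg_left hy (by positivity) ?_
  rw [sq]
  exact mul_le_mul (by linarith) (by linarith) (by linarith) (by linarith)

lemma caseB_Exp2 {y ρ w : ℝ} {i S : ℕ} (hρ : 1 ≤ ρ) (hw : 1 ≤ w) (hS : ρ + S ≤ w * ρ)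
    (h1 : ρ ≤ y) (h2 : y ≤ ρ ^ 2 / 2) :
    ‖∑ s ∈ Ico i S, ex (-y / (s + ρ))‖ ≤ w ^ 2 * (ρ ^ 2 / (ρ + y)) + 1 := by
  have hy : 0 < y := by linarith
  have hwρ : 0 < w * ρ := by positivity
  have key := Pool.Agent.MP_88bd62_nt.U.stKL (fun s => -y / (s + ρ)) (fun _ => 1) i S 0
    (y / (w * ρ) ^ 2) (1 / 2) (by positivity) (by norm_num) (fun n _ hn => ?_)
    (fun n _ _ => ?_) (fun _ _ => ⟨zero_le_one, le_rfl⟩)
  · simp only [Complex.ofReal_one, one_mul] at key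
    refine key.trans (add_le_add ?_ ?_)
    · have e1 : 1 / (π * (y / (w * ρ) ^ 2)) = w ^ 2 * (ρ ^ 2 / (π * y)) := by
        field_simp
      rw [e1]
      refine mul_le_mul_of_nonneg_left
        (div_le_div_of_nonneg_left (by positivity) (by positivity) ?_) (by positivity)
      nlinarith [pi_gt_three]
    · rw [div_le_one (by positivity)]
      linarith [pi_gt_three]
  · have hn' : (n : ℝ) + 1 ≤ S := by exact_mod_cast hn
    have : (0 : ℝ) ≤ n := Nat.cast_nonneg n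
    simp only [del_Exp2 y hρ n, Int.cast_zero, zero_add]
    constructor
    · refine div_le_div_of_nonneg_left hy.le (by positivity) ?_
      rw [sq]
      exact mul_le_mul (by linarith) (by linarith) (by linarith) hwρ.le
    · refine (del_le_Exp2 hy.le hρ n).trans ?_
      rw [div_le_iff₀ (by positivity)]
      linarith
  · have : (0 : ℝ) ≤ n := Nat.cast_nonneg n
    have h := del2_Exp2 y hρ n
    have h0 : 0 ≤ 2 * y / ((n + ρ) * (n + 1 + ρ) * (n + 2 + ρ)) := by positivity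
    linarith

lemma caseD_Exp2 {C : ℝ} (hC : 0 < C)
    (hD : ∀ (φ : ℕ → ℝ) (A B : ℕ) (lam V : ℝ), 0 < lam → 0 ≤ V →
      (∀ n, A ≤ n → n < B → φ (n + 2) - φ (n + 1) + lam ≤ φ (n + 1) - φ n) →
      (φ (A + 1) - φ A) - (φ (B + 1) - φ B) ≤ V →
      ‖∑ n ∈ Ico A B, ex (φ n)‖ ≤ C * (V + 1) * (1 / √lam + 1))
    {y ρ w F : ℝ} {i S : ℕ} (hρ : 1 ≤ ρ) (hw : 1 ≤ w) (hS : ρ + S ≤ w * ρ) (hF : y ≤ F * ρ)
    (h1 : ρ ^ 2 / 2 ≤ y) (h2 : y ≤ ρ ^ 3) :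
    ‖∑ s ∈ Ico i S, ex (-y / (s + ρ))‖ ≤ 3 * C * (w ^ 2 * √F + √F) := by
  have hρ2 : 0 < ρ ^ 2 := by positivity
  have hy : 0 < y := by linarith
  have hwρ : 1 ≤ w * ρ := one_le_mul_of_one_le_of_one_le hw hρ
  have hF0 : y / ρ ≤ F := by rwa [div_le_iff₀ (by positivity)]
  have hF1 : 0 ≤ F := le_trans (by positivity) hF0
  have hl : 0 < y / (w * ρ) ^ 3 := by positivity
  have key := hD (fun s => -y / (s + ρ)) i S (y / (w * ρ) ^ 3) (y / ρ ^ 2) hl (by positivity)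
    (fun n _ hn => ?_) ?_
  · have hV : 1 / 2 ≤ y / ρ ^ 2 := by
      rw [le_div_iff₀ hρ2]
      linarith
    have a1 : y / ρ ^ 2 * (1 / √(y / (w * ρ) ^ 3)) ≤ w ^ 2 * √F := by
      refine (pow_le_pow_iff_left₀ (by positivity) (by positivity) two_ne_zero).1 ?_
      rw [mul_pow, mul_pow (w ^ 2), div_pow 1, sq_sqrt hl.le, sq_sqrt hF1]
      have e : (y / ρ ^ 2) ^ 2 * (1 ^ 2 / (y / (w * ρ) ^ 3)) = w ^ 3 * (y / ρ) := by
        field_simp
      rw [e, ← pow_mul]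
      exact mul_le_mul (pow_le_pow_right₀ hw (by norm_num)) hF0 (by positivity) (by positivity)
    have a2 : y / ρ ^ 2 ≤ √F := by
      refine le_sqrt_of_sq_le (le_trans ?_ hF0)
      have e : (y / ρ ^ 2) ^ 2 = y / ρ * (y / ρ ^ 3) := by
        field_simp
      rw [e]
      exact mul_le_of_le_one_right (by positivity) (div_le_one_of_le₀ h2 (by positivity))
    refine key.trans ?_
    generalize y / ρ ^ 2 = V at hV a1 a2
    have hu : 0 ≤ 1 / √(y / (w * ρ) ^ 3) := by positivity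
    generalize 1 / √(y / (w * ρ) ^ 3) = u at a1 hu
    calc C * (V + 1) * (u + 1) ≤ C * (3 * V) * (u + 1) := by gcongr; linarith
      _ = 3 * C * (V * u + V) := by ring
      _ ≤ _ := by gcongr
  · have hn' : (n : ℝ) + 1 ≤ S := by exact_mod_cast hn
    have : (0 : ℝ) ≤ n := Nat.cast_nonneg n
    have h := del2_Exp2 y hρ n
    have h0 : y / (w * ρ) ^ 3 ≤ 2 * y / ((n + ρ) * (n + 1 + ρ) * (n + 2 + ρ)) := by
      have e : y / (w * ρ) ^ 3 = 2 * y / ((w * ρ) * (w * ρ) * (2 * (w * ρ))) := by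
        field_simp
      rw [e]
      refine div_le_div_of_nonneg_left (by positivity) (by positivity) ?_
      gcongr <;> linarith
    linarith
  · have hi := del_le_Exp2 hy.le hρ i
    have : (0 : ℝ) ≤ S := Nat.cast_nonneg S
    have h0 : 0 ≤ y / ((S + ρ) * (S + 1 + ρ)) := by positivity
    simp only [del_Exp2 y hρ]
    linarith

theorem exp2_stmt (hD : D2Stmt) : Exp2Stmt := by
  obtain ⟨C, hC, hD⟩ := hD
  refine ⟨6 * C + 2, by positivity, fun Y ρ w F i S hρ hw hS hF => ?_⟩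
  have hy : 0 ≤ |Y| := abs_nonneg Y
  have ea : ρ * fm ρ Y = ρ ^ 2 / (ρ + |Y|) := by
    rw [fm, sq, mul_div_assoc]
  rw [conj_Exp2, ea]
  generalize |Y| = y at hy hF
  have ht : ‖∑ s ∈ Ico i S, ex (-y / (s + ρ))‖ ≤ w * ρ :=
    (triv_Exp2 (fun s => -y / (s + ρ)) i S).trans (by linarith)
  have hc : 1 ≤ √ρ := one_le_sqrt.2 hρ
  have ha : 0 ≤ ρ ^ 2 / (ρ + y) := by positivity
  have hb : 0 ≤ √F := sqrt_nonneg F
  have w1 : w ≤ w ^ 4 := le_self_pow₀ hw (by norm_num)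
  have w2 : w ^ 2 ≤ w ^ 4 := pow_le_pow_right₀ hw (by norm_num)
  have w0 : 1 ≤ w ^ 4 := hw.trans w1
  have hB := fun h1 h2 => caseB_Exp2 (y := y) (i := i) hρ hw hS h1 h2
  have hDd := fun h1 h2 => caseD_Exp2 hC hD (y := y) (i := i) hρ hw hS hF h1 h2
  have hA : y ≤ ρ → ρ ≤ 2 * (ρ ^ 2 / (ρ + y)) := fun h => by
    rw [← mul_div_assoc, le_div_iff₀ (by positivity)]
    nlinarith
  have hCc : ρ ^ 3 ≤ y → ρ ≤ √F := fun h => by
    refine le_sqrt_of_sq_le (le_of_mul_le_mul_right ?_ (by linarith : 0 < ρ))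
    nlinarith
  generalize ‖∑ s ∈ Ico i S, ex (-y / (s + ρ))‖ = T at ht hB hDd
  generalize ρ ^ 2 / (ρ + y) = a at ha hB hA
  generalize √F = b at hb hDd hCc
  generalize √ρ = c at hc
  have hWa : 0 ≤ w ^ 4 * a := by positivity
  have hWb : 0 ≤ w ^ 4 * b := by positivity
  have hWc : 1 ≤ w ^ 4 * c := one_le_mul_of_one_le_of_one_le w0 hc
  have hCa : 0 ≤ C * (w ^ 4 * a) := by positivity
  have hCb : 0 ≤ C * (w ^ 4 * b) := by positivity
  have hCc' : 0 ≤ C * (w ^ 4 * c) := by positivity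
  have e : (6 * C + 2) * w ^ 4 * (a + b + c) = 6 * (C * (w ^ 4 * a)) + 6 * (C * (w ^ 4 * b)) +
      6 * (C * (w ^ 4 * c)) + 2 * (w ^ 4 * a) + 2 * (w ^ 4 * b) + 2 * (w ^ 4 * c) := by ring
  rw [e]
  rcases le_total y ρ with h1 | h1
  · have : w * ρ ≤ w ^ 4 * (2 * a) := mul_le_mul w1 (hA h1) (by linarith) (by linarith)
    linarith
  rcases le_total y (ρ ^ 2 / 2) with h2 | h2
  · have := hB h1 h2
    have : w ^ 2 * a ≤ w ^ 4 * a := mul_le_mul_of_nonneg_right w2 ha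
    linarith
  rcases le_total y (ρ ^ 3) with h3 | h3
  · have h4 := hDd h2 h3
    have h5 : w ^ 2 * b ≤ w ^ 4 * b := mul_le_mul_of_nonneg_right w2 hb
    have h6 : b ≤ w ^ 4 * b := le_mul_of_one_le_left hb w0
    have h7 : 3 * C * (w ^ 2 * b + b) ≤ 3 * C * (w ^ 4 * b + w ^ 4 * b) := by gcongr
    linarith
  · have : w * ρ ≤ w ^ 4 * b := mul_le_mul w1 (hCc h3) (by linarith) (by linarith)
    linarith

end Pool.Agent.MP_c853c5_nt.DS
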