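import Pool.Agent.MP_c853c5_nt.DS.Basic

/-!
The third derivative test for reciprocal phases.
-/

set_option autoImplicit false

open Finset Filter Real
open scoped ComplexConjugate BigOperators

namespace Pool.Agent.MP_c853c5_nt.DS

open Pool.Agent.MP_88bd62_nt.U (ex)

lemma norm_expect_Exp3 {ι : Type*} (s : Finset ι) (f : ι → ℂ) :
    ‖𝔼 i ∈ s, f i‖ ≤ 𝔼 i ∈ s, ‖f i‖ := RCLike.norm_expect_le (K := ℂ)

lemma sq_norm_Exp3 {ι : Type*} (s : Finset ι) (f : ι → ℂ) :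
    ‖𝔼 i ∈ s, f i‖ ^ 2 = 𝔼 i ∈ s, 𝔼 j ∈ s, (f i * conj (f j)).re := by
  have hc : conj (𝔼 i ∈ s, f i) = 𝔼 i ∈ s, conj (f i) := by
    simp only [expect_eq_sum_div_card, map_div₀, map_sum, map_natCast]
  have : ((‖𝔼 i ∈ s, f i‖ ^ 2 : ℝ) : ℂ) = 𝔼 i ∈ s, 𝔼 j ∈ s, f i * conj (f j) := by
    rw [← expect_mul_expect, ← hc, Complex.mul_conj, Complex.normSq_eq_norm_sq]
  have h := congrArg Complex.re this
  rw [Complex.ofReal_re, Complex.re_expect] at h
  rw [h]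
  exact expect_congr rfl fun i _ => Complex.re_expect _ _

lemma pow_expect_Exp3 {ι : Type*} (s : Finset ι) {f : ι → ℝ} (h0 : ∀ i ∈ s, 0 ≤ f i) :
    (𝔼 i ∈ s, f i) ^ 2 ≤ 𝔼 i ∈ s, f i ^ 2 := by
  rcases s.eq_empty_or_nonempty with rfl | hs
  · simp
  · have hc : (0 : ℝ) < s.card := by exact_mod_cast hs.card_pos
    have := Real.pow_arith_mean_le_arith_mean_pow s (fun _ => (s.card : ℝ)⁻¹) f
      (fun _ _ => by positivity) (by simp [hc.ne']) h0 2
    simpa only [expect_eq_sum_div_card, div_eq_inv_mul, mul_sum] using this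

lemma shift_Exp3 {u : ℕ → ℂ} (hu : ∀ n, ‖u n‖ ≤ 1) (L h : ℕ) :
    ‖𝔼 x ∈ range L, u x - 𝔼 x ∈ range L, u (x + h)‖ ≤ 2 * h / L := by
  have e1 := sum_range_add u L h
  have e2 := sum_range_add u h L
  rw [add_comm h L, e1] at e2
  have e3 : ∑ x ∈ range L, u x - ∑ x ∈ range L, u (x + h) =
      ∑ x ∈ range h, u x - ∑ x ∈ range h, u (L + x) := by
    simp only [add_comm _ h]
    linear_combination e2
  have b : ∀ v : ℕ → ℂ, (∀ n, ‖v n‖ ≤ 1) → ‖∑ x ∈ range h, v x‖ ≤ h := fun v hv =>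
    (norm_sum_le _ _).trans (by simpa using sum_le_card_nsmul (range h) _ 1 fun x _ => hv x)
  rw [expect_eq_sum_div_card, expect_eq_sum_div_card, ← sub_div, e3, norm_div, card_range,
    Complex.norm_natCast]
  refine div_le_div_of_nonneg_right ((norm_sub_le _ _).trans ?_) (Nat.cast_nonneg _)
  linarith [b u hu, b (fun x => u (L + x)) fun n => hu _]

lemma vdc_Exp3 {u : ℕ → ℂ} (hu : ∀ n, ‖u n‖ ≤ 1) {L M : ℕ} (hM : 1 ≤ M) {τ : ℝ} (hτ : 0 ≤ τ)
    (h : 𝔼 a ∈ range M, 𝔼 b ∈ range M, ‖𝔼 x ∈ range L, u (x + a) * conj (u (x + b))‖ ≤ τ ^ 2) :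
    ‖𝔼 x ∈ range L, u x‖ ≤ τ + 2 * M / L := by
  have hne : (range M).Nonempty := nonempty_range_iff.2 (by omega)
  have h1 : ‖𝔼 x ∈ range L, u x - 𝔼 a ∈ range M, 𝔼 x ∈ range L, u (x + a)‖ ≤ 2 * M / L := by
    rw [← expect_const hne (𝔼 x ∈ range L, u x), ← expect_sub_distrib]
    refine (norm_expect_Exp3 _ _).trans (expect_le hne fun a ha => (shift_Exp3 hu L a).trans ?_)
    have : (a : ℝ) ≤ M := by exact_mod_cast (mem_range.1 ha).le
    gcongr
  have h2 : ‖𝔼 a ∈ range M, 𝔼 x ∈ range L, u (x + a)‖ ≤ τ := by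
    refine (pow_le_pow_iff_left₀ (norm_nonneg _) hτ two_ne_zero).1 (le_trans ?_ h)
    rw [expect_comm]
    refine (pow_le_pow_left₀ (norm_nonneg _) (norm_expect_Exp3 _ _) 2).trans
      ((pow_expect_Exp3 _ fun _ _ => norm_nonneg _).trans ?_)
    simp only [sq_norm_Exp3]
    rw [expect_comm]
    refine expect_le_expect fun a _ => ?_
    rw [expect_comm]
    refine expect_le_expect fun b _ => ?_
    rw [← Complex.re_expect]
    exact Complex.re_le_norm _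
  have := norm_le_norm_sub_add (𝔼 x ∈ range L, u x) (𝔼 a ∈ range M, 𝔼 x ∈ range L, u (x + a))
  linarith

lemma norm_neg_Exp3 (s : Finset ℕ) (ψ : ℕ → ℝ) :
    ‖∑ x ∈ s, ex (-ψ x)‖ = ‖∑ x ∈ s, ex (ψ x)‖ := by
  simp only [← conj_ex]
  rw [← map_sum, Complex.norm_conj]

lemma second_Exp3 {y v d W : ℝ} (hy : 0 ≤ y) (hv : 0 < v) (hd : 0 ≤ d) (hW : v + d + 2 ≤ W) :
    -(y / (v + 2) - y / (v + 2 + d)) - -(y / (v + 1) - y / (v + 1 + d)) + 2 * y * d / W ^ 4 ≤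
      -(y / (v + 1) - y / (v + 1 + d)) - -(y / v - y / (v + d)) := by
  have h1 : 2 * y * d / W ^ 4 ≤ 2 * y * d / (v * (v + d) * (v + 1) * (v + 2)) := by
    have hW0 : 0 < W := by linarith
    refine div_le_div_of_nonneg_left (by positivity) (by positivity) ?_
    calc v * (v + d) * (v + 1) * (v + 2) ≤ W * W * W * W := by
          gcongr <;> linarith
      _ = W ^ 4 := by ring
  have h2 : 2 * y / ((v + d) * (v + 1 + d) * (v + 2 + d)) ≤
      2 * y / ((v + d) * (v + 1) * (v + 2)) := by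
    refine div_le_div_of_nonneg_left (by positivity) (by positivity) ?_
    gcongr (v + d) * ?_ * ?_ <;> linarith
  have h3 : y / v - 2 * (y / (v + 1)) + y / (v + 2) = 2 * y / (v * (v + 1) * (v + 2)) := by
    field_simp
    ring
  have h4 : y / (v + d) - 2 * (y / (v + 1 + d)) + y / (v + 2 + d) =
      2 * y / ((v + d) * (v + 1 + d) * (v + 2 + d)) := by
    field_simp
    ring
  have h5 : 2 * y / (v * (v + 1) * (v + 2)) - 2 * y / ((v + d) * (v + 1) * (v + 2)) =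
      2 * y * d / (v * (v + d) * (v + 1) * (v + 2)) := by
    field_simp
    ring
  linarith

lemma first_Exp3 {y v d : ℝ} (hy : 0 ≤ y) (hv : 0 < v) (hd : 0 ≤ d) :
    0 ≤ -(y / (v + 1) - y / (v + 1 + d)) - -(y / v - y / (v + d)) ∧
      -(y / (v + 1) - y / (v + 1 + d)) - -(y / v - y / (v + d)) ≤ 2 * y * d / v ^ 3 := by
  have h1 : -(y / (v + 1) - y / (v + 1 + d)) - -(y / v - y / (v + d)) =
      y * d / (v * (v + 1) * (v + 1 + d)) + y * d / (v * (v + d) * (v + 1 + d)) := by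
    field_simp
    ring
  rw [h1]
  refine ⟨by positivity, ?_⟩
  have h2 : y * d / (v * (v + 1) * (v + 1 + d)) ≤ y * d / (v * v * v) := by
    gcongr <;> linarith
  have h3 : y * d / (v * (v + d) * (v + 1 + d)) ≤ y * d / (v * v * v) := by
    gcongr <;> linarith
  have h4 : 2 * y * d / v ^ 3 = y * d / (v * v * v) + y * d / (v * v * v) := by ring
  linarith

lemma num_Exp3 {r g w d : ℝ} (hg : 1 ≤ g) (hgr : g ≤ r) (hw : 1 ≤ w) (hd : 1 ≤ d)
    (hdg : d * g ^ 2 ≤ 2 * r ^ 2) :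
    (2 * (r ^ 2 * g ^ 6) * d / (r ^ 2) ^ 3 + 1) *
        (1 / √(2 * (r ^ 2 * g ^ 6) * d / (5 * w * r ^ 2) ^ 4) + 1) ≤
      105 * w ^ 2 * g ^ 2 + 25 * w ^ 2 * r ^ 3 / g ^ 3 * (1 / √d) := by
  have hr : 0 < r := by linarith
  obtain ⟨s, hs, rfl⟩ : ∃ s : ℝ, 1 ≤ s ∧ d = s ^ 2 :=
    ⟨√d, Real.one_le_sqrt.2 hd, (Real.sq_sqrt (by linarith)).symm⟩
  rw [Real.sqrt_sq (by linarith : 0 ≤ s)]
  have h1 : g ^ 3 * s / (25 * w ^ 2 * r ^ 3) ≤
      √(2 * (r ^ 2 * g ^ 6) * s ^ 2 / (5 * w * r ^ 2) ^ 4) := by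
    refine Real.le_sqrt_of_sq_le ?_
    have e : 2 * (r ^ 2 * g ^ 6) * s ^ 2 / (5 * w * r ^ 2) ^ 4 =
        2 * (g ^ 3 * s / (25 * w ^ 2 * r ^ 3)) ^ 2 := by
      field_simp
      ring
    rw [e]
    linarith [sq_nonneg (g ^ 3 * s / (25 * w ^ 2 * r ^ 3))]
  have h2 : 1 / √(2 * (r ^ 2 * g ^ 6) * s ^ 2 / (5 * w * r ^ 2) ^ 4) ≤
      25 * w ^ 2 * r ^ 3 / g ^ 3 * (1 / s) := by
    refine (one_div_le_one_div_of_le (by positivity) h1).trans_eq ?_
    field_simp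
  have h3 : s * g ≤ 2 * r := by
    refine le_of_pow_le_pow_left₀ two_ne_zero (by positivity) ?_
    rw [mul_pow, mul_pow]
    linarith [sq_nonneg r]
  have h4 : 2 * (r ^ 2 * g ^ 6) * s ^ 2 / (r ^ 2) ^ 3 ≤ 4 * g ^ 2 := by
    rw [div_le_iff₀ (by positivity)]
    calc 2 * (r ^ 2 * g ^ 6) * s ^ 2 = 2 * r ^ 2 * g ^ 2 * g ^ 2 * (s ^ 2 * g ^ 2) := by ring
      _ ≤ 2 * r ^ 2 * g ^ 2 * r ^ 2 * (2 * r ^ 2) := by gcongr
      _ = _ := by ring
  have h5 : 2 * (r ^ 2 * g ^ 6) * s ^ 2 / (r ^ 2) ^ 3 * (25 * w ^ 2 * r ^ 3 / g ^ 3 * (1 / s)) ≤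
      100 * w ^ 2 * g ^ 2 := by
    have e : 2 * (r ^ 2 * g ^ 6) * s ^ 2 / (r ^ 2) ^ 3 * (25 * w ^ 2 * r ^ 3 / g ^ 3 * (1 / s)) =
        50 * w ^ 2 * g ^ 2 * (s * g) / r := by
      field_simp
      ring
    rw [e, div_le_iff₀ hr]
    calc 50 * w ^ 2 * g ^ 2 * (s * g) ≤ 50 * w ^ 2 * g ^ 2 * (2 * r) := by gcongr
      _ = _ := by ring
  have h6 : 1 ≤ w ^ 2 := one_le_pow₀ hw
  have h7 : 1 ≤ g ^ 2 := one_le_pow₀ hg
  have h8 : g ^ 2 ≤ w ^ 2 * g ^ 2 := le_mul_of_one_le_left (by positivity) h6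
  calc _ ≤ (2 * (r ^ 2 * g ^ 6) * s ^ 2 / (r ^ 2) ^ 3 + 1) *
        (25 * w ^ 2 * r ^ 3 / g ^ 3 * (1 / s) + 1) := by gcongr
    _ ≤ _ := by
      rw [add_mul, mul_add, mul_one, one_mul]
      nlinarith

lemma sum_inj_Exp3 {M : ℕ} {f : ℕ → ℕ} (h1 : ∀ b ∈ range M, f b ≤ M)
    (h2 : ∀ b b', f b ≠ 0 → f b' ≠ 0 → f b = f b' → b = b') :
    ∑ b ∈ range M, 1 / √(f b : ℝ) ≤ 2 * √M := by
  rw [← sum_filter_of_ne (p := fun b => f b ≠ 0) (fun b _ hb h0 => hb (by simp [h0])),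
    ← sum_image (g := f) (f := fun n : ℕ => 1 / √(n : ℝ))
      fun b hb b' hb' e => h2 b b' (mem_filter.1 hb).2 (mem_filter.1 hb').2 e]
  refine le_trans (sum_le_sum_of_subset_of_nonneg (fun n hn => ?_) fun _ _ _ => by positivity)
    (E.sum_hf_le M)
  obtain ⟨b, hb, rfl⟩ := mem_image.1 hn
  rw [mem_filter] at hb
  exact mem_Icc.2 ⟨Nat.one_le_iff_ne_zero.2 hb.2, h1 b hb.1⟩

theorem exp3_stmt (hD : D2Stmt) : Exp3Stmt := by
  obtain ⟨C, hC, hD⟩ := hD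
  refine ⟨1 + 205 * C + 4, by positivity, fun Y ρ w i S hρ hw hS hY => ?_⟩
  obtain ⟨r, hr, rfl⟩ : ∃ r : ℝ, 1 ≤ r ∧ ρ = r ^ 2 :=
    ⟨√ρ, Real.one_le_sqrt.2 hρ, (Real.sq_sqrt (by linarith)).symm⟩
  have hr0 : 0 < r := by linarith
  rw [Real.sqrt_sq hr0.le] at hY ⊢
  obtain ⟨g, hg0, hg, hy⟩ : ∃ g : ℝ, 0 ≤ g ∧ (|Y| / r ^ 2) ^ (1 / 6 : ℝ) = g ∧
      |Y| = r ^ 2 * g ^ 6 := by
    refine ⟨_, by positivity, rfl, ?_⟩
    rw [← Real.rpow_natCast _ 6, ← Real.rpow_mul (by positivity)]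
    norm_num
    field_simp
  rw [hg]
  clear hg
  have hgr : r ≤ g ^ 2 := by
    refine le_of_pow_le_pow_left₀ (n := 3) (by norm_num) (by positivity) ?_
    refine le_of_mul_le_mul_left ?_ (by positivity : 0 < r ^ 2)
    calc r ^ 2 * r ^ 3 = (r ^ 2) ^ 2 * r := by ring
      _ ≤ r ^ 2 * g ^ 6 := hy ▸ hY
      _ = _ := by ring
  have hg1 : 1 ≤ g := by nlinarith
  have hw4 : w ≤ w ^ 4 := le_self_pow₀ hw (by norm_num)
  rcases le_or_gt S i with hi | hi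
  · rw [Ico_eq_empty_of_le hi, sum_empty, norm_zero]
    positivity
  obtain ⟨L, rfl⟩ : ∃ L, S = i + L := ⟨S - i, by omega⟩
  have hL : 0 < L := by omega
  have hL0 : (0 : ℝ) < L := by exact_mod_cast hL
  have hi0 : (0 : ℝ) ≤ i := Nat.cast_nonneg i
  push_cast at hS
  have hLw : (L : ℝ) ≤ w * r ^ 2 := by nlinarith
  rw [sum_Ico_eq_sum_range, Nat.add_sub_cancel_left]
  rcases le_or_gt r g with hc | hc
  · refine (norm_sum_le _ _).trans ?_
    simp only [norm_ex, sum_const, card_range, nsmul_eq_mul, mul_one]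
    calc (L : ℝ) ≤ 1 * w * (r * r) := by linarith
      _ ≤ (1 + 205 * C + 4) * w ^ 4 * (g * r) := by
        gcongr
        linarith
  have hq : 1 ≤ r ^ 2 / g ^ 2 := by
    rw [le_div_iff₀ (by positivity), one_mul]
    gcongr
  obtain ⟨M, hM1, hM2⟩ : ∃ M : ℕ, r ^ 2 / g ^ 2 ≤ M ∧ (M : ℝ) ≤ 2 * (r ^ 2 / g ^ 2) :=
    ⟨_, Nat.le_ceil _, by linarith [Nat.ceil_lt_add_one (by positivity : 0 ≤ r ^ 2 / g ^ 2)]⟩
  have hM0 : (1 : ℝ) ≤ M := hq.trans hM1
  have hM : 1 ≤ M := by exact_mod_cast hM0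
  have hMg : M * g ^ 2 ≤ 2 * r ^ 2 := by
    rwa [← mul_div_assoc, le_div_iff₀ (by positivity)] at hM2
  have hMr : (M : ℝ) ≤ 2 * r := by
    refine le_of_mul_le_mul_right ?_ hr0
    calc (M : ℝ) * r ≤ M * g ^ 2 := by gcongr
      _ ≤ _ := by linarith
  have hpair : ∀ (a d : ℕ), 1 ≤ d → a + d ≤ M →
      ‖∑ x ∈ range L, ex (Y / (x + (i + a + r ^ 2)) - Y / (x + (i + a + r ^ 2) + d))‖ ≤
        C * (105 * w ^ 2 * g ^ 2 + 25 * w ^ 2 * r ^ 3 / g ^ 3 * (1 / √d)) := by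
    intro a d hd had
    have hd1 : (1 : ℝ) ≤ d := by exact_mod_cast hd
    have had' : (a : ℝ) + d ≤ M := by exact_mod_cast had
    have ha0 : (0 : ℝ) ≤ a := Nat.cast_nonneg a
    have hy0 : 0 ≤ r ^ 2 * g ^ 6 := by positivity
    have hrr : r ≤ r ^ 2 := le_self_pow₀ hr (by norm_num)
    have hwr : r ^ 2 ≤ w * r ^ 2 := le_mul_of_one_le_left (by positivity) hw
    have key := hD (fun x : ℕ => -(r ^ 2 * g ^ 6 / (x + (i + a + r ^ 2)) -
        r ^ 2 * g ^ 6 / (x + (i + a + r ^ 2) + d))) 0 L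
      (2 * (r ^ 2 * g ^ 6) * d / (5 * w * r ^ 2) ^ 4) (2 * (r ^ 2 * g ^ 6) * d / (r ^ 2) ^ 3)
      (by positivity) (by positivity) (fun n _ hn => by
        have hn' : (n : ℝ) ≤ L := by exact_mod_cast hn.le
        have := second_Exp3 (v := n + (i + a + r ^ 2)) (d := d) (W := 5 * w * r ^ 2) hy0
          (by positivity) (by positivity) (by linarith)
        push_cast
        rw [add_right_comm (n : ℝ) 2, add_right_comm (n : ℝ) 1]
        exact this) (by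
        have h1 := (first_Exp3 (v := i + a + r ^ 2) (d := d) hy0 (by positivity)
          (by positivity)).2
        have h2 := (first_Exp3 (v := L + (i + a + r ^ 2)) (d := d) hy0 (by positivity)
          (by positivity)).1
        have h3 : 2 * (r ^ 2 * g ^ 6) * d / (i + a + r ^ 2) ^ 3 ≤
            2 * (r ^ 2 * g ^ 6) * d / (r ^ 2) ^ 3 := by
          gcongr
          linarith
        push_cast
        rw [zero_add, add_comm 1, add_right_comm (L : ℝ) 1]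
        linarith)
    rw [← range_eq_Ico, mul_assoc] at key
    have key' := key.trans (mul_le_mul_of_nonneg_left
      (num_Exp3 hg1 hc.le hw hd1 (by nlinarith [sq_nonneg g])) hC.le)
    rcases abs_choice Y with e | e
    · rw [norm_neg_Exp3, ← hy, e] at key'
      exact key'
    · rw [← hy, e] at key'
      simpa only [neg_div, neg_sub_neg, neg_sub] using key'
  have hne : (range M).Nonempty := nonempty_range_iff.2 (by omega)
  have hsq : r / g ≤ √M := Real.le_sqrt_of_sq_le (by rwa [div_pow])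
  have hvdc := vdc_Exp3 (u := fun x : ℕ => ex (Y / (((i + x : ℕ) : ℝ) + r ^ 2)))
    (fun n => (norm_ex _).le) (L := L) hM (τ := (1 + 205 * C) * w ^ 2 * (g * r) / L)
    (by positivity) (expect_le hne fun a ha => ?_)
  · rw [expect_eq_sum_div_card, norm_div, card_range, Complex.norm_natCast, ← add_div,
      div_le_div_iff_of_pos_right hL0] at hvdc
    refine hvdc.trans ?_
    have h1 : w ^ 2 ≤ w ^ 4 := pow_le_pow_right₀ hw (by norm_num)
    have h2 : r ≤ w ^ 4 * (g * r) :=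
      calc r = 1 * (1 * r) := by ring
        _ ≤ w ^ 4 * (g * r) := by
          gcongr
          linarith
    have h3 : (1 + 205 * C) * w ^ 2 * (g * r) ≤ (1 + 205 * C) * w ^ 4 * (g * r) := by gcongr
    linarith
  have hb : ∀ b ∈ range M, ‖𝔼 x ∈ range L, ex (Y / (((i + (x + a) : ℕ) : ℝ) + r ^ 2)) *
      conj (ex (Y / (((i + (x + b) : ℕ) : ℝ) + r ^ 2)))‖ ≤ (if a = b then 1 else 0) +
        C / L * (105 * w ^ 2 * g ^ 2 + 25 * w ^ 2 * r ^ 3 / g ^ 3 *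
          (1 / √((b - a : ℕ) : ℝ) + 1 / √((a - b : ℕ) : ℝ))) := by
    intro b hb
    rw [mem_range] at ha hb
    simp only [conj_ex, ← ex_add]
    rcases lt_trichotomy a b with h | h | h
    · obtain ⟨d, rfl⟩ : ∃ d, b = a + d := ⟨b - a, by omega⟩
      rw [if_neg h.ne, zero_add, Nat.add_sub_cancel_left, Nat.sub_eq_zero_of_le h.le,
        expect_eq_sum_div_card, norm_div, card_range, Complex.norm_natCast, div_mul_eq_mul_div]
      refine div_le_div_of_nonneg_right (le_of_eq_of_le ?_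
        ((hpair a d (by omega) hb.le).trans_eq (by simp))) hL0.le
      congr 1
      refine sum_congr rfl fun x _ => ?_
      push_cast
      congr 2 <;> ring
    · subst h
      rw [if_pos rfl]
      refine le_add_of_le_of_nonneg ((norm_expect_Exp3 _ _).trans ?_) (by positivity)
      exact expect_le (nonempty_range_iff.2 hL.ne') fun x _ => (norm_ex _).le
    · obtain ⟨d, rfl⟩ : ∃ d, a = b + d := ⟨a - b, by omega⟩
      rw [if_neg h.ne', zero_add, Nat.add_sub_cancel_left, Nat.sub_eq_zero_of_le h.le,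
        expect_eq_sum_div_card, norm_div, card_range, Complex.norm_natCast, div_mul_eq_mul_div]
      refine div_le_div_of_nonneg_right (le_of_eq_of_le ?_
        ((hpair b d (by omega) ha.le).trans_eq (by simp))) hL0.le
      rw [← norm_neg_Exp3]
      congr 1
      refine sum_congr rfl fun x _ => ?_
      push_cast
      congr 1
      ring
  refine (expect_le_expect hb).trans ?_
  have s1 := sum_inj_Exp3 (M := M) (f := fun b => b - a)
    (fun b hb => by rw [mem_range] at hb; omega) fun b b' h1 h2 h3 => by omega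
  have s2 := sum_inj_Exp3 (M := M) (f := fun b => a - b)
    (fun b _ => by rw [mem_range] at ha; omega) fun b b' h1 h2 h3 => by omega
  have hM0' : (0 : ℝ) < M := by linarith
  rw [expect_eq_sum_div_card, card_range, sum_add_distrib, sum_ite_eq, if_pos ha, ← mul_sum,
    sum_add_distrib, sum_const, card_range, nsmul_eq_mul, ← mul_sum, sum_add_distrib,
    div_le_iff₀ hM0']
  have hs : √(M : ℝ) * √M = M := Real.mul_self_sqrt hM0'.le
  have h1 : 25 * w ^ 2 * r ^ 3 / g ^ 3 * (4 * √M) ≤ M * (100 * w ^ 2 * g ^ 2) := by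
    have k1 : r ≤ √M * g := by rwa [div_le_iff₀ (by positivity)] at hsq
    rw [div_mul_eq_mul_div, div_le_iff₀ (by positivity)]
    calc 25 * w ^ 2 * r ^ 3 * (4 * √M) = 100 * w ^ 2 * √M * (r * r * r) := by ring
      _ ≤ 100 * w ^ 2 * √M * (g ^ 2 * g ^ 2 * (√M * g)) := by gcongr
      _ = √M * √M * (100 * w ^ 2 * g ^ 2) * g ^ 3 := by ring
      _ = _ := by rw [hs]
  have h2 : C / L * (M * (105 * w ^ 2 * g ^ 2) + 25 * w ^ 2 * r ^ 3 / g ^ 3 *
      (∑ b ∈ range M, 1 / √((b - a : ℕ) : ℝ) + ∑ b ∈ range M, 1 / √((a - b : ℕ) : ℝ))) ≤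
      C / L * (M * (205 * w ^ 2 * g ^ 2)) := by
    refine mul_le_mul_of_nonneg_left ?_ (by positivity)
    have := mul_le_mul_of_nonneg_left (add_le_add s1 s2)
      (by positivity : 0 ≤ 25 * w ^ 2 * r ^ 3 / g ^ 3)
    linarith
  refine (add_le_add_right h2 1).trans ?_
  have h3 : r ^ 2 ≤ M * g ^ 2 := by rwa [div_le_iff₀ (by positivity)] at hM1
  have e : ((1 + 205 * C) * w ^ 2 * (g * r) / L) ^ 2 * M =
      (1 + 205 * C) ^ 2 * (w ^ 4 * g ^ 2 * r ^ 2 * M) / L ^ 2 := by ring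
  rw [e, le_div_iff₀ (by positivity)]
  have h4 : (L : ℝ) ^ 2 ≤ w ^ 4 * g ^ 2 * r ^ 2 * M :=
    calc (L : ℝ) ^ 2 ≤ (w * r ^ 2) ^ 2 := by gcongr
      _ = w ^ 2 * r ^ 2 * r ^ 2 := by ring
      _ ≤ w ^ 4 * r ^ 2 * (M * g ^ 2) := by
        gcongr
        norm_num
      _ = _ := by ring
  have h5 : C / L * (M * (205 * w ^ 2 * g ^ 2)) * L ^ 2 ≤
      205 * C * (w ^ 4 * g ^ 2 * r ^ 2 * M) :=
    calc C / L * (M * (205 * w ^ 2 * g ^ 2)) * L ^ 2 = 205 * C * (w ^ 2 * g ^ 2 * M * L) := by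
          field_simp
      _ ≤ 205 * C * (w ^ 2 * g ^ 2 * M * (w * r ^ 2)) := by gcongr
      _ = 205 * C * (w ^ 3 * g ^ 2 * r ^ 2 * M) := by ring
      _ ≤ _ := by
        gcongr
        norm_num
  have h6 : (1 + 205 * C) * (w ^ 4 * g ^ 2 * r ^ 2 * M) ≤
      (1 + 205 * C) ^ 2 * (w ^ 4 * g ^ 2 * r ^ 2 * M) :=
    mul_le_mul_of_nonneg_right (le_self_pow₀ (by linarith) two_ne_zero) (by positivity)
  linarith

end Pool.Agent.MP_c853c5_nt.DS
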