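import Pool.Agent.MP_c853c5_nt.DS.Basic

set_option autoImplicit false

open Finset Filter Real
open scoped ComplexConjugate

namespace Pool.Agent.MP_c853c5_nt.DS

open Pool.Agent.MP_88bd62_nt.U (ex)

lemma exists_rpow_Geo {x y : ℝ} (hx : 1 < x) (hy : 0 < y) : ∃ e : ℝ, y = x ^ e :=
  ⟨logb x y, (rpow_logb (by linarith) hx.ne' hy).symm⟩

lemma pow_Geo {x : ℝ} (hx : 0 < x) (e : ℝ) (n : ℕ) : (x ^ e) ^ n = x ^ (n * e) := by
  rw [← rpow_natCast, ← rpow_mul hx.le, mul_comm]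

lemma sqrt_Geo {x : ℝ} (hx : 0 < x) (e : ℝ) : √(x ^ e) = x ^ (e / 2) := by
  rw [sqrt_eq_rpow, ← rpow_mul hx.le]
  congr 1
  ring

theorem geo_stmt : GeoStmt := by
  intro r η hr hη
  have hr2 : (2 : ℝ) ≤ r := by exact_mod_cast hr
  obtain ⟨γ, hγ, hrγ⟩ : ∃ γ : ℝ, 0 < γ ∧ r * γ = η / 16 :=
    ⟨η / (16 * r), by positivity, by field_simp⟩
  have hγη : γ ≤ η / 32 := by nlinarith
  refine ⟨η / 4, γ, by positivity, hγ, ?_⟩
  filter_upwards [eventually_gt_atTop 1,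
    (tendsto_rpow_atTop hγ).eventually_ge_atTop 2] with x hx h2
  intro τ t₁ a₀ a₂ a₁ M K P ht1 ht2 ht3 ht4 hD hM hK1 hK2 hP1 hP2 hN X hX1 hX2
  have hx0 : 0 < x := by linarith
  obtain ⟨d1, d2, d3, d4, d5, d6, d7⟩ := hD
  have hM0 : (0 : ℝ) < M := (rpow_pos_of_pos hx0 _).trans_le hM
  have hK0 : (0 : ℝ) < K := (rpow_pos_of_pos hx0 _).trans_le hK1
  have hP0 : (0 : ℝ) < P := (rpow_pos_of_pos hx0 _).trans_le hP1
  have hX0 : 0 < X := by linarith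
  have hL0 : 0 < Lm X (x ^ (-t₁)) K P := one_pos.trans_le (one_le_Lm _ _ _ _)
  obtain ⟨mm, hm⟩ := exists_rpow_Geo hx hM0
  obtain ⟨kk, hk⟩ := exists_rpow_Geo hx hK0
  obtain ⟨pp, hp⟩ := exists_rpow_Geo hx hP0
  obtain ⟨xx, hxx⟩ := exists_rpow_Geo hx hX0
  obtain ⟨ll, hl⟩ := exists_rpow_Geo hx hL0
  have up : ∀ {a b : ℝ}, a ≤ b → x ^ a ≤ x ^ b := fun h => rpow_le_rpow_of_exponent_le hx.le h
  have dn : ∀ {a b : ℝ}, x ^ a ≤ x ^ b → a ≤ b := fun h => (rpow_le_rpow_left_iff hx).1 h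
  have m1 : a₀ - γ ≤ mm := dn (hm ▸ hM)
  have k1 : a₂ - γ ≤ kk := dn (hk ▸ hK1)
  have k2 : kk ≤ a₂ + γ := dn (hk ▸ hK2)
  have p1 : a₁ - γ ≤ pp := dn (hp ▸ hP1)
  have p2 : pp ≤ a₁ + γ := dn (hp ▸ hP2)
  have x1 : 1 ≤ xx + γ := by
    refine dn ?_
    rw [rpow_add hx0, rpow_one, ← hxx]
    have e1 := mul_le_mul_of_nonneg_left h2 hX0.le
    linarith
  have n1 : mm + (kk + pp) ≤ γ + 1 := by
    refine dn ?_
    rw [rpow_add hx0, rpow_add hx0, rpow_add hx0, rpow_one, ← hm, ← hk, ← hp]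
    exact hN.trans (mul_le_mul_of_nonneg_right h2 hx0.le)
  have k0a : (0 : ℝ) ≤ max 0 (τ - a₀) := le_max_left _ _
  have k0b : τ - a₀ ≤ max 0 (τ - a₀) := le_max_right _ _
  generalize max 0 (τ - a₀) = k₀ at *
  have l1 : ll ≤ k₀ + 3 * γ := by
    refine dn ?_
    rw [← hl]
    refine max_le (one_le_rpow hx.le (by linarith)) ?_
    rw [hk, hp, hxx, ← rpow_add hx0, ← rpow_add hx0, ← rpow_sub hx0]
    exact up (by linarith)
  have l2 : r * ll ≤ r * k₀ + 3 * (η / 16) := by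
    have e1 := mul_le_mul_of_nonneg_left l1 (Nat.cast_nonneg r : (0 : ℝ) ≤ r)
    linarith
  have hinv : 1 / x ^ (-t₁) = x ^ t₁ := by rw [rpow_neg hx0.le, one_div, inv_inv]
  have c1 : ((r - 1 : ℕ) : ℝ) = r - 1 := by rw [Nat.cast_sub (by omega), Nat.cast_one]
  have c2 : ((2 * r - 2 : ℕ) : ℝ) = 2 * r - 2 := by
    rw [Nat.cast_sub (by omega)]
    push_cast
    ring
  refine ⟨hX1, hX2, up (by linarith), up (by linarith), Nat.cast_pos.1 hK0, Nat.cast_pos.1 hP0,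
    ?_, ?_, ?_, ?_, ?_, ?_, ?_⟩
  · rw [hp, ← rpow_add hx0, ← rpow_add hx0, ← rpow_zero x]
    exact up (by linarith)
  · rw [hl, hk, hp, ← rpow_add hx0, ← rpow_add hx0, pow_Geo hx0, pow_Geo hx0, ← rpow_add hx0, c1]
    refine up ?_
    have e1 : (r - 1) * (a₁ + a₂ - τ - 2 * γ) ≤ (r - 1) * (kk + pp + -t₁) :=
      mul_le_mul_of_nonneg_left (by linarith) (by linarith)
    linarith
  · rw [hk, hp, hxx, ← rpow_add hx0, pow_Geo hx0, ← rpow_add hx0, c2]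
    refine up ?_
    have e1 : (2 * r - 2) * kk ≤ (2 * r - 2) * (a₂ + γ) :=
      mul_le_mul_of_nonneg_left (by linarith) (by linarith)
    linarith
  · have e1 : zb (1 / x ^ (-t₁)) (P / K) ≤ x ^ (min (t₁ / 2) (t₁ / 6 + (pp - kk) / 2)) := by
      rw [zb, hinv, hk, hp, ← rpow_sub hx0, sqrt_Geo hx0, sqrt_Geo hx0, ← rpow_mul hx0.le,
        ← rpow_add hx0]
      rcases min_choice (t₁ / 2) (t₁ / 6 + (pp - kk) / 2) with h | h
      · rw [h]
        exact min_le_left _ _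
      · rw [h]
        exact (min_le_right _ _).trans (up (by linarith))
    refine (mul_le_mul_of_nonneg_right (mul_le_mul_of_nonneg_left e1 (by positivity))
      (by positivity)).trans ?_
    rw [hl, hk, hp, pow_Geo hx0, ← rpow_add hx0, ← rpow_add hx0, ← rpow_sub hx0]
    refine up ?_
    have e2 := min_le_left (t₁ / 2) (t₁ / 6 + (pp - kk) / 2)
    have e3 := min_le_right (t₁ / 2) (t₁ / 6 + (pp - kk) / 2)
    push_cast
    rcases min_choice (τ / 2) (τ / 6 + (a₁ - a₂) / 2) with h | h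
    · rw [h] at d4
      linarith
    · rw [h] at d4
      linarith
  · rw [hl, hk, ← rpow_add hx0]
    exact up (by linarith)
  · rw [hl, hk, hp, hxx, pow_Geo hx0, ← rpow_add hx0, ← rpow_add hx0, ← rpow_add hx0,
      ← rpow_add hx0]
    refine up ?_
    push_cast
    linarith
  · rw [hl, hp, hinv, pow_Geo hx0, sqrt_Geo hx0, ← rpow_add hx0, ← rpow_add hx0]
    refine up ?_
    push_cast
    linarith

end Pool.Agent.MP_c853c5_nt.DS
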