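import Pool.Agent.MP_c853c5_nt.DS.Basic
set_option autoImplicit false
open Finset Filter Real
open scoped ComplexConjugate
namespace Pool.Agent.MP_c853c5_nt.DS
open Pool.Agent.MP_88bd62_nt.U (ex)

lemma half_GridV {ι : Type} [Fintype ι] {K : ℕ} {τ η r : ℝ} {b v : ι → ℝ}
    (h : E.Eval K τ η ((τ + ∑ j, b j) / 2) (fun o : Option ι => o.elim τ b)) (h0 : 0 ≤ r)
    (h1 : r ≤ τ) (h2 : ∀ j, v j ≤ b j / 2) (h3 : E.Cons K τ b r v) :
    (1 / 2 + η) * r + ∑ j, v j ≤ (∑ j, b j) / 2 := by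
  have key := h r (fun o : Option ι => o.elim ((τ - r) / 2) v) h0 h1 ?_ ?_
  · rw [Fintype.sum_option] at key
    simp only [Option.elim_none, Option.elim_some] at key
    linarith
  · rintro (_ | j)
    · simp only [Option.elim_none]
      linarith
    · exact h2 j
  · intro κ hκ
    rw [Fintype.sum_option, Fintype.sum_option]
    simp only [Option.elim_none, Option.elim_some]
    rcases Nat.eq_zero_or_pos (κ none) with hk | hk
    · rw [hk, Nat.cast_zero, zero_mul, zero_mul, zero_add, zero_add]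
      exact h3 (fun j => κ (some j)) fun j => hκ _
    · have a1 : (1 : ℝ) ≤ κ none := by exact_mod_cast hk
      have a2 : 2 * ∑ j, (κ (some j) : ℝ) * v j ≤ ∑ j, (κ (some j) : ℝ) * b j := by
        rw [mul_sum]
        refine sum_le_sum fun j _ => ?_
        have := mul_le_mul_of_nonneg_left (h2 j) (Nat.cast_nonneg (κ (some j)) : (0 : ℝ) ≤ _)
        linarith
      obtain ⟨n, hn⟩ : ∃ n : ℝ, n = (κ none : ℝ) * τ + ∑ j, (κ (some j) : ℝ) * b j := ⟨_, rfl⟩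
      obtain ⟨w, hw⟩ : ∃ w : ℝ,
        w = (κ none : ℝ) * ((τ - r) / 2) + ∑ j, (κ (some j) : ℝ) * v j := ⟨_, rfl⟩
      have a3 : r ≤ n - 2 * w := by
        have := mul_le_mul_of_nonneg_right a1 h0
        rw [hn, hw]
        linarith
      rw [← hn, ← hw]
      exact ⟨by linarith [le_max_right τ n], le_max_of_le_left a3, le_max_of_le_left a3,
        le_max_of_le_left a3, le_max_of_le_left (by linarith)⟩

lemma eval_GridV {ι : Type} [Fintype ι] {K : ℕ} {τ η : ℝ} {b : ι → ℝ}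
    (h : E.Eval K τ η ((τ + ∑ j, b j) / 2) (fun o : Option ι => o.elim τ b)) :
    E.Eval K τ (2 * η) (∑ j, b j) (Sum.elim b b) := by
  intro r v h0 h1 h2 h3
  have k1 := half_GridV (v := fun j => v (Sum.inl j)) h h0 h1 (fun j => h2 (Sum.inl j))
    fun κ hκ => by
      have := h3 (Sum.elim κ fun _ => 0) (by
        rintro (j | j)
        · exact hκ j
        · exact Nat.zero_le _)
      simpa [Fintype.sum_sum_type] using this
  have k2 := half_GridV (v := fun j => v (Sum.inr j)) h h0 h1 (fun j => h2 (Sum.inr j))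
    fun κ hκ => by
      have := h3 (Sum.elim (fun _ => 0) κ) (by
        rintro (j | j)
        · exact Nat.zero_le _
        · exact hκ j)
      simpa [Fintype.sum_sum_type] using this
  rw [Fintype.sum_sum_type]
  linarith

lemma split_GridV {ι : Type} [Fintype ι] [DecidableEq ι] {a c : ι} (hac : a ≠ c) (f : ι → ℝ) :
    ∏ j, f j = f a * (f c * ∏ j ∈ (univ.erase a).erase c, f j) := by
  rw [mul_prod_erase _ f (mem_erase.2 ⟨hac.symm, mem_univ c⟩), mul_prod_erase _ f (mem_univ a)]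

lemma on_GridV {ι : Type} [Fintype ι] [DecidableEq ι] {a c : ι} (hac : a ≠ c) (S : Finset ℤ)
    (f : ι → ℤ → ℝ) (N : ι → ℝ) {H q : ℝ} (hH : 0 ≤ H) (hq : 0 < q)
    (h0 : ∀ j m, 0 ≤ f j m) (h1 : ∀ j m, f j m ≤ 2 * N j)
    (ha : ∑ m ∈ S, f a m ^ 2 ≤ H * N a ^ 2) (hc : ∀ m ∈ S, f c m ≤ N c / q) :
    ∑ m ∈ S, ∏ j, f j m ^ 2 ≤ H / q ^ 2 * ∏ j, (2 * N j) ^ 2 := by
  set R := ∏ j ∈ (univ.erase a).erase c, (2 * N j) ^ 2 with hR
  have hR0 : 0 ≤ R := prod_nonneg fun j _ => sq_nonneg _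
  have e2 : ∑ m ∈ S, ∏ j, f j m ^ 2 ≤ (∑ m ∈ S, f a m ^ 2) * ((N c / q) ^ 2 * R) := by
    rw [sum_mul]
    refine sum_le_sum fun m hm => ?_
    rw [split_GridV hac fun j => f j m ^ 2]
    refine mul_le_mul_of_nonneg_left ?_ (sq_nonneg _)
    exact mul_le_mul (pow_le_pow_left₀ (h0 c m) (hc m hm) 2)
      (prod_le_prod (fun j _ => sq_nonneg _) fun j _ => pow_le_pow_left₀ (h0 j m) (h1 j m) 2)
      (prod_nonneg fun j _ => sq_nonneg _) (sq_nonneg _)
  refine e2.trans ((mul_le_mul_of_nonneg_right ha (by positivity)).trans ?_)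
  rw [split_GridV hac fun j => (2 * N j) ^ 2, ← hR]
  have e3 : 0 ≤ H / q ^ 2 * (N a ^ 2 * N c ^ 2 * R) := by positivity
  have e4 : H * N a ^ 2 * ((N c / q) ^ 2 * R) = H / q ^ 2 * (N a ^ 2 * N c ^ 2 * R) := by ring
  have e5 : H / q ^ 2 * ((2 * N a) ^ 2 * ((2 * N c) ^ 2 * R)) =
      16 * (H / q ^ 2 * (N a ^ 2 * N c ^ 2 * R)) := by ring
  rw [e4, e5]
  linarith

theorem gridV_stmt (hC : E.CoreStmt) (hS : E.SelfStmt) (hH : E.HalStmt) : GridVStmt := by
  classical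
  intro ι _ K A η c₀ ia ic hac hη hc₀
  obtain ⟨rH, C, hr, hC0, hH⟩ := hH c₀ hc₀
  obtain ⟨ε, hε, e1, e2, e3⟩ : ∃ ε : ℝ, 0 < ε ∧ ε ≤ rH / 2 ∧ ε ≤ η * rH / 4 ∧ ε ≤ 1 / 2 :=
    ⟨min (rH / 2) (min (η * rH / 4) (1 / 2)), by positivity, min_le_left _ _,
      (min_le_right _ _).trans (min_le_left _ _), (min_le_right _ _).trans (min_le_right _ _)⟩
  obtain ⟨g, hg, hgε, hC⟩ := hC (ι ⊕ ι) K ε hε
  obtain ⟨D, hD, hD1⟩ : ∃ D : ℝ, D = 2 ^ Fintype.card ι ∧ 1 ≤ D :=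
    ⟨_, rfl, one_le_pow₀ (by norm_num)⟩
  obtain ⟨γ, hγ, g1, g2⟩ : ∃ γ : ℝ, 0 < γ ∧ γ ≤ g / 2 ∧ Fintype.card ι * γ ≤ ε := by
    refine ⟨min (g / 2) (ε / (Fintype.card ι + 1)), by positivity, min_le_left _ _, ?_⟩
    have h0 : (0 : ℝ) ≤ Fintype.card ι := Nat.cast_nonneg _
    refine (mul_le_mul_of_nonneg_left (min_le_right _ _) h0).trans ?_
    rw [← mul_div_assoc, div_le_iff₀ (by positivity)]
    nlinarith
  refine ⟨γ, hγ, ?_⟩
  filter_upwards [hH, hC, eventually_gt_atTop 1, E.ev_const_le 2 (half_pos hg),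
    E.ev_log_le (4 * D) A hε, E.ev_log_le (4 * D) A hc₀, E.ev_le_log (2 * C * D ^ 2),
    E.ev_le_log 1] with x hH hC hx h2 h3 h3' h4 h5
  intro τ u b T N c S hτ0 hτ1 hb hE hT hTx hN ha hc hS' hic
  have hx0 : 0 < x := by linarith
  have hl : 0 < Real.log x := Real.log_pos hx
  have hN1 : ∀ j, (1 : ℝ) ≤ N j := fun j => by exact_mod_cast (hN j).1
  have hN0 : ∀ j, (0 : ℝ) < N j := fun j => one_pos.trans_le (hN1 j)
  have hTx' : (T : ℝ) ≤ x := by
    refine hTx.trans ((Real.rpow_le_rpow_of_exponent_le hx.le ?_).trans_eq (Real.rpow_one x))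
    linarith
  obtain ⟨φ, hφ⟩ : ∃ φ : ι → ℤ → ℝ,
    φ = fun (j : ι) (m : ℤ) => ‖E.BP (N j) (c j) (u + m)‖ / √((2 * N j : ℕ) : ℝ) := ⟨_, rfl⟩
  have hφ0 : ∀ j t, 0 ≤ φ j t := fun j t => by rw [hφ]; positivity
  have hL : ∀ j, 1 ≤ 2 * N j ∧ ((2 * N j : ℕ) : ℝ) ≤ x ^ (b j + g) := fun j =>
    ⟨by have := (hN j).1; omega, by
      rw [show b j + g = g / 2 + (b j + g / 2) by ring, Real.rpow_add hx0]
      push_cast
      exact mul_le_mul h2 ((hN j).2.2.trans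
        (Real.rpow_le_rpow_of_exponent_le hx.le (by linarith))) (hN0 j).le
        (Real.rpow_nonneg hx0.le _)⟩
  have hDom : ∀ j, E.Dom S (φ j) (2 * N j) (x ^ g) := fun j =>
    (hS S (Icc (N j) (2 * N j)) (c j) (2 * N j) u (hL j).1
      (Icc_subset_Icc (hN j).1 le_rfl) (hc j)).mono zero_le_one zero_le_one
      (by rw [one_mul]; exact Real.one_le_rpow hx.le hg.le)
      fun t _ => ⟨hφ0 j t, by rw [hφ]; exact (one_mul _).ge⟩
  obtain ⟨S₀, s1, s2, s3⟩ := hC (fun _ _ => True) τ (2 * η) (∑ j, b j) (rH / 2) (Sum.elim b b) T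
    (Sum.elim (fun j => 2 * N j) fun j => 2 * N j) S (Sum.elim φ φ) hτ0 (by linarith)
    (by positivity) (by positivity) (by rintro (j | j) <;> exact hb j) (eval_GridV hE).toX hT
    (hTx.trans (Real.rpow_le_rpow_of_exponent_le hx.le (by linarith)))
    (by rintro (j | j) <;> exact hL j) hS' (by rintro (j | j) t _ <;> exact hφ0 j t)
    (by rintro (j | j) <;> exact hDom j) (fun _ _ _ _ _ _ => trivial)
  obtain ⟨Q, hQ⟩ : ∃ Q : ℝ, Q = ∏ j, (N j : ℝ) := ⟨_, rfl⟩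
  have hP2 : ∏ j, (2 * (N j : ℝ)) = D * Q := by
    rw [prod_mul_distrib, prod_const, card_univ, hD, hQ]
  have hQa : x ^ c₀ ≤ Q := by
    rw [hQ, ← mul_prod_erase _ _ (mem_univ ia)]
    exact ha.trans (le_mul_of_one_le_right (hN0 ia).le
      (one_le_prod fun j _ => hN1 j))
  have hQ0 : 0 < Q := (Real.rpow_pos_of_pos hx0 _).trans_le hQa
  have hQb : x ^ (∑ j, b j - ε) ≤ Q := by
    have a1 : x ^ (∑ j, (b j - γ)) ≤ Q := by
      rw [Real.rpow_sum_of_pos hx0, hQ]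
      exact prod_le_prod (fun j _ => Real.rpow_nonneg hx0.le _) fun j _ => (hN j).2.1
    refine le_trans (Real.rpow_le_rpow_of_exponent_le hx.le ?_) a1
    rw [sum_sub_distrib, sum_const, card_univ, nsmul_eq_mul]
    linarith
  have hcard : (S₀.card : ℝ) ≤ x ^ rH :=
    s2.trans (Real.rpow_le_rpow_of_exponent_le hx.le (by linarith))
  have k1 := on_GridV hac S₀ (fun j m => ‖E.BP (N j) (c j) (u + m)‖) (fun j => (N j : ℝ))
    (H := C * Real.log x) (q := Real.log x ^ (A + 2)) (by positivity) (by positivity)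
    (fun _ _ => norm_nonneg _) (fun j m => E.norm_BP_le (hN j).1 (hc j) _)
    ((hH (N ia) T (c ia) u S₀ ha hTx' (s1.trans hS') hcard (hc ia)).trans_eq (by ring))
    fun m hm => hic m (s1 hm)
  have k2 : C * Real.log x / (Real.log x ^ (A + 2)) ^ 2 * ∏ j, (2 * (N j : ℝ)) ^ 2 ≤
      Q ^ 2 / Real.log x ^ A / 2 := by
    rw [prod_pow, hP2]
    have e : C * Real.log x / (Real.log x ^ (A + 2)) ^ 2 * (D * Q) ^ 2 =
        Q ^ 2 / Real.log x ^ A / 2 * (2 * C * D ^ 2 / (Real.log x * Real.log x ^ (A + 2))) := by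
      field_simp
      ring
    rw [e]
    refine mul_le_of_le_one_right (by positivity) ((div_le_one (by positivity)).2 ?_)
    exact h4.trans (le_mul_of_one_le_right hl.le (one_le_pow₀ h5))
  have k3 : ∑ m ∈ S \ S₀, ∏ j, ‖E.BP (N j) (c j) (u + m)‖ ^ 2 =
      D * Q * ∑ m ∈ S \ S₀, ∏ j, Sum.elim φ φ j m := by
    rw [mul_sum]
    refine sum_congr rfl fun m _ => ?_
    rw [← hP2, Fintype.prod_sum_type, ← prod_mul_distrib, ← prod_mul_distrib]
    refine prod_congr rfl fun j _ => ?_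
    have a1 : (0 : ℝ) < ((2 * N j : ℕ) : ℝ) := by have := hN0 j; push_cast; positivity
    simp only [Sum.elim_inl, Sum.elim_inr, hφ]
    rw [← sq, div_pow, Real.sq_sqrt a1.le]
    have := hN0 j
    push_cast
    field_simp
  have k4 : 4 * D * Real.log x ^ A * x ^ (∑ j, b j - 2 * η * (rH / 2) + ε) ≤ Q := by
    refine (mul_le_mul_of_nonneg_right h3 (Real.rpow_nonneg hx0.le _)).trans (le_trans ?_ hQb)
    rw [← Real.rpow_add hx0]
    exact Real.rpow_le_rpow_of_exponent_le hx.le (by linarith)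
  have k5 : D * Q * (x ^ (∑ j, b j - 2 * η * (rH / 2) + ε) + 1) ≤
      Q ^ 2 / Real.log x ^ A / 2 := by
    have a1 := mul_le_mul_of_nonneg_left k4 hQ0.le
    have a2 := mul_le_mul_of_nonneg_left (h3'.trans hQa) hQ0.le
    rw [le_div_iff₀ two_pos, le_div_iff₀ (by positivity)]
    linarith
  have k6 := mul_le_mul_of_nonneg_left s3 (show 0 ≤ D * Q by positivity)
  rw [← sum_sdiff s1, k3, ← hQ]
  linarith

end Pool.Agent.MP_c853c5_nt.DS
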