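import Pool.Agent.MP_c853c5_nt.DS.Basic
import Pool.Agent.MP_2a1f0e_nt.Power

set_option autoImplicit false

open Finset Filter Real
open scoped ComplexConjugate

namespace Pool.Agent.MP_c853c5_nt.DS

open Pool.Agent.MP_88bd62_nt.U (ex)
open S (AF Slot)
open Pool.Agent.MP_2a1f0e_nt

section

variable {ι : Type} {N : ι → ℕ} {g : ι → AF}

lemma supp_Grp (A : Finset ι) (h : ∀ i ∈ A, Slot (N i) (g i)) :
    ∀ m, (∏ i ∈ A, g i) m ≠ 0 → m ∈ Icc (∏ i ∈ A, N i) (2 ^ A.card * ∏ i ∈ A, N i) := by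
  classical
  induction A using Finset.induction_on with
  | empty =>
    intro m hm
    rw [prod_empty, ArithmeticFunction.one_apply] at hm
    split_ifs at hm with k
    · simp [k]
    · exact absurd rfl hm
  | insert i A hi ih =>
    intro m hm
    rw [prod_insert hi, ArithmeticFunction.mul_apply] at hm
    obtain ⟨p, hp, h0⟩ := exists_ne_zero_of_sum_ne_zero hm
    obtain ⟨h1, h2⟩ := (h i (mem_insert_self _ _)).2.2 _ (left_ne_zero_of_mul h0)
    obtain ⟨h3, h4⟩ := mem_Icc.1 (ih (fun j hj => h j (mem_insert_of_mem hj)) _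
      (right_ne_zero_of_mul h0))
    rw [prod_insert hi, card_insert_of_notMem hi, ← (Nat.mem_divisorsAntidiagonal.1 hp).1]
    refine mem_Icc.2 ⟨Nat.mul_le_mul h1 h3, (Nat.mul_le_mul h2.le h4).trans_eq ?_⟩
    ring

lemma zeta_Grp (A : Finset ι) (h : ∀ i ∈ A, Slot (N i) (g i)) :
    ∀ m, |(∏ i ∈ A, g i) m| ≤
      (((ArithmeticFunction.zeta ^ A.card : ArithmeticFunction ℕ) m : ℕ) : ℝ) := by
  classical
  induction A using Finset.induction_on with
  | empty =>
    intro m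
    rw [prod_empty, card_empty, pow_zero, ArithmeticFunction.one_apply,
      ArithmeticFunction.one_apply]
    split_ifs <;> simp
  | insert i A hi ih =>
    intro m
    rw [prod_insert hi, card_insert_of_notMem hi, pow_succ', ArithmeticFunction.mul_apply,
      ArithmeticFunction.mul_apply, Nat.cast_sum]
    refine (abs_sum_le_sum_abs _ _).trans (sum_le_sum fun p hp => ?_)
    rw [abs_mul, ArithmeticFunction.zeta_apply_ne
      (Nat.left_ne_zero_of_mem_divisorsAntidiagonal hp), one_mul]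
    exact (mul_le_of_le_one_left (abs_nonneg _) ((h i (mem_insert_self _ _)).2.1 _)).trans
      (ih (fun j hj => h j (mem_insert_of_mem hj)) _)

lemma div_Grp (A : Finset ι) (h : ∀ i ∈ A, Slot (N i) (g i)) :
    ∀ m, |(∏ i ∈ A, g i) m| ≤ (m.divisors.card : ℝ) ^ A.card := by
  classical
  induction A using Finset.induction_on with
  | empty =>
    intro m
    rw [prod_empty, card_empty, pow_zero, ArithmeticFunction.one_apply]
    split_ifs <;> simp
  | insert i A hi ih =>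
    intro m
    rw [prod_insert hi, card_insert_of_notMem hi, pow_succ', ArithmeticFunction.mul_apply]
    refine (abs_sum_le_sum_abs _ _).trans ((sum_le_card_nsmul _ _
      ((m.divisors.card : ℝ) ^ A.card) fun p hp => ?_).trans_eq ?_)
    · rw [abs_mul]
      refine (mul_le_of_le_one_left (abs_nonneg _) ((h i (mem_insert_self _ _)).2.1 _)).trans
        ((ih (fun j hj => h j (mem_insert_of_mem hj)) _).trans ?_)
      obtain ⟨h1, h2⟩ := Nat.mem_divisorsAntidiagonal.1 hp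
      exact pow_le_pow_left₀ (Nat.cast_nonneg _) (Nat.cast_le.2
        (card_le_card (Nat.divisors_subset_of_dvd h2 (Dvd.intro_left _ h1)))) _
    · rw [nsmul_eq_mul, ← Nat.map_div_right_divisors, card_map]

lemma indep_Grp {f : AF} {R R' : Finset ℕ} (h : ∀ m, f m ≠ 0 → m ∈ R) (h' : ∀ m, f m ≠ 0 → m ∈ R')
    (t : ℝ) : E.FP R f t = E.FP R' f t := by
  have key : ∀ {R R' : Finset ℕ}, (∀ m, f m ≠ 0 → m ∈ R) → E.FP R f t = E.FP (R ∪ R') f t :=
    fun h => sum_subset subset_union_left fun m _ hm => by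
      rw [not_not.1 (mt (h m) hm), Complex.ofReal_zero, zero_mul]
  rw [key h, key h', union_comm]

/-- the complex version of an arithmetic function -/
def cx_Grp (f : AF) : ArithmeticFunction ℂ := ⟨fun n => (f n : ℂ), by simp⟩

lemma cx_apply_Grp (f : AF) (n : ℕ) : cx_Grp f n = (f n : ℂ) := rfl

lemma mul_Grp {f f' : AF} {a b c d : ℕ} (ha : 1 ≤ a) (hc : 1 ≤ c)
    (h : ∀ m, f m ≠ 0 → m ∈ Icc a b) (h' : ∀ m, f' m ≠ 0 → m ∈ Icc c d) (t : ℝ) :
    E.FP (Icc (a * c) (b * d)) (f * f' : AF) t = E.FP (Icc a b) f t * E.FP (Icc c d) f' t := by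
  have k := conv_sum (cx_Grp f) (cx_Grp f') (Icc a b) (Icc c d) (Icc (a * c) (b * d))
    (fun n hn => by rw [cx_apply_Grp, not_not.1 (mt (h n) hn), Complex.ofReal_zero])
    (fun n hn => by rw [cx_apply_Grp, not_not.1 (mt (h' n) hn), Complex.ofReal_zero])
    (fun x hx => by have := (mem_Icc.1 hx).1; omega)
    (fun x hx => by have := (mem_Icc.1 hx).1; omega)
    (fun x hx y hy => mem_Icc.2 ⟨Nat.mul_le_mul (mem_Icc.1 hx).1 (mem_Icc.1 hy).1,
      Nat.mul_le_mul (mem_Icc.1 hx).2 (mem_Icc.1 hy).2⟩)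
    (fun n => GM.pw (n : ℝ) t) fun x y hx hy => by
      rw [Nat.cast_mul, GM.pw_mul (Nat.cast_ne_zero.2 hx) (Nat.cast_ne_zero.2 hy)]
  refine Eq.trans (sum_congr rfl fun n _ => ?_) k
  simp only [ArithmeticFunction.mul_apply, cx_apply_Grp, Complex.ofReal_sum, Complex.ofReal_mul]

lemma fp_Grp (A : Finset ι) (h : ∀ i ∈ A, Slot (N i) (g i)) (t : ℝ) :
    E.FP (Icc (∏ i ∈ A, N i) (2 ^ A.card * ∏ i ∈ A, N i)) (∏ i ∈ A, g i : AF) t =
      ∏ i ∈ A, E.BP (N i) (g i) t := by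
  classical
  induction A using Finset.induction_on with
  | empty => simp [E.FP, GM.pw_one]
  | insert i A hi ih =>
    have h1 := h i (mem_insert_self _ _)
    have h2 : ∀ j ∈ A, Slot (N j) (g j) := fun j hj => h j (mem_insert_of_mem hj)
    rw [prod_insert hi, prod_insert hi, prod_insert hi, card_insert_of_notMem hi, ← ih h2, E.BP,
      ← mul_Grp h1.1 (Nat.succ_le_of_lt (prod_pos fun j hj => (h2 j hj).1)) (fun m hm => mem_Icc.2
        ⟨(h1.2.2 m hm).1, (h1.2.2 m hm).2.le⟩) (supp_Grp A h2)]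
    congr 2
    ring

end

theorem grp_fix : ∀ (ι : Type) (A : Finset ι) (N : ι → ℕ) (g : ι → AF),
    (∀ i ∈ A, Slot (N i) (g i)) →
    (∀ m, (∏ i ∈ A, g i) m ≠ 0 → m ∈ Icc (∏ i ∈ A, N i) (2 ^ A.card * ∏ i ∈ A, N i)) ∧
    (∀ m, |(∏ i ∈ A, g i) m| ≤
      (((ArithmeticFunction.zeta ^ A.card : ArithmeticFunction ℕ) m : ℕ) : ℝ)) ∧
    (∀ m, |(∏ i ∈ A, g i) m| ≤ (m.divisors.card : ℝ) ^ A.card) ∧
    ∀ (R : Finset ℕ) (t : ℝ), (∀ m, (∏ i ∈ A, g i) m ≠ 0 → m ∈ R) →
      E.FP R (∏ i ∈ A, g i : AF) t = ∏ i ∈ A, E.BP (N i) (g i) t := fun _ A _ _ h =>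
  ⟨supp_Grp A h, zeta_Grp A h, div_Grp A h, fun _ t hR =>
    (indep_Grp hR (supp_Grp A h) t).trans (fp_Grp A h t)⟩

end Pool.Agent.MP_c853c5_nt.DS
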