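import Pool.Agent.MP_c853c5_nt.DS.Basic

set_option autoImplicit false

open Finset Filter Real
open scoped ComplexConjugate

namespace Pool.Agent.MP_c853c5_nt.DS

open Pool.Agent.MP_88bd62_nt.U (ex)

open ArithmeticFunction in
theorem sub_L2 (k a b : ℕ) :
    (zeta ^ k : ArithmeticFunction ℕ) (a * b) ≤
      (zeta ^ k : ArithmeticFunction ℕ) a * (zeta ^ k : ArithmeticFunction ℕ) b := by
  induction k generalizing a b with
  | zero =>
    rw [pow_zero, one_apply]
    split_ifs with h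
    · rw [Nat.eq_one_of_mul_eq_one_right h, Nat.eq_one_of_mul_eq_one_left h, one_one, one_mul]
    · exact Nat.zero_le _
  | succ k ih =>
    rw [pow_succ, mul_zeta_apply, mul_zeta_apply, mul_zeta_apply, Nat.divisors_mul,
      Finset.mul_def, sum_mul_sum, ← sum_product']
    exact (sum_image_le_of_nonneg fun _ _ => Nat.zero_le _).trans (sum_le_sum fun x _ => ih _ _)

open ArithmeticFunction in
theorem one_L2 (k : ℕ) : (zeta ^ k : ArithmeticFunction ℕ) 1 = 1 := by
  induction k with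
  | zero => rw [pow_zero, one_one]
  | succ k ih => rw [pow_succ, mul_zeta_apply, Nat.divisors_one, sum_singleton, ih]

open ArithmeticFunction in
theorem mul_L2 (k l m : ℕ) :
    (zeta ^ k : ArithmeticFunction ℕ) m * (zeta ^ l : ArithmeticFunction ℕ) m ≤
      (zeta ^ (k * l) : ArithmeticFunction ℕ) m := by
  induction l generalizing m with
  | zero =>
    rw [mul_zero, pow_zero, one_apply]
    split_ifs with h
    · rw [h, one_L2, one_mul]
    · exact Nat.le_refl _
  | succ l ih =>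
    rw [mul_add, mul_one, pow_add _ (k * l), pow_succ, mul_apply, mul_apply, mul_sum]
    refine sum_le_sum fun x hx => ?_
    have h1 := Nat.mem_divisorsAntidiagonal.1 hx
    have h2 : x.2 ≠ 0 := fun h => h1.2 (by rw [← h1.1, h, mul_zero])
    rw [zeta_apply_ne h2, mul_one, ← h1.1]
    calc _ ≤ (zeta ^ k : ArithmeticFunction ℕ) x.1 * (zeta ^ k : ArithmeticFunction ℕ) x.2 *
          (zeta ^ l : ArithmeticFunction ℕ) x.1 := Nat.mul_le_mul_right _ (sub_L2 k _ _)
      _ = (zeta ^ k : ArithmeticFunction ℕ) x.1 * (zeta ^ l : ArithmeticFunction ℕ) x.1 *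
          (zeta ^ k : ArithmeticFunction ℕ) x.2 := by ring
      _ ≤ _ := Nat.mul_le_mul_right _ (ih _)

theorem harm_L2 {Y Y₀ : ℕ} (h : Y ≤ Y₀) :
    ∑ n ∈ Ioc 0 Y, (n : ℝ)⁻¹ ≤ 1 + Real.log Y₀ := by
  have h1 := harmonic_le_one_add_log Y₀
  simp only [harmonic_eq_sum_Icc, Rat.cast_sum, Rat.cast_inv, Rat.cast_natCast] at h1
  refine le_trans (sum_le_sum_of_subset_of_nonneg (fun n hn => ?_) fun _ _ _ => by positivity) h1
  rw [mem_Ioc] at hn
  exact mem_Icc.2 ⟨hn.1, hn.2.trans h⟩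

open ArithmeticFunction in
theorem sum_L2 (Y₀ j : ℕ) {Y : ℕ} (h : Y ≤ Y₀) :
    ((∑ m ∈ Ioc 0 Y, (zeta ^ j : ArithmeticFunction ℕ) m : ℕ) : ℝ) ≤
      Y * (1 + Real.log Y₀) ^ j := by
  have hH : 0 ≤ 1 + Real.log Y₀ := add_nonneg zero_le_one (Real.log_natCast_nonneg _)
  induction j generalizing Y with
  | zero =>
    rw [pow_zero, pow_zero, mul_one, Nat.cast_le]
    refine (sum_le_card_nsmul _ _ 1 fun m _ => ?_).trans (by simp)
    rw [one_apply]
    split_ifs <;> omega
  | succ j ih =>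
    rw [pow_succ', sum_Ioc_mul_eq_sum_sum, Nat.cast_sum]
    calc _ ≤ ∑ n ∈ Ioc 0 Y, Y * (1 + Real.log Y₀) ^ j * (n : ℝ)⁻¹ := by
          refine sum_le_sum fun n hn => ?_
          rw [zeta_apply_ne (mem_Ioc.1 hn).1.ne', one_mul]
          refine (ih ((Nat.div_le_self _ _).trans h)).trans ?_
          rw [mul_right_comm, ← div_eq_mul_inv]
          exact mul_le_mul_of_nonneg_right Nat.cast_div_le (pow_nonneg hH _)
      _ ≤ _ := by
          rw [← mul_sum, pow_succ, ← mul_assoc]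
          exact mul_le_mul_of_nonneg_left (harm_L2 h) (by positivity)

theorem l2_stmt : L2Stmt := by
  intro k Y _
  refine le_trans ?_ (sum_L2 Y (k ^ 2) le_rfl)
  rw [Nat.cast_sum, show Icc 1 Y = Ioc 0 Y from rfl]
  refine sum_le_sum fun m _ => ?_
  rw [sq, sq, ← Nat.cast_mul, Nat.cast_le]
  exact mul_L2 k k m

end Pool.Agent.MP_c853c5_nt.DS
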