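import Pool.Agent.MP_c853c5_nt.DS.Basic

set_option autoImplicit false

open Finset Filter Real
open scoped ComplexConjugate

namespace Pool.Agent.MP_c853c5_nt.DS

open Pool.Agent.MP_88bd62_nt.U (ex)

/-- the indicator of the range -/
noncomputable def ind_Loc (P P' c a s : ℕ) : ℂ := if c + s * a ∈ Icc P P' then 1 else 0

lemma nv_ind_Loc (S P P' c a : ℕ) : nv S (fun s => ind_Loc P P' c a s) ≤ 2 := by
  have h1 : nv S (fun s => ((if P ≤ c + s * a then 1 else 0 : ℝ) : ℂ)) ≤ 1 := by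
    refine nv_monotone (f := fun s => if P ≤ c + s * a then 1 else 0) (fun s _ => ?_) ?_ ?_
    · have : c + s * a ≤ c + (s + 1) * a := by rw [add_mul]; omega
      split_ifs with h h'
      · exact le_rfl
      · omega
      · exact zero_le_one
      · exact le_rfl
    · split_ifs <;> norm_num
    · split_ifs <;> norm_num
  have h2 : nv S (fun s => ((if c + s * a ≤ P' then 1 else 0 : ℝ) : ℂ)) ≤ 2 * 1 := by
    refine nv_antitone (f := fun s => if c + s * a ≤ P' then 1 else 0) (fun s _ => ?_) ?_ ?_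
    · have : c + s * a ≤ c + (s + 1) * a := by rw [add_mul]; omega
      split_ifs with h h'
      · exact le_rfl
      · omega
      · exact zero_le_one
      · exact le_rfl
    · split_ifs <;> norm_num
    · split_ifs <;> norm_num
  have e : (fun s => ind_Loc P P' c a s) = fun s => ((if P ≤ c + s * a then 1 else 0 : ℝ) : ℂ) *
      ((if c + s * a ≤ P' then 1 else 0 : ℝ) : ℂ) := by
    funext s
    by_cases h : P ≤ c + s * a <;> by_cases h' : c + s * a ≤ P' <;> simp [ind_Loc, h, h']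
  rw [e]
  exact (nv_mul_le h1 h2).trans_eq (by norm_num)

lemma cond_Loc (H s a b c d : ℕ) :
    (b * (c + s * a) ≠ a * (d + s * b) ∧ b * (c + s * a) ≤ a * (d + s * b) + H ∧
      a * (d + s * b) ≤ b * (c + s * a) + H) ↔
    (b * c ≠ a * d ∧ b * c ≤ a * d + H ∧ a * d ≤ b * c + H) := by
  have e1 : b * (c + s * a) = b * c + s * a * b := by ring
  have e2 : a * (d + s * b) = a * d + s * a * b := by ring
  rw [e1, e2]
  omega

/-- the weight of an edge -/
noncomputable def ff_Loc (X Δ ρ : ℝ) (H P P' : ℕ) (q : ℕ → ℕ) (s a b : ℕ) (h : ℤ) : ℂ :=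
  ind_Loc P P' (q a) a s * ind_Loc P P' (q b) b s *
    if b * q a ≠ a * q b ∧ b * q a ≤ a * q b + H ∧ a * q b ≤ b * q a + H then
      ed X Δ ρ q s a b h else 0

lemma loc_eq_Loc (X Δ ρ : ℝ) (B H P P' : ℕ) (q : ℕ → ℕ) (s a b : ℕ) :
    (loc (G0 X Δ B H) (Icc P P') q s a b : ℂ) =
      ∑ h ∈ hs B, ff_Loc X Δ ρ H P P' q s a b h * ex (h * X / (a * b * (s + ρ))) := by
  unfold loc ff_Loc ind_Loc G0
  simp only [cond_Loc]
  by_cases h1 : q a + s * a ∈ Icc P P'
  swap
  · simp [h1]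
  by_cases h2 : q b + s * b ∈ Icc P P'
  swap
  · simp [h2]
  by_cases h3 : b * q a ≠ a * q b ∧ b * q a ≤ a * q b + H ∧ a * q b ≤ b * q a + H
  swap
  · simp only [if_neg h3]
    simp
  rw [if_pos ⟨h1, h2⟩, if_pos h3, rb_eq]
  refine sum_congr rfl fun h _ => ?_
  rw [if_pos h1, if_pos h2, if_pos h3, one_mul, one_mul, ed, mul_assoc, ← ex_add]
  congr 2
  ring

theorem loc_stmt (hS : SumStmt) (hE : EdgeStmt) : LocStmt := by
  intro r hr
  obtain ⟨C₁, hC₁, hS⟩ := hS r hr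
  obtain ⟨C₂, hC₂, hE⟩ := hE
  refine ⟨C₁ * (8 * C₂) ^ (2 * r) * 33 ^ (2 * r), by positivity, ?_⟩
  intro K B H Q S P P' D q X Δ ρ w F hD hB hBH hc hQ hK hcell hX hΔ hρ hw hSw hρX hlog hF hBw
  have hK1 : 1 ≤ K := by omega
  have hK0 : (0 : ℝ) < K := by exact_mod_cast hK1
  have hρ0 : 0 < ρ := by linarith
  have hF0 : 0 ≤ F := by
    have h1 : 0 ≤ F * (ρ * K ^ 2) := by
      rw [← mul_assoc]
      exact le_trans (by positivity) hF
    exact nonneg_of_mul_nonneg_left h1 (by positivity)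
  set Y : ℝ := X / (Δ * K ^ 2 * ρ) with hY
  have hY0 : 0 ≤ Y := by positivity
  have h := hS K B (33 * H) S D X ρ w (8 * C₂ * w * Y) F
    (fun s => loc (G0 X Δ B H) (Icc P P') q s) (fun s => ff_Loc X Δ ρ H P P' q s) hD hB
    (by omega) hc hX hρ hw hSw hρX (by
      rw [show (2 * ((33 * H : ℕ) : ℝ) + 1) = 66 * H + 1 by push_cast; ring]
      exact hlog) hF
    (fun s a _ => by simp [loc, G0])
    (fun s a _ b _ _ => loc_eq_Loc X Δ ρ B H P P' q s a b)
    (fun a ha b hb h hh => by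
      have h1 : nv S (fun s => if b * q a ≠ a * q b ∧ b * q a ≤ a * q b + H ∧
          a * q b ≤ b * q a + H then ed X Δ ρ q s a b h else 0) ≤ 2 * C₂ * w * Y := by
        by_cases h3 : b * q a ≠ a * q b ∧ b * q a ≤ a * q b + H ∧ a * q b ≤ b * q a + H
        · simp only [if_pos h3]
          refine (hE X Δ ρ K Q H S a b q h hX hΔ hρ hK1 (hD a ha).2.1 (hD b hb).2.1 hQ hK
            (fun k hk => hcell k ?_) h3.2.1 h3.2.2).trans ?_
          · rcases mem_insert.1 hk with rfl | hk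
            · exact ha
            · rw [mem_singleton.1 hk]
              exact hb
          · have h4 : |(h : ℝ)| * X * H / (K ^ 4 * ρ ^ 2) ≤ w := by
              rw [div_le_iff₀ (by positivity)]
              refine le_trans ?_ hBw
              have := abs_le_of_hs hh
              gcongr
            calc C₂ * Y * (1 + |(h : ℝ)| * X * H / (K ^ 4 * ρ ^ 2)) ≤ C₂ * Y * (w + w) := by
                  gcongr
              _ = 2 * C₂ * w * Y := by ring
        · simp only [if_neg h3]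
          rw [nv_const, norm_zero]
          positivity
      exact (nv_mul_le (nv_mul_le (nv_ind_Loc S P P' (q a) a) (nv_ind_Loc S P P' (q b) b))
        h1).trans_eq (by ring))
  refine h.trans ?_
  have hz := zb_nonneg hF0 ρ
  have h33 : (33 : ℝ) ^ (r + 1) ≤ 33 ^ (2 * r) := pow_le_pow_right₀ (by norm_num) (by omega)
  have h5 : ρ * ((33 * H : ℕ) : ℝ) ^ (r + 1) * B ^ r +
      ((33 * H : ℕ) : ℝ) ^ (2 * r) * B ^ (2 * r) * (zb F ρ + √ρ) ≤
      33 ^ (2 * r) * (ρ * H ^ (r + 1) * B ^ r + H ^ (2 * r) * B ^ (2 * r) * (zb F ρ + √ρ)) := by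
    push_cast
    rw [mul_pow, mul_pow, mul_add ((33 : ℝ) ^ (2 * r))]
    refine add_le_add ?_ (le_of_eq (by ring))
    calc ρ * (33 ^ (r + 1) * (H : ℝ) ^ (r + 1)) * B ^ r
        ≤ ρ * (33 ^ (2 * r) * (H : ℝ) ^ (r + 1)) * B ^ r := by gcongr
      _ = _ := by ring
  calc C₁ * w ^ 6 * (8 * C₂ * w * Y) ^ (2 * r) * (ρ * ((33 * H : ℕ) : ℝ) ^ (r + 1) * B ^ r +
        ((33 * H : ℕ) : ℝ) ^ (2 * r) * B ^ (2 * r) * (zb F ρ + √ρ))
      ≤ C₁ * w ^ 6 * (8 * C₂ * w * Y) ^ (2 * r) * (33 ^ (2 * r) *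
        (ρ * H ^ (r + 1) * B ^ r + H ^ (2 * r) * B ^ (2 * r) * (zb F ρ + √ρ))) :=
        mul_le_mul_of_nonneg_left h5 (by positivity)
    _ = _ := by
        rw [mul_pow (8 * C₂ * w), mul_pow (8 * C₂), pow_add w]
        ring

end Pool.Agent.MP_c853c5_nt.DS
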