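import Pool.Agent.MP_c853c5_nt.DS.Basic

set_option autoImplicit false

open Finset Filter Real
open scoped ComplexConjugate

namespace Pool.Agent.MP_c853c5_nt.DS

open Pool.Agent.MP_88bd62_nt.U (ex)

lemma QF_Th_Mean (D R : Finset ℕ) (b c : ℕ → ℝ) (X Δ Γ : ℝ) :
    QF D R b c (Th X Δ Γ) =
      QF D R b c (og X Δ Γ) + QF D R b c (fun n n' => am X Δ Γ n n' 0) := by
  unfold QF
  rw [← sum_add_distrib]
  refine sum_congr rfl fun u _ => ?_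
  rw [← sum_add_distrib]
  refine sum_congr rfl fun v _ => ?_
  unfold og
  ring

lemma QF_comb_Mean (D R : Finset ℕ) (b c : ℕ → ℝ) (k₁ k₂ k₃ : ℝ → ℝ → ℝ) :
    QF D R b c (fun n n' => k₁ n n' - 2 * k₂ n n' + k₃ n n') =
      QF D R b c k₁ - 2 * QF D R b c k₂ + QF D R b c k₃ := by
  unfold QF
  rw [mul_sum, ← sum_sub_distrib, ← sum_add_distrib]
  refine sum_congr rfl fun u _ => ?_
  rw [mul_sum, ← sum_sub_distrib, ← sum_add_distrib]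
  refine sum_congr rfl fun v _ => ?_
  ring

/-- normalised coefficients -/
lemma exists_norm_Mean (D : Finset ℕ) (b : ℕ → ℝ) {K : ℕ} {a : ℝ} (hK : 1 ≤ K) (ha : 0 < a)
    (hb : ∀ n, |b n| ≤ 1) (hD : ∀ n ∈ D, (n : ℝ) ≤ a * K) :
    ∃ b₂ : ℕ → ℝ, (∀ n, |b₂ n| ≤ 1) ∧ ∀ n ∈ D, sq' K b n = √a * b₂ n := by
  have hs : 0 < √a := Real.sqrt_pos.2 ha
  have hK' : (0 : ℝ) < K := by exact_mod_cast hK
  refine ⟨fun n => if n ∈ D then sq' K b n / √a else 0, fun n => ?_, fun n hn => ?_⟩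
  · by_cases hn : n ∈ D
    · simp only [if_pos hn]
      rw [abs_div, abs_of_pos hs, div_le_one hs, sq', abs_mul, abs_of_nonneg (Real.sqrt_nonneg _)]
      have h1 : √((n : ℝ) / K) ≤ √a := Real.sqrt_le_sqrt ((div_le_iff₀ hK').2 (hD n hn))
      exact (mul_le_of_le_one_left (Real.sqrt_nonneg _) (hb n)).trans h1
    · simp only [if_neg hn, abs_zero, zero_le_one]
  · simp only [if_pos hn]
    field_simp

lemma QF_scale_Mean {D R : Finset ℕ} {b c b₂ c₂ : ℕ → ℝ} {a a' : ℝ} (ha : 0 ≤ a) (ha' : 0 ≤ a')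
    (hb : ∀ n ∈ D, b n = √a * b₂ n) (hc : ∀ n ∈ R, c n = √a' * c₂ n) (κ : ℝ → ℝ → ℝ) :
    QF D R b c κ = a * a' * QF D R b₂ c₂ κ := by
  unfold QF
  rw [mul_sum]
  refine sum_congr rfl fun u hu => ?_
  rw [mul_sum]
  refine sum_congr rfl fun v hv => ?_
  rw [hb _ (mem_product.1 hu).1, hb _ (mem_product.1 hv).1, hc _ (mem_product.1 hu).2,
    hc _ (mem_product.1 hv).2]
  have e1 := Real.mul_self_sqrt ha
  have e2 := Real.mul_self_sqrt ha'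
  generalize √a = s at e1 ⊢
  generalize √a' = s' at e2 ⊢
  subst e1 e2
  ring

lemma sq_le_Mean {F s G e L : ℝ} (hs : 0 ≤ s) (hL : s ≤ 4 * L) (h : |F - √s * G| ≤ e) :
    F ^ 2 ≤ 8 * L * G ^ 2 + 2 * e ^ 2 := by
  have h1 : (F - √s * G) ^ 2 ≤ e ^ 2 := by
    rw [← sq_abs]
    exact pow_le_pow_left₀ (abs_nonneg _) h 2
  have h2 : (√s * G) ^ 2 ≤ 4 * L * G ^ 2 := by
    rw [mul_pow, Real.sq_sqrt hs]
    exact mul_le_mul_of_nonneg_right hL (sq_nonneg _)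
  nlinarith [sq_nonneg (F - 2 * (√s * G))]

lemma coll_Mean {x X N y L W s o₁ o₂ o₃ a₁ a₂ a₃ g₁ g₂ g₃ : ℝ} (hX : X ≤ 2 * x)
    (hN : 0 < N) (hy : 0 ≤ y) (hL : 0 ≤ L) (h0 : |s| ≤ X * N * y) (h1 : |o₁ - s| ≤ X * N * y)
    (h2 : |o₂| ≤ X * N * y) (h3 : |o₃| ≤ X * N * y) (k1 : |a₁ - X / N * g₁| ≤ X * N * y)
    (k2 : |a₂ - X / N * g₂| ≤ X * N * y) (k3 : |a₃ - X / N * g₃| ≤ X * N * y) (hX0 : 0 < X)
    (hg : |g₁ - 2 * g₂ + g₃| ≤ 2 * W + N ^ 2 * y) :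
    (2 * L * o₁ + a₁) - 2 * (2 * L * o₂ + a₂) + (2 * L * o₃ + a₃) ≤
      4 * (x / N) * W + (20 * L + 10) * (x * N * y) := by
  have e1 : X * N * y ≤ 2 * (x * N * y) := by
    have := mul_le_mul_of_nonneg_right hX (mul_nonneg hN.le hy)
    linarith
  have e2 : o₁ - 2 * o₂ + o₃ ≤ 10 * (x * N * y) := by
    linarith [le_abs_self s, le_abs_self (o₁ - s), neg_abs_le o₂, le_abs_self o₃]
  have e3 : X / N * (g₁ - 2 * g₂ + g₃) ≤ 2 * x / N * (2 * W + N ^ 2 * y) :=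
    (mul_le_mul_of_nonneg_left ((le_abs_self _).trans hg) (div_pos hX0 hN).le).trans
      (mul_le_mul_of_nonneg_right (div_le_div_of_nonneg_right hX hN.le) ((abs_nonneg _).trans hg))
  have e4 : 2 * x / N * (2 * W + N ^ 2 * y) = 4 * (x / N) * W + 2 * (x * N * y) := by
    field_simp
    ring
  have e5 := mul_le_mul_of_nonneg_left e2 hL
  linarith [le_abs_self (a₁ - X / N * g₁), neg_abs_le (a₂ - X / N * g₂),
    le_abs_self (a₃ - X / N * g₃)]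

theorem mean_stmt (hS : SqStmt) (h1 : Cmp1Stmt) (h3 : Cmp3Stmt) (hV : VTrStmt) (hM : MainStmt)
    (hL : SmallStmt) (hC : CrossStmt) (hZ : ZeroStmt) : MeanStmt := by
  intro r Λ μ hr hΛ hμ
  obtain ⟨ν₁, hν₁, eM⟩ := hM r Λ μ hr hΛ hμ
  obtain ⟨ν₂, hν₂, eL⟩ := hL r Λ μ hr hΛ hμ
  obtain ⟨ν₃, hν₃, eC⟩ := hC r Λ μ hr hΛ hμ
  obtain ⟨ν₄, hν₄, eZ⟩ := hZ r Λ μ hr hΛ hμ
  obtain ⟨ν, hν, n1, n2, n3, n4, n5⟩ : ∃ ν : ℝ, 0 < ν ∧ 2 * ν ≤ ν₁ ∧ 2 * ν ≤ ν₂ ∧ 2 * ν ≤ ν₃ ∧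
      2 * ν ≤ ν₄ ∧ 2 * ν ≤ 1 / 3000 := by
    have a1 := min_le_left (min (min ν₁ ν₂) (min ν₃ ν₄)) (1 / 3000 : ℝ)
    have a2 := min_le_right (min (min ν₁ ν₂) (min ν₃ ν₄)) (1 / 3000 : ℝ)
    have a3 := min_le_left (min ν₁ ν₂) (min ν₃ ν₄)
    have a4 := min_le_right (min ν₁ ν₂) (min ν₃ ν₄)
    have a5 : 0 < min (min (min ν₁ ν₂) (min ν₃ ν₄)) (1 / 3000 : ℝ) :=
      lt_min (lt_min (lt_min hν₁ hν₂) (lt_min hν₃ hν₄)) (by norm_num)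
    refine ⟨min (min (min ν₁ ν₂) (min ν₃ ν₄)) (1 / 3000 : ℝ) / 2, by linarith, ?_, ?_, ?_, ?_, ?_⟩
    · linarith [min_le_left ν₁ ν₂]
    · linarith [min_le_right ν₁ ν₂]
    · linarith [min_le_left ν₃ ν₄]
    · linarith [min_le_right ν₃ ν₄]
    · linarith
  refine ⟨ν, hν, ?_⟩
  filter_upwards [eM, eL, eC, eZ, h1 Λ hΛ, h3 Λ hΛ, hV Λ hΛ, eventually_ge_atTop (1 : ℝ),
    E.ev_const_le (8 * Λ * (20 * Λ + 10) + 4 * Λ) hν,
    E.ev_const_le 2 (show (0 : ℝ) < 1 / 3 - 1 / 1000 by norm_num)]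
    with x eM eL eC eZ e1 e3 eV hx hc1 hc2
  intro X Δ Γ W M K P D b c hG hW hP hM1 hMN hb hc hI
  have hx0 : 0 < x := by linarith
  have hX0 : 0 < X := by linarith [hG.x1]
  have hΔ0 : 0 < Δ := (Real.rpow_pos_of_pos hx0 _).trans_le hG.d1
  have hK' : (1 : ℝ) ≤ K := by exact_mod_cast hG.k1
  have hP' : (1 : ℝ) ≤ P := by exact_mod_cast hG.p1
  have hΛ' : (1 : ℝ) ≤ Λ := by exact_mod_cast hΛ
  have hN : (0 : ℝ) < K * P := by positivity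
  have hΔΓ : Δ ≤ Γ := by
    refine hG.d2.trans (le_trans ?_ hW.1)
    have e : x ^ (-(1 / 1000) : ℝ) = x ^ (1 / 3 - 1 / 1000 : ℝ) * x ^ (-(1 / 3) : ℝ) := by
      rw [← Real.rpow_add hx0]
      norm_num
    rw [e]
    have := mul_le_mul_of_nonneg_right hc2 (Real.rpow_nonneg hx0.le (-(1 / 3) : ℝ))
    linarith
  have hΓ0 : 0 < Γ := hΔ0.trans_le hΔΓ
  have hP4 : x ^ (1 / 400 : ℝ) ≤ P := by
    refine le_trans ?_ hG.h7
    have a1 : Δ ≤ 1 := hG.d2.trans (Real.rpow_le_one_of_one_le_of_nonpos hx (by norm_num))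
    have a2 : 1 ≤ √(1 / Δ) := Real.one_le_sqrt.2 ((le_div_iff₀ hΔ0).2 (by linarith))
    have a3 : 1 ≤ Lm X Δ K P ^ 2 := one_le_pow₀ (one_le_Lm X Δ K P)
    exact le_mul_of_one_le_left (Real.rpow_nonneg hx0.le _) (one_le_mul_of_one_le_of_one_le a3 a2)
  have s1 : Set0 x X Δ Γ K P D := ⟨hX0, hG.d1, hΔΓ, hW.2, hG.k1, hP4, hP.subset⟩
  have s2 : Set0 x X Δ Δ K P D := ⟨hX0, hG.d1, le_rfl, hΔΓ.trans hW.2, hG.k1, hP4, hP.subset⟩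
  have s3 : Set0 x X Γ Γ K P D := ⟨hX0, hG.d1.trans hΔΓ, le_rfl, hW.2, hG.k1, hP4, hP.subset⟩
  obtain ⟨y, hy⟩ : ∃ y, y = x ^ (-(2 * ν)) := ⟨_, rfl⟩
  have hy0 : 0 ≤ y := hy ▸ Real.rpow_nonneg hx0.le _
  have hyl : ∀ t : ℝ, 2 * ν ≤ t → x ^ (-t) ≤ y := fun t ht =>
    hy ▸ Real.rpow_le_rpow_of_exponent_le hx (neg_le_neg ht)
  have hXN : ∀ t : ℝ, 2 * ν ≤ t → X * (K * P) * x ^ (-t) ≤ X * (K * P) * y := fun t ht =>
    mul_le_mul_of_nonneg_left (hyl t ht) (by positivity)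
  obtain ⟨b₂, hb₂, eb⟩ := exists_norm_Mean D b (a := 2) hG.k1 two_pos hb fun n hn => by
    exact_mod_cast (hP n hn).2.2.le
  obtain ⟨c₂, hc₂, ec⟩ := exists_norm_Mean (Icc P (Λ * P)) c (a := Λ) hG.p1 (by linarith) hc
    fun n hn => by exact_mod_cast (mem_Icc.1 hn).2
  have hsc := QF_scale_Mean (zero_le_two) (Nat.cast_nonneg Λ) eb ec
  have hsum := hS X Δ Γ (Icc M (Λ * M)) D (Icc P (Λ * P)) (sq' K b) (sq' P c) hX0 hΔ0 hΓ0
    (fun h => by have := (hP 0 h).2.1; have := hG.k1; omega)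
    (fun h => by have := (mem_Icc.1 h).1; have := hG.p1; omega)
  rw [QF_Th_Mean, QF_Th_Mean, QF_Th_Mean, hsc (og X Δ Δ), hsc (og X Δ Γ), hsc (og X Γ Γ)] at hsum
  have hv := eV X Δ Γ W K P D b c s1 hb hc hI
  rw [QF_comb_Mean] at hv
  have hcoll := hsum.trans (coll_Mean hG.x2 hN hy0 (Nat.cast_nonneg Λ)
    ((eM X Δ Γ K P D b₂ c₂ hG hW hP hb₂ hc₂).trans (hXN _ n1))
    ((eL X Δ Γ K P D b₂ c₂ hG hW hP hb₂ hc₂).trans (hXN _ n2))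
    ((eC X Δ Γ K P D b₂ c₂ hG hW hP hb₂ hc₂).trans (hXN _ n3))
    ((eZ X Δ Γ K P D b₂ c₂ hG hW hP hb₂ hc₂).trans (hXN _ n4))
    ((e3 X Δ Δ K P D b c s2 hb hc).trans (hXN _ (by linarith)))
    ((e3 X Δ Γ K P D b c s1 hb hc).trans (hXN _ (by linarith)))
    ((e3 X Γ Γ K P D b c s3 hb hc).trans (hXN _ (by linarith))) hX0
    (hv.trans (add_le_add le_rfl (mul_le_mul_of_nonneg_left (hyl _ n5) (sq_nonneg _)))))
  have hterm : ∀ m ∈ Icc M (Λ * M), FF X Δ Γ D (Icc P (Λ * P)) b c m ^ 2 ≤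
      8 * Λ * FL X Δ Γ D (Icc P (Λ * P)) (sq' K b) (sq' P c) m ^ 2 + 2 * ((K * P) ^ 2 * y) := by
    intro m hm
    have a1 : (m : ℝ) ≤ Λ * M := by exact_mod_cast (mem_Icc.1 hm).2
    have a2 : (m : ℝ) * (K * P) / X ≤ 4 * Λ := by
      rw [div_le_iff₀ hX0]
      have b1 := mul_le_mul_of_nonneg_right a1 hN.le
      have b2 := mul_le_mul_of_nonneg_left hMN (Nat.cast_nonneg (α := ℝ) Λ)
      have b3 := mul_le_mul_of_nonneg_left hG.x1 (Nat.cast_nonneg (α := ℝ) Λ)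
      linarith
    refine (sq_le_Mean (by positivity) a2
      (e1 X Δ Γ K P m D b c s1 (hM1.trans (mem_Icc.1 hm).1) hb hc)).trans ?_
    have a3 : (x ^ (-(1 / 2000) : ℝ)) ^ 2 ≤ y := by
      have b1 : x ^ (-(1 / 2000) : ℝ) ≤ 1 := Real.rpow_le_one_of_one_le_of_nonpos hx (by norm_num)
      have b2 := hyl (1 / 2000) (by linarith)
      have b3 := Real.rpow_nonneg hx0.le (-(1 / 2000) : ℝ)
      nlinarith
    rw [mul_pow (K * P : ℝ)]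
    have := mul_le_mul_of_nonneg_left a3 (sq_nonneg ((K : ℝ) * P))
    linarith
  have hcard : ((Icc M (Λ * M)).card : ℝ) ≤ Λ * M := by exact_mod_cast card_Icc_le hM1
  have htot := sum_le_sum hterm
  rw [sum_add_distrib, ← mul_sum, sum_const, nsmul_eq_mul] at htot
  have f1 : ((Icc M (Λ * M)).card : ℝ) * (2 * ((K * P) ^ 2 * y)) ≤ 4 * Λ * (x * (K * P) * y) := by
    refine (mul_le_mul_of_nonneg_right hcard (by positivity)).trans ?_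
    have := mul_le_mul_of_nonneg_right hMN
      (show 0 ≤ 2 * (Λ : ℝ) * (K * P * y) by positivity)
    linarith
  have f2 := mul_le_mul_of_nonneg_left hcoll (show 0 ≤ 8 * (Λ : ℝ) by positivity)
  have f3 : (8 * Λ * (20 * Λ + 10) + 4 * Λ) * y ≤ x ^ (-ν) := by
    have e : x ^ (-ν) = x ^ ν * y := by
      rw [hy, ← Real.rpow_add hx0]
      congr 1
      ring
    rw [e]
    exact mul_le_mul_of_nonneg_right hc1 hy0
  have f4 := mul_le_mul_of_nonneg_left f3 (show 0 ≤ x * ((K : ℝ) * P) by positivity)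
  linarith

end Pool.Agent.MP_c853c5_nt.DS
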