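import Pool.Agent.MP_c853c5_nt.DS.Basic

set_option autoImplicit false

open Finset Filter Real
open scoped ComplexConjugate

namespace Pool.Agent.MP_c853c5_nt.DS

open Pool.Agent.MP_88bd62_nt.U (ex)

lemma conv_Op {s : ℕ → ℝ} (h0 : ∀ n, 0 ≤ s n) (h : ∀ n, s (n + 1) ^ 2 ≤ s n * s (n + 2)) (n : ℕ) :
    s 1 * s n ≤ s 0 * s (n + 1) := by
  induction n with
  | zero => exact (mul_comm _ _).le
  | succ n ih =>
    rcases (h0 (n + 1)).eq_or_lt with e | e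
    · rw [← e, mul_zero]
      exact mul_nonneg (h0 0) (h0 _)
    · refine le_of_mul_le_mul_right ?_ e
      have h1 := mul_le_mul_of_nonneg_left (h n) (h0 1)
      have h2 := mul_le_mul_of_nonneg_right ih (h0 (n + 2))
      nlinarith

lemma pow_Op {s : ℕ → ℝ} (h0 : ∀ n, 0 ≤ s n) (h : ∀ n, s (n + 1) ^ 2 ≤ s n * s (n + 2)) (n : ℕ) :
    s 1 ^ (n + 1) ≤ s 0 ^ n * s (n + 1) := by
  induction n with
  | zero => simp
  | succ n ih =>
    calc s 1 ^ (n + 1 + 1) = s 1 * s 1 ^ (n + 1) := by ring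
      _ ≤ s 1 * (s 0 ^ n * s (n + 1)) := mul_le_mul_of_nonneg_left ih (h0 1)
      _ = s 0 ^ n * (s 1 * s (n + 1)) := by ring
      _ ≤ s 0 ^ n * (s 0 * s (n + 1 + 1)) :=
          mul_le_mul_of_nonneg_left (conv_Op h0 h _) (pow_nonneg (h0 0) n)
      _ = s 0 ^ (n + 1) * s (n + 1 + 1) := by ring

lemma shift_Op {D : Finset ℕ} {G : ℕ → ℕ → ℝ} (hG : ∀ a b, G a b = G b a) (f g : ℕ → ℝ) :
    ∑ a ∈ D, (∑ b ∈ D, G a b * f b) * g a = ∑ a ∈ D, f a * ∑ b ∈ D, G a b * g b := by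
  simp only [sum_mul, mul_sum]
  rw [sum_comm]
  exact sum_congr rfl fun a _ => sum_congr rfl fun b _ => by rw [hG b a]; ring

theorem op_stmt : OpStmt := by
  intro D G α r hr hG hα
  obtain ⟨n, rfl⟩ : ∃ n, r = n + 1 := ⟨r - 1, by omega⟩
  obtain ⟨v, hv⟩ : ∃ v : ℕ → ℕ → ℝ, ∀ m a, v m a = ∑ k ∈ D, mp D G m a k * α k :=
    ⟨_, fun _ _ => rfl⟩
  have v0 : ∀ a ∈ D, v 0 a = α a := fun a ha => by
    simp only [hv, mp, ite_mul, one_mul, zero_mul, sum_ite_eq, if_pos ha]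
  have v1 : ∀ m a, v (m + 1) a = ∑ b ∈ D, G a b * v m b := fun m a => by
    simp only [hv, mp, sum_mul, mul_sum]
    rw [sum_comm]
    exact sum_congr rfl fun b _ => sum_congr rfl fun k _ => mul_assoc _ _ _
  obtain ⟨s, hs⟩ : ∃ s : ℕ → ℝ, ∀ m, s m = ∑ a ∈ D, v m a ^ 2 := ⟨_, fun _ => rfl⟩
  have h0 : ∀ m, 0 ≤ s m := fun m => hs m ▸ sum_nonneg fun _ _ => sq_nonneg _
  have h1 : ∀ m, s (m + 1) ^ 2 ≤ s m * s (m + 2) := fun m => by
    have e : s (m + 1) = ∑ a ∈ D, v m a * v (m + 2) a := by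
      have e1 := shift_Op (D := D) hG (v m) (v (m + 1))
      simp only [← v1] at e1
      rw [← e1, hs]
      exact sum_congr rfl fun a _ => sq _
    rw [e, hs, hs]
    exact sum_mul_sq_le_sq_mul_sq _ _ _
  have e0 : s 0 = ∑ a ∈ D, α a ^ 2 := by
    rw [hs]
    exact sum_congr rfl fun a ha => by rw [v0 a ha]
  have h2 : s 0 ≤ D.card := by
    rw [e0]
    refine (sum_le_card_nsmul _ _ 1 fun a _ => (sq_le_one_iff_abs_le_one _).2 (hα a)).trans ?_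
    simp
  have h3 : (∑ a ∈ D, ∑ b ∈ D, α a * α b * G a b) ^ 2 ≤ s 0 * s 1 := by
    have e : ∑ a ∈ D, ∑ b ∈ D, α a * α b * G a b = ∑ a ∈ D, v 0 a * v 1 a :=
      sum_congr rfl fun a ha => by
        rw [v1 0 a, mul_sum, v0 a ha]
        exact sum_congr rfl fun b hb => by rw [v0 b hb]; ring
    rw [e, hs, hs]
    exact sum_mul_sq_le_sq_mul_sq _ _ _
  have h4 : s (n + 1) ≤ (∑ a ∈ D, ∑ k ∈ D, mp D G (n + 1) a k ^ 2) * s 0 := by
    rw [hs, sum_mul, e0]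
    exact sum_le_sum fun a _ => hv _ a ▸ sum_mul_sq_le_sq_mul_sq _ _ _
  have h5 : 0 ≤ ∑ a ∈ D, ∑ k ∈ D, mp D G (n + 1) a k ^ 2 :=
    sum_nonneg fun _ _ => sum_nonneg fun _ _ => sq_nonneg _
  generalize ∑ a ∈ D, ∑ k ∈ D, mp D G (n + 1) a k ^ 2 = M at h4 h5
  have h6 := h0 0
  calc |∑ a ∈ D, ∑ b ∈ D, α a * α b * G a b| ^ (2 * (n + 1))
      = ((∑ a ∈ D, ∑ b ∈ D, α a * α b * G a b) ^ 2) ^ (n + 1) := by rw [pow_mul, sq_abs]
    _ ≤ (s 0 * s 1) ^ (n + 1) := pow_le_pow_left₀ (sq_nonneg _) h3 _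
    _ = s 0 ^ (n + 1) * s 1 ^ (n + 1) := mul_pow _ _ _
    _ ≤ s 0 ^ (n + 1) * (s 0 ^ n * (M * s 0)) :=
        mul_le_mul_of_nonneg_left ((pow_Op h0 h1 n).trans
          (mul_le_mul_of_nonneg_left h4 (pow_nonneg h6 n))) (pow_nonneg h6 _)
    _ = s 0 ^ (2 * (n + 1)) * M := by ring
    _ ≤ (D.card : ℝ) ^ (2 * (n + 1)) * M := by gcongr

end Pool.Agent.MP_c853c5_nt.DS
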