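import Pool.Agent.MP_c853c5_nt.DS.Basic
set_option autoImplicit false
open Finset Filter Real
open scoped ComplexConjugate
namespace Pool.Agent.MP_c853c5_nt.DS
open Pool.Agent.MP_88bd62_nt.U (ex)

/-- the reversed path -/
def rv_Pair : ℕ → List (ℕ × ℤ) → List (ℕ × ℤ)
  | _, [] => []
  | a, e :: l => rv_Pair e.1 l ++ [(a, -e.2)]

lemma length_rv_Pair (a : ℕ) (l : List (ℕ × ℤ)) : (rv_Pair a l).length = l.length := by
  induction l generalizing a with
  | nil => rfl
  | cons e l ih => simp [rv_Pair, ih]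

lemma lst_rv_Pair (a : ℕ) (l : List (ℕ × ℤ)) : lst (lst a l) (rv_Pair a l) = a := by
  cases l with
  | nil => rfl
  | cons e l => simp [rv_Pair, lst_append, lst]

lemma vl_rv_Pair (a : ℕ) (l : List (ℕ × ℤ)) : vl (lst a l) (rv_Pair a l) = - vl a l := by
  induction l generalizing a with
  | nil => simp [rv_Pair, vl]
  | cons e l ih =>
    simp only [rv_Pair, lst, vl_append, ih, lst_rv_Pair, vl]
    push_cast
    rw [mul_comm (e.1 : ℚ)]
    ring

lemma rv_append_Pair (a : ℕ) (l l' : List (ℕ × ℤ)) :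
    rv_Pair a (l ++ l') = rv_Pair (lst a l) l' ++ rv_Pair a l := by
  induction l generalizing a with
  | nil => simp [rv_Pair, lst]
  | cons e l ih => simp [rv_Pair, lst, ih]

lemma rv_rv_Pair (a : ℕ) (l : List (ℕ × ℤ)) : rv_Pair (lst a l) (rv_Pair a l) = l := by
  induction l generalizing a with
  | nil => rfl
  | cons e l ih => simp [rv_Pair, lst, rv_append_Pair, ih, lst_rv_Pair]

lemma rv_mem_Pair {D : Finset ℕ} {B n a : ℕ} {l : List (ℕ × ℤ)} (ha : a ∈ D)
    (h : l ∈ paths D B n a) : rv_Pair a l ∈ paths D B n (lst a l) := by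
  induction l generalizing a n with
  | nil => exact h
  | cons e l ih =>
    obtain rfl : n = l.length + 1 := (length_of_mem_paths h).symm
    obtain ⟨h1, h2, h3, h4⟩ := cons_mem_paths.1 h
    have h5 := ih h2 h4
    rw [← length_rv_Pair e.1 l] at h5 ⊢
    refine append_mem_paths.2 ⟨h5, ?_⟩
    rw [lst, lst_rv_Pair]
    refine cons_mem_paths.2 ⟨h1.symm, ha, ?_, mem_paths_zero.2 rfl⟩
    rw [mem_hs] at h3 ⊢
    exact ⟨neg_ne_zero.2 h3.1, by simpa using h3.2⟩

theorem pair_stmt : PairStmt := by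
  intro B n D a ha
  refine card_le_card_of_injOn (fun p => p.1 ++ rv_Pair a p.2) ?_ ?_
  · intro p hp
    simp only [coe_filter, mem_product, Set.mem_ofPred_eq] at hp
    obtain ⟨⟨h1, h2⟩, h3, h4⟩ := hp
    have e := length_of_mem_paths h1
    simp only [cyc, coe_filter, Set.mem_ofPred_eq]
    refine ⟨?_, ?_, ?_⟩
    · have : p.1 ++ rv_Pair a p.2 ∈ paths D B (p.1.length + n) a :=
        append_mem_paths.2 ⟨by rwa [e], by rw [h3]; exact rv_mem_Pair ha h2⟩
      rwa [e, ← two_mul] at this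
    · rw [lst_append, h3, lst_rv_Pair]
    · rw [vl_append, h3, vl_rv_Pair, h4, add_neg_cancel]
  · intro p hp q hq hpq
    simp only [coe_filter, mem_product, Set.mem_ofPred_eq] at hp hq
    obtain ⟨k1, k2⟩ := List.append_inj hpq
      ((length_of_mem_paths hp.1.1).trans (length_of_mem_paths hq.1.1).symm)
    refine Prod.ext k1 ?_
    rw [← rv_rv_Pair a p.2, ← rv_rv_Pair a q.2, k2, ← hp.2.1, ← hq.2.1, k1]

end Pool.Agent.MP_c853c5_nt.DS
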