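import Pool.Agent.MP_c853c5_nt.DS.Basic
set_option autoImplicit false
open Finset Filter Real
open scoped ComplexConjugate
namespace Pool.Agent.MP_c853c5_nt.DS
open Pool.Agent.MP_88bd62_nt.U (ex)

theorem path_stmt : PathStmt := by
  intro D B G f h0 h1 n
  induction n with
  | zero =>
    intro a _ k
    rw [mp, paths, sum_filter, sum_singleton, lst, wt]
    split_ifs <;> simp
  | succ n ih =>
    intro a ha k
    rw [mp, sum_filter, sum_paths_succ, ← add_sum_erase D _ ha, h0 a ha, zero_mul, zero_add]
    push_cast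
    refine sum_congr rfl fun b hb => ?_
    obtain ⟨b1, b2⟩ := mem_erase.1 hb
    rw [h1 a ha b b2 b1.symm, ih b b2 k, sum_mul]
    refine sum_congr rfl fun h _ => ?_
    rw [sum_filter, mul_sum]
    refine sum_congr rfl fun l _ => ?_
    rw [mul_ite, mul_zero]
    rfl

end Pool.Agent.MP_c853c5_nt.DS
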