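import Pool.Agent.MP_c853c5_nt.DS.Basic

set_option autoImplicit false

open Finset Filter Real
open scoped ComplexConjugate

namespace Pool.Agent.MP_c853c5_nt.DS

open Pool.Agent.MP_88bd62_nt.U (ex)

lemma summ_Pois {A : ℝ} (hA : 0 < A) (c : ℝ) :
    Summable fun m : ℤ => Real.exp (-(π * A * ((m : ℝ) - c) ^ 2)) := by
  refine Summable.of_nonneg_of_le (fun _ => (Real.exp_pos _).le) (fun m => ?_)
    (summable_pow_mul_jacobiTheta₂_term_bound (A * |c|) hA 0)
  rw [pow_zero, one_mul]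
  apply Real.exp_le_exp.2
  have h1 : (m : ℝ) * c ≤ |c| * |(m : ℝ)| := by
    rw [← abs_mul, mul_comm c]; exact le_abs_self _
  have h2 : 0 ≤ π * A := by positivity
  have h3 : 0 ≤ π * A * c ^ 2 := by positivity
  have h4 := mul_le_mul_of_nonneg_left h1 h2
  push_cast
  nlinarith

lemma summ0_Pois {A : ℝ} (hA : 0 < A) :
    Summable fun h : ℤ => Real.exp (-(π * (h : ℝ) ^ 2 / A)) := by
  refine (summ_Pois (inv_pos.2 hA) 0).congr fun h => ?_
  congr 1
  rw [sub_zero]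
  field_simp

lemma poisson_Pois {A : ℝ} (hA : 0 < A) (c : ℝ) :
    ∑' m : ℤ, Real.exp (-(π * A * ((m : ℝ) - c) ^ 2)) =
      (√A)⁻¹ * ∑' h : ℤ, Real.exp (-(π * (h : ℝ) ^ 2 / A)) * Real.cos (2 * π * (h * c)) := by
  have hA' : (A : ℂ) ≠ 0 := by exact_mod_cast hA.ne'
  have h1 := Complex.tsum_exp_neg_quadratic (a := (A : ℂ)) (by simpa using hA) (A * c)
  have h2 : (A : ℂ) ^ (1 / 2 : ℂ) = ((√A : ℝ) : ℂ) := by
    rw [Real.sqrt_eq_rpow, Complex.ofReal_cpow hA.le]
    norm_num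
  have h3 : ∀ m : ℤ, ((Real.exp (-(π * A * ((m : ℝ) - c) ^ 2)) : ℝ) : ℂ) =
      Complex.exp (-(π * A * c ^ 2)) *
        Complex.exp (-π * A * (m : ℂ) ^ 2 + 2 * π * (A * c) * m) := fun m => by
    rw [← Complex.exp_add]
    push_cast
    congr 1
    ring
  have h4 : ∀ h : ℤ, Complex.exp (-(π * A * c ^ 2)) *
      Complex.exp (-π / A * (h + Complex.I * (A * c)) ^ 2) =
      ((Real.exp (-(π * (h : ℝ) ^ 2 / A)) : ℝ) : ℂ) * ex (-(h * c)) := fun h => by
    unfold ex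
    rw [← Complex.exp_add]
    push_cast
    rw [← Complex.exp_add]
    congr 1
    field_simp
    linear_combination (-(A : ℂ) ^ 2 * c ^ 2) * Complex.I_mul_I
  have h5 : Summable fun h : ℤ => ((Real.exp (-(π * (h : ℝ) ^ 2 / A)) : ℝ) : ℂ) * ex (-(h * c)) := by
    refine (summ0_Pois hA).of_norm_bounded fun h => ?_
    rw [norm_mul, norm_ex, mul_one, Complex.norm_real, Real.norm_of_nonneg (Real.exp_pos _).le]
  have h6 : ((∑' m : ℤ, Real.exp (-(π * A * ((m : ℝ) - c) ^ 2)) : ℝ) : ℂ) =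
      (((√A)⁻¹ : ℝ) : ℂ) *
        ∑' h : ℤ, ((Real.exp (-(π * (h : ℝ) ^ 2 / A)) : ℝ) : ℂ) * ex (-(h * c)) := by
    rw [Complex.ofReal_tsum]
    simp_rw [h3]
    rw [tsum_mul_left, h1, h2, mul_left_comm, ← tsum_mul_left]
    simp_rw [h4]
    push_cast
    rw [one_div]
  have h7 := congrArg Complex.re h6
  rw [Complex.ofReal_re, Complex.re_ofReal_mul, Complex.re_tsum h5] at h7
  rw [h7]
  congr 1
  refine tsum_congr fun h => ?_
  rw [Complex.re_ofReal_mul, ex_eq, Complex.add_re, Complex.ofReal_re, Complex.re_ofReal_mul,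
    Complex.I_re, mul_zero, add_zero, mul_neg, Real.cos_neg]

lemma gsum_Pois {A : ℝ} (hA : 0 < A) (N : ℕ) :
    ∑ j ∈ range (N + 1), Real.exp (-(π * (j : ℝ) ^ 2 / A)) ≤
      1 + 2 * A * (1 / √A - 1 / (√A + N)) := by
  have hs : 0 < √A := Real.sqrt_pos.2 hA
  have hss : √A * √A = A := Real.mul_self_sqrt hA.le
  induction N with
  | zero => simp
  | succ N ih =>
    rw [Finset.sum_range_succ]
    have hN : (0 : ℝ) ≤ N := Nat.cast_nonneg N
    set s := √A with hsd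
    have h1 : Real.exp (-(π * ((N + 1 : ℕ) : ℝ) ^ 2 / A)) ≤
        2 * A * (1 / (s + N) - 1 / (s + (N + 1 : ℕ))) := by
      push_cast
      have h2 : 1 + π * ((N : ℝ) + 1) ^ 2 / A ≤ Real.exp (π * ((N : ℝ) + 1) ^ 2 / A) := by
        linarith [Real.add_one_le_exp (π * ((N : ℝ) + 1) ^ 2 / A)]
      have h3 : ((N : ℝ) + 1) ^ 2 / A ≤ π * ((N : ℝ) + 1) ^ 2 / A := by
        apply div_le_div_of_nonneg_right _ hA.le
        nlinarith [Real.pi_gt_three, sq_nonneg ((N : ℝ) + 1)]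
      have h4 : 2 * A * (1 / (s + N) - 1 / (s + (N + 1))) = 2 * A / ((s + N) * (s + (N + 1))) := by
        field_simp
        ring
      have h5 : (s + N) * (s + (N + 1)) / (2 * A) ≤ 1 + ((N : ℝ) + 1) ^ 2 / A := by
        rw [div_le_iff₀ (by positivity)]
        have : (1 + ((N : ℝ) + 1) ^ 2 / A) * (2 * A) = 2 * (s * s) + 2 * ((N : ℝ) + 1) ^ 2 := by
          rw [hss]; field_simp
        rw [this]
        nlinarith [sq_nonneg (s - (N + 1))]
      rw [h4, Real.exp_neg, ← inv_div _ (2 * A)]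
      apply inv_anti₀ (by positivity)
      linarith
    linarith

lemma gtsum_Pois {A : ℝ} (hA : 0 < A) :
    ∑' j : ℕ, Real.exp (-(π * (j : ℝ) ^ 2 / A)) ≤ 1 + 2 * √A := by
  have hs : 0 < √A := Real.sqrt_pos.2 hA
  have hss : √A * √A = A := Real.mul_self_sqrt hA.le
  refine Real.tsum_le_of_sum_range_le (fun _ => (Real.exp_pos _).le) fun N => ?_
  have h1 := gsum_Pois hA N
  rw [Finset.sum_range_succ] at h1
  have h2 : 2 * A * (1 / √A) = 2 * √A := by
    field_simp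
    nlinarith
  have h3 : 0 ≤ 2 * A * (1 / (√A + N)) := by positivity
  have h4 := Real.exp_pos (-(π * (N : ℝ) ^ 2 / A))
  nlinarith

lemma half_Pois {A : ℝ} (hA : 0 < A) (B : ℕ) (u : ℕ → ℝ)
    (hu : ∀ j : ℕ, |u j| ≤ Real.exp (-(π * ((j : ℝ) + (B + 1)) ^ 2 / A))) :
    |∑' j, u j| ≤ (1 + 2 * √A) * Real.exp (-(π * ((B : ℝ) + 1) ^ 2 / A)) := by
  have hs : Summable fun j : ℕ => Real.exp (-(π * (j : ℝ) ^ 2 / A)) := by
    have := (summ0_Pois hA).comp_injective (Nat.cast_injective (R := ℤ))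
    simpa [Function.comp_def] using this
  have h1 := tsum_of_norm_bounded (f := u)
    (hs.mul_right (Real.exp (-(π * ((B : ℝ) + 1) ^ 2 / A)))).hasSum fun j => by
      rw [Real.norm_eq_abs, ← Real.exp_add]
      refine (hu j).trans (Real.exp_le_exp.2 ?_)
      have h2 : π * (j : ℝ) ^ 2 / A + π * ((B : ℝ) + 1) ^ 2 / A ≤
          π * ((j : ℝ) + (B + 1)) ^ 2 / A := by
        rw [← add_div]
        apply div_le_div_of_nonneg_right _ hA.le
        have : 0 ≤ π * ((j : ℝ) * ((B : ℝ) + 1)) := by positivity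
        nlinarith
      linarith
  rw [Real.norm_eq_abs, tsum_mul_right] at h1
  exact h1.trans (mul_le_mul_of_nonneg_right (gtsum_Pois hA) (Real.exp_pos _).le)

lemma tail_Pois {A : ℝ} (hA : 0 < A) (B : ℕ) (f : ℤ → ℝ)
    (hf : ∀ h : ℤ, |f h| ≤ Real.exp (-(π * (h : ℝ) ^ 2 / A))) :
    |∑' h, f h - f 0 - ∑ h ∈ hs B, f h| ≤
      4 * (1 + √A) * Real.exp (-(π * ((B : ℝ) + 1) ^ 2 / A)) := by
  have hsf : Summable f := (summ0_Pois hA).of_norm_bounded hf
  have hp : Summable fun n : ℕ => f n := hsf.comp_injective Nat.cast_injective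
  have hn : Summable fun n : ℕ => f (-(n + 1)) :=
    hsf.comp_injective fun a b hab => by simpa using hab
  have h1 := tsum_of_nat_of_neg_add_one hp hn
  have h2 := hp.sum_add_tsum_nat_add (B + 1)
  have h3 := hn.sum_add_tsum_nat_add B
  have h4 : f 0 + ∑ h ∈ hs B, f h =
      ∑ i ∈ range (B + 1), f i + ∑ i ∈ range B, f (-((i : ℤ) + 1)) := by
    have h0 : (0 : ℤ) ∈ Icc (-(B : ℤ)) B := by simp
    rw [hs, Finset.add_sum_erase _ _ h0]
    clear h0 h2 h3
    induction B with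
    | zero => simp
    | succ B ih =>
      have e : Icc (-((B + 1 : ℕ) : ℤ)) ((B + 1 : ℕ) : ℤ) =
          insert ((B + 1 : ℕ) : ℤ) (insert (-((B : ℤ) + 1)) (Icc (-(B : ℤ)) B)) := by
        ext h
        simp only [Finset.mem_Icc, Finset.mem_insert]
        omega
      rw [e, Finset.sum_insert, Finset.sum_insert, ih, Finset.sum_range_succ _ (B + 1),
        Finset.sum_range_succ (fun i : ℕ => f (-((i : ℤ) + 1))) B]
      · ring
      · simp only [Finset.mem_Icc]; omega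
      · simp only [Finset.mem_Icc, Finset.mem_insert]; omega
  have h5 := half_Pois hA B (fun j => f ((j + (B + 1) : ℕ) : ℤ)) fun j => by
    have := hf ((j + (B + 1) : ℕ) : ℤ)
    push_cast at this ⊢
    exact this
  have h6 := half_Pois hA B (fun j => f (-(((j + B : ℕ) : ℤ) + 1))) fun j => by
    have := hf (-(((j + B : ℕ) : ℤ) + 1))
    push_cast at this ⊢
    rw [neg_sq, add_assoc (j : ℝ)] at this
    exact this
  have h7 : ∑' h, f h - f 0 - ∑ h ∈ hs B, f h =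
      ∑' j : ℕ, f ((j + (B + 1) : ℕ) : ℤ) + ∑' j : ℕ, f (-(((j + B : ℕ) : ℤ) + 1)) := by
    linarith
  rw [h7]
  have h8 := Real.exp_pos (-(π * ((B : ℝ) + 1) ^ 2 / A))
  refine (abs_add_le _ _).trans ?_
  nlinarith

theorem pois_stmt : PoisStmt := by
  intro X Δ Γ n n' B hX hΔ hΓ hn hn'
  have hd := dd_pos (Δ := Δ) n' hΓ hn
  set d := dd Δ Γ n n' with hdd
  set A := d / (X * Δ * Γ) ^ 2 with hAd
  have hA : 0 < A := by positivity
  set c := ct X Δ Γ n n' with hc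
  set E := Real.exp (-(π * (n - n') ^ 2 / d)) with hE
  have hE0 : 0 < E := Real.exp_pos _
  have hsA : √A = √d / (X * Δ * Γ) := by
    rw [hAd, Real.sqrt_div hd.le, Real.sqrt_sq (by positivity)]
  have hsd : 0 < √d := Real.sqrt_pos.2 hd
  have h1 : ∀ m : ℤ, Z.gg Δ (m * n / X - 1) * Z.gg Γ (m * n' / X - 1) =
      (Δ * Γ)⁻¹ * E * Real.exp (-(π * A * ((m : ℝ) - c) ^ 2)) := fun m => by
    unfold Z.gg
    rw [hE, mul_assoc ((Δ * Γ)⁻¹), ← Real.exp_add, mul_mul_mul_comm, ← Real.exp_add, mul_inv]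
    congr 2
    rw [hAd, hc, ct, ← hdd]
    field_simp
    rw [hdd, dd]
    ring
  have h2 : ∀ h : ℤ, am X Δ Γ n n' h =
      X / √d * E * Real.exp (-(π * (h : ℝ) ^ 2 / A)) := fun h => by
    unfold am
    rw [← hdd, ← hE, hAd]
    congr 3
    field_simp
  refine ⟨?_, ?_⟩
  · simp_rw [h1]
    exact (summ_Pois hA c).mul_left _
  · have h3 : Th X Δ Γ n n' = X / √d * E *
        ∑' h : ℤ, Real.exp (-(π * (h : ℝ) ^ 2 / A)) * Real.cos (2 * π * (h * c)) := by
      unfold Th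
      simp_rw [h1]
      rw [tsum_mul_left, poisson_Pois hA c, hsA, ← mul_assoc]
      congr 1
      field_simp
    have h4 := tail_Pois hA B
      (fun h : ℤ => Real.exp (-(π * (h : ℝ) ^ 2 / A)) * Real.cos (2 * π * (h * c))) fun h => by
        rw [abs_mul, abs_of_pos (Real.exp_pos _)]
        exact mul_le_of_le_one_right (Real.exp_pos _).le (Real.abs_cos_le_one _)
    have h5 : og X Δ Γ n n' - rb X Δ Γ B n n' = X / √d * E *
        (∑' h : ℤ, Real.exp (-(π * (h : ℝ) ^ 2 / A)) * Real.cos (2 * π * (h * c)) -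
          Real.exp (-(π * ((0 : ℤ) : ℝ) ^ 2 / A)) * Real.cos (2 * π * (((0 : ℤ) : ℝ) * c)) -
          ∑ h ∈ hs B, Real.exp (-(π * (h : ℝ) ^ 2 / A)) * Real.cos (2 * π * (h * c))) := by
      unfold og rb
      rw [h3, mul_sub, mul_sub, Finset.mul_sum, h2 0]
      congr 1
      · simp
      · refine Finset.sum_congr rfl fun h _ => ?_
        rw [h2 h, ← hc]
        ring
    have h6 : 0 < X / √d * E := by positivity
    rw [h5, abs_mul, abs_of_pos h6, h2, ← hsA]
    push_cast at h4 ⊢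
    have := mul_le_mul_of_nonneg_left h4 h6.le
    linarith

end Pool.Agent.MP_c853c5_nt.DS
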