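import Pool.Agent.MP_c853c5_nt.DS.Basic

/-!
A closed path of value zero with many new vertices comes from a shorter one.
-/

set_option autoImplicit false

open Finset Filter Real
open scoped ComplexConjugate

namespace Pool.Agent.MP_c853c5_nt.DS

open Pool.Agent.MP_88bd62_nt.U (ex)

lemma once_Rec {a : ℕ} {l : List (ℕ × ℤ)} (h : l.length / 2 < nw a l) :
    ∃ k, k ≠ a ∧ (l.map Prod.fst).count k = 1 := by
  by_contra c
  push Not at c
  have h1 : ∑ _k ∈ (l.map Prod.fst).toFinset.erase a, 2 ≤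
      ∑ k ∈ (l.map Prod.fst).toFinset.erase a, (l.map Prod.fst).count k := by
    refine sum_le_sum fun k hk => ?_
    have h2 := c k (mem_erase.1 hk).1
    have h3 := List.count_pos_iff.2 (List.mem_toFinset.1 (mem_erase.1 hk).2)
    omega
  have h4 : ∑ k ∈ (l.map Prod.fst).toFinset.erase a, (l.map Prod.fst).count k ≤
      ∑ k ∈ (l.map Prod.fst).toFinset, (l.map Prod.fst).count k :=
    sum_le_sum_of_subset (erase_subset _ _)
  rw [List.sum_toFinset_count_eq_length, List.length_map] at h4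
  rw [sum_const, smul_eq_mul] at h1
  unfold nw at h
  omega

lemma split_Rec {k : ℕ} {l : List (ℕ × ℤ)} (h : (l.map Prod.fst).count k = 1) :
    ∃ (l₁ l₂ : List (ℕ × ℤ)) (z : ℤ), l = l₁ ++ (k, z) :: l₂ ∧ (∀ e ∈ l₁, e.1 ≠ k) ∧
      ∀ e ∈ l₂, e.1 ≠ k := by
  obtain ⟨⟨k', z⟩, h1, rfl⟩ := List.mem_map.1 (List.count_pos_iff.1 (h ▸ Nat.one_pos :
    0 < (l.map Prod.fst).count k))
  obtain ⟨l₁, l₂, rfl⟩ := List.append_of_mem h1
  rw [List.map_append, List.map_cons, List.count_append, List.count_cons_self] at h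
  have h0 : (l₁.map Prod.fst).count k' + ((l₂.map Prod.fst).count k' + 1) = 1 := h
  have h2 : (l₁.map Prod.fst).count k' = 0 := by omega
  have h3 : (l₂.map Prod.fst).count k' = 0 := by omega
  exact ⟨l₁, l₂, z, rfl,
    fun e he c => List.count_eq_zero.1 h2 (List.mem_map.2 ⟨e, he, c⟩),
    fun e he c => List.count_eq_zero.1 h3 (List.mem_map.2 ⟨e, he, c⟩)⟩

lemma vert_Rec {D : Finset ℕ} {B n a : ℕ} {l : List (ℕ × ℤ)} (h : l ∈ paths D B n a) :
    (∀ e ∈ l, e.1 ∈ D) ∧ (a ∈ D → lst a l ∈ D) := by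
  induction n generalizing a l with
  | zero => simp [mem_paths_zero.1 h, lst]
  | succ n ih =>
    cases l with
    | nil => exact absurd h nil_not_mem_paths
    | cons e l =>
      obtain ⟨-, h1, -, h2⟩ := cons_mem_paths.1 h
      exact ⟨List.forall_mem_cons.2 ⟨h1, (ih h2).1⟩, fun _ => (ih h2).2 h1⟩

lemma den_Rec {k : ℕ} (hk : k.Prime) (m : List (ℕ × ℤ)) (b : ℕ) (hb : ¬ k ∣ b)
    (hm : ∀ e ∈ m, ¬ k ∣ e.1) : ∃ (N : ℕ) (z : ℤ), ¬ k ∣ N ∧ vl b m * N = z := by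
  induction m generalizing b with
  | nil => exact ⟨1, 0, hk.not_dvd_one, by simp [vl]⟩
  | cons e m ih =>
    obtain ⟨h1, h2⟩ := List.forall_mem_cons.1 hm
    obtain ⟨N, z, h3, h4⟩ := ih e.1 h1 h2
    refine ⟨b * e.1 * N, e.2 * N + z * b * e.1,
      hk.not_dvd_mul (hk.not_dvd_mul hb h1) h3, ?_⟩
    have a1 : (b : ℚ) ≠ 0 := Nat.cast_ne_zero.2 fun c => hb (c ▸ dvd_zero k)
    have a2 : (e.1 : ℚ) ≠ 0 := Nat.cast_ne_zero.2 fun c => h1 (c ▸ dvd_zero k)
    rw [vl]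
    push_cast
    rw [← h4]
    field_simp

lemma small_Rec {p : ℕ} {z : ℤ} (h : (p : ℤ) ∣ z) (hz : |z| < p) : z = 0 :=
  Int.eq_zero_of_abs_lt_dvd h hz

lemma dvd_Rec {p q : ℕ} (hp : p.Prime) (hq : ¬ p ∣ q) {z : ℤ} (h : (p : ℤ) ∣ z * q) :
    (p : ℤ) ∣ z :=
  ((Nat.prime_iff_prime_int.1 hp).dvd_or_dvd h).resolve_right fun c =>
    hq (Int.natCast_dvd_natCast.1 c)

/-- the relation between a path and the shorter path, when two steps are merged -/
def Rel_Rec (K a : ℕ) (l : List (ℕ × ℤ)) (t : ℕ × ℤ × List (ℕ × ℤ)) : Prop :=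
  ∃ (l₁ l₂ : List (ℕ × ℤ)) (k k' : ℕ) (h' j : ℤ), l = l₁ ++ (k, t.2.1) :: (k', h') :: l₂ ∧
    t.2.2 = l₁ ++ (k', j) :: l₂ ∧ l₁.length = t.1 ∧
    t.2.1 * k' + h' * (lst a l₁ : ℕ) = j * k ∧ (lst a l₁).Prime ∧ K ≤ lst a l₁ ∧ j ≠ 0 ∧
    |j| < K ∧ K ≤ k ∧ k < 2 * K

lemma uniq_Rec {K a : ℕ} {l l' : List (ℕ × ℤ)} {t : ℕ × ℤ × List (ℕ × ℤ)}
    (h : Rel_Rec K a l t) (h' : Rel_Rec K a l' t) : l = l' := by
  obtain ⟨l₁, l₂, k, k', z, j, rfl, a1, a2, a3, a4, a5, a6, a7, a8, a9⟩ := h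
  obtain ⟨m₁, m₂, q, q', w, i, rfl, b1, b2, b3, -, -, -, -, b8, b9⟩ := h'
  obtain ⟨rfl, e⟩ := List.append_inj (a1.symm.trans b1) (a2.trans b2.symm)
  obtain ⟨e1, rfl⟩ := List.cons.inj e
  obtain ⟨rfl, rfl⟩ := Prod.mk.inj e1
  have e2 : j * ((k : ℤ) - q) = (lst a l₁ : ℕ) * (z - w) := by linear_combination b3 - a3
  have e3 : (k : ℤ) - q = 0 := by
    rcases (Nat.prime_iff_prime_int.1 a4).dvd_or_dvd (Dvd.intro _ e2.symm) with c | c
    · exact absurd (small_Rec c (a7.trans_le (by exact_mod_cast a5))) a6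
    · exact small_Rec c (by rw [abs_lt]; constructor <;> omega)
  have e4 : k = q := by omega
  rw [e3, mul_zero] at e2
  have e5 : z = w := by
    have := (mul_eq_zero.1 e2.symm).resolve_left (by exact_mod_cast a4.ne_zero)
    omega
  rw [e4, e5]

lemma main_Rec {K B n a : ℕ} {D : Finset ℕ} (hD : PrK K D) (hB : 4 * B < K) (ha : a ∈ D)
    {l : List (ℕ × ℤ)} (hl : l ∈ cyc D B (n + 2) a) (hn : (n + 2) / 2 < nw a l) :
    (∃ t ∈ range (n + 2) ×ˢ ((D ×ˢ hs B) ×ˢ cyc D B n a),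
      t.2.2.take t.1 ++ t.2.1 :: (lst a (t.2.2.take t.1), -t.2.1.2) :: t.2.2.drop t.1 = l) ∨
    ∃ t ∈ range (n + 2) ×ˢ (hs B ×ˢ cyc D (4 * B) (n + 1) a), Rel_Rec K a l t := by
  obtain ⟨h1, h2, h3⟩ := mem_filter.1 hl
  have hlen := length_of_mem_paths h1
  obtain ⟨k, hka, hc⟩ := once_Rec (hlen ▸ hn : l.length / 2 < nw a l)
  obtain ⟨l₁, l₃, z, rfl, n1, n3⟩ := split_Rec hc
  cases l₃ with
  | nil => exact absurd (by rw [← h2, lst_append]; rfl) hka
  | cons e l₂ =>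
  obtain ⟨k', z'⟩ := e
  obtain rfl : n = l₁.length + l₂.length := by
    simp only [List.length_append, List.length_cons] at hlen
    omega
  rw [add_assoc] at h1
  obtain ⟨p1, p2⟩ := append_mem_paths.1 h1
  obtain ⟨c1, c2, c3, p3⟩ := cons_mem_paths.1 p2
  obtain ⟨d1, d2, d3, p4⟩ := cons_mem_paths.1 p3
  obtain ⟨p, hp⟩ : ∃ p, p = lst a l₁ := ⟨_, rfl⟩
  have hpD : p ∈ D := hp ▸ (vert_Rec p1).2 ha
  rw [lst_append] at h2
  rw [vl_append, ← hp] at h3
  rw [← hp] at c1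
  simp only [lst, vl] at h2 h3 c1 c2 c3 d1 d2 d3 p4
  obtain ⟨k1, k2, k3⟩ := hD k c2
  obtain ⟨q1, q2, q3⟩ := hD k' d2
  obtain ⟨r1, r2, r3⟩ := hD p hpD
  have nd : ∀ q ∈ D, q ≠ k → ¬ k ∣ q := fun q hq hne c =>
    hne ((Nat.prime_dvd_prime_iff_eq k1 (hD q hq).1).1 c).symm
  obtain ⟨N₁, z₁, u1, u2⟩ := den_Rec k1 l₁ a (nd a ha hka.symm)
    fun e he => nd _ ((vert_Rec p1).1 e he) (n1 e he)
  obtain ⟨N₂, z₂, v1, v2⟩ := den_Rec k1 l₂ k' (nd k' d2 d1)
    fun e he => nd _ ((vert_Rec p4).1 e he) (n3 e (List.mem_cons_of_mem _ he))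
  have k0 : (k : ℚ) ≠ 0 := Nat.cast_ne_zero.2 k1.ne_zero
  have q0 : (k' : ℚ) ≠ 0 := Nat.cast_ne_zero.2 q1.ne_zero
  have r0 : (p : ℚ) ≠ 0 := Nat.cast_ne_zero.2 r1.ne_zero
  have e1 : (z : ℚ) / (p * k) + z' / (k * k') = (z * k' + z' * p) / (p * k * k') := by
    field_simp
  obtain ⟨j, hj⟩ : (k : ℤ) ∣ z * k' + z' * p := by
    refine dvd_Rec k1 u1 (dvd_Rec k1 v1 ⟨-((z₁ * N₂ + z₂ * N₁) * p * k'), ?_⟩)
    have e2 : ((z : ℚ) * k' + z' * p) / (p * k * k') = -(vl a l₁ + vl k' l₂) := by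
      rw [← e1]
      linarith
    rw [div_eq_iff (by positivity)] at e2
    have e3 : ((z : ℚ) * k' + z' * p) * N₁ * N₂ = k * -((z₁ * N₂ + z₂ * N₁) * p * k') := by
      rw [e2, ← u2, ← v2]
      ring
    exact_mod_cast e3
  have e4 : (z : ℚ) / (p * k) + z' / (k * k') = j / (p * k') := by
    have e5 : (z : ℚ) * k' + z' * p = k * j := by exact_mod_cast hj
    rw [e1, e5]
    field_simp
  obtain ⟨z0, zB⟩ := mem_hs.1 c3
  obtain ⟨w0, wB⟩ := mem_hs.1 d3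
  have hi : l₁.length ∈ range (l₁.length + l₂.length + 2) := mem_range.2 (by omega)
  by_cases hj0 : j = 0
  · left
    subst hj0
    have e6 : p = k' := by
      by_contra c
      refine z0 (small_Rec (dvd_Rec r1 (q := k') (fun c' =>
        c ((Nat.prime_dvd_prime_iff_eq r1 q1).1 c')) ⟨-z', by linear_combination hj⟩) ?_)
      omega
    subst e6
    have e7 : z' = -z := by
      have e8 : (z + z') * p = 0 := by linear_combination hj
      have := (mul_eq_zero.1 e8).resolve_right (by exact_mod_cast r1.ne_zero)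
      omega
    refine ⟨(l₁.length, (k, z), l₁ ++ l₂), mem_product.2 ⟨hi, mem_product.2
      ⟨mem_product.2 ⟨c2, c3⟩, mem_filter.2 ⟨append_mem_paths.2 ⟨p1, hp ▸ p4⟩, ?_, ?_⟩⟩⟩, ?_⟩
    · rw [lst_append, ← hp, h2]
    · rw [vl_append, ← hp]
      rw [Int.cast_zero, zero_div] at e4
      linarith
    · simp only [List.take_left', List.drop_left']
      rw [← hp, e7]
  · right
    have e6 : k' ≠ p := by
      rintro rfl
      have e7 : z + z' = 0 := by
        refine small_Rec (dvd_Rec k1 (nd _ d2 d1) ⟨j, by linear_combination hj⟩) ?_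
        have := abs_add_le z z'
        omega
      have e8 : (k : ℤ) * j = 0 := by linear_combination (k' : ℤ) * e7 - hj
      exact hj0 ((mul_eq_zero.1 e8).resolve_left (by exact_mod_cast k1.ne_zero))
    have e9 : |j| ≤ ((4 * B : ℕ) : ℤ) := by
      have f1 : (k : ℤ) * |j| ≤ |z| * k' + |z'| * p := by
        have := abs_add_le (z * k') (z' * p)
        rwa [hj, abs_mul, abs_mul, abs_mul, Nat.abs_cast, Nat.abs_cast, Nat.abs_cast] at this
      have f2 : |z| * k' ≤ B * (2 * K) :=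
        mul_le_mul zB (by exact_mod_cast q3.le) (by positivity) (by positivity)
      have f3 : |z'| * p ≤ B * (2 * K) :=
        mul_le_mul wB (by exact_mod_cast r3.le) (by positivity) (by positivity)
      have f4 : (K : ℤ) * |j| ≤ k * |j| :=
        mul_le_mul_of_nonneg_right (by exact_mod_cast k2) (abs_nonneg j)
      have f5 : (0 : ℤ) < K := by exact_mod_cast (by omega : 0 < K)
      push_cast
      exact le_of_mul_le_mul_left (by linarith) f5
    have hB4 : B ≤ 4 * B := by omega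
    refine ⟨(l₁.length, z, l₁ ++ (k', j) :: l₂), mem_product.2 ⟨hi, mem_product.2
      ⟨c3, mem_filter.2 ⟨?_, ?_, ?_⟩⟩⟩, l₁, l₂, k, k', z', j, rfl, rfl, rfl, ?_, hp ▸ r1, hp ▸ r2,
      hj0, e9.trans_lt (by exact_mod_cast hB), k2, k3⟩
    · rw [add_assoc]
      exact append_mem_paths.2 ⟨paths_mono hB4 p1,
        cons_mem_paths.2 ⟨hp ▸ e6, d2, mem_hs.2 ⟨hj0, e9⟩, paths_mono hB4 p4⟩⟩
    · rw [lst_append]
      exact h2
    · rw [vl_append, ← hp]
      simp only [vl]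
      linarith
    · rw [← hp, mul_comm j]
      exact hj

theorem rec_stmt : RecStmt := by
  classical
  intro K B n D hD hB a ha
  obtain ⟨S, hS⟩ : ∃ S, S = (cyc D B (n + 2) a).filter fun l => (n + 2) / 2 < nw a l := ⟨_, rfl⟩
  have h1 : S ⊆ (range (n + 2) ×ˢ ((D ×ˢ hs B) ×ˢ cyc D B n a)).image (fun t =>
      t.2.2.take t.1 ++ t.2.1 :: (lst a (t.2.2.take t.1), -t.2.1.2) :: t.2.2.drop t.1) ∪
      S.filter fun l => ∃ t ∈ range (n + 2) ×ˢ (hs B ×ˢ cyc D (4 * B) (n + 1) a),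
        Rel_Rec K a l t := by
    intro l hl
    have h2 := mem_filter.1 (hS ▸ hl)
    exact mem_union.2 ((main_Rec hD hB ha h2.1 h2.2).imp mem_image.2 fun c => mem_filter.2 ⟨hl, c⟩)
  have h3 := card_le_card_of_forall_subsingleton (Rel_Rec K a)
    (s := S.filter fun l => ∃ t ∈ range (n + 2) ×ˢ (hs B ×ˢ cyc D (4 * B) (n + 1) a),
      Rel_Rec K a l t) (t := range (n + 2) ×ˢ (hs B ×ˢ cyc D (4 * B) (n + 1) a))
    (fun l hl => (mem_filter.1 hl).2) fun t _ l hl l' hl' => uniq_Rec hl.2 hl'.2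
  have h4 := ((card_le_card h1).trans (card_union_le _ _)).trans (add_le_add card_image_le h3)
  simp only [card_product, card_range, card_hs] at h4
  rw [← hS, mul_add]
  exact h4

end Pool.Agent.MP_c853c5_nt.DS
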