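import Pool.Agent.MP_c853c5_nt.DS.Basic

set_option autoImplicit false

open Finset Filter Real
open scoped ComplexConjugate

namespace Pool.Agent.MP_c853c5_nt.DS

open Pool.Agent.MP_88bd62_nt.U (ex)

lemma side_Schur {η : ℝ} (hη : 0 < η) (d : ℚ → ℝ) (S : Finset ℚ) (h1 : ∀ x ∈ S, η ≤ d x)
    (h2 : ∀ x ∈ S, ∀ y ∈ S, x ≠ y → η ≤ |d x - d y|) :
    (∀ y, η ≤ y → (∀ x ∈ S, d x + η ≤ y) → (S.card + 1) * η ≤ y) ∧
      ∑ x ∈ S, 1 / d x ≤ 1 / η * (harmonic S.card : ℝ) := by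
  induction S using Finset.induction_on_max_value d with
  | empty => exact ⟨fun y hy _ => by simpa using hy, by simp⟩
  | insert a s ha hm ih =>
    obtain ⟨i1, i2⟩ := ih (fun x hx => h1 x (mem_insert_of_mem hx))
      fun x hx y hy => h2 x (mem_insert_of_mem hx) y (mem_insert_of_mem hy)
    have h3 := i1 (d a) (h1 a (mem_insert_self _ _)) fun x hx => by
      have := h2 a (mem_insert_self _ _) x (mem_insert_of_mem hx) fun e => ha (e ▸ hx)
      rw [abs_of_nonneg (sub_nonneg.2 (hm x hx))] at this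
      linarith
    rw [card_insert_of_notMem ha, sum_insert ha, harmonic_succ]
    push_cast
    refine ⟨fun y _ hy => by linarith [hy a (mem_insert_self _ _)], ?_⟩
    have h4 : 1 / d a ≤ 1 / η * ((s.card : ℝ) + 1)⁻¹ := by
      rw [← one_div, div_mul_div_comm, one_mul, mul_comm]
      exact one_div_le_one_div_of_le (by positivity) h3
    linarith

lemma half_Schur {θ η : ℝ} (hθ : 0 < θ) (hη : 0 < η) (d : ℚ → ℝ) (S : Finset ℚ) {n : ℕ}
    (hn : S.card ≤ n) (h1 : ∀ x ∈ S, η ≤ d x)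
    (h2 : ∀ x ∈ S, ∀ y ∈ S, x ≠ y → η ≤ |d x - d y|) :
    ∑ x ∈ S, θ / (θ + d x) ≤ θ / η * (1 + Real.log (n + 1)) := by
  have h3 : (harmonic S.card : ℝ) ≤ 1 + Real.log (n + 1) := by
    refine (harmonic_le_one_add_log _).trans (add_le_add le_rfl ?_)
    rcases S.card.eq_zero_or_pos with h | h
    · rw [h, Nat.cast_zero, Real.log_zero]
      exact Real.log_nonneg (by linarith [(Nat.cast_nonneg n : (0 : ℝ) ≤ n)])
    · exact Real.log_le_log (by exact_mod_cast h) (by exact_mod_cast hn.trans n.le_succ)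
  calc _ ≤ ∑ x ∈ S, θ * (1 / d x) := sum_le_sum fun x hx => by
        rw [mul_one_div]
        exact div_le_div_of_nonneg_left hθ.le (hη.trans_le (h1 x hx)) (by linarith)
    _ ≤ θ * (1 / η * (1 + Real.log (n + 1))) := by
        rw [← mul_sum]
        exact mul_le_mul_of_nonneg_left ((side_Schur hη d S h1 h2).2.trans
          (mul_le_mul_of_nonneg_left h3 (by positivity))) hθ.le
    _ = _ := by ring

lemma row_Schur {θ η : ℝ} (hθ : 0 < θ) (hη : 0 < η) (V : Finset ℚ) {n : ℕ} (hn : V.card ≤ n)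
    (h : ∀ x ∈ V, ∀ y ∈ V, x ≠ y → η ≤ |(x : ℝ) - y|) {v : ℚ} (hv : v ∈ V) :
    ∑ x ∈ V, fm θ ((v : ℝ) - x) ≤ 1 + 2 * (θ / η) * (1 + Real.log (n + 1)) := by
  have a1 := half_Schur hθ hη (fun x => (v : ℝ) - x) (V.filter (· < v))
    ((card_filter_le _ _).trans hn) (fun x hx => by
      obtain ⟨b, c⟩ := mem_filter.1 hx
      have := h v hv x b c.ne'
      rwa [abs_of_pos (sub_pos.2 (by exact_mod_cast c))] at this) fun x hx y hy e => by
      rw [sub_sub_sub_cancel_left]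
      exact h y (mem_filter.1 hy).1 x (mem_filter.1 hx).1 e.symm
  have a2 := half_Schur hθ hη (fun x => (x : ℝ) - v) (V.filter (v < ·))
    ((card_filter_le _ _).trans hn) (fun x hx => by
      obtain ⟨b, c⟩ := mem_filter.1 hx
      have := h x b v hv c.ne'
      rwa [abs_of_pos (sub_pos.2 (by exact_mod_cast c))] at this) fun x hx y hy e => by
      rw [sub_sub_sub_cancel_right]
      exact h x (mem_filter.1 hx).1 y (mem_filter.1 hy).1 e
  have a3 : ∑ x ∈ V, fm θ ((v : ℝ) - x) = ∑ x ∈ V, ((if x = v then 1 else 0) +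
      (if x < v then θ / (θ + ((v : ℝ) - x)) else 0) +
      if v < x then θ / (θ + ((x : ℝ) - v)) else 0) := sum_congr rfl fun x _ => by
    unfold fm
    rcases lt_trichotomy x v with c | c | c
    · rw [if_neg c.ne, if_pos c, if_neg c.not_gt, abs_of_pos (sub_pos.2 (by exact_mod_cast c))]
      ring
    · simp [c, hθ.ne']
    · rw [if_neg c.ne', if_neg c.not_gt, if_pos c, abs_sub_comm,
        abs_of_pos (sub_pos.2 (by exact_mod_cast c))]
      ring
  rw [a3, sum_add_distrib, sum_add_distrib, sum_ite_eq', if_pos hv, ← sum_filter, ← sum_filter]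
  linarith

theorem schur_stmt : SchurStmt := by
  intro ι L ψ θ η hθ hη h
  obtain ⟨c, hc⟩ : ∃ c : ℚ → ℝ, ∀ v, c v = ((L.filter fun a => ψ a = v).card : ℝ) :=
    ⟨_, fun _ => rfl⟩
  have key : ∀ g : ℚ → ℝ, ∑ i ∈ L, g (ψ i) = ∑ v ∈ L.image ψ, c v * g v := fun g => by
    rw [sum_comp g ψ]
    exact sum_congr rfl fun v _ => by rw [hc, nsmul_eq_mul]
  have e1 : (((L ×ˢ L).filter fun p => ψ p.1 = ψ p.2).card : ℝ) =
      ∑ v ∈ L.image ψ, c v * c v := by
    rw [← key c, card_filter, Nat.cast_sum, sum_product_right]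
    exact sum_congr rfl fun j _ => by rw [hc, card_filter, Nat.cast_sum]
  have e2 : ∑ i ∈ L, ∑ j ∈ L, fm θ ((ψ i : ℝ) - ψ j) =
      ∑ v ∈ L.image ψ, ∑ w ∈ L.image ψ, c v * c w * fm θ ((v : ℝ) - w) := by
    rw [key fun v => ∑ j ∈ L, fm θ ((v : ℝ) - ψ j)]
    refine sum_congr rfl fun v _ => ?_
    rw [key fun w => fm θ ((v : ℝ) - w), mul_sum]
    exact sum_congr rfl fun w _ => (mul_assoc _ _ _).symm
  have e3 : ∑ v ∈ L.image ψ, ∑ w ∈ L.image ψ, c w * c w * fm θ ((v : ℝ) - w) =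
      ∑ v ∈ L.image ψ, ∑ w ∈ L.image ψ, c v * c v * fm θ ((v : ℝ) - w) := by
    rw [sum_comm]
    exact sum_congr rfl fun v _ => sum_congr rfl fun w _ => by rw [fm, fm, abs_sub_comm]
  have e4 : 2 * ∑ v ∈ L.image ψ, ∑ w ∈ L.image ψ, c v * c w * fm θ ((v : ℝ) - w) ≤
      ∑ v ∈ L.image ψ, ∑ w ∈ L.image ψ, c v * c v * fm θ ((v : ℝ) - w) +
      ∑ v ∈ L.image ψ, ∑ w ∈ L.image ψ, c w * c w * fm θ ((v : ℝ) - w) := by
    rw [mul_sum, ← sum_add_distrib]
    refine sum_le_sum fun v _ => ?_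
    rw [mul_sum, ← sum_add_distrib]
    exact sum_le_sum fun w _ => by
      nlinarith [mul_nonneg (sq_nonneg (c v - c w)) (fm_pos hθ ((v : ℝ) - w)).le]
  have e5 : ∑ v ∈ L.image ψ, ∑ w ∈ L.image ψ, c v * c v * fm θ ((v : ℝ) - w) ≤
      (1 + 2 * (θ / η) * (1 + Real.log (L.card + 1))) * ∑ v ∈ L.image ψ, c v * c v := by
    rw [mul_sum]
    refine sum_le_sum fun v hv => ?_
    rw [← mul_sum, mul_comm]
    refine mul_le_mul_of_nonneg_right (row_Schur hθ hη _ card_image_le ?_ hv) (mul_self_nonneg _)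
    simp only [mem_image]
    rintro _ ⟨i, hi, rfl⟩ _ ⟨j, hj, rfl⟩ e
    exact h i hi j hj e
  rw [e1, e2]
  linarith

end Pool.Agent.MP_c853c5_nt.DS
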