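import Pool.Agent.MP_c853c5_nt.DS.Basic

/-!
Values of paths: size, separation and number.
-/

set_option autoImplicit false

open Finset Filter Real
open scoped ComplexConjugate

namespace Pool.Agent.MP_c853c5_nt.DS

open Pool.Agent.MP_88bd62_nt.U (ex)

lemma size_Sep {K B : ℕ} {D : Finset ℕ} (hD : PrK K D) (n : ℕ) : ∀ a ∈ D, ∀ l ∈ paths D B n a,
    lst a l ∈ D ∧ |(vl a l : ℝ)| ≤ n * B / (K : ℝ) ^ 2 := by
  induction n with
  | zero =>
    intro a ha l hl
    rw [mem_paths_zero.1 hl]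
    exact ⟨ha, by simp [vl]⟩
  | succ n ih =>
    intro a ha l hl
    cases l with
    | nil => exact absurd hl nil_not_mem_paths
    | cons e l =>
      obtain ⟨-, h2, h3, h4⟩ := cons_mem_paths.1 hl
      obtain ⟨h5, h6⟩ := ih _ h2 l h4
      refine ⟨h5, ?_⟩
      have hK : (0 : ℝ) < K := by
        have := (hD a ha).2.2
        exact_mod_cast (by omega : 0 < K)
      have k1 : (K : ℝ) ≤ a := by exact_mod_cast (hD a ha).2.1
      have k2 : (K : ℝ) ≤ e.1 := by exact_mod_cast (hD _ h2).2.1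
      have k3 : |(e.2 : ℝ) / (a * e.1)| ≤ B / (K : ℝ) ^ 2 := by
        rw [abs_div, abs_of_nonneg (a := (a : ℝ) * e.1) (by positivity)]
        exact div_le_div₀ (Nat.cast_nonneg _) (abs_le_of_hs h3) (by positivity) (by nlinarith)
      simp only [vl]
      push_cast
      refine (abs_add_le _ _).trans ((add_le_add k3 h6).trans_eq ?_)
      ring

lemma den_Sep {K B : ℕ} {D : Finset ℕ} (hD : PrK K D) (n : ℕ) : ∀ a ∈ D,
    ∀ l ∈ paths D B (n + 1) a, ∃ (z : ℤ) (m : ℕ), 1 ≤ m ∧ m ≤ (2 * K) ^ n ∧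
      vl a l * (a * lst a l * m) = z := by
  induction n with
  | zero =>
    intro a ha l hl
    cases l with
    | nil => exact absurd hl nil_not_mem_paths
    | cons e l =>
      obtain ⟨-, h2, -, h4⟩ := cons_mem_paths.1 hl
      have k1 : (a : ℚ) ≠ 0 := by exact_mod_cast (hD a ha).1.ne_zero
      have k2 : (e.1 : ℚ) ≠ 0 := by exact_mod_cast (hD _ h2).1.ne_zero
      refine ⟨e.2, 1, le_rfl, by simp, ?_⟩
      rw [mem_paths_zero.1 h4]
      simp only [vl, lst]
      field_simp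
      simp
  | succ n ih =>
    intro a ha l hl
    cases l with
    | nil => exact absurd hl nil_not_mem_paths
    | cons e l =>
      obtain ⟨-, h2, -, h4⟩ := cons_mem_paths.1 hl
      obtain ⟨z, m, h5, h6, h7⟩ := ih _ h2 l h4
      have k1 : (a : ℚ) ≠ 0 := by exact_mod_cast (hD a ha).1.ne_zero
      have k2 : (e.1 : ℚ) ≠ 0 := by exact_mod_cast (hD _ h2).1.ne_zero
      refine ⟨e.2 * lst e.1 l * m + a * z, e.1 * m, Nat.mul_pos (hD _ h2).1.pos h5, ?_, ?_⟩
      · rw [pow_succ']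
        exact Nat.mul_le_mul (hD _ h2).2.2.le h6
      · simp only [vl, lst]
        push_cast
        rw [← h7]
        field_simp

lemma step_Sep (B : ℕ) (D : Finset ℕ) (k n a : ℕ) :
    ((paths D B (n + 1) a).filter fun l => lst a l = k).card =
      ∑ b ∈ D.erase a, 2 * B * ((paths D B n b).filter fun l => lst b l = k).card := by
  rw [card_filter, sum_paths_succ]
  refine sum_congr rfl fun b _ => ?_
  rw [card_filter, ← card_hs, ← smul_eq_mul, ← sum_const]
  rfl

lemma count_Sep (B : ℕ) (D : Finset ℕ) (k n : ℕ) : ∀ a : ℕ,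
    ((paths D B (n + 1) a).filter fun l => lst a l = k).card ≤ D.card ^ n * (2 * B) ^ (n + 1) := by
  induction n with
  | zero =>
    intro a
    have e : ∀ b, ((paths D B 0 b).filter fun l => lst b l = k).card = if b = k then 1 else 0 :=
      fun b => by
        rw [card_filter, paths, sum_singleton]
        rfl
    rw [step_Sep]
    simp only [e, mul_ite, mul_one, mul_zero, sum_ite_eq', pow_zero, one_mul, zero_add, pow_one]
    split_ifs <;> omega
  | succ n ih =>
    intro a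
    rw [step_Sep]
    refine (sum_le_card_nsmul _ _ _ fun b _ => Nat.mul_le_mul_left _ (ih b)).trans ?_
    rw [smul_eq_mul]
    exact (Nat.mul_le_mul_right _ card_erase_le).trans_eq (by ring)

theorem sep_stmt : SepStmt := by
  intro K B n D hD a ha
  refine ⟨size_Sep hD n a ha, fun l hl l' hl' hn he hne => ?_, fun k => count_Sep B D k n a⟩
  obtain ⟨n, rfl⟩ : ∃ m, n = m + 1 := ⟨n - 1, by omega⟩
  obtain ⟨z, m, h1, h2, h3⟩ := den_Sep hD n a ha l hl
  obtain ⟨z', m', h1', h2', h3'⟩ := den_Sep hD n a ha l' hl'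
  have hc := hD _ (size_Sep hD _ a ha l hl).1
  have hA := hD a ha
  rw [← he] at h3'
  have k0 : 0 < a * lst a l * m * m' := Nat.mul_pos (Nat.mul_pos (Nat.mul_pos hA.1.pos hc.1.pos) h1) h1'
  have k1 : a * lst a l * m * m' ≤ (2 * K) ^ (2 * (n + 1)) :=
    (Nat.mul_le_mul (Nat.mul_le_mul (Nat.mul_le_mul hA.2.2.le hc.2.2.le) h2) h2').trans_eq
      (by ring)
  have k2 : (vl a l - vl a l') * ((a * lst a l * m * m' : ℕ) : ℚ) = ((z * m' - z' * m : ℤ) : ℚ) := by
    push_cast
    rw [← h3, ← h3']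
    ring
  have k3 : z * m' - z' * m ≠ 0 := fun e => by
    rw [e, Int.cast_zero, mul_eq_zero, sub_eq_zero] at k2
    exact k2.elim hne (by exact_mod_cast k0.ne')
  have k4 : (1 : ℝ) ≤ |((z * m' - z' * m : ℤ) : ℝ)| := by exact_mod_cast Int.one_le_abs k3
  have k5 : ((vl a l : ℝ) - vl a l') * ((a * lst a l * m * m' : ℕ) : ℝ) =
      ((z * m' - z' * m : ℤ) : ℝ) := by exact_mod_cast k2
  have k6 : ((a * lst a l * m * m' : ℕ) : ℝ) ≤ (2 * K : ℝ) ^ (2 * (n + 1)) := by exact_mod_cast k1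
  have k7 : (0 : ℝ) < ((a * lst a l * m * m' : ℕ) : ℝ) := by exact_mod_cast k0
  rw [← k5, abs_mul, abs_of_pos k7] at k4
  rw [div_le_iff₀ (k7.trans_le k6)]
  exact k4.trans (mul_le_mul_of_nonneg_left k6 (abs_nonneg _))

end Pool.Agent.MP_c853c5_nt.DS
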