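import Pool.Agent.MP_c853c5_nt.DS.Basic

/-!
The truncation of the kernel costs little: large frequencies, distant products, equal products.
-/

set_option autoImplicit false

open Finset Filter Real
open scoped ComplexConjugate

namespace Pool.Agent.MP_c853c5_nt.DS

open Pool.Agent.MP_88bd62_nt.U (ex)

lemma dd_Small {Δ N L n n' : ℝ} (hΔ : 0 < Δ) (hN : 0 < N) (h1 : N ≤ n) (h2 : n ≤ 2 * L * N)
    (h3 : N ≤ n') (h4 : n' ≤ 2 * L * N) :
    Δ * N ≤ √(dd Δ Δ n n') ∧ dd Δ Δ n n' ≤ 8 * (L * N * Δ) ^ 2 ∧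
      √(dd Δ Δ n n') ≤ 3 * (L * N * Δ) := by
  have hn : 0 < n := hN.trans_le h1
  have hn' : 0 < n' := hN.trans_le h3
  have hLN : 0 < L * N := by linarith
  have e1 : n ^ 2 ≤ (2 * L * N) ^ 2 := pow_le_pow_left₀ hn.le h2 2
  have e2 : n' ^ 2 ≤ (2 * L * N) ^ 2 := pow_le_pow_left₀ hn'.le h4 2
  have e3 : N ^ 2 ≤ n ^ 2 := pow_le_pow_left₀ hN.le h1 2
  have hΔ2 : 0 < Δ ^ 2 := by positivity
  have hup : dd Δ Δ n n' ≤ 8 * (L * N * Δ) ^ 2 := by
    unfold dd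
    have a1 := mul_le_mul_of_nonneg_right e1 hΔ2.le
    have a2 := mul_le_mul_of_nonneg_right e2 hΔ2.le
    calc n ^ 2 * Δ ^ 2 + n' ^ 2 * Δ ^ 2
        ≤ (2 * L * N) ^ 2 * Δ ^ 2 + (2 * L * N) ^ 2 * Δ ^ 2 := add_le_add a1 a2
      _ = 8 * (L * N * Δ) ^ 2 := by ring
  refine ⟨?_, hup, ?_⟩
  · refine Real.le_sqrt_of_sq_le ?_
    unfold dd
    have a1 := mul_le_mul_of_nonneg_right e3 hΔ2.le
    have a2 : 0 ≤ n' ^ 2 * Δ ^ 2 := by positivity
    calc (Δ * N) ^ 2 = N ^ 2 * Δ ^ 2 := by ring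
      _ ≤ _ := by linarith
  · have h0 : 0 ≤ L * N * Δ := by positivity
    refine Real.sqrt_le_iff.2 ⟨by positivity, hup.trans ?_⟩
    have : 0 ≤ (L * N * Δ) ^ 2 := by positivity
    calc 8 * (L * N * Δ) ^ 2 ≤ 9 * (L * N * Δ) ^ 2 := by linarith
      _ = (3 * (L * N * Δ)) ^ 2 := by ring

lemma exp_Small {d w l z : ℝ} (hd : 0 < d) (hw : d ≤ 8 * w ^ 2) (hz : (3 * l * w) ^ 2 ≤ z) :
    Real.exp (-(π * z / d)) ≤ Real.exp (-(3 * l ^ 2)) := by
  refine Real.exp_le_exp.2 (neg_le_neg ?_)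
  rw [le_div_iff₀ hd]
  have h3 : (3 : ℝ) ≤ π := Real.pi_gt_three.le
  have hz0 : 0 ≤ z := (sq_nonneg _).trans hz
  have hl : 0 ≤ l ^ 2 := sq_nonneg _
  have hw2 : 0 ≤ l ^ 2 * w ^ 2 := by positivity
  calc 3 * l ^ 2 * d ≤ 3 * l ^ 2 * (8 * w ^ 2) := mul_le_mul_of_nonneg_left hw (by positivity)
    _ ≤ 3 * (3 * l * w) ^ 2 := by nlinarith
    _ ≤ 3 * z := by linarith
    _ ≤ π * z := mul_le_mul_of_nonneg_right h3 hz0

lemma exp_one_Small {d z : ℝ} (hd : 0 < d) (hz : 0 ≤ z) : Real.exp (-(π * z / d)) ≤ 1 := by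
  refine Real.exp_le_one_iff.2 (neg_nonpos.2 ?_)
  positivity

lemma am_Small {X Δ N n n' e₁ e₂ : ℝ} (h : ℤ) (hX : 0 < X) (hΔ : 0 < Δ) (hN : 0 < N)
    (hd : Δ * N ≤ √(dd Δ Δ n n'))
    (h1 : Real.exp (-(π * (n - n') ^ 2 / dd Δ Δ n n')) ≤ e₁)
    (h2 : Real.exp (-(π * ((h : ℝ) ^ 2 * (X * Δ * Δ) ^ 2) / dd Δ Δ n n')) ≤ e₂) :
    am X Δ Δ n n' h ≤ X / (Δ * N) * (e₁ * e₂) := by
  unfold am
  rw [mul_assoc π, mul_assoc]
  have h0 : 0 ≤ e₁ := (Real.exp_pos _).le.trans h1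
  exact mul_le_mul (div_le_div_of_nonneg_left hX.le (by positivity) hd)
    (mul_le_mul h1 h2 (Real.exp_pos _).le h0) (by positivity) (by positivity)

lemma rb_Small {X Δ n n' E : ℝ} (B : ℕ) (hX : 0 < X) (h : ∀ h : ℤ, am X Δ Δ n n' h ≤ E) :
    |rb X Δ Δ B n n'| ≤ 2 * B * E := by
  unfold rb
  refine (abs_sum_le_sum_abs _ _).trans ?_
  calc ∑ h ∈ hs B, |am X Δ Δ n n' h * Real.cos (2 * π * (h * ct X Δ Δ n n'))|
      ≤ ∑ _h ∈ hs B, E := by
        refine sum_le_sum fun i _ => ?_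
        rw [abs_mul, abs_of_nonneg (am_nonneg hX.le _ _ _ _ _)]
        exact (mul_le_of_le_one_right (am_nonneg hX.le _ _ _ _ _) (Real.abs_cos_le_one _)).trans
          (h i)
    _ = 2 * B * E := by
        rw [sum_const, card_hs, nsmul_eq_mul]
        push_cast
        ring

/-- one term of the difference -/
lemma term_Small (hP : PoisStmt) {X Δ N L l : ℝ} {B H a a' : ℕ} (hX : 0 < X) (hΔ : 0 < Δ)
    (hN : 0 < N) (hl : 0 ≤ l) (h1 : N ≤ a) (h2 : (a : ℝ) ≤ 2 * L * N) (h3 : N ≤ a')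
    (h4 : (a' : ℝ) ≤ 2 * L * N) (hB : 3 * L * l * (N / (X * Δ)) ≤ B + 1)
    (hH : 3 * L * l * (N * Δ) ≤ H) :
    |og X Δ Δ a a' - if a ≠ a' ∧ a ≤ a' + H ∧ a' ≤ a + H then rb X Δ Δ B a a' else 0| ≤
      (4 * (1 + 3 * L * (N / (X * Δ))) + 2 * B) * (X / (Δ * N) * Real.exp (-(3 * l ^ 2))) +
        if a = a' then 2 * B * (X / (Δ * N)) else 0 := by
  obtain ⟨d1, d2, d3⟩ := dd_Small hΔ hN h1 h2 h3 h4
  have hn : (0 : ℝ) < a := hN.trans_le h1
  have hn' : (0 : ℝ) < a' := hN.trans_le h3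
  have hLN : 0 < L * N := by linarith
  have hL : 0 < L := (pos_iff_pos_of_mul_pos hLN).2 hN
  have hd : 0 < dd Δ Δ (a : ℝ) a' := dd_pos _ hΔ hn
  set E : ℝ := X / (Δ * N) * Real.exp (-(3 * l ^ 2)) with hE
  have hE0 : 0 ≤ E := by positivity
  have hi : |og X Δ Δ a a' - rb X Δ Δ B a a'| ≤ 4 * (1 + 3 * L * (N / (X * Δ))) * E := by
    refine (hP X Δ Δ a a' B hX hΔ hΔ hn hn').2.trans ?_
    have b1 : √(dd Δ Δ (a : ℝ) a') / (X * Δ * Δ) ≤ 3 * L * (N / (X * Δ)) := by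
      calc √(dd Δ Δ (a : ℝ) a') / (X * Δ * Δ) ≤ 3 * (L * N * Δ) / (X * Δ * Δ) :=
            div_le_div_of_nonneg_right d3 (by positivity)
        _ = 3 * L * (N / (X * Δ)) := by field_simp
    have b2 : am X Δ Δ a a' ((B : ℤ) + 1) ≤ E := by
      refine (am_Small (e₁ := 1) (e₂ := Real.exp (-(3 * l ^ 2))) _ hX hΔ hN d1
        (exp_one_Small hd (sq_nonneg _)) (exp_Small hd d2 ?_)).trans_eq (by rw [one_mul])
      rw [← mul_pow]
      refine pow_le_pow_left₀ (by positivity) ?_ 2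
      push_cast
      calc 3 * l * (L * N * Δ) = 3 * L * l * (N / (X * Δ)) * (X * Δ * Δ) := by field_simp
        _ ≤ ((B : ℝ) + 1) * (X * Δ * Δ) := mul_le_mul_of_nonneg_right hB (by positivity)
    exact mul_le_mul (by linarith) b2 (am_nonneg hX.le _ _ _ _ _) (by positivity)
  have hBE : 0 ≤ 2 * (B : ℝ) * E := by positivity
  have hBX : 0 ≤ 2 * (B : ℝ) * (X / (Δ * N)) := by positivity
  have htri : |og X Δ Δ a a' - 0| ≤ |og X Δ Δ a a' - rb X Δ Δ B a a'| + |rb X Δ Δ B a a'| := by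
    have := abs_add_le (og X Δ Δ a a' - rb X Δ Δ B a a') (rb X Δ Δ B a a')
    rw [sub_add_cancel] at this
    rwa [sub_zero]
  rw [add_mul]
  by_cases hc : a ≠ a' ∧ a ≤ a' + H ∧ a' ≤ a + H
  · rw [if_pos hc, if_neg hc.1]
    linarith
  · rw [if_neg hc]
    by_cases he : a = a'
    · rw [if_pos he]
      have := rb_Small (E := X / (Δ * N)) B hX fun h =>
        (am_Small (e₁ := 1) (e₂ := 1) h hX hΔ hN d1 (exp_one_Small hd (sq_nonneg _))
          (exp_one_Small hd (by positivity))).trans_eq (by ring)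
      linarith
    · rw [if_neg he]
      have hfar : (H : ℝ) ≤ |(a : ℝ) - a'| := by
        by_cases hq : a ≤ a' + H
        · have : a + H ≤ a' := by
            by_contra hq'
            exact hc ⟨he, hq, by omega⟩
          have : (a : ℝ) + H ≤ a' := by exact_mod_cast this
          exact le_abs.2 (Or.inr (by linarith))
        · have : a' + H ≤ a := by omega
          have : (a' : ℝ) + H ≤ a := by exact_mod_cast this
          exact le_abs.2 (Or.inl (by linarith))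
      have hsq : (3 * l * (L * N * Δ)) ^ 2 ≤ ((a : ℝ) - a') ^ 2 := by
        rw [← sq_abs ((a : ℝ) - a')]
        refine pow_le_pow_left₀ (by positivity) (le_trans ?_ hfar) 2
        calc 3 * l * (L * N * Δ) = 3 * L * l * (N * Δ) := by ring
          _ ≤ H := hH
      have := rb_Small (E := E) B hX fun h =>
        (am_Small (e₁ := Real.exp (-(3 * l ^ 2))) (e₂ := 1) h hX hΔ hN d1 (exp_Small hd d2 hsq)
          (exp_one_Small hd (by positivity))).trans_eq (by rw [mul_one])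
      linarith

/-- equal products with two different primes -/
lemma cnt1_Small {K P Q k k' : ℕ} (hP : 1 ≤ P) (hk : k.Prime) (hk' : k'.Prime) (hK : K ≤ k)
    (hK0 : 1 ≤ K) (hne : k ≠ k') :
    ((Icc P Q ×ˢ Icc P Q).filter fun w : ℕ × ℕ => k * w.1 = k' * w.2).card ≤ Q / K := by
  have hc : (Icc 1 (Q / K)).card = Q / K := by simp
  rw [← hc]
  have hdv : ∀ w : ℕ × ℕ, k * w.1 = k' * w.2 → k ∣ w.2 := by
    intro w hw
    have : k ∣ k' * w.2 := ⟨w.1, hw.symm⟩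
    rcases (Nat.Prime.dvd_mul hk).1 this with h | h
    · exact absurd ((Nat.prime_dvd_prime_iff_eq hk hk').1 h) hne
    · exact h
  refine card_le_card_of_injOn (fun w => w.2 / k) (fun w hw => ?_) fun w hw w' hw' e => ?_
  · rw [coe_filter, Set.mem_ofPred_eq, mem_product, mem_Icc, mem_Icc] at hw
    obtain ⟨m, hm⟩ := hdv w hw.2
    have e : w.2 / k = m := by rw [hm, Nat.mul_div_cancel_left _ hk.pos]
    rw [mem_coe, mem_Icc]
    simp only [e]
    constructor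
    · rcases Nat.eq_zero_or_pos m with h | h
      · rw [h, mul_zero] at hm
        omega
      · exact h
    · rw [Nat.le_div_iff_mul_le hK0]
      calc m * K ≤ m * k := Nat.mul_le_mul_left _ hK
        _ = w.2 := by rw [hm, mul_comm]
        _ ≤ Q := hw.1.2.2
  · rw [coe_filter, Set.mem_ofPred_eq] at hw hw'
    have e2 : w.2 = w'.2 := by
      have a1 := Nat.mul_div_cancel' (hdv w hw.2)
      have a2 := Nat.mul_div_cancel' (hdv w' hw'.2)
      simp only at e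
      rw [← a1, ← a2, e]
    have e1 : w.1 = w'.1 := Nat.eq_of_mul_eq_mul_left hk.pos (by rw [hw.2, hw'.2, e2])
    exact Prod.ext e1 e2

lemma cnt2_Small {P Q k : ℕ} (hP : 1 ≤ P) (hk : 0 < k) :
    ((Icc P Q ×ˢ Icc P Q).filter fun w : ℕ × ℕ => k * w.1 = k * w.2).card ≤ Q := by
  have hc : (Icc P Q).card ≤ Q := by
    rw [Nat.card_Icc]
    omega
  refine le_trans ?_ hc
  refine card_le_card_of_injOn (fun w => w.1) (fun w hw => ?_) fun w hw w' hw' e => ?_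
  · rw [coe_filter, Set.mem_ofPred_eq, mem_product] at hw
    exact mem_coe.2 hw.1.1
  · rw [coe_filter, Set.mem_ofPred_eq] at hw hw'
    have a1 := Nat.eq_of_mul_eq_mul_left hk hw.2
    have a2 := Nat.eq_of_mul_eq_mul_left hk hw'.2
    simp only at e
    exact Prod.ext e (by rw [← a1, ← a2, e])

/-- the number of pairs with equal products -/
lemma cnt_Small {K P Q : ℕ} {D : Finset ℕ} (hD : PrK K D) (hK : 1 ≤ K) (hP : 1 ≤ P) {E : ℝ}
    (hE : 0 ≤ E) :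
    ∑ u ∈ D ×ˢ Icc P Q, ∑ v ∈ D ×ˢ Icc P Q, (if u.1 * u.2 = v.1 * v.2 then E else 0) ≤
      2 * (K * Q) * E := by
  have hKr : (0 : ℝ) < K := by exact_mod_cast hK
  have hcard : (D.card : ℝ) ≤ K := by exact_mod_cast hD.card_le
  have key : ∀ k ∈ D, ∀ k' ∈ D, ∑ p ∈ Icc P Q, ∑ p' ∈ Icc P Q,
      (if k * p = k' * p' then E else 0) ≤ (if k = k' then Q * E else 0) + Q / K * E := by
    intro k hk k' hk'
    have e : ∑ p ∈ Icc P Q, ∑ p' ∈ Icc P Q, (if k * p = k' * p' then E else 0) =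
        (((Icc P Q ×ˢ Icc P Q).filter fun w : ℕ × ℕ => k * w.1 = k' * w.2).card : ℝ) * E := by
      rw [← sum_product' (f := fun p p' => if k * p = k' * p' then E else 0), ← sum_filter,
        sum_const, nsmul_eq_mul]
    rw [e]
    have h0 : 0 ≤ (Q : ℝ) / K * E := by positivity
    by_cases h : k = k'
    · subst h
      rw [if_pos rfl]
      have : (((Icc P Q ×ˢ Icc P Q).filter fun w : ℕ × ℕ => k * w.1 = k * w.2).card : ℝ) ≤ Q := by
        exact_mod_cast cnt2_Small hP (hD k hk).1.pos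
      have := mul_le_mul_of_nonneg_right this hE
      linarith
    · rw [if_neg h, zero_add]
      refine mul_le_mul_of_nonneg_right (le_trans ?_ Nat.cast_div_le) hE
      exact_mod_cast cnt1_Small hP (hD k hk).1 (hD k' hk').1 (hD k hk).2.1 hK h
  simp only [sum_product]
  calc ∑ k ∈ D, ∑ p ∈ Icc P Q, ∑ k' ∈ D, ∑ p' ∈ Icc P Q, (if k * p = k' * p' then E else 0)
      = ∑ k ∈ D, ∑ k' ∈ D, ∑ p ∈ Icc P Q, ∑ p' ∈ Icc P Q,
          (if k * p = k' * p' then E else 0) := sum_congr rfl fun k _ => sum_comm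
    _ ≤ ∑ _k ∈ D, 2 * Q * E := by
        refine sum_le_sum fun k hk => (sum_le_sum fun k' hk' => key k hk k' hk').trans ?_
        rw [sum_add_distrib, sum_ite_eq, if_pos hk, sum_const, nsmul_eq_mul]
        have h1 : (D.card : ℝ) * (Q / K * E) ≤ K * (Q / K * E) :=
          mul_le_mul_of_nonneg_right hcard (by positivity)
        have h2 : (K : ℝ) * (Q / K * E) = Q * E := by field_simp
        linarith
    _ ≤ 2 * (K * Q) * E := by
        rw [sum_const, nsmul_eq_mul]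
        have h1 : (D.card : ℝ) * (2 * Q * E) ≤ K * (2 * Q * E) :=
          mul_le_mul_of_nonneg_right hcard (by positivity)
        linarith

lemma swap_Small (D R : Finset ℕ) (F : ℕ × ℕ → ℕ × ℕ → ℝ) :
    ∑ u ∈ D ×ˢ R, ∑ v ∈ D ×ˢ R, F u v =
      ∑ u ∈ D ×ˢ R, ∑ v ∈ D ×ˢ R, F (v.1, u.2) (u.1, v.2) := by
  simp only [sum_product]
  rw [sum_comm, sum_comm (s := D) (t := R)]
  exact sum_congr rfl fun p _ => sum_comm

/-- the difference, before the sizes are inserted -/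
lemma sum_Small (hP : PoisStmt) {X Δ l : ℝ} {B H K P Λ : ℕ} {D : Finset ℕ} {b c : ℕ → ℝ}
    (hX : 0 < X) (hΔ : 0 < Δ) (hK : 1 ≤ K) (hP1 : 1 ≤ P) (hl : 0 ≤ l) (hD : PrK K D)
    (hb : ∀ n, |b n| ≤ 1) (hc : ∀ n, |c n| ≤ 1)
    (hB : 3 * Λ * l * (K * P / (X * Δ)) ≤ B + 1) (hH : 3 * Λ * l * (K * P * Δ) ≤ H) :
    |QF D (Icc P (Λ * P)) b c (og X Δ Δ) - ∑ u ∈ D ×ˢ Icc P (Λ * P), ∑ v ∈ D ×ˢ Icc P (Λ * P),
      b u.1 * c u.2 * (b v.1 * c v.2) * G0 X Δ B H u v| ≤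
      (Λ * (K * P)) ^ 2 * ((4 * (1 + 3 * Λ * (K * P / (X * Δ))) + 2 * B) *
        (X / (Δ * (K * P)) * Real.exp (-(3 * l ^ 2)))) +
      2 * (Λ * (K * P)) * (2 * B * (X / (Δ * (K * P)))) := by
  have hKr : (0 : ℝ) < K := by exact_mod_cast hK
  have hPr : (0 : ℝ) < P := by exact_mod_cast hP1
  have hN : (0 : ℝ) < K * P := by positivity
  set U := D ×ˢ Icc P (Λ * P) with hU
  set E₁ : ℝ := (4 * (1 + 3 * Λ * (K * P / (X * Δ))) + 2 * B) *
    (X / (Δ * (K * P)) * Real.exp (-(3 * l ^ 2))) with hE₁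
  set E₂ : ℝ := 2 * B * (X / (Δ * (K * P))) with hE₂
  have hE1 : 0 ≤ E₁ := by positivity
  have hE2 : 0 ≤ E₂ := by positivity
  have hmem : ∀ u ∈ U, (K : ℝ) * P ≤ ((u.1 * u.2 : ℕ) : ℝ) ∧
      ((u.1 * u.2 : ℕ) : ℝ) ≤ 2 * Λ * (K * P) := by
    intro u hu
    rw [hU, mem_product, mem_Icc] at hu
    obtain ⟨_, a1, a2⟩ := hD _ hu.1
    constructor
    · exact_mod_cast Nat.mul_le_mul a1 hu.2.1
    · have : u.1 * u.2 ≤ 2 * Λ * (K * P) :=
        (Nat.mul_le_mul a2.le hu.2.2).trans_eq (by ring)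
      exact_mod_cast this
  have hcard : (U.card : ℝ) ≤ Λ * (K * P) := by
    have : U.card ≤ Λ * (K * P) := by
      rw [hU, card_product]
      exact (Nat.mul_le_mul hD.card_le (card_Icc_le hP1)).trans_eq (by ring)
    exact_mod_cast this
  rw [swap_Small D (Icc P (Λ * P)) fun u v => b u.1 * c u.2 * (b v.1 * c v.2) * G0 X Δ B H u v,
    QF, ← hU, ← sum_sub_distrib]
  refine (abs_sum_le_sum_abs _ _).trans ?_
  have hterm : ∀ u ∈ U, |∑ v ∈ U, b u.1 * c u.2 * (b v.1 * c v.2) *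
      og X Δ Δ ((u.1 : ℝ) * u.2) ((v.1 : ℝ) * v.2) - ∑ v ∈ U, b v.1 * c u.2 * (b u.1 * c v.2) *
      G0 X Δ B H (v.1, u.2) (u.1, v.2)| ≤
      ∑ v ∈ U, (E₁ + if u.1 * u.2 = v.1 * v.2 then E₂ else 0) := by
    intro u hu
    rw [← sum_sub_distrib]
    refine (abs_sum_le_sum_abs _ _).trans (sum_le_sum fun v hv => ?_)
    have ht := term_Small hP (B := B) (H := H) hX hΔ hN hl (hmem u hu).1 (hmem u hu).2
      (hmem v hv).1 (hmem v hv).2 hB hH
    rw [Nat.cast_mul u.1, Nat.cast_mul v.1] at ht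
    have e : b u.1 * c u.2 * (b v.1 * c v.2) * og X Δ Δ ((u.1 : ℝ) * u.2) ((v.1 : ℝ) * v.2) -
        b v.1 * c u.2 * (b u.1 * c v.2) * G0 X Δ B H (v.1, u.2) (u.1, v.2) =
        b u.1 * c u.2 * (b v.1 * c v.2) * (og X Δ Δ ((u.1 : ℝ) * u.2) ((v.1 : ℝ) * v.2) -
          G0 X Δ B H (v.1, u.2) (u.1, v.2)) := by ring
    rw [e, abs_mul]
    refine (mul_le_of_le_one_left (abs_nonneg _) ?_).trans ht
    rw [abs_mul, abs_mul, abs_mul]
    exact mul_le_one₀ (mul_le_one₀ (hb _) (abs_nonneg _) (hc _)) (by positivity)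
      (mul_le_one₀ (hb _) (abs_nonneg _) (hc _))
  refine (sum_le_sum hterm).trans ?_
  simp only [sum_add_distrib, sum_const, nsmul_eq_mul]
  refine add_le_add ?_ ?_
  · rw [← mul_assoc, ← sq]
    exact mul_le_mul_of_nonneg_right (pow_le_pow_left₀ (Nat.cast_nonneg _) hcard 2) hE1
  · refine (cnt_Small hD hK hP1 hE2).trans_eq ?_
    push_cast
    ring

lemma fin1_Small {X Δ N L l s e B w : ℝ} (hX : 0 < X) (hΔ : 0 < Δ) (hN : 0 < N) (hL : 1 ≤ L)
    (hl : 1 ≤ l) (hs : 1 ≤ s) (hsΔ : 1 ≤ Δ * s) (hNX : N ≤ X)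
    (hB : B ≤ 3 * L * l * (N / (X * Δ))) (he0 : 0 ≤ e) (he : 44 * L ^ 3 * l * (s ^ 2 * e) ≤ w) :
    (L * N) ^ 2 * ((4 * (1 + 3 * L * (N / (X * Δ))) + 2 * B) * (X / (Δ * N) * e)) ≤
      X * N * (w / 2) := by
  have hL0 : 0 < L := by linarith
  have hl0 : 0 < l := by linarith
  have hs0 : 0 < s := by linarith
  have hq : N / (X * Δ) ≤ s := by
    rw [div_le_iff₀ (by positivity)]
    calc N ≤ X * 1 := by linarith
      _ ≤ X * (Δ * s) := mul_le_mul_of_nonneg_left hsΔ hX.le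
      _ = s * (X * Δ) := by ring
  have h1 : X / (Δ * N) ≤ X * s / N := by
    rw [div_le_div_iff₀ (by positivity) hN]
    calc X * N = X * N * 1 := by ring
      _ ≤ X * N * (Δ * s) := mul_le_mul_of_nonneg_left hsΔ (by positivity)
      _ = X * s * (Δ * N) := by ring
  have h2 : 4 * (1 + 3 * L * (N / (X * Δ))) + 2 * B ≤ 22 * (L * l * s) := by
    have a1 : L * (N / (X * Δ)) ≤ L * s := mul_le_mul_of_nonneg_left hq hL0.le
    have a2 : L * l * (N / (X * Δ)) ≤ L * l * s := mul_le_mul_of_nonneg_left hq (by positivity)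
    have a3 : L * s ≤ L * l * s :=
      mul_le_mul_of_nonneg_right (le_mul_of_one_le_right hL0.le hl) hs0.le
    have a4 : 1 ≤ L * s := one_le_mul_of_one_le_of_one_le hL hs
    linarith
  calc (L * N) ^ 2 * ((4 * (1 + 3 * L * (N / (X * Δ))) + 2 * B) * (X / (Δ * N) * e))
      ≤ (L * N) ^ 2 * (22 * (L * l * s) * (X * s / N * e)) :=
        mul_le_mul_of_nonneg_left (mul_le_mul h2 (mul_le_mul_of_nonneg_right h1 he0)
          (by positivity) (by positivity)) (by positivity)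
    _ = X * N * (44 * L ^ 3 * l * (s ^ 2 * e) / 2) := by
        field_simp
        ring
    _ ≤ X * N * (w / 2) := mul_le_mul_of_nonneg_left (by linarith) (by positivity)

lemma fin2_Small {X Δ N L l z B M w : ℝ} (hX : 0 < X) (hΔ : 0 < Δ) (hN : 0 < N) (hL : 0 < L)
    (hl : 0 < l) (hz : 0 < z) (hB : B ≤ 3 * L * l * M) (hM : M * z ^ 2 ≤ N * Δ)
    (hC : 24 * L ^ 2 * l ≤ z) (hw : z⁻¹ ≤ w) :
    2 * (L * N) * (2 * B * (X / (Δ * N))) ≤ X * N * (w / 2) := by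
  have h1 : M ≤ N * Δ / z ^ 2 := by rwa [le_div_iff₀ (by positivity)]
  have h2 : B ≤ 3 * L * l * (N * Δ / z ^ 2) :=
    hB.trans (mul_le_mul_of_nonneg_left h1 (by positivity))
  have h3 : 24 * L ^ 2 * l / z ≤ 1 := (div_le_one hz).2 hC
  calc 2 * (L * N) * (2 * B * (X / (Δ * N)))
      ≤ 2 * (L * N) * (2 * (3 * L * l * (N * Δ / z ^ 2)) * (X / (Δ * N))) :=
        mul_le_mul_of_nonneg_left (mul_le_mul_of_nonneg_right (by linarith) (by positivity))
          (by positivity)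
    _ = X * N * (24 * L ^ 2 * l / z * z⁻¹ / 2) := by
        field_simp
        ring
    _ ≤ X * N * (w / 2) := by
        refine mul_le_mul_of_nonneg_left ?_ (by positivity)
        have := mul_le_of_le_one_left (inv_pos.2 hz).le h3
        linarith

lemma root_Small {M y w : ℝ} {r : ℕ} (hr : 2 ≤ r) (hM : 1 ≤ M) (hy : 1 ≤ y) (hw : 0 ≤ w)
    (h : M ^ r * y ^ r ≤ w ^ (r - 1)) : M * y ≤ w := by
  have h1 : 1 ≤ M * y := one_le_mul_of_one_le_of_one_le hM hy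
  refine le_of_pow_le_pow_left₀ (n := r - 1) (by omega) hw (le_trans ?_ h)
  rw [← mul_pow]
  exact pow_le_pow_right₀ h1 (by omega)

theorem small_stmt (hP : PoisStmt) : SmallStmt := by
  intro r Λ μ hr hΛ hμ
  have hr0 : (0 : ℝ) < r := by exact_mod_cast (by omega : 0 < r)
  have hγ : 0 < μ / (2 * r) := by positivity
  refine ⟨min (μ / (2 * r)) 1, lt_min hγ one_pos, ?_⟩
  filter_upwards [E.ev_log_le (44 * (Λ : ℝ) ^ 3) 1 one_pos, E.ev_log_le (24 * (Λ : ℝ) ^ 2) 1 hγ,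
    E.ev_le_log 1, eventually_ge_atTop 1] with x e1 e2 hl hx
  intro X Δ Γ K P D b c hG _ hD hb hc
  rw [pow_one] at e1 e2
  rw [Real.rpow_one] at e1
  have hx0 : 0 < x := by linarith
  have hX : 0 < X := by linarith [hG.x1]
  have hΔ : 0 < Δ := (Real.rpow_pos_of_pos hx0 _).trans_le hG.d1
  have hK : (1 : ℝ) ≤ K := by exact_mod_cast hG.k1
  have hP1 : (1 : ℝ) ≤ P := by exact_mod_cast hG.p1
  have hL : (1 : ℝ) ≤ Λ := by exact_mod_cast hΛ
  have hN : (0 : ℝ) < K * P := by positivity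
  have hl0 : 0 < Real.log x := by linarith
  have hB1 : 3 * Λ * Real.log x * (K * P / (X * Δ)) ≤ (bb x X Δ Λ K P : ℝ) + 1 :=
    (Nat.lt_floor_add_one _).le
  have hB2 : (bb x X Δ Λ K P : ℝ) ≤ 3 * Λ * Real.log x * (K * P / (X * Δ)) :=
    Nat.floor_le (by positivity)
  have hH : 3 * Λ * Real.log x * (K * P * Δ) ≤ (hh x Δ Λ K P : ℝ) := Nat.le_ceil _
  refine (sum_Small hP hX hΔ hG.k1 hG.p1 hl0.le hD hb hc hB1 hH).trans ?_
  have hNX : (K : ℝ) * P ≤ X :=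
    (le_mul_of_one_le_left hN.le (one_le_pow₀ hK)).trans hG.h3
  have hs : 1 ≤ x ^ (1 / 2 : ℝ) := Real.one_le_rpow hx (by norm_num)
  have hsΔ : 1 ≤ Δ * x ^ (1 / 2 : ℝ) := by
    calc (1 : ℝ) = x ^ (-(1 / 2) : ℝ) * x ^ (1 / 2 : ℝ) := by
          rw [← Real.rpow_add hx0]
          norm_num
      _ ≤ _ := mul_le_mul_of_nonneg_right hG.d1 (by positivity)
  have hs2 : (x ^ (1 / 2 : ℝ)) ^ 2 = x := by
    rw [← Real.rpow_natCast, ← Real.rpow_mul hx0.le]
    norm_num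
  have he : 44 * (Λ : ℝ) ^ 3 * Real.log x *
      ((x ^ (1 / 2 : ℝ)) ^ 2 * Real.exp (-(3 * Real.log x ^ 2))) ≤ x ^ (-min (μ / (2 * r)) 1) := by
    have a1 : Real.exp (-(3 * Real.log x ^ 2)) ≤ (x ^ 3)⁻¹ := by
      have : (x ^ 3)⁻¹ = Real.exp (-(3 * Real.log x)) := by
        rw [Real.exp_neg, show 3 * Real.log x = ((3 : ℕ) : ℝ) * Real.log x by norm_num,
          Real.exp_nat_mul, Real.exp_log hx0]
      rw [this]
      exact Real.exp_le_exp.2 (by nlinarith)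
    rw [hs2]
    calc 44 * (Λ : ℝ) ^ 3 * Real.log x * (x * Real.exp (-(3 * Real.log x ^ 2)))
        ≤ x * (x * (x ^ 3)⁻¹) :=
          mul_le_mul e1 (mul_le_mul_of_nonneg_left a1 hx0.le) (by positivity) hx0.le
      _ = x ^ (-1 : ℝ) := by
          rw [Real.rpow_neg_one]
          field_simp
      _ ≤ _ := Real.rpow_le_rpow_of_exponent_le hx (neg_le_neg (min_le_right _ _))
  have t1 := fin1_Small hX hΔ hN hL hl hs hsΔ hNX hB2 (Real.exp_pos _).le he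
  have hz : 1 ≤ x ^ (μ / (2 * r)) := Real.one_le_rpow hx hγ.le
  have hM : Lm X Δ K P * (x ^ (μ / (2 * r))) ^ 2 ≤ K * P * Δ := by
    refine root_Small hr (one_le_Lm _ _ _ _) (one_le_pow₀ hz) (by positivity)
      (le_trans (le_of_eq ?_) hG.h2)
    rw [← pow_mul, ← Real.rpow_natCast (x ^ (μ / (2 * r))), ← Real.rpow_mul hx0.le]
    congr 2
    push_cast
    field_simp
  have hw : (x ^ (μ / (2 * r)))⁻¹ ≤ x ^ (-min (μ / (2 * r)) 1) := by
    rw [← Real.rpow_neg hx0.le]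
    exact Real.rpow_le_rpow_of_exponent_le hx (neg_le_neg (min_le_left _ _))
  have t2 := fin2_Small hX hΔ hN (by linarith : (0 : ℝ) < Λ) hl0 (by linarith)
    (hB2.trans (mul_le_mul_of_nonneg_left (le_Lm X Δ K P) (by positivity))) hM e2 hw
  linarith

end Pool.Agent.MP_c853c5_nt.DS
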