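import Pool.Agent.MP_c853c5_nt.DS.Basic
set_option autoImplicit false
open Finset Filter Real
open scoped ComplexConjugate
namespace Pool.Agent.MP_c853c5_nt.DS
open Pool.Agent.MP_88bd62_nt.U (ex)

/-- the sum with one Gaussian -/
noncomputable def one_Sq (X Δ : ℝ) (D R : Finset ℕ) (b c : ℕ → ℝ) (m : ℤ) : ℝ :=
  ∑ u ∈ D ×ˢ R, b u.1 * c u.2 * Z.gg Δ (m * ((u.1 : ℝ) * u.2) / X - 1)

lemma hasSum_Sq (hP : PoisStmt) {X Δ Γ : ℝ} {D R : Finset ℕ} (b c : ℕ → ℝ) (hX : 0 < X)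
    (hΔ : 0 < Δ) (hΓ : 0 < Γ) (hD : 0 ∉ D) (hR : 0 ∉ R) :
    HasSum (fun m : ℤ => one_Sq X Δ D R b c m * one_Sq X Γ D R b c m)
      (QF D R b c (Th X Δ Γ)) := by
  have pos : ∀ u ∈ D ×ˢ R, (0 : ℝ) < (u.1 : ℝ) * u.2 := fun u hu => by
    have h1 : 0 < u.1 := Nat.pos_of_ne_zero fun e => hD (e ▸ (mem_product.1 hu).1)
    have h2 : 0 < u.2 := Nat.pos_of_ne_zero fun e => hR (e ▸ (mem_product.1 hu).2)
    positivity
  simp only [one_Sq, sum_mul_sum, QF]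
  refine hasSum_sum fun u hu => hasSum_sum fun v hv => ?_
  simp only [mul_mul_mul_comm (b u.1 * c u.2)]
  exact (hP X Δ Γ _ _ 0 hX hΔ hΓ (pos u hu) (pos v hv)).1.hasSum.mul_left _

theorem sq_stmt (hP : PoisStmt) : SqStmt := by
  intro X Δ Γ I D R b c hX hΔ hΓ hD hR
  have h : HasSum (fun m : ℤ => (one_Sq X Δ D R b c m - one_Sq X Γ D R b c m) ^ 2)
      (QF D R b c (Th X Δ Δ) - 2 * QF D R b c (Th X Δ Γ) + QF D R b c (Th X Γ Γ)) := by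
    have e : ∀ p q : ℝ, (p - q) ^ 2 = p * p - 2 * (p * q) + q * q := fun p q => by ring
    simp only [e]
    exact ((hasSum_Sq hP b c hX hΔ hΔ hD hR).sub
      ((hasSum_Sq hP b c hX hΔ hΓ hD hR).mul_left 2)).add (hasSum_Sq hP b c hX hΓ hΓ hD hR)
  refine le_trans (le_of_eq ?_)
    (sum_le_hasSum (I.map ⟨Nat.cast, Nat.cast_injective⟩) (fun m _ => sq_nonneg _) h)
  rw [sum_map]
  refine sum_congr rfl fun m _ => ?_
  simp only [FL, one_Sq, mul_sub, sum_sub_distrib, Function.Embedding.coeFn_mk, Int.cast_natCast]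

end Pool.Agent.MP_c853c5_nt.DS
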