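import Pool.Agent.MP_c853c5_nt.DS.Basic

set_option autoImplicit false

open Finset Filter Real
open scoped ComplexConjugate

namespace Pool.Agent.MP_c853c5_nt.DS

open Pool.Agent.MP_88bd62_nt.U (ex)

lemma wt_tw_Sum (g : ℕ → ℕ → ℤ → ℂ) (X t : ℝ) (a : ℕ) (l : List (ℕ × ℤ)) :
    wt (fun a b h => g a b h * ex (h * X / (a * b * t))) a l =
      wt g a l * ex (X * (vl a l : ℝ) / t) := by
  induction l generalizing a with
  | nil => simp [wt, vl, ex_zero]
  | cons e l ih =>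
    have h : X * (vl a (e :: l) : ℝ) / t =
        e.2 * X / (a * e.1 * t) + X * (vl e.1 l : ℝ) / t := by
      simp only [vl]
      push_cast
      ring
    rw [h, ex_add]
    simp only [wt, ih]
    ring

lemma nv_wt_Sum {D : Finset ℕ} {B S : ℕ} {V : ℝ} {f : ℕ → ℕ → ℕ → ℤ → ℂ}
    (hV : ∀ a ∈ D, ∀ b ∈ D, ∀ h ∈ hs B, nv S (fun s => f s a b h) ≤ V) (n : ℕ) :
    ∀ a ∈ D, ∀ l ∈ paths D B n a, nv S (fun s => wt (f s) a l) ≤ V ^ n := by
  induction n with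
  | zero =>
    intro a _ l hl
    rw [mem_paths_zero.1 hl]
    simp [wt, nv_const]
  | succ n ih =>
    intro a ha l hl
    cases l with
    | nil => exact absurd hl nil_not_mem_paths
    | cons e l =>
      obtain ⟨-, h2, h3, h4⟩ := cons_mem_paths.1 hl
      rw [pow_succ']
      exact nv_mul_le (hV a ha e.1 h2 e.2 h3) (ih e.1 h2 l h4)

lemma sq_le_Sum {ι : Type} (L : Finset ι) (S : ℕ) (m : ℕ → ℝ) (u : ℕ → ι → ℂ) (v : ι → ℝ)
    (ρ W : ℝ) (Z : ι → ι → ℝ) (hm : ∀ s, (m s : ℂ) = ∑ l ∈ L, u s l * ex (v l / (s + ρ)))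
    (hu : ∀ l ∈ L, nv S (fun s => u s l) ≤ W)
    (hZ : ∀ l ∈ L, ∀ l' ∈ L, ∀ i, ‖∑ s ∈ Ico i S, ex ((v l - v l') / (s + ρ))‖ ≤ Z l l') :
    ∑ s ∈ range S, m s ^ 2 ≤ W ^ 2 * ∑ l ∈ L, ∑ l' ∈ L, Z l l' := by
  have e1 : ∀ s, ((m s ^ 2 : ℝ) : ℂ) =
      ∑ l ∈ L, ∑ l' ∈ L, u s l * conj (u s l') * ex ((v l - v l') / (s + ρ)) := by
    intro s
    have h : ((m s ^ 2 : ℝ) : ℂ) = (m s : ℂ) * conj (m s : ℂ) := by
      rw [Complex.conj_ofReal]
      push_cast
      ring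
    rw [h, hm s, map_sum, sum_mul_sum]
    refine sum_congr rfl fun l _ => sum_congr rfl fun l' _ => ?_
    rw [map_mul, conj_ex, show (v l - v l') / (s + ρ) = v l / (s + ρ) + -(v l' / (s + ρ)) by ring,
      ex_add]
    ring
  have e2 : ((∑ s ∈ range S, m s ^ 2 : ℝ) : ℂ) = ∑ l ∈ L, ∑ l' ∈ L,
      ∑ s ∈ range S, u s l * conj (u s l') * ex ((v l - v l') / (s + ρ)) := by
    rw [Complex.ofReal_sum, sum_congr rfl fun s _ => e1 s, sum_comm]
    exact sum_congr rfl fun l _ => sum_comm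
  have h1 : ∑ s ∈ range S, m s ^ 2 ≤ ‖((∑ s ∈ range S, m s ^ 2 : ℝ) : ℂ)‖ := by
    rw [Complex.norm_real, Real.norm_eq_abs]
    exact le_abs_self _
  refine h1.trans ?_
  rw [e2, mul_sum]
  refine (norm_sum_le _ _).trans (sum_le_sum fun l hl => ?_)
  rw [mul_sum]
  refine (norm_sum_le _ _).trans (sum_le_sum fun l' hl' => ?_)
  refine (nv_abel (fun s => u s l * conj (u s l')) _ (hZ l hl l' hl')).trans ?_
  refine mul_le_mul_of_nonneg_right ?_ ((norm_nonneg _).trans (hZ l hl l' hl' 0))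
  rw [sq]
  exact nv_mul_le (hu l hl) ((nv_conj S fun s => u s l').trans_le (hu l' hl'))

lemma log_card_Sum {c H n : ℕ} {w : ℝ} (hc : c ≤ H ^ n * (2 * H) ^ (n + 1))
    (hw : Real.log (2 * H + 1) ≤ w) : Real.log (c + 1) ≤ (2 * n + 1) * w := by
  have h1 : H ^ n * (2 * H) ^ (n + 1) ≤ (2 * H) ^ (2 * n + 1) := by
    rw [show 2 * n + 1 = n + (n + 1) by ring, pow_add (2 * H) n (n + 1)]
    gcongr
    omega
  have h2 : (2 * H) ^ (2 * n + 1) < (2 * H + 1) ^ (2 * n + 1) :=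
    Nat.pow_lt_pow_left (Nat.lt_succ_self _) (by omega)
  have h3 : ((c : ℝ) + 1) ≤ (2 * H + 1) ^ (2 * n + 1) := by
    have : c + 1 ≤ (2 * H + 1) ^ (2 * n + 1) := by omega
    exact_mod_cast this
  refine (Real.log_le_log (by positivity) h3).trans ?_
  rw [Real.log_pow]
  push_cast
  gcongr

lemma fib_Sum (D : Finset ℕ) (B n a : ℕ) :
    ∑ k ∈ D, ((((paths D B n a).filter fun l => lst a l = k) ×ˢ
      ((paths D B n a).filter fun l => lst a l = k)).filter fun p => vl a p.1 = vl a p.2).card ≤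
    (((paths D B n a) ×ˢ (paths D B n a)).filter
      fun p => lst a p.1 = lst a p.2 ∧ vl a p.1 = vl a p.2).card := by
  refine le_trans (le_of_eq ?_) (card_filter_le _ fun p => lst a p.1 ∈ D)
  rw [← sum_card_fiberwise_eq_card_filter]
  refine sum_congr rfl fun k _ => congrArg card ?_
  ext p
  simp only [mem_filter, mem_product]
  constructor
  · rintro ⟨⟨⟨h1, h2⟩, h3, h4⟩, h5⟩
    exact ⟨⟨⟨h1, h3⟩, h2.trans h4.symm, h5⟩, h2⟩
  · rintro ⟨⟨⟨h1, h3⟩, h2, h5⟩, h4⟩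
    exact ⟨⟨⟨h1, h4⟩, h3, h2.symm.trans h4⟩, h5⟩

theorem sum_stmt (hP : PathStmt) (hE : ExpStmt) (hS : SchurStmt) (hD : SepStmt) (hA : PairStmt)
    (hC : CycStmt) : SumStmt := by
  intro r hr
  obtain ⟨n, rfl⟩ : ∃ n, r = n + 1 := ⟨r - 1, by omega⟩
  obtain ⟨C, hC0, hE⟩ := hE
  obtain ⟨C', hC⟩ := hC (2 * (n + 1))
  refine ⟨C * ((4 * n + 5) * C' + 4 ^ (n + 1)), by positivity, ?_⟩
  intro K B H S D X ρ w V F G f hK hB hBH hDH hX hρ hw hSw hθ hlog hF hG0 hG hV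
  have hK0 : (0 : ℝ) < K := by
    have : 0 < K := by omega
    exact_mod_cast this
  have hρ0 : 0 < ρ := by linarith
  have hw0 : 0 < w := by linarith
  have hF0 : 0 ≤ F := by
    by_contra hc
    have h1 : F * ρ * K ^ 2 < 0 :=
      mul_neg_of_neg_of_pos (mul_neg_of_neg_of_pos (not_le.1 hc) hρ0) (by positivity)
    have h2 : (0 : ℝ) ≤ 2 * (n + 1 : ℕ) * B * X := by positivity
    linarith
  have hz : 0 ≤ zb F ρ + √ρ := add_nonneg (zb_nonneg hF0 ρ) (Real.sqrt_nonneg _)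
  set N : ℝ := (H : ℝ) ^ n * (2 * B) ^ (n + 1) with hN
  have hV0 : 0 ≤ V ^ (2 * (n + 1)) := by
    rw [pow_mul']
    positivity
  have key : ∀ a ∈ D, ∀ k : ℕ, ∑ s ∈ range S, mp D (G s) (n + 1) a k ^ 2 ≤
      V ^ (2 * (n + 1)) * (C * w ^ 4) * (ρ * ((4 * n + 5) * w ^ 2) *
        ((((((paths D B (n + 1) a).filter fun l => lst a l = k) ×ˢ
          ((paths D B (n + 1) a).filter fun l => lst a l = k)).filter
            fun p => vl a p.1 = vl a p.2).card : ℕ) : ℝ) + N ^ 2 * (zb F ρ + √ρ)) := by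
    intro a ha k
    set L := (paths D B (n + 1) a).filter fun l => lst a l = k with hL
    obtain ⟨d1, d2, -⟩ := hD K B (n + 1) D hK a ha
    have d3 := (hD K B n D hK a ha).2.2 k
    rw [← hL] at d3
    have hcard : (L.card : ℝ) ≤ N := by
      have : L.card ≤ H ^ n * (2 * B) ^ (n + 1) := d3.trans (by gcongr)
      rw [hN]
      exact_mod_cast this
    have hlc : Real.log (L.card + 1) ≤ (2 * n + 1) * w :=
      log_card_Sum (d3.trans (by gcongr)) hlog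
    have h1 := sq_le_Sum L S (fun s => mp D (G s) (n + 1) a k) (fun s l => wt (f s) a l)
      (fun l => X * (vl a l : ℝ)) ρ (V ^ (n + 1))
      (fun l l' => C * w ^ 4 * (ρ * fm (ρ / X) ((vl a l : ℝ) - vl a l') + (zb F ρ + √ρ)))
      (fun s => by
        rw [hP D B (G s) _ (hG0 s) (hG s) (n + 1) a ha k]
        exact sum_congr rfl fun l _ => wt_tw_Sum (f s) X (s + ρ) a l)
      (fun l hl => nv_wt_Sum hV (n + 1) a ha l (mem_filter.1 hl).1)
      (fun l hl l' hl' i => by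
        rw [← mul_sub, ← fm_mul hX, ← add_assoc]
        refine hE _ ρ w F i S hρ hw hSw ?_
        have a1 := (d1 l (mem_filter.1 hl).1).2
        have a2 := (d1 l' (mem_filter.1 hl').1).2
        have a3 := abs_sub (vl a l : ℝ) (vl a l')
        have a4 : X * (2 * (((n + 1 : ℕ) : ℝ) * B / (K : ℝ) ^ 2)) ≤ F * ρ := by
          rw [show X * (2 * (((n + 1 : ℕ) : ℝ) * B / (K : ℝ) ^ 2)) =
            2 * (n + 1 : ℕ) * B * X / (K : ℝ) ^ 2 by ring, div_le_iff₀ (by positivity)]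
          exact hF
        rw [abs_mul, abs_of_pos hX]
        exact (mul_le_mul_of_nonneg_left (by linarith) hX.le).trans a4)
    have h2 := hS _ L (vl a) (ρ / X) (1 / (2 * K : ℝ) ^ (2 * (n + 1))) (by positivity)
      (by positivity) (fun l hl l' hl' hne => d2 l (mem_filter.1 hl).1 l' (mem_filter.1 hl').1
        (by omega) ((mem_filter.1 hl).2.trans (mem_filter.1 hl').2.symm) hne)
    have h3 : ρ / X / (1 / (2 * K : ℝ) ^ (2 * (n + 1))) ≤ w := by
      rw [div_div_eq_mul_div, div_one, div_mul_eq_mul_div, div_le_iff₀ hX]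
      exact hθ
    have h4 : 1 + 2 * (ρ / X / (1 / (2 * K : ℝ) ^ (2 * (n + 1)))) *
        (1 + Real.log (L.card + 1)) ≤ (4 * n + 5) * w ^ 2 := by
      have b1 : 0 ≤ Real.log (L.card + 1) :=
        Real.log_nonneg (by linarith [Nat.cast_nonneg (α := ℝ) L.card])
      have b2 : 2 * (ρ / X / (1 / (2 * K : ℝ) ^ (2 * (n + 1)))) * (1 + Real.log (L.card + 1)) ≤
          2 * w * (1 + (2 * n + 1) * w) := by gcongr
      nlinarith
    have h5 := h2.trans (mul_le_mul_of_nonneg_right h4 (Nat.cast_nonneg _))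
    refine h1.trans ?_
    rw [← pow_mul, mul_comm (n + 1) 2, mul_assoc]
    refine mul_le_mul_of_nonneg_left ?_ hV0
    generalize zb F ρ + √ρ = z at hz ⊢
    simp only [← mul_sum, sum_add_distrib, sum_const, nsmul_eq_mul]
    refine mul_le_mul_of_nonneg_left (add_le_add ?_ ?_) (by positivity)
    · rw [mul_assoc]
      exact mul_le_mul_of_nonneg_left h5 hρ0.le
    · rw [← mul_assoc, ← sq]
      gcongr
  have hDH' : (D.card : ℝ) ≤ H := by exact_mod_cast hDH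
  have key2 : ∀ a ∈ D, ∑ k ∈ D, ∑ s ∈ range S, mp D (G s) (n + 1) a k ^ 2 ≤
      V ^ (2 * (n + 1)) * (C * w ^ 4) * (ρ * ((4 * n + 5) * w ^ 2) *
        (C' * H ^ (n + 1) * B ^ (n + 1)) + H * (N ^ 2 * (zb F ρ + √ρ))) := by
    intro a ha
    refine (sum_le_sum fun k _ => key a ha k).trans ?_
    generalize zb F ρ + √ρ = z at hz ⊢
    simp only [← mul_sum, sum_add_distrib, sum_const, nsmul_eq_mul]
    refine mul_le_mul_of_nonneg_left (add_le_add ?_ ?_) (by positivity)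
    · refine mul_le_mul_of_nonneg_left ?_ (by positivity)
      have c1 := (fib_Sum D B (n + 1) a).trans ((hA B (n + 1) D a ha).trans
        (hC K B H D hK hB hBH hDH a ha))
      rw [show 2 * (n + 1) / 2 = n + 1 by omega, show (2 * (n + 1) + 1) / 2 = n + 1 by omega] at c1
      exact_mod_cast c1
    · rw [mul_left_comm]
      exact mul_le_mul_of_nonneg_right hDH' (by positivity)
  rw [sum_comm]
  refine (sum_le_sum fun a ha => (sum_comm.trans_le (key2 a ha))).trans ?_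
  rw [sum_const, nsmul_eq_mul]
  refine (mul_le_mul_of_nonneg_right hDH' (by positivity)).trans ?_
  have hw2 : 1 ≤ w ^ 2 := one_le_pow₀ hw
  set A₁ : ℝ := ρ * H ^ (n + 1 + 1) * B ^ (n + 1) with hA₁
  set A₂ : ℝ := (H : ℝ) ^ (2 * (n + 1)) * B ^ (2 * (n + 1)) * (zb F ρ + √ρ) with hA₂
  have p1 : 0 ≤ A₁ := by positivity
  have p2 : 0 ≤ A₂ := by positivity
  have e1 : (H : ℝ) * (V ^ (2 * (n + 1)) * (C * w ^ 4) * (ρ * ((4 * n + 5) * w ^ 2) *
      (C' * H ^ (n + 1) * B ^ (n + 1)) + H * (N ^ 2 * (zb F ρ + √ρ)))) =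
      C * w ^ 4 * V ^ (2 * (n + 1)) * ((4 * n + 5) * C' * w ^ 2 * A₁ + 4 ^ (n + 1) * A₂) := by
    rw [hA₁, hA₂, hN, show (4 : ℝ) ^ (n + 1) = (2 ^ (n + 1)) ^ 2 by
      rw [← pow_mul, mul_comm, pow_mul]; norm_num]
    ring
  have e2 : C * ((4 * n + 5) * C' + 4 ^ (n + 1)) * w ^ 6 * V ^ (2 * (n + 1)) * (A₁ + A₂) =
      C * w ^ 4 * V ^ (2 * (n + 1)) *
        (((4 * n + 5) * C' + 4 ^ (n + 1)) * w ^ 2 * (A₁ + A₂)) := by ring
  rw [e1, e2]
  refine mul_le_mul_of_nonneg_left ?_ (by positivity)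
  have q1 : (0 : ℝ) ≤ (4 * n + 5) * C' * w ^ 2 * A₂ := by positivity
  have q2 : (0 : ℝ) ≤ 4 ^ (n + 1) * w ^ 2 * A₁ := by positivity
  have q3 : (4 : ℝ) ^ (n + 1) * A₂ ≤ 4 ^ (n + 1) * (w ^ 2 * A₂) :=
    mul_le_mul_of_nonneg_left (le_mul_of_one_le_left p2 hw2) (by positivity)
  nlinarith

end Pool.Agent.MP_c853c5_nt.DS
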