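import Pool.Agent.MP_c853c5_nt.DS.Basic
import Pool.Agent.MP_c853c5_nt.E.Win

set_option autoImplicit false

open Finset Filter Real
open scoped ComplexConjugate

namespace Pool.Agent.MP_c853c5_nt.DS

open Pool.Agent.MP_88bd62_nt.U (ex)
open S (AF Dl)

lemma phi_Tri (v Δ Γ : ℝ) (s : Fin 3 → Finset ℕ) (c : Fin 3 → ℕ → ℝ) :
    E.PhiS v Δ Γ s c = ∑ m ∈ s 0, c 0 m * ∑ u ∈ s 1 ×ˢ s 2,
      c 1 u.1 * c 2 u.2 * E.dg v Δ Γ (Real.log ((m : ℝ) * u.1 * u.2)) := by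
  simp only [mul_sum]
  rw [← sum_product' (s 0) (s 1 ×ˢ s 2) fun (m : ℕ) (u : ℕ × ℕ) =>
    c 0 m * (c 1 u.1 * c 2 u.2 * E.dg v Δ Γ (Real.log ((m : ℝ) * u.1 * u.2))), E.PhiS]
  refine sum_nbij' (fun n => (n 0, n 1, n 2)) (fun p => ![p.1, p.2.1, p.2.2]) (fun n hn => ?_)
    (fun p hp => ?_) (fun n _ => ?_) (fun p _ => rfl) fun n _ => ?_
  · have h := Fintype.mem_piFinset.1 hn
    exact mem_product.2 ⟨h 0, mem_product.2 ⟨h 1, h 2⟩⟩
  · obtain ⟨h0, h1⟩ := mem_product.1 hp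
    obtain ⟨h1, h2⟩ := mem_product.1 h1
    refine Fintype.mem_piFinset.2 fun j => ?_
    fin_cases j
    exacts [h0, h1, h2]
  · funext j
    fin_cases j <;> rfl
  · rw [Fin.prod_univ_three, Fin.prod_univ_three]
    push_cast
    ring

lemma dl_smul_Tri (t x e : ℝ) (f : AF) : Dl t x (e • f) = e * Dl t x f := by
  simp only [Dl, S.SB, S.SS, ArithmeticFunction.smul_map, smul_eq_mul, mul_sub, mul_sum, mul_assoc]

lemma fp_smul_Tri (R : Finset ℕ) (e : ℝ) (f : AF) (u : ℝ) :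
    E.FP R (e • f : AF) u = e * E.FP R f u := by
  simp only [E.FP, ArithmeticFunction.smul_map, smul_eq_mul, mul_sum, Complex.ofReal_mul, mul_assoc]

lemma alg_Tri {e x l M N Λ y : ℝ} (A C : ℕ) (hl : 0 < l) (hN : 0 < N) (hM : 0 ≤ M) (hx : 0 ≤ x)
    (h1 : M * N ≤ 2 * x) (h2 : 512 * Λ ≤ l ^ 2) (h3 : y * (16 * l ^ (C + 2 * A)) ≤ e ^ 2) :
    e ^ 2 * (M * l ^ C) * (32 * Λ * (x / N) * (e ^ 2 * (N ^ 2 / l ^ (2 * A + C + 2))) +
      x * N * y) ≤ (e ^ 2 * x / (2 * l ^ A)) ^ 2 := by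
  have e1 : l ^ (2 * A + C + 2) = (l ^ A) ^ 2 * l ^ C * l ^ 2 := by ring
  have e2 : l ^ (C + 2 * A) = l ^ C * (l ^ A) ^ 2 := by ring
  rw [e1]
  rw [e2] at h3
  have hL : 0 < l ^ A := by positivity
  have hQ : 0 < l ^ C := by positivity
  generalize l ^ A = L at *
  generalize l ^ C = Q at *
  have a1 : 32 * Λ * e ^ 2 / (L ^ 2 * l ^ 2) ≤ e ^ 2 / (16 * L ^ 2) := by
    rw [div_le_div_iff₀ (by positivity) (by positivity)]
    nlinarith [mul_le_mul_of_nonneg_left h2 (show 0 ≤ e ^ 2 * L ^ 2 by positivity)]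
  have a2 : Q * y ≤ e ^ 2 / (16 * L ^ 2) := by
    rw [le_div_iff₀ (by positivity)]
    linarith
  calc _ = e ^ 2 * x * (M * N) * (32 * Λ * e ^ 2 / (L ^ 2 * l ^ 2) + Q * y) := by
        field_simp
    _ ≤ e ^ 2 * x * (M * N) * (e ^ 2 / (16 * L ^ 2) + e ^ 2 / (16 * L ^ 2)) :=
        mul_le_mul_of_nonneg_left (add_le_add a1 a2) (by positivity)
    _ ≤ e ^ 2 * x * (2 * x) * (e ^ 2 / (16 * L ^ 2) + e ^ 2 / (16 * L ^ 2)) := by gcongr
    _ = _ := by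
        field_simp
        ring

lemma tail_Tri (C : ℝ) (hC : 0 < C) : ∀ᶠ x : ℝ in atTop, ∀ Δ₁ Δ S : ℝ, x ^ (-(1 / 2) : ℝ) ≤ Δ₁ →
    0 < Δ → Δ ≤ x ^ (-(1 / 3) : ℝ) → S ≤ x ^ 2 →
    C * S / Δ₁ * Real.exp (-(1 / (4 * Δ ^ 2))) ≤ 1 := by
  filter_upwards [E.ev_log_le 16 1 (show (0 : ℝ) < 2 / 3 by norm_num), eventually_ge_atTop 1,
    eventually_ge_atTop C] with x h1 x1 h2 Δ₁ Δ S a1 a2 a3 a4
  have x0 : 0 < x := by linarith
  have b1 : x⁻¹ ≤ Δ₁ := by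
    rw [← Real.rpow_neg_one]
    exact (Real.rpow_le_rpow_of_exponent_le x1 (by norm_num)).trans a1
  have b2 : Δ ^ 2 * x ^ (2 / 3 : ℝ) ≤ 1 := by
    refine (mul_le_mul_of_nonneg_right (pow_le_pow_left₀ a2.le a3 2) (by positivity)).trans_eq ?_
    rw [← Real.rpow_mul_natCast x0.le, ← Real.rpow_add x0]
    norm_num
  have b3 : 4 * Real.log x ≤ 1 / (4 * Δ ^ 2) := by
    rw [le_div_iff₀ (by positivity)]
    rw [pow_one] at h1
    nlinarith [mul_le_mul_of_nonneg_left h1 (sq_nonneg Δ)]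
  have b4 : Real.exp (-(1 / (4 * Δ ^ 2))) ≤ (x ^ 4)⁻¹ := by
    refine (Real.exp_le_exp.2 (neg_le_neg b3)).trans_eq ?_
    rw [Real.exp_neg, show 4 * Real.log x = Real.log (x ^ 4) by rw [Real.log_pow]; norm_num,
      Real.exp_log (by positivity)]
  calc _ ≤ x * x ^ 2 / x⁻¹ * (x ^ 4)⁻¹ := by
        refine mul_le_mul (div_le_div₀ (by positivity) ?_ (by positivity) b1) b4 (by positivity)
          (by positivity)
        exact (mul_le_mul_of_nonneg_left a4 hC.le).trans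
          (mul_le_mul_of_nonneg_right h2 (by positivity))
    _ = 1 := by field_simp

lemma card_Tri {M : ℕ} (Λ : ℕ) (hM : 1 ≤ M) : ((Icc M (Λ * M)).card : ℝ) ≤ Λ * M := by
  rw [Nat.card_Icc]
  exact_mod_cast (by omega : Λ * M + 1 - M ≤ Λ * M)

theorem tri_stmt (hM : MeanStmt) (hC : ConvStmt) : TriStmt := by
  intro r Λ A C₀ μ hr hΛ hμ
  obtain ⟨ν, hν, hM⟩ := hM r Λ μ hr hΛ hμ
  obtain ⟨C, hC0, hC⟩ := hC
  obtain ⟨ε, hε, hε1, hε2⟩ : ∃ ε : ℝ, 0 < ε ∧ ε ≤ ν / 4 ∧ ε ≤ 1 / 4 :=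
    ⟨min (ν / 4) (1 / 4), lt_min (by positivity) (by norm_num), min_le_left _ _, min_le_right _ _⟩
  refine ⟨ε, hε, ?_⟩
  filter_upwards [hM, E.win, tail_Tri C hC0, eventually_ge_atTop (2 * (Λ : ℝ) ^ 2),
    eventually_gt_atTop 1, E.ev_le_log 1, E.ev_le_log (512 * Λ),
    E.ev_log_le 16 (C₀ + 2 * A) (half_pos hν), E.ev_log_le 4 A one_half_pos,
    E.ev_const_le 2 (show (0 : ℝ) < 1 / 4 by norm_num)]
    with x hM hw ht xΛ x1 l1 l2 l3 l4 l5 t t₁ M K P D a b c t1 t2 hG hD M1 hMN sa sb sc ba bb bc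
      hL2 hI
  have x0 : 0 < x := by linarith
  have g0 := hG x (by linarith) (by linarith)
  have t3 : t₁ ≤ 1 / 2 := by
    have := (Real.rpow_le_rpow_left_iff x1).1 g0.d1
    linarith
  have hN : (0 : ℝ) < K * P := by
    have h1 := g0.k1
    have h2 := g0.p1
    positivity
  have he : 0 < x ^ (-ε) := Real.rpow_pos_of_pos x0 _
  have he1 : x ^ (-ε) * x ^ ε = 1 := by rw [← Real.rpow_add x0, neg_add_cancel, Real.rpow_zero]
  have he2 : (x ^ (-ε)) ^ 2 = x ^ (-(2 * ε)) := by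
    rw [← Real.rpow_mul_natCast x0.le]
    congr 1
    push_cast
    ring
  have f1 : x ^ (-ν) * (16 * Real.log x ^ (C₀ + 2 * A)) ≤ (x ^ (-ε)) ^ 2 := by
    refine (mul_le_mul_of_nonneg_left l3 (by positivity)).trans ?_
    rw [he2, ← Real.rpow_add x0]
    exact Real.rpow_le_rpow_of_exponent_le x1.le (by linarith)
  have f2 : 4 * Real.log x ^ A ≤ (x ^ (-ε)) ^ 2 * x := by
    refine l4.trans ?_
    rw [he2, ← Real.rpow_add_one x0.ne']
    exact Real.rpow_le_rpow_of_exponent_le x1.le (by linarith)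
  have d0 : 0 < x ^ (-t₁) := Real.rpow_pos_of_pos x0 _
  have d1 : x ^ (-t₁) ≤ x ^ (-t) := Real.rpow_le_rpow_of_exponent_le x1.le (by linarith)
  have d2 : x ^ (-t) ≤ x ^ (-(1 / 3) : ℝ) := Real.rpow_le_rpow_of_exponent_le x1.le (by linarith)
  have d3 : x ^ (-t) ≤ x ^ (-(1 / 1000) : ℝ) / 2 := by
    rw [le_div_iff₀ two_pos]
    refine (mul_le_mul d2 l5 zero_le_two (by positivity)).trans ?_
    rw [← Real.rpow_add x0]
    exact Real.rpow_le_rpow_of_exponent_le x1.le (by norm_num)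
  have d4 : 0 < x ^ (-(1 / 1000) : ℝ) := Real.rpow_pos_of_pos x0 _
  have d5 : x ^ (-(1 / 1000) : ℝ) ≤ 1 := Real.rpow_le_one_of_one_le_of_nonpos x1.le (by norm_num)
  have hW : Wid x √((x ^ (-(1 / 1000) : ℝ)) ^ 2 - (x ^ (-t)) ^ 2 + (x ^ (-t₁)) ^ 2) := by
    have h1 := pow_le_pow_left₀ d0.le d1 2
    have h2 := pow_le_pow_left₀ (d0.le.trans d1) d3 2
    exact ⟨Real.le_sqrt_of_sq_le (by nlinarith), Real.sqrt_le_iff.2 ⟨d4.le, by linarith⟩⟩
  generalize x ^ (-ε) = e at he he1 f1 f2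
  have sm : ∀ f : AF, (∀ n, |f n| ≤ x ^ ε) → ∀ n, |(e • f : AF) n| ≤ 1 := fun f hf n => by
    rw [ArithmeticFunction.smul_map, smul_eq_mul, abs_mul, abs_of_pos he, ← he1]
    exact mul_le_mul_of_nonneg_left (hf n) he.le
  have sn : ∀ (f : AF) n, (e • f : AF) n ≠ 0 → f n ≠ 0 := fun f n h h0 => h (by
    rw [ArithmeticFunction.smul_map, h0, smul_zero])
  obtain ⟨g, g0', g1, g2⟩ : ∃ g : Fin 3 → AF, g 0 = e • a ∧ g 1 = b ∧ g 2 = e • c :=
    ⟨![e • a, b, e • c], rfl, rfl, rfl⟩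
  obtain ⟨s, s0, s1, s2⟩ : ∃ s : Fin 3 → Finset ℕ,
      s 0 = Icc M (Λ * M) ∧ s 1 = D ∧ s 2 = Icc P (Λ * P) := ⟨![_, _, _], rfl, rfl, rfl⟩
  have all3 : ∀ Q : Fin 3 → Prop, Q 0 → Q 1 → Q 2 → ∀ j, Q j := fun Q h0 h1 h2 j => by
    fin_cases j
    exacts [h0, h1, h2]
  have hg : ∀ j n, |g j n| ≤ 1 := all3 _ (g0' ▸ sm a ba) (g1 ▸ bb) (g2 ▸ sm c bc)
  have hcard : ∏ j, ((s j).card : ℝ) ≤ x ^ 2 := by
    have h1 : (D.card : ℝ) ≤ K := by
      have h := card_le_card (show D ⊆ Ico K (2 * K) from fun k hk => mem_Ico.2 (hD k hk).2)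
      rw [Nat.card_Ico] at h
      exact_mod_cast (by omega : D.card ≤ K)
    rw [Fin.prod_univ_three, s0, s1, s2]
    calc _ ≤ (Λ * M : ℝ) * K * (Λ * P) := by
          gcongr
          exacts [card_Tri Λ M1, card_Tri Λ g0.p1]
      _ = (Λ : ℝ) ^ 2 * (M * (K * P)) := by ring
      _ ≤ (Λ : ℝ) ^ 2 * (2 * x) := by gcongr
      _ ≤ _ := by nlinarith
  have k1 := hw (Fin 3) t g s 1 t1 (t2.trans t3)
    (all3 _ (s0 ▸ fun h => by have := (mem_Icc.1 h).1; omega)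
      (s1 ▸ fun h => Nat.not_prime_zero (hD 0 h).1)
      (s2 ▸ fun h => by have := (mem_Icc.1 h).1; have := g0.p1; omega))
    (all3 _ (s0 ▸ g0' ▸ fun n h => sa n (sn a n h)) (s1 ▸ g1 ▸ sb)
      (s2 ▸ g2 ▸ fun n h => sc n (sn c n h))) hg le_rfl hcard
  have e1 : S.sgl 1 * ∏ j, g j = (e ^ 2) • (a * b * c) := by
    rw [E.sgl_one, one_mul, Fin.prod_univ_three, g0', g1, g2, ← one_smul ℝ b, E.af_smul_mul,
      E.af_smul_mul, one_smul, mul_one, sq]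
  rw [e1, dl_smul_Tri, abs_mul, abs_of_nonneg (sq_nonneg e), Nat.cast_one, Real.log_one,
    sub_zero] at k1
  have k2 := hC (Fin 3 → ℕ) (Fintype.piFinset s) (fun n => ∏ j, g j (n j))
    (fun n => Real.log ((∏ j, n j : ℕ) : ℝ)) (Real.log x) (x ^ (-t₁)) (x ^ (-t))
    (x ^ (-(1 / 1000) : ℝ)) (e ^ 2 * x / (2 * Real.log x ^ A)) d0 d1 (by linarith) d5
    fun v hv => by
      have l2' := Real.log_two_gt_d9
      obtain ⟨v1, v2⟩ := abs_le.1 hv
      have X1 : x / 2 ≤ Real.exp v := by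
        rw [← Real.log_le_iff_le_exp (by positivity), Real.log_div x0.ne' two_ne_zero]
        linarith
      have X2 : Real.exp v ≤ 2 * x := by
        rw [← Real.le_log_iff_exp_le (by positivity), Real.log_mul two_ne_zero x0.ne']
        linarith
      have m1 := hM (Real.exp v) _ _ (e ^ 2 * ((K * P) ^ 2 / Real.log x ^ (2 * A + C₀ + 2)))
        M K P D b (e • c : AF) (hG _ X1 X2) hW hD M1 hMN bb (sm c bc) (by
          refine le_trans (le_of_eq ?_) (mul_le_mul_of_nonneg_left hI (sq_nonneg e))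
          rw [← intervalIntegral.integral_const_mul]
          refine intervalIntegral.integral_congr fun u _ => ?_
          simp only [fp_smul_Tri, norm_mul, Complex.norm_real, Real.norm_eq_abs, mul_pow, sq_abs]
          ring)
      have m2 : ∑ m ∈ Icc M (Λ * M), (e • a : AF) m ^ 2 ≤ e ^ 2 * (M * Real.log x ^ C₀) := by
        simp only [ArithmeticFunction.smul_map, smul_eq_mul, mul_pow, ← mul_sum]
        exact mul_le_mul_of_nonneg_left hL2 (sq_nonneg e)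
      have m3 := ((sum_mul_sq_le_sq_mul_sq _ _ _).trans (mul_le_mul m2 m1
        (sum_nonneg fun _ _ => sq_nonneg _) (by positivity))).trans
        (alg_Tri A C₀ (by linarith) hN (Nat.cast_nonneg M) x0.le hMN (by nlinarith) f1)
      refine le_trans (le_of_eq ?_) (abs_le_of_sq_le_sq m3 (by positivity))
      congr 1
      refine (phi_Tri v _ _ s fun j => g j).trans ?_
      simp only [s0, s1, s2, g0', g1, g2, FF, Real.log_exp]
  have k3 := ht (x ^ (-t₁)) (x ^ (-t)) (∑ n ∈ Fintype.piFinset s, |∏ j, g j (n j)|) g0.d1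
    (d0.trans_le d1) d2 (by
      refine (sum_le_card_nsmul _ _ 1 fun n _ => ?_).trans ?_
      · rw [abs_prod]
        exact prod_le_one (fun j _ => abs_nonneg _) fun j _ => hg j _
      · rwa [Fintype.card_piFinset, nsmul_eq_mul, Nat.cast_prod, mul_one])
  have k4 : 2 ≤ e ^ 2 * x / (2 * Real.log x ^ A) := by
    rw [le_div_iff₀ (by positivity)]
    linarith
  have k5 : e ^ 2 * (x / Real.log x ^ A) = 2 * (e ^ 2 * x / (2 * Real.log x ^ A)) := by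
    field_simp
  refine le_of_mul_le_mul_left (k1.trans ?_) (pow_pos he 2)
  rw [k5, E.PhiS]
  linarith

end Pool.Agent.MP_c853c5_nt.DS
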