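import Pool.Agent.MP_c853c5_nt.DS.Basic

/-! The frequency zero: transfer to the mean square of a Dirichlet polynomial. -/

set_option autoImplicit false

open Finset Filter Real
open scoped ComplexConjugate

namespace Pool.Agent.MP_c853c5_nt.DS

open Pool.Agent.MP_88bd62_nt.U (ex)

lemma sq_VTr {κ : Type} (U : Finset κ) (α l : κ → ℝ) (t : ℝ) :
    ((‖∑ u ∈ U, (α u : ℂ) * Complex.exp (Complex.I * (t : ℂ) * (l u : ℂ))‖ ^ 2 : ℝ) : ℂ) =
      ∑ i ∈ U ×ˢ U, ((α i.1 * α i.2 : ℝ) : ℂ) *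
        Complex.exp (Complex.I * (t : ℂ) * ((l i.2 - l i.1 : ℝ) : ℂ)) := by
  rw [Complex.ofReal_pow, ← Complex.conj_mul', map_sum, sum_mul_sum, sum_product]
  refine sum_congr rfl fun u _ => sum_congr rfl fun v _ => ?_
  rw [map_mul, ← Complex.exp_conj, mul_mul_mul_comm, ← Complex.exp_add]
  simp only [map_mul, Complex.conj_ofReal, Complex.conj_I]
  push_cast
  congr 2
  ring

lemma prod_VTr {D R : Finset ℕ} (hD : 0 ∉ D) (hR : 0 ∉ R) (b c : ℕ → ℝ) (t : ℝ) :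
    E.FP D b t * E.FP R c t = ∑ u ∈ D ×ˢ R, ((b u.1 * c u.2 : ℝ) : ℂ) *
      Complex.exp (Complex.I * (t : ℂ) * ((Real.log ((u.1 : ℝ) * u.2) : ℝ) : ℂ)) := by
  rw [E.FP, E.FP, sum_mul_sum, sum_product]
  refine sum_congr rfl fun k hk => sum_congr rfl fun p hp => ?_
  have k0 : (k : ℝ) ≠ 0 := Nat.cast_ne_zero.2 fun e => hD (e ▸ hk)
  have p0 : (p : ℝ) ≠ 0 := Nat.cast_ne_zero.2 fun e => hR (e ▸ hp)
  rw [Real.log_mul k0 p0, MP_2a1f0e_nt.GM.pw, MP_2a1f0e_nt.GM.pw, mul_mul_mul_comm,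
    ← Complex.exp_add]
  push_cast
  congr 2
  ring

lemma err_VTr {x Δ Γ s s' : ℝ} (hx : 1 < x) (hl : 32 ≤ Real.log x)
    (h1 : x ^ (-(1 / 2) : ℝ) ≤ Δ) (h2 : Γ ≤ x ^ (-(1 / 1000) : ℝ)) (h0 : 0 ≤ Γ) (h3 : Δ ≤ s)
    (h4 : s' ^ 2 ≤ 2 * Γ ^ 2) :
    s' ^ 2 * (x ^ (1 / 2000 : ℝ)) ^ 3 +
      Real.exp (-(s ^ 2 * (Real.log x / Δ) ^ 2 / (8 * π))) / s ≤ 3 * x ^ (-(1 / 2000) : ℝ) := by
  have x0 : 0 < x := by linarith
  have d0 : 0 < Δ := lt_of_lt_of_le (by positivity) h1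
  have s0 : 0 < s := d0.trans_le h3
  have e1 : s' ^ 2 * (x ^ (1 / 2000 : ℝ)) ^ 3 ≤ 2 * x ^ (-(1 / 2000) : ℝ) := by
    calc _ ≤ 2 * (x ^ (-(1 / 1000) : ℝ)) ^ 2 * (x ^ (1 / 2000 : ℝ)) ^ 3 := by
          refine mul_le_mul_of_nonneg_right (h4.trans ?_) (by positivity)
          gcongr
      _ = _ := by
          rw [← Real.rpow_natCast, ← Real.rpow_natCast, ← Real.rpow_mul x0.le,
            ← Real.rpow_mul x0.le, mul_assoc, ← Real.rpow_add x0]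
          norm_num
  have e2 : Real.log x ≤ s ^ 2 * (Real.log x / Δ) ^ 2 / (8 * π) := by
    have a1 : Real.log x ≤ s * (Real.log x / Δ) := by
      rw [mul_div_assoc', le_div_iff₀ d0]
      nlinarith
    have a2 : Real.log x ^ 2 ≤ (s * (Real.log x / Δ)) ^ 2 :=
      pow_le_pow_left₀ (by linarith) a1 2
    rw [le_div_iff₀ (by positivity), ← mul_pow]
    have := Real.pi_le_four
    nlinarith
  have e3 : Real.exp (-(s ^ 2 * (Real.log x / Δ) ^ 2 / (8 * π))) ≤ x ^ (-1 : ℝ) := by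
    rw [Real.rpow_def_of_pos x0]
    exact Real.exp_le_exp.2 (by linarith)
  have e4 : x ^ (-1 : ℝ) ≤ x ^ (-(1 / 2000) : ℝ) * s := by
    refine le_trans ?_ (mul_le_mul_of_nonneg_left (h1.trans h3) (by positivity))
    rw [← Real.rpow_add x0]
    exact Real.rpow_le_rpow_of_exponent_le hx.le (by norm_num)
  have e5 := (div_le_iff₀ s0).2 (e3.trans e4)
  linarith

theorem vTr_stmt (hT : E.TrStmt) : VTrStmt := by
  obtain ⟨C, hC, hT⟩ := hT
  intro Λ hΛ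
  filter_upwards [eventually_gt_atTop 1, E.ev_le_log 32,
    E.ev_const_le (6 * C * Λ ^ 2) (show (0 : ℝ) < 1 / 6000 by norm_num)] with x hx hl h6
  intro X Δ Γ W K P D b c ⟨_, h1, h2, h3, hK, hP, hD⟩ hb hc hW
  have x0 : 0 < x := by linarith
  have d0 : 0 < Δ := lt_of_lt_of_le (by positivity) h1
  have g0 : 0 < Γ := d0.trans_le h2
  have p1 : 1 ≤ P := by
    have := (Real.one_le_rpow hx.le (show (0 : ℝ) ≤ 1 / 400 by norm_num)).trans hP
    exact_mod_cast this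
  have D0 : 0 ∉ D := fun h => by
    have := (mem_Ico.1 (hD h)).1
    omega
  have R0 : 0 ∉ Icc P (Λ * P) := fun h => by
    have := (mem_Icc.1 h).1
    omega
  have hTT : x ^ (1 / 2000 : ℝ) ≤ Real.log x / Δ := by
    rw [le_div_iff₀ d0]
    calc _ ≤ x ^ (1 / 2000 : ℝ) * x ^ (-(1 / 1000) : ℝ) :=
          mul_le_mul_of_nonneg_left (h2.trans h3) (by positivity)
      _ ≤ 1 := by
          rw [← Real.rpow_add x0]
          exact Real.rpow_le_one_of_one_le_of_nonpos hx.le (by norm_num)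
      _ ≤ _ := by linarith
  set U := D ×ˢ Icc P (Λ * P) with hU
  have cU : U.card ≤ Λ * (K * P) := by
    have c1 : D.card ≤ K := (card_le_card hD).trans (by rw [Nat.card_Ico]; omega)
    have c2 : (Icc P (Λ * P)).card ≤ Λ * P := by
      rw [Nat.card_Icc]
      omega
    rw [hU, card_product]
    exact (Nat.mul_le_mul c1 c2).trans (le_of_eq (by ring))
  have hM : ∑ i ∈ U ×ˢ U, |b i.1.1 * c i.1.2 * (b i.2.1 * c i.2.2)| ≤
      ((Λ : ℝ) * (K * P)) ^ 2 := by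
    refine (sum_le_card_nsmul _ _ 1 fun i _ => ?_).trans ?_
    · rw [abs_mul, abs_mul, abs_mul]
      exact mul_le_one₀ (mul_le_one₀ (hb _) (abs_nonneg _) (hc _)) (by positivity)
        (mul_le_one₀ (hb _) (abs_nonneg _) (hc _))
    · rw [nsmul_eq_mul, mul_one, card_product, sq]
      exact_mod_cast Nat.mul_le_mul cU cU
  have key : ∀ s s' : ℝ, Δ ≤ s → s ≤ s' → s' ^ 2 ≤ 2 * Γ ^ 2 →
      |∑ i ∈ U ×ˢ U, b i.1.1 * c i.1.2 * (b i.2.1 * c i.2.2) * E.dg 0 s s'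
        (Real.log ((i.2.1 : ℝ) * i.2.2) - Real.log ((i.1.1 : ℝ) * i.1.2))| ≤
        W + C * ((Λ : ℝ) * (K * P)) ^ 2 * (3 * x ^ (-(1 / 2000) : ℝ)) := by
    intro s s' k1 k2 k3
    refine (hT _ (U ×ˢ U) _ _ (fun t => ((‖E.FP D b t * E.FP (Icc P (Λ * P)) c t‖ ^ 2 : ℝ) : ℂ))
      0 s s' _ _ _ W (d0.trans_le k1) k2 (by positivity) hTT hM (fun t => ?_) ?_).trans ?_
    · rw [prod_VTr D0 R0, sq_VTr]
    · simpa only [Complex.norm_real, norm_mul, mul_pow, norm_pow, norm_norm] using hW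
    · exact add_le_add le_rfl
        (mul_le_mul_of_nonneg_left (err_VTr hx hl h1 h3 g0.le k1 k3) (by positivity))
  have q : Δ ^ 2 ≤ Γ ^ 2 := pow_le_pow_left₀ d0.le h2 2
  have s1 : Δ ≤ √(Δ ^ 2 + Δ ^ 2) := Real.le_sqrt_of_sq_le (by nlinarith)
  have s2 : √(Δ ^ 2 + Δ ^ 2) ≤ √(Δ ^ 2 + Γ ^ 2) := Real.sqrt_le_sqrt (by linarith)
  have s3 : √(Δ ^ 2 + Γ ^ 2) ≤ √(Γ ^ 2 + Γ ^ 2) := Real.sqrt_le_sqrt (by linarith)
  have k1 := key _ _ s1 s2 (by rw [Real.sq_sqrt (by positivity)]; linarith)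
  have k2 := key _ _ (s1.trans s2) s3 (by rw [Real.sq_sqrt (by positivity)]; linarith)
  have k3 := (abs_sub _ _).trans (add_le_add k1 k2)
  rw [← sum_sub_distrib] at k3
  have k4 : 6 * C * Λ ^ 2 * x ^ (-(1 / 2000) : ℝ) ≤ x ^ (-(1 / 3000) : ℝ) := by
    refine (mul_le_mul_of_nonneg_right h6 (by positivity)).trans (le_of_eq ?_)
    rw [← Real.rpow_add x0]
    norm_num
  have k5 := mul_le_mul_of_nonneg_left k4 (sq_nonneg ((K : ℝ) * P))
  refine le_trans (le_of_eq ?_) (k3.trans (by linarith))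
  rw [QF, ← hU, sum_product U U]
  congr 1
  refine sum_congr rfl fun u _ => sum_congr rfl fun v _ => ?_
  simp only [E.dg, zero_sub, neg_sub]
  ring

end Pool.Agent.MP_c853c5_nt.DS
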