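import Pool.Agent.MP_c853c5_nt.DS.Basic

/-!
The long interval has no nonzero frequencies.
-/

set_option autoImplicit false

open Finset Filter Real
open scoped ComplexConjugate

namespace Pool.Agent.MP_c853c5_nt.DS

open Pool.Agent.MP_88bd62_nt.U (ex)

lemma og_Zero (hP : PoisStmt) {X Γ N L y n n' : ℝ} (hX : 0 < X) (hΓ : 0 < Γ) (hN : 0 < N)
    (hL : 1 ≤ L) (hy : 1 ≤ y) (hyN : y * N ≤ X * Γ) (h1 : N ≤ n) (h2 : n ≤ 2 * L * N)
    (h3 : N ≤ n') (h4 : n' ≤ 2 * L * N) :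
    |og X Γ Γ n n'| ≤ 4 * (1 + 3 * L) * (X / (Γ * N) * Real.exp (-(y ^ 2 / (8 * L ^ 2)))) := by
  have hn : 0 < n := hN.trans_le h1
  have hn' : 0 < n' := hN.trans_le h3
  have h5 := (hP X Γ Γ n n' 0 hX hΓ hΓ hn hn').2
  rw [rb_zero, sub_zero] at h5
  have hd := dd_pos (Δ := Γ) n' hΓ hn
  have d1 : (Γ * N) ^ 2 ≤ dd Γ Γ n n' := by
    unfold dd
    have : N ^ 2 * Γ ^ 2 ≤ n ^ 2 * Γ ^ 2 := by gcongr
    nlinarith [mul_nonneg (sq_nonneg n') (sq_nonneg Γ)]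
  have d2 : dd Γ Γ n n' ≤ 8 * L ^ 2 * (N * Γ) ^ 2 := by
    unfold dd
    have a1 : n ^ 2 * Γ ^ 2 ≤ (2 * L * N) ^ 2 * Γ ^ 2 := by gcongr
    have a2 : n' ^ 2 * Γ ^ 2 ≤ (2 * L * N) ^ 2 * Γ ^ 2 := by gcongr
    nlinarith
  have s1 : Γ * N ≤ √(dd Γ Γ n n') := Real.le_sqrt_of_sq_le d1
  have s2 : √(dd Γ Γ n n') / (X * Γ * Γ) ≤ 3 * L := by
    rw [div_le_iff₀ (by positivity)]
    have a1 : √(dd Γ Γ n n') ≤ 3 * L * (N * Γ) :=
      Real.sqrt_le_iff.2 ⟨by positivity, by nlinarith [mul_nonneg (sq_nonneg L) (sq_nonneg (N * Γ))]⟩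
    have a2 : N ≤ X * Γ := le_trans (le_mul_of_one_le_left hN.le hy) hyN
    exact a1.trans (by gcongr)
  have s3 : y ^ 2 / (8 * L ^ 2) ≤
      π * (((((0 : ℕ) : ℤ) + 1 : ℤ) : ℝ)) ^ 2 * (X * Γ * Γ) ^ 2 / dd Γ Γ n n' := by
    rw [div_le_div_iff₀ (by positivity) hd]
    have a1 : (y * N * Γ) ^ 2 ≤ (X * Γ * Γ) ^ 2 := by gcongr
    have a2 : (X * Γ * Γ) ^ 2 ≤ π * (X * Γ * Γ) ^ 2 :=
      le_mul_of_one_le_left (sq_nonneg _) (by linarith [Real.pi_gt_three])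
    have a3 := mul_le_mul_of_nonneg_left d2 (sq_nonneg y)
    have a4 := mul_le_mul_of_nonneg_right (a1.trans a2) (by positivity : 0 ≤ 8 * L ^ 2)
    push_cast
    nlinarith
  refine h5.trans (mul_le_mul (by linarith) ?_ (am_nonneg hX.le _ _ _ _ _) (by positivity))
  unfold am
  refine mul_le_mul ((mul_le_of_le_one_right (by positivity) (Real.exp_le_one_iff.2 ?_)).trans
    (div_le_div_of_nonneg_left hX.le (by positivity) s1)) (Real.exp_le_exp.2 (neg_le_neg s3))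
    (Real.exp_pos _).le (by positivity)
  rw [neg_nonpos]
  positivity

theorem zero_stmt (hP : PoisStmt) : ZeroStmt := by
  intro r Λ μ _ hΛ _
  refine ⟨1, one_pos, ?_⟩
  filter_upwards [eventually_ge_atTop 1, E.ev_const_le 2 (γ := 1 / 2000) (by norm_num),
    E.ev_log_le (24 * (Λ : ℝ) ^ 2) 1 (γ := 1 / 500) (by norm_num),
    eventually_ge_atTop (8 * (Λ : ℝ) ^ 2 * (1 + 3 * Λ))] with x hx hu hl hc
  intro X Δ Γ K P D b c hG hW hD hb hc'
  have hx0 : 0 < x := by linarith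
  have hX : 0 < X := by linarith [hG.x1]
  have hL : (1 : ℝ) ≤ Λ := by exact_mod_cast hΛ
  have hK : (1 : ℝ) ≤ K := by exact_mod_cast hG.k1
  have hp : (1 : ℝ) ≤ P := by exact_mod_cast hG.p1
  have hN : (0 : ℝ) < K * P := by positivity
  obtain ⟨u, hu'⟩ : ∃ u, u = x ^ (1 / 2000 : ℝ) := ⟨_, rfl⟩
  have e : ∀ k : ℕ, x ^ ((k : ℝ) / 2000) = u ^ k := fun k => by
    rw [hu', ← Real.rpow_natCast, ← Real.rpow_mul hx0.le]
    congr 1
    ring
  have e2 : x ^ (-(1 / 1000) : ℝ) = (u ^ 2)⁻¹ := by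
    rw [Real.rpow_neg hx0.le, ← e 2]
    norm_num
  have e4 : x ^ (1 / 500 : ℝ) = (u ^ 2) ^ 2 := by
    rw [← pow_mul, ← e]
    norm_num
  have e5 : x ^ (1 / 400 : ℝ) = u ^ 5 := by
    rw [← e 5]
    norm_num
  rw [← hu'] at hu
  have hu0 : 0 < u := by linarith
  have w1 : 1 ≤ 2 * u ^ 2 * Γ := by
    have a1 := hW.1
    rw [e2, div_le_iff₀ two_pos, inv_le_iff_one_le_mul₀' (by positivity)] at a1
    linarith
  have hΓ : 0 < Γ := by
    by_contra a1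
    nlinarith [mul_nonneg (sq_nonneg u) (neg_nonneg.2 (not_lt.1 a1))]
  have w2 : (K : ℝ) * P * u ^ 5 ≤ X := by
    refine le_trans ?_ (e5 ▸ hG.h6)
    have a1 : 1 ≤ Lm X Δ K P ^ 2 * K :=
      one_le_mul_of_one_le_of_one_le (one_le_pow₀ (one_le_Lm _ _ _ _)) hK
    exact mul_le_mul_of_nonneg_right (le_mul_of_one_le_left hN.le a1) (by positivity)
  have w3 : u ^ 2 * (K * P) ≤ X * Γ := by
    calc u ^ 2 * (K * P) ≤ u ^ 2 * (K * P) * (2 * u ^ 2 * Γ) :=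
          le_mul_of_one_le_right (by positivity) w1
      _ ≤ u ^ 2 * (K * P) * (u * u ^ 2 * Γ) := by gcongr
      _ = K * P * u ^ 5 * Γ := by ring
      _ ≤ X * Γ := by gcongr
  have w4 : u ^ 2 ≤ x := by
    rw [← e 2]
    exact (Real.rpow_le_rpow_of_exponent_le hx (by norm_num)).trans (Real.rpow_one x).le
  have w5 : Real.exp (-((u ^ 2) ^ 2 / (8 * (Λ : ℝ) ^ 2))) ≤ (x ^ 3)⁻¹ := by
    rw [Real.exp_neg]
    refine inv_anti₀ (by positivity) ?_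
    rw [← Real.log_le_iff_le_exp (by positivity), Real.log_pow, le_div_iff₀ (by positivity), ← e4]
    push_cast
    linarith
  have hr : ∀ v ∈ D ×ˢ Icc P (Λ * P),
      (K : ℝ) * P ≤ (v.1 : ℝ) * v.2 ∧ (v.1 : ℝ) * v.2 ≤ 2 * Λ * (K * P) := fun v hv => by
    obtain ⟨a1, a2⟩ := mem_product.1 hv
    obtain ⟨-, a3, a4⟩ := hD _ a1
    obtain ⟨a5, a6⟩ := mem_Icc.1 a2
    refine ⟨by exact_mod_cast Nat.mul_le_mul a3 a5, ?_⟩
    have a7 : v.1 * v.2 ≤ 2 * Λ * (K * P) :=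
      (Nat.mul_le_mul a4.le a6).trans (le_of_eq (by ring))
    exact_mod_cast a7
  have hcard : ((D ×ˢ Icc P (Λ * P)).card : ℝ) ≤ Λ * (K * P) := by
    rw [card_product]
    have a1 := (Nat.mul_le_mul hD.card_le (card_Icc_le (Λ := Λ) hG.p1)).trans
      (le_of_eq (show K * (Λ * P) = Λ * (K * P) by ring))
    exact_mod_cast a1
  obtain ⟨W, hW'⟩ : ∃ W, W = 4 * (1 + 3 * (Λ : ℝ)) * (X / (Γ * (K * P)) * (x ^ 3)⁻¹) := ⟨_, rfl⟩
  have hW0 : 0 ≤ W := by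
    rw [hW']
    positivity
  have h1 : |QF D (Icc P (Λ * P)) b c (og X Γ Γ)| ≤ Λ * (K * P) * (Λ * (K * P) * W) := by
    have a0 : ∀ v : ℕ × ℕ, |b v.1 * c v.2| ≤ 1 := fun v => by
      rw [abs_mul]
      exact mul_le_one₀ (hb _) (abs_nonneg _) (hc' _)
    refine (abs_sum_le_sum_abs _ _).trans ((sum_le_card_nsmul _ _ (Λ * (K * P) * W)
      fun v hv => ?_).trans ?_)
    · refine (abs_sum_le_sum_abs _ _).trans ((sum_le_card_nsmul _ _ W fun w hw => ?_).trans ?_)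
      · rw [abs_mul, abs_mul]
        refine (mul_le_of_le_one_left (abs_nonneg _)
          (mul_le_one₀ (a0 v) (abs_nonneg _) (a0 w))).trans
          ((og_Zero hP hX hΓ hN hL (one_le_pow₀ (by linarith)) w3 (hr v hv).1 (hr v hv).2
            (hr w hw).1 (hr w hw).2).trans ?_)
        rw [hW']
        gcongr
      · rw [nsmul_eq_mul]
        exact mul_le_mul_of_nonneg_right hcard hW0
    · rw [nsmul_eq_mul]
      exact mul_le_mul_of_nonneg_right hcard (by positivity)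
  refine h1.trans ?_
  have h2 : Λ * (K * P) * (Λ * (K * P) * W) =
      X * (K * P) * x⁻¹ * (4 * (Λ : ℝ) ^ 2 * (1 + 3 * Λ) / (Γ * x ^ 2)) := by
    rw [hW']
    field_simp
  rw [h2, Real.rpow_neg_one]
  refine mul_le_of_le_one_right (by positivity) ?_
  rw [div_le_one (by positivity)]
  have a1 : 1 ≤ 2 * x * Γ := w1.trans (by gcongr)
  nlinarith

end Pool.Agent.MP_c853c5_nt.DS
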