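import Pool.Agent.MP_c853c5_nt.S.EAll
import Pool.Agent.MP_c853c5_nt.DS.Blk
import Pool.Agent.MP_c853c5_nt.DS.BoxV
import Pool.Agent.MP_c853c5_nt.DS.CEdge
import Pool.Agent.MP_c853c5_nt.DS.CRow
import Pool.Agent.MP_c853c5_nt.DS.Cmp0
import Pool.Agent.MP_c853c5_nt.DS.Cmp1
import Pool.Agent.MP_c853c5_nt.DS.Cmp2
import Pool.Agent.MP_c853c5_nt.DS.Cmp3
import Pool.Agent.MP_c853c5_nt.DS.Conv
import Pool.Agent.MP_c853c5_nt.DS.Cross
import Pool.Agent.MP_c853c5_nt.DS.Cyc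
import Pool.Agent.MP_c853c5_nt.DS.D2
import Pool.Agent.MP_c853c5_nt.DS.E3d
import Pool.Agent.MP_c853c5_nt.DS.Edge
import Pool.Agent.MP_c853c5_nt.DS.Exp
import Pool.Agent.MP_c853c5_nt.DS.Exp2
import Pool.Agent.MP_c853c5_nt.DS.Exp3
import Pool.Agent.MP_c853c5_nt.DS.Geo
import Pool.Agent.MP_c853c5_nt.DS.GridV
import Pool.Agent.MP_c853c5_nt.DS.GrpA
import Pool.Agent.MP_c853c5_nt.DS.L2
import Pool.Agent.MP_c853c5_nt.DS.Loc
import Pool.Agent.MP_c853c5_nt.DS.Main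
import Pool.Agent.MP_c853c5_nt.DS.Mean
import Pool.Agent.MP_c853c5_nt.DS.Op
import Pool.Agent.MP_c853c5_nt.DS.Pair
import Pool.Agent.MP_c853c5_nt.DS.Path
import Pool.Agent.MP_c853c5_nt.DS.Pois
import Pool.Agent.MP_c853c5_nt.DS.Rec
import Pool.Agent.MP_c853c5_nt.DS.Schur
import Pool.Agent.MP_c853c5_nt.DS.Sep
import Pool.Agent.MP_c853c5_nt.DS.Small
import Pool.Agent.MP_c853c5_nt.DS.Sq
import Pool.Agent.MP_c853c5_nt.DS.Sum
import Pool.Agent.MP_c853c5_nt.DS.Tree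
import Pool.Agent.MP_c853c5_nt.DS.Tri
import Pool.Agent.MP_c853c5_nt.DS.VTr
import Pool.Agent.MP_c853c5_nt.DS.Zero

/-!
The dispersion bound, without hypotheses.
-/

set_option autoImplicit false

namespace Pool.Agent.MP_c853c5_nt.DS

theorem exp2_all : Exp2Stmt := exp2_stmt d2_stmt

theorem exp_all : ExpStmt := exp_stmt exp2_all (exp3_stmt d2_stmt)

theorem sum_all : SumStmt :=
  sum_stmt path_stmt exp_all schur_stmt sep_stmt pair_stmt (cyc_stmt tree_stmt rec_stmt)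

theorem main_all : MainStmt := main_stmt (blk_stmt op_stmt) (loc_stmt sum_all edge_stmt)

theorem mean_all : MeanStmt :=
  mean_stmt (sq_stmt pois_stmt) (cmp1_stmt cmp0_stmt) (cmp3_stmt (cmp2_stmt cmp0_stmt))
    (vTr_stmt E.tr_stmt) main_all (small_stmt pois_stmt)
    (cross_stmt pois_stmt (cRow_stmt cEdge_stmt exp2_all)) (zero_stmt pois_stmt)

theorem tri_all : TriStmt := tri_stmt mean_all conv_stmt

theorem e3d_all : E3D :=
  e3d_of tri_all geo_stmt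
    (boxV_stmt (gridV_stmt S.core_all E.self_stmt (E.hal_stmt Z.ker_all)) E.grd_stmt)
    l2_stmt grp_fix Z.pr_all

end Pool.Agent.MP_c853c5_nt.DS
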