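import Pool.Agent.MP_c853c5_nt.DS.Defs
import Pool.Agent.MP_c853c5_nt.E.Basic

/-!
Small facts on the definitions.
-/

set_option autoImplicit false

open Finset Filter Real
open scoped ComplexConjugate

namespace Pool.Agent.MP_c853c5_nt.DS

open Pool.Agent.MP_88bd62_nt.U (ex)

lemma norm_ex (x : ℝ) : ‖ex x‖ = 1 := by
  rw [ex, Complex.norm_exp_ofReal_mul_I]

lemma ex_add (x y : ℝ) : ex (x + y) = ex x * ex y := by
  rw [ex, ex, ex, ← Complex.exp_add]
  congr 1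
  push_cast
  ring

lemma ex_zero : ex 0 = 1 := by simp [ex]

lemma conj_ex (x : ℝ) : conj (ex x) = ex (-x) := by
  rw [ex, ex, ← Complex.exp_conj]
  congr 1
  simp only [map_mul, Complex.conj_ofReal, Complex.conj_I]
  push_cast
  ring

lemma ex_eq (x : ℝ) :
    ex x = (Real.cos (2 * π * x) : ℝ) + (Real.sin (2 * π * x) : ℝ) * Complex.I := by
  rw [ex, Complex.exp_mul_I, Complex.ofReal_cos, Complex.ofReal_sin]

lemma norm_ex_sub (x y : ℝ) : ‖ex x - ex y‖ ≤ 2 * π * |x - y| := by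
  have e : ex x - ex y = ex y * (ex (x - y) - 1) := by
    rw [mul_sub, ← ex_add, mul_one]
    congr 2
    ring
  rw [e, norm_mul, norm_ex, one_mul, ex, mul_comm _ Complex.I]
  refine (Real.norm_exp_I_mul_ofReal_sub_one_le).trans_eq ?_
  rw [Real.norm_eq_abs, abs_mul, abs_of_pos (by positivity : (0 : ℝ) < 2 * π)]

lemma mem_hs {B : ℕ} {h : ℤ} : h ∈ hs B ↔ h ≠ 0 ∧ |h| ≤ B := by
  simp [hs, abs_le]

lemma card_hs (B : ℕ) : (hs B).card = 2 * B := by
  rw [hs, card_erase_of_mem (by simp), Int.card_Icc]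
  omega

lemma hs_zero : hs 0 = ∅ := by
  rw [← card_eq_zero, card_hs]

lemma abs_le_of_hs {B : ℕ} {h : ℤ} (hh : h ∈ hs B) : |(h : ℝ)| ≤ B := by
  exact_mod_cast (mem_hs.1 hh).2

lemma dd_pos {Δ Γ n : ℝ} (n' : ℝ) (hΓ : 0 < Γ) (hn : 0 < n) : 0 < dd Δ Γ n n' := by
  unfold dd
  positivity

lemma am_nonneg {X : ℝ} (hX : 0 ≤ X) (Δ Γ n n' : ℝ) (h : ℤ) : 0 ≤ am X Δ Γ n n' h := by
  unfold am
  positivity

lemma am_neg (X Δ Γ n n' : ℝ) (h : ℤ) : am X Δ Γ n n' (-h) = am X Δ Γ n n' h := by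
  simp [am]

lemma am_comm (X Δ n n' : ℝ) (h : ℤ) : am X Δ Δ n n' h = am X Δ Δ n' n h := by
  have e : dd Δ Δ n n' = dd Δ Δ n' n := by
    unfold dd
    ring
  unfold am
  rw [e, show (n - n') ^ 2 = (n' - n) ^ 2 by ring]

lemma ct_comm (X Δ n n' : ℝ) : ct X Δ Δ n n' = ct X Δ Δ n' n := by
  unfold ct dd
  congr 1 <;> ring

lemma rb_comm (X Δ : ℝ) (B : ℕ) (n n' : ℝ) : rb X Δ Δ B n n' = rb X Δ Δ B n' n := by
  unfold rb
  exact sum_congr rfl fun h _ => by rw [am_comm, ct_comm]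

lemma rb_zero (X Δ Γ n n' : ℝ) : rb X Δ Γ 0 n n' = 0 := by simp [rb, hs_zero]

lemma G0_comm (X Δ : ℝ) (B H : ℕ) (u v : ℕ × ℕ) : G0 X Δ B H u v = G0 X Δ B H v u := by
  unfold G0
  rw [rb_comm]
  congr 1
  exact propext ⟨fun h => ⟨h.1.symm, h.2.2, h.2.1⟩, fun h => ⟨h.1.symm, h.2.2, h.2.1⟩⟩

lemma rb_eq (X Δ Γ : ℝ) (B : ℕ) (n n' : ℝ) : (rb X Δ Γ B n n' : ℂ) =
    ∑ h ∈ hs B, (am X Δ Γ n n' h : ℂ) * ex (h * ct X Δ Γ n n') := by
  have h0 : ∑ h ∈ hs B, am X Δ Γ n n' h * Real.sin (2 * π * (h * ct X Δ Γ n n')) = 0 := by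
    refine sum_involution (fun h _ => -h) (fun h _ => ?_) (fun h hh _ => ?_) (fun h hh => ?_)
      fun h _ => neg_neg h
    · rw [am_neg, Int.cast_neg, neg_mul, mul_neg, Real.sin_neg]
      ring
    · have := (mem_hs.1 hh).1
      omega
    · rw [mem_hs] at hh ⊢
      exact ⟨neg_ne_zero.2 hh.1, by rw [abs_neg]; exact hh.2⟩
  have h1 : ((∑ h ∈ hs B, am X Δ Γ n n' h * Real.sin (2 * π * (h * ct X Δ Γ n n')) : ℝ) : ℂ) *
      Complex.I = 0 := by rw [h0]; simp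
  rw [rb, ← add_zero ((_ : ℝ) : ℂ), ← h1, Complex.ofReal_sum, Complex.ofReal_sum, sum_mul,
    ← sum_add_distrib]
  refine sum_congr rfl fun h _ => ?_
  rw [ex_eq, Complex.ofReal_mul, Complex.ofReal_mul (am _ _ _ _ _ _)]
  ring

lemma fm_pos {θ : ℝ} (h : 0 < θ) (ξ : ℝ) : 0 < fm θ ξ := by
  unfold fm
  positivity

lemma fm_le_one {θ : ℝ} (h : 0 < θ) (ξ : ℝ) : fm θ ξ ≤ 1 := by
  unfold fm
  rw [div_le_one (by positivity)]
  linarith [abs_nonneg ξ]

lemma fm_mul {θ X : ℝ} (hX : 0 < X) (ξ : ℝ) : fm θ (X * ξ) = fm (θ / X) ξ := by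
  unfold fm
  rw [abs_mul, abs_of_pos hX, div_add' _ _ _ hX.ne', div_div_div_cancel_right₀ hX.ne', mul_comm]

lemma zb_nonneg {F : ℝ} (hF : 0 ≤ F) (ρ : ℝ) : 0 ≤ zb F ρ := by
  unfold zb
  positivity

lemma zb_mono {F F' ρ ρ' : ℝ} (hF : 0 ≤ F) (h : F ≤ F') (h' : ρ ≤ ρ') : zb F ρ ≤ zb F' ρ' := by
  unfold zb
  have := hF.trans h
  gcongr

/-! ### the variation norm -/

lemma nv_nonneg (S : ℕ) (f : ℕ → ℂ) : 0 ≤ nv S f := by
  unfold nv
  positivity

lemma nv_succ (S : ℕ) (f : ℕ → ℂ) : nv (S + 1) f = nv S f + ‖f (S + 1) - f S‖ := by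
  rw [nv, nv, sum_range_succ, add_assoc]

lemma nv_mono_len {S S' : ℕ} (h : S ≤ S') (f : ℕ → ℂ) : nv S f ≤ nv S' f := by
  unfold nv
  gcongr

lemma norm_le_nv (S : ℕ) (f : ℕ → ℂ) : ‖f S‖ ≤ nv S f := by
  induction S with
  | zero => simp [nv]
  | succ S ih =>
    rw [nv_succ]
    have := norm_add_le (f S) (f (S + 1) - f S)
    rw [add_sub_cancel] at this
    linarith

lemma nv_const (S : ℕ) (c : ℂ) : nv S (fun _ => c) = ‖c‖ := by simp [nv]

lemma nv_mul (S : ℕ) (f g : ℕ → ℂ) : nv S (fun s => f s * g s) ≤ nv S f * nv S g := by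
  induction S with
  | zero => simp [nv]
  | succ S ih =>
    rw [nv_succ, nv_succ, nv_succ]
    have e : f (S + 1) * g (S + 1) - f S * g S = (f (S + 1) - f S) * (g (S + 1) - g S) +
        ((f (S + 1) - f S) * g S + f S * (g (S + 1) - g S)) := by ring
    have h1 := norm_le_nv S f
    have h2 := norm_le_nv S g
    have h3 : ‖f (S + 1) * g (S + 1) - f S * g S‖ ≤ ‖f (S + 1) - f S‖ * ‖g (S + 1) - g S‖ +
        (‖f (S + 1) - f S‖ * ‖g S‖ + ‖f S‖ * ‖g (S + 1) - g S‖) := by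
      rw [e]
      refine (norm_add_le _ _).trans (add_le_add (norm_mul _ _).le ((norm_add_le _ _).trans ?_))
      rw [norm_mul, norm_mul]
    have h4 := mul_le_mul_of_nonneg_left h2 (norm_nonneg (f (S + 1) - f S))
    have h5 := mul_le_mul_of_nonneg_right h1 (norm_nonneg (g (S + 1) - g S))
    nlinarith

lemma nv_mul_le {S : ℕ} {f g : ℕ → ℂ} {a b : ℝ} (hf : nv S f ≤ a) (hg : nv S g ≤ b) :
    nv S (fun s => f s * g s) ≤ a * b :=
  (nv_mul S f g).trans (mul_le_mul hf hg (nv_nonneg _ _) ((nv_nonneg _ _).trans hf))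

lemma nv_add (S : ℕ) (f g : ℕ → ℂ) : nv S (fun s => f s + g s) ≤ nv S f + nv S g := by
  induction S with
  | zero => simpa [nv] using norm_add_le _ _
  | succ S ih =>
    rw [nv_succ, nv_succ, nv_succ]
    have := norm_add_le (f (S + 1) - f S) (g (S + 1) - g S)
    rw [show f (S + 1) - f S + (g (S + 1) - g S) = f (S + 1) + g (S + 1) - (f S + g S) by ring]
      at this
    linarith

lemma nv_conj (S : ℕ) (f : ℕ → ℂ) : nv S (fun s => conj (f s)) = nv S f := by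
  simp only [nv, ← map_sub, Complex.norm_conj]

lemma nv_monotone {S : ℕ} {f : ℕ → ℝ} {c : ℝ} (h : ∀ s, s < S → f s ≤ f (s + 1))
    (h0 : 0 ≤ f 0) (h1 : f S ≤ c) : nv S (fun s => (f s : ℂ)) ≤ c := by
  have e : ∀ n, n ≤ S → nv n (fun s => (f s : ℂ)) = f n := by
    intro n hn
    induction n with
    | zero => simp [nv, abs_of_nonneg h0]
    | succ n ih =>
      rw [nv_succ, ih (by omega), ← Complex.ofReal_sub, Complex.norm_real, Real.norm_eq_abs,
        abs_of_nonneg (sub_nonneg.2 (h n (by omega)))]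
      ring
  rw [e S le_rfl]
  exact h1

lemma nv_antitone {S : ℕ} {f : ℕ → ℝ} {c : ℝ} (h : ∀ s, s < S → f (s + 1) ≤ f s)
    (h0 : f 0 ≤ c) (h1 : 0 ≤ f S) : nv S (fun s => (f s : ℂ)) ≤ 2 * c := by
  have e : ∀ n, n ≤ S → nv n (fun s => (f s : ℂ)) = |f 0| + (f 0 - f n) := by
    intro n hn
    induction n with
    | zero => simp [nv]
    | succ n ih =>
      rw [nv_succ, ih (by omega), ← Complex.ofReal_sub, Complex.norm_real, Real.norm_eq_abs,
        abs_of_nonpos (sub_nonpos.2 (h n (by omega)))]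
      ring
  have e2 : ∀ n, n ≤ S → f n ≤ f 0 := by
    intro n hn
    induction n with
    | zero => exact le_rfl
    | succ n ih => exact (h n (by omega)).trans (ih (by omega))
  rw [e S le_rfl, abs_of_nonneg (h1.trans (e2 S le_rfl))]
  linarith

lemma nv_ex (S : ℕ) (φ : ℕ → ℝ) :
    nv S (fun s => ex (φ s)) ≤ 1 + 2 * π * nv S (fun s => (φ s : ℂ)) := by
  unfold nv
  rw [norm_ex, mul_add, mul_sum]
  have h : ∑ s ∈ range S, ‖ex (φ (s + 1)) - ex (φ s)‖ ≤
      ∑ s ∈ range S, 2 * π * ‖((φ (s + 1) : ℝ) : ℂ) - (φ s : ℝ)‖ := by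
    refine sum_le_sum fun s _ => (norm_ex_sub _ _).trans_eq ?_
    rw [← Complex.ofReal_sub, Complex.norm_real, Real.norm_eq_abs]
  have : 0 ≤ 2 * π * ‖((φ 0 : ℝ) : ℂ)‖ := by positivity
  linarith

/-- summation by parts -/
lemma nv_abel {S : ℕ} (f z : ℕ → ℂ) {Z : ℝ} (h : ∀ i, ‖∑ s ∈ Ico i S, z s‖ ≤ Z) :
    ‖∑ s ∈ range S, f s * z s‖ ≤ nv S f * Z := by
  have e : ∀ n, n ≤ S → ∑ s ∈ range n, f s * z s + f n * ∑ s ∈ Ico n S, z s =
      f 0 * ∑ s ∈ Ico 0 S, z s + ∑ s ∈ range n, (f (s + 1) - f s) * ∑ u ∈ Ico (s + 1) S, z u := by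
    intro n hn
    induction n with
    | zero => simp
    | succ n ih =>
      rw [sum_range_succ, sum_range_succ, ← add_assoc, ← ih (by omega),
        sum_eq_sum_Ico_succ_bot (show n < S by omega)]
      ring
  have e2 := e S le_rfl
  rw [Ico_self, sum_empty, mul_zero, add_zero] at e2
  rw [e2, nv, add_mul, sum_mul]
  refine (norm_add_le _ _).trans (add_le_add ?_ ((norm_sum_le _ _).trans (sum_le_sum fun s _ => ?_)))
  · rw [norm_mul]
    exact mul_le_mul_of_nonneg_left (h 0) (norm_nonneg _)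
  · rw [norm_mul]
    exact mul_le_mul_of_nonneg_left (h _) (norm_nonneg _)

/-! ### paths -/

lemma mem_paths_zero {D : Finset ℕ} {B a : ℕ} {l : List (ℕ × ℤ)} :
    l ∈ paths D B 0 a ↔ l = [] := by simp [paths]

lemma cons_mem_paths {D : Finset ℕ} {B n a : ℕ} {e : ℕ × ℤ} {l : List (ℕ × ℤ)} :
    e :: l ∈ paths D B (n + 1) a ↔
      e.1 ≠ a ∧ e.1 ∈ D ∧ e.2 ∈ hs B ∧ l ∈ paths D B n e.1 := by
  simp only [paths, mem_biUnion, mem_product, mem_erase, mem_image, List.cons.injEq]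
  constructor
  · rintro ⟨e', ⟨⟨h1, h2⟩, h3⟩, l', h4, rfl, rfl⟩
    exact ⟨h1, h2, h3, h4⟩
  · rintro ⟨h1, h2, h3, h4⟩
    exact ⟨e, ⟨⟨h1, h2⟩, h3⟩, l, h4, rfl, rfl⟩

lemma nil_not_mem_paths {D : Finset ℕ} {B n a : ℕ} : [] ∉ paths D B (n + 1) a := by
  simp [paths]

lemma length_of_mem_paths {D : Finset ℕ} {B n a : ℕ} {l : List (ℕ × ℤ)}
    (h : l ∈ paths D B n a) : l.length = n := by
  induction n generalizing a l with
  | zero => simp [mem_paths_zero.1 h]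
  | succ n ih =>
    cases l with
    | nil => exact absurd h nil_not_mem_paths
    | cons e l => rw [List.length_cons, ih (cons_mem_paths.1 h).2.2.2]

lemma lst_append (a : ℕ) (l l' : List (ℕ × ℤ)) : lst a (l ++ l') = lst (lst a l) l' := by
  induction l generalizing a with
  | nil => rfl
  | cons e l ih => exact ih e.1

lemma vl_append (a : ℕ) (l l' : List (ℕ × ℤ)) : vl a (l ++ l') = vl a l + vl (lst a l) l' := by
  induction l generalizing a with
  | nil => simp [vl, lst]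
  | cons e l ih => simp only [List.cons_append, vl, lst, ih e.1, add_assoc]

lemma append_mem_paths {D : Finset ℕ} {B n a : ℕ} {l l' : List (ℕ × ℤ)} :
    l ++ l' ∈ paths D B (l.length + n) a ↔
      l ∈ paths D B l.length a ∧ l' ∈ paths D B n (lst a l) := by
  induction l generalizing a with
  | nil => simp [mem_paths_zero, lst]
  | cons e l ih =>
    rw [List.cons_append, List.length_cons, show l.length + 1 + n = l.length + n + 1 by omega,
      cons_mem_paths, cons_mem_paths, ih, lst]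
    tauto

lemma paths_mono {D : Finset ℕ} {B B' n a : ℕ} (h : B ≤ B') : paths D B n a ⊆ paths D B' n a := by
  induction n generalizing a with
  | zero => exact fun l hl => hl
  | succ n ih =>
    intro l hl
    cases l with
    | nil => exact absurd hl nil_not_mem_paths
    | cons e l =>
      rw [cons_mem_paths, mem_hs] at hl ⊢
      exact ⟨hl.1, hl.2.1, ⟨hl.2.2.1.1, hl.2.2.1.2.trans (by exact_mod_cast h)⟩, ih hl.2.2.2⟩

/-- a sum over paths, by the first step -/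
lemma sum_paths_succ {M : Type} [AddCommMonoid M] (D : Finset ℕ) (B n a : ℕ)
    (F : List (ℕ × ℤ) → M) : ∑ l ∈ paths D B (n + 1) a, F l =
      ∑ k ∈ D.erase a, ∑ h ∈ hs B, ∑ l ∈ paths D B n k, F ((k, h) :: l) := by
  rw [paths, sum_biUnion, sum_product]
  · refine sum_congr rfl fun k _ => sum_congr rfl fun h _ => ?_
    exact sum_image fun l _ l' _ e => (List.cons.inj e).2
  · intro e _ e' _ hne
    rw [Function.onFun, disjoint_left]
    intro l h1 h2
    obtain ⟨_, _, rfl⟩ := mem_image.1 h1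
    obtain ⟨_, _, e2⟩ := mem_image.1 h2
    exact hne (List.cons.inj e2).1.symm

lemma PrK.card_le {K : ℕ} {D : Finset ℕ} (h : PrK K D) : D.card ≤ K := by
  have : D ⊆ Ico K (2 * K) := fun k hk => mem_Ico.2 (h k hk).2
  have := card_le_card this
  rw [Nat.card_Ico] at this
  omega

lemma PrK.subset {K : ℕ} {D : Finset ℕ} (h : PrK K D) : D ⊆ Ico K (2 * K) :=
  fun k hk => mem_Ico.2 (h k hk).2

lemma card_Icc_le {P Λ : ℕ} (hP : 1 ≤ P) : (Icc P (Λ * P)).card ≤ Λ * P := by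
  rw [Nat.card_Icc]
  omega

lemma one_le_Lm (X Δ : ℝ) (K P : ℕ) : 1 ≤ Lm X Δ K P := le_max_left _ _

lemma le_Lm (X Δ : ℝ) (K P : ℕ) : K * P / (X * Δ) ≤ Lm X Δ K P := le_max_right _ _

end Pool.Agent.MP_c853c5_nt.DS
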