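import Pool.Agent.MP_c853c5_nt.DS.Basic
set_option autoImplicit false
open Finset Filter Real
open scoped ComplexConjugate
namespace Pool.Agent.MP_c853c5_nt.DS
open Pool.Agent.MP_88bd62_nt.U (ex)

theorem one_Cyc (D : Finset ℕ) (B a : ℕ) : cyc D B 1 a = ∅ := by
  refine Finset.eq_empty_of_forall_notMem fun l hl => ?_
  simp only [cyc, paths, Finset.mem_filter, Finset.mem_biUnion, Finset.mem_image,
    Finset.mem_singleton, Finset.mem_product, Finset.mem_erase] at hl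
  obtain ⟨⟨e, ⟨⟨hne, -⟩, -⟩, l', rfl, rfl⟩, h1, -⟩ := hl
  exact hne h1

theorem zero_Cyc (D : Finset ℕ) (n a : ℕ) : cyc D 0 (n + 1) a = ∅ := by
  have h : hs 0 = ∅ := by simp [hs]
  simp [cyc, paths, h]

theorem pow_Cyc (n B H : ℕ) (hBH : B ≤ H) :
    B * ((4 * H) ^ ((n + 1) / 2) * (4 * B) ^ ((n + 1 + 1) / 2)) ≤
      4 ^ (n + 1) * (H ^ ((n + 2) / 2) * B ^ ((n + 2 + 1) / 2)) := by
  obtain ⟨m, rfl | rfl⟩ := Nat.even_or_odd' n
  · rw [show (2 * m + 1) / 2 = m by omega, show (2 * m + 1 + 1) / 2 = m + 1 by omega,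
      show (2 * m + 2 + 1) / 2 = m + 1 by omega, mul_pow, mul_pow]
    calc B * (4 ^ m * H ^ m * (4 ^ (m + 1) * B ^ (m + 1)))
        ≤ H * (4 ^ m * H ^ m * (4 ^ (m + 1) * B ^ (m + 1))) := Nat.mul_le_mul_right _ hBH
      _ = _ := by ring
  · rw [show (2 * m + 1 + 1) / 2 = m + 1 by omega, show (2 * m + 1 + 1 + 1) / 2 = m + 1 by omega,
      show (2 * m + 1 + 2 + 1) / 2 = m + 2 by omega, mul_pow, mul_pow]
    exact le_of_eq (by ring)

theorem cyc_stmt (hT : TreeStmt) (hR : RecStmt) : CycStmt := by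
  intro n
  induction n using Nat.twoStepInduction with
  | zero =>
    refine ⟨1, fun K B H D _ _ _ _ a _ => ?_⟩
    simpa [cyc, paths] using Finset.card_filter_le ({[]} : Finset (List (ℕ × ℤ))) _
  | one => exact ⟨0, fun K B H D _ _ _ _ a _ => by simp [one_Cyc]⟩
  | more n ih0 ih1 =>
    obtain ⟨C0, h0⟩ := ih0
    obtain ⟨C1, h1⟩ := ih1
    obtain ⟨C2, h2⟩ := hT (n + 2)
    refine ⟨C2 + (n + 2) * (2 * C0 + 2 * C1 * 4 ^ (n + 1)), fun K B H D hD hK hBH hDH a ha => ?_⟩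
    rcases Nat.eq_zero_or_pos B with rfl | hB
    · simp [zero_Cyc]
    have hp : 1 ≤ 4 ^ n := Nat.one_le_pow _ _ (by norm_num)
    have e3 : 4 ^ (n + 2 + 1) * B = 64 * (4 ^ n * B) := by ring
    have hnB : B ≤ 4 ^ n * B := Nat.le_mul_of_pos_left _ hp
    have k0 : 4 ^ (n + 1) * B < K := by
      have : 4 ^ (n + 1) * B = 4 * (4 ^ n * B) := by ring
      omega
    have k1 : 4 ^ (n + 1 + 1) * (4 * B) < K := by
      have : 4 ^ (n + 1 + 1) * (4 * B) = 64 * (4 ^ n * B) := by ring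
      omega
    have a0 := h0 K B H D hD k0 hBH hDH a ha
    have a1 := h1 K (4 * B) (4 * H) D hD k1 (by omega) (by omega) a ha
    have a2 := h2 K B H ((n + 2) / 2) D hD (by omega) hB hBH hDH (by omega) a ha
    have a3 := hR K B n D hD (by omega) a ha
    rw [show n + 2 - (n + 2) / 2 = (n + 2 + 1) / 2 by omega] at a2
    have hs1 := Finset.card_filter_add_card_filter_not (s := cyc D B (n + 2) a)
      (fun l => (n + 2) / 2 < nw a l)
    have hs2 : ((cyc D B (n + 2) a).filter fun l => ¬ (n + 2) / 2 < nw a l).card ≤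
        ((paths D B (n + 2) a).filter fun l => vl a l = 0 ∧ nw a l ≤ (n + 2) / 2).card := by
      refine Finset.card_le_card fun l hl => ?_
      simp only [cyc, Finset.mem_filter, not_lt] at hl ⊢
      exact ⟨hl.1.1, hl.1.2.2, hl.2⟩
    set M := H ^ ((n + 2) / 2) * B ^ ((n + 2 + 1) / 2) with hM
    have b0 : D.card * (2 * B) * (cyc D B n a).card ≤ 2 * C0 * M := by
      refine (Nat.mul_le_mul (Nat.mul_le_mul_right _ hDH) a0).trans (le_of_eq ?_)
      rw [hM, show (n + 2) / 2 = n / 2 + 1 by omega,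
        show (n + 2 + 1) / 2 = (n + 1) / 2 + 1 by omega]
      ring
    have b1 : 2 * B * (cyc D (4 * B) (n + 1) a).card ≤ 2 * C1 * 4 ^ (n + 1) * M := by
      refine (Nat.mul_le_mul_left _ a1).trans ?_
      calc 2 * B * (C1 * (4 * H) ^ ((n + 1) / 2) * (4 * B) ^ ((n + 1 + 1) / 2))
          = 2 * C1 * (B * ((4 * H) ^ ((n + 1) / 2) * (4 * B) ^ ((n + 1 + 1) / 2))) := by ring
        _ ≤ 2 * C1 * (4 ^ (n + 1) * M) := Nat.mul_le_mul_left _ (pow_Cyc n B H hBH)
        _ = _ := by ring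
    have b2 := a3.trans (Nat.mul_le_mul_left (n + 2) (Nat.add_le_add b0 b1))
    calc (cyc D B (n + 2) a).card
        ≤ (n + 2) * (2 * C0 * M + 2 * C1 * 4 ^ (n + 1) * M) +
          C2 * H ^ ((n + 2) / 2) * B ^ ((n + 2 + 1) / 2) := by
          rw [← hs1]
          exact Nat.add_le_add b2 (hs2.trans a2)
      _ = _ := by
          rw [hM]
          ring

end Pool.Agent.MP_c853c5_nt.DS
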