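import Pool.Agent.MP_c853c5_nt.S.Defs
import Pool.Agent.MP_88bd62_nt.U.Stmts

/-!
Type II information by dispersion, for three groups of variables, the middle one a prime.
-/

set_option autoImplicit false

open Finset Filter Real

namespace Pool.Agent.MP_c853c5_nt.DS

open Pool.Agent.MP_88bd62_nt.U (ex)
open S (AF Slot prI Dl)

/-! ### the rule -/

/-- the size conditions on the three groups: `a₀` is removed first, `a₂` is the prime -/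
def DispOK (τ η : ℝ) (r : ℕ) (a₀ a₂ a₁ : ℝ) : Prop :=
  a₁ + η ≤ τ ∧ r * max 0 (τ - a₀) + η ≤ (r - 1) * (a₁ + a₂ - τ) ∧ (2 * r - 2) * a₂ + η ≤ a₀ ∧
  2 * r * max 0 (τ - a₀) + min (τ / 2) (τ / 6 + (a₁ - a₂) / 2) + η ≤ a₁ - a₂ ∧
  max 0 (τ - a₀) + 1 / 400 + η ≤ a₂ ∧ 2 * max 0 (τ - a₀) + a₂ + 1 / 400 + η ≤ a₀ ∧
  2 * max 0 (τ - a₀) + τ / 2 + 1 / 400 + η ≤ a₁

open Classical in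
/-- the slots in `A` form the first group, `i` is the prime, the others form the last group -/
def E3pt {ι : Type} [Fintype ι] (τ η : ℝ) (K : ℕ) (pr : ι → Prop) (a : ι → ℝ) : Prop :=
  ∃ (A : Finset ι) (i j : ι) (r : ℕ), 2 ≤ r ∧ r ≤ K ∧ i ∉ A ∧ j ∉ A ∧ i ≠ j ∧ pr i ∧ η ≤ a j ∧
    DispOK τ η r (∑ l ∈ A, a l) (a i) (∑ l ∈ (univ \ A).erase i, a l) ∧
    S.Eval τ η K (fun o : Option ι => o.elim τ fun l => if l ∈ A then 0 else a l)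
      ((τ + ∑ l ∈ univ \ A, a l) / 2)

def E3D : Prop := ∀ (ι : Type) [Fintype ι] (τ t η : ℝ) (K A : ℕ), 1 / 3 ≤ t → t < τ →
  τ ≤ 1 / 2 → 0 < η → ∃ γ : ℝ, 0 < γ ∧ ∀ᶠ x : ℝ in atTop,
    ∀ (pr : ι → Prop) (a : ι → ℝ) (N : ι → ℕ) (g : ι → AF), (∀ i, 0 ≤ a i ∧ a i ≤ 1) →
      E3pt τ η K pr a → (∀ i, Slot (N i) (g i)) →
      (∀ i, x ^ (a i - γ) ≤ N i ∧ (N i : ℝ) ≤ x ^ (a i + γ)) →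
      (∀ i, pr i → ∃ P Q : ℕ, g i = prI P Q) →
      (∏ i, (N i : ℝ)) ≤ 2 * x →
      |Dl t x (∏ i, g i)| ≤ x / Real.log x ^ A

/-! ### Poisson summation for two Gaussians -/

noncomputable def dd (Δ Γ n n' : ℝ) : ℝ := n ^ 2 * Γ ^ 2 + n' ^ 2 * Δ ^ 2

/-- the amplitude of the frequency `h` -/
noncomputable def am (X Δ Γ n n' : ℝ) (h : ℤ) : ℝ :=
  X / √(dd Δ Γ n n') * Real.exp (-(π * (n - n') ^ 2 / dd Δ Γ n n')) *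
    Real.exp (-(π * (h : ℝ) ^ 2 * (X * Δ * Γ) ^ 2 / dd Δ Γ n n'))

/-- the centre -/
noncomputable def ct (X Δ Γ n n' : ℝ) : ℝ := X * (n * Γ ^ 2 + n' * Δ ^ 2) / dd Δ Γ n n'

noncomputable def Th (X Δ Γ n n' : ℝ) : ℝ :=
  ∑' m : ℤ, Z.gg Δ (m * n / X - 1) * Z.gg Γ (m * n' / X - 1)

/-- the nonzero frequencies up to `B` -/
noncomputable def hs (B : ℕ) : Finset ℤ := (Icc (-(B : ℤ)) B).erase 0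

noncomputable def rb (X Δ Γ : ℝ) (B : ℕ) (n n' : ℝ) : ℝ :=
  ∑ h ∈ hs B, am X Δ Γ n n' h * Real.cos (2 * π * (h * ct X Δ Γ n n'))

/-- the sum minus the integral -/
noncomputable def og (X Δ Γ n n' : ℝ) : ℝ := Th X Δ Γ n n' - am X Δ Γ n n' 0

def PoisStmt : Prop := ∀ (X Δ Γ n n' : ℝ) (B : ℕ), 0 < X → 0 < Δ → 0 < Γ → 0 < n → 0 < n' →
  (Summable fun m : ℤ => Z.gg Δ (m * n / X - 1) * Z.gg Γ (m * n' / X - 1)) ∧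
  |og X Δ Γ n n' - rb X Δ Γ B n n'| ≤ 4 * (1 + √(dd Δ Γ n n') / (X * Δ * Γ)) *
    am X Δ Γ n n' ((B : ℤ) + 1)

/-! ### variation and exponential sums -/

/-- a norm that controls summation by parts on `[0, S]` -/
noncomputable def nv (S : ℕ) (f : ℕ → ℂ) : ℝ := ‖f 0‖ + ∑ s ∈ range S, ‖f (s + 1) - f s‖

noncomputable def fm (θ ξ : ℝ) : ℝ := θ / (θ + |ξ|)

noncomputable def zb (F ρ : ℝ) : ℝ := min (√F) (F ^ (1 / 6 : ℝ) * √ρ)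

/-- the discrete second derivative test -/
def D2Stmt : Prop := ∃ C : ℝ, 0 < C ∧ ∀ (φ : ℕ → ℝ) (A B : ℕ) (lam V : ℝ), 0 < lam → 0 ≤ V →
  (∀ n, A ≤ n → n < B → φ (n + 2) - φ (n + 1) + lam ≤ φ (n + 1) - φ n) →
  (φ (A + 1) - φ A) - (φ (B + 1) - φ B) ≤ V →
  ‖∑ n ∈ Ico A B, ex (φ n)‖ ≤ C * (V + 1) * (1 / √lam + 1)

def Exp2Stmt : Prop := ∃ C : ℝ, 0 < C ∧ ∀ (Y ρ w F : ℝ) (i S : ℕ), 1 ≤ ρ → 1 ≤ w →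
  ρ + S ≤ w * ρ → |Y| ≤ F * ρ →
  ‖∑ s ∈ Ico i S, ex (Y / (s + ρ))‖ ≤ C * w ^ 4 * (ρ * fm ρ Y + √F + √ρ)

def Exp3Stmt : Prop := ∃ C : ℝ, 0 < C ∧ ∀ (Y ρ w : ℝ) (i S : ℕ), 1 ≤ ρ → 1 ≤ w →
  ρ + S ≤ w * ρ → ρ ^ 2 * √ρ ≤ |Y| →
  ‖∑ s ∈ Ico i S, ex (Y / (s + ρ))‖ ≤ C * w ^ 4 * ((|Y| / ρ) ^ (1 / 6 : ℝ) * √ρ)

def ExpStmt : Prop := ∃ C : ℝ, 0 < C ∧ ∀ (Y ρ w F : ℝ) (i S : ℕ), 1 ≤ ρ → 1 ≤ w →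
  ρ + S ≤ w * ρ → |Y| ≤ F * ρ →
  ‖∑ s ∈ Ico i S, ex (Y / (s + ρ))‖ ≤ C * w ^ 4 * (ρ * fm ρ Y + zb F ρ + √ρ)

/-! ### powers of a matrix and paths -/

noncomputable def mp (D : Finset ℕ) (G : ℕ → ℕ → ℝ) : ℕ → ℕ → ℕ → ℝ
  | 0, a, k => if a = k then 1 else 0
  | n + 1, a, k => ∑ b ∈ D, G a b * mp D G n b k

def OpStmt : Prop := ∀ (D : Finset ℕ) (G : ℕ → ℕ → ℝ) (α : ℕ → ℝ) (r : ℕ), 1 ≤ r →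
  (∀ a b, G a b = G b a) → (∀ a, |α a| ≤ 1) →
  |∑ a ∈ D, ∑ b ∈ D, α a * α b * G a b| ^ (2 * r) ≤
    (D.card : ℝ) ^ (2 * r) * ∑ a ∈ D, ∑ k ∈ D, mp D G r a k ^ 2

/-- paths of length `n` from `a`: the list of the next vertices and of the frequencies -/
noncomputable def paths (D : Finset ℕ) (B : ℕ) : ℕ → ℕ → Finset (List (ℕ × ℤ))
  | 0, _ => {[]}
  | n + 1, a => ((D.erase a) ×ˢ hs B).biUnion fun e => (paths D B n e.1).image (e :: ·)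

def lst : ℕ → List (ℕ × ℤ) → ℕ
  | a, [] => a
  | _, e :: l => lst e.1 l

def vl : ℕ → List (ℕ × ℤ) → ℚ
  | _, [] => 0
  | a, e :: l => (e.2 : ℚ) / ((a : ℚ) * e.1) + vl e.1 l

noncomputable def wt (f : ℕ → ℕ → ℤ → ℂ) : ℕ → List (ℕ × ℤ) → ℂ
  | _, [] => 1
  | a, e :: l => f a e.1 e.2 * wt f e.1 l

def PathStmt : Prop := ∀ (D : Finset ℕ) (B : ℕ) (G : ℕ → ℕ → ℝ) (f : ℕ → ℕ → ℤ → ℂ),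
  (∀ a ∈ D, G a a = 0) → (∀ a ∈ D, ∀ b ∈ D, a ≠ b → (G a b : ℂ) = ∑ h ∈ hs B, f a b h) →
  ∀ (n : ℕ), ∀ a ∈ D, ∀ k : ℕ,
    (mp D G n a k : ℂ) = ∑ l ∈ (paths D B n a).filter (fun l => lst a l = k), wt f a l

/-- primes in `[K, 2 K)` -/
def PrK (K : ℕ) (D : Finset ℕ) : Prop := ∀ k ∈ D, k.Prime ∧ K ≤ k ∧ k < 2 * K

def SchurStmt : Prop := ∀ (ι : Type) (L : Finset ι) (ψ : ι → ℚ) (θ η : ℝ), 0 < θ → 0 < η →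
  (∀ i ∈ L, ∀ j ∈ L, ψ i ≠ ψ j → η ≤ |(ψ i : ℝ) - ψ j|) →
  ∑ i ∈ L, ∑ j ∈ L, fm θ ((ψ i : ℝ) - ψ j) ≤ (1 + 2 * (θ / η) * (1 + Real.log (L.card + 1))) *
    (((L ×ˢ L).filter fun p => ψ p.1 = ψ p.2).card : ℝ)

def SepStmt : Prop := ∀ (K B n : ℕ) (D : Finset ℕ), PrK K D → ∀ a ∈ D,
  (∀ l ∈ paths D B n a, lst a l ∈ D ∧ |(vl a l : ℝ)| ≤ n * B / (K : ℝ) ^ 2) ∧
  (∀ l ∈ paths D B n a, ∀ l' ∈ paths D B n a, 1 ≤ n → lst a l = lst a l' → vl a l ≠ vl a l' →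
    1 / (2 * K : ℝ) ^ (2 * n) ≤ |(vl a l : ℝ) - vl a l'|) ∧
  ∀ k : ℕ, ((paths D B (n + 1) a).filter fun l => lst a l = k).card ≤
    D.card ^ n * (2 * B) ^ (n + 1)

/-- closed paths of value zero -/
noncomputable def cyc (D : Finset ℕ) (B n a : ℕ) : Finset (List (ℕ × ℤ)) :=
  (paths D B n a).filter fun l => lst a l = a ∧ vl a l = 0

/-- the number of new vertices -/
def nw (a : ℕ) (l : List (ℕ × ℤ)) : ℕ := ((l.map Prod.fst).toFinset.erase a).card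

def TreeStmt : Prop := ∀ n : ℕ, ∃ C : ℕ, ∀ (K B H j : ℕ) (D : Finset ℕ), PrK K D → 2 * B < K →
  1 ≤ B → B ≤ H → D.card ≤ H → j ≤ n → ∀ a ∈ D,
    ((paths D B n a).filter fun l => vl a l = 0 ∧ nw a l ≤ j).card ≤ C * H ^ j * B ^ (n - j)

def RecStmt : Prop := ∀ (K B n : ℕ) (D : Finset ℕ), PrK K D → 4 * B < K → ∀ a ∈ D,
  ((cyc D B (n + 2) a).filter fun l => (n + 2) / 2 < nw a l).card ≤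
    (n + 2) * (D.card * (2 * B) * (cyc D B n a).card + 2 * B * (cyc D (4 * B) (n + 1) a).card)

def CycStmt : Prop := ∀ n : ℕ, ∃ C : ℕ, ∀ (K B H : ℕ) (D : Finset ℕ), PrK K D →
  4 ^ (n + 1) * B < K → B ≤ H → D.card ≤ H → ∀ a ∈ D,
    (cyc D B n a).card ≤ C * H ^ (n / 2) * B ^ ((n + 1) / 2)

def PairStmt : Prop := ∀ (B n : ℕ) (D : Finset ℕ), ∀ a ∈ D,
  (((paths D B n a) ×ˢ (paths D B n a)).filter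
    fun p => lst a p.1 = lst a p.2 ∧ vl a p.1 = vl a p.2).card ≤ (cyc D B (2 * n) a).card

/-- the sum over translations of the square of the norm of a power -/
def SumStmt : Prop := ∀ r : ℕ, 1 ≤ r → ∃ C : ℝ, 0 < C ∧
  ∀ (K B H S : ℕ) (D : Finset ℕ) (X ρ w V F : ℝ) (G : ℕ → ℕ → ℕ → ℝ)
    (f : ℕ → ℕ → ℕ → ℤ → ℂ), PrK K D → 4 ^ (2 * r + 1) * B < K → B ≤ H → D.card ≤ H → 0 < X →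
    1 ≤ ρ → 1 ≤ w → ρ + S ≤ w * ρ → ρ * (2 * K) ^ (2 * r) ≤ w * X → Real.log (2 * H + 1) ≤ w →
    2 * r * B * X ≤ F * ρ * K ^ 2 → (∀ s, ∀ a ∈ D, G s a a = 0) →
    (∀ s, ∀ a ∈ D, ∀ b ∈ D, a ≠ b → (G s a b : ℂ) =
      ∑ h ∈ hs B, f s a b h * ex (h * X / (a * b * (s + ρ)))) →
    (∀ a ∈ D, ∀ b ∈ D, ∀ h ∈ hs B, nv S (fun s => f s a b h) ≤ V) →
    ∑ s ∈ range S, ∑ a ∈ D, ∑ k ∈ D, mp D (G s) r a k ^ 2 ≤ C * w ^ 6 * V ^ (2 * r) *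
      (ρ * H ^ (r + 1) * B ^ r + H ^ (2 * r) * B ^ (2 * r) * (zb F ρ + √ρ))

/-! ### cells -/

/-- the truncated kernel on pairs (prime, integer) -/
noncomputable def G0 (X Δ : ℝ) (B H : ℕ) (u v : ℕ × ℕ) : ℝ :=
  if v.1 * u.2 ≠ u.1 * v.2 ∧ v.1 * u.2 ≤ u.1 * v.2 + H ∧ u.1 * v.2 ≤ v.1 * u.2 + H then
    rb X Δ Δ B ((v.1 : ℝ) * u.2) ((u.1 : ℝ) * v.2) else 0

/-- the matrix of a translated cell -/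
def loc (G : ℕ × ℕ → ℕ × ℕ → ℝ) (R : Finset ℕ) (q : ℕ → ℕ) (s a b : ℕ) : ℝ :=
  if q a + s * a ∈ R ∧ q b + s * b ∈ R then G (a, q a + s * a) (b, q b + s * b) else 0

/-- fractions in a short interval -/
def Cell (Q : ℕ) (ρ : ℝ) (D : Finset ℕ) (q : ℕ → ℕ) : Prop :=
  ∀ k ∈ D, ρ ≤ (q k : ℝ) / k ∧ (q k : ℝ) / k < ρ + 2 / Q

def BlkStmt : Prop := ∀ (K P Λ H Q r : ℕ) (D₀ : Finset ℕ) (G : ℕ × ℕ → ℕ × ℕ → ℝ)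
  (α : ℕ × ℕ → ℝ) (W : ℝ), 1 ≤ r → 1 ≤ Λ → PrK K D₀ → 1 ≤ K → 8 * K ≤ P → 4 * K ≤ Q →
  Q * H ≤ K ^ 2 → K ^ 2 ≤ 2 * Q * H → H < K → (∀ u v, G u v = G v u) →
  (∀ u v, G u v ≠ 0 →
    v.1 * u.2 ≠ u.1 * v.2 ∧ v.1 * u.2 ≤ u.1 * v.2 + H ∧ u.1 * v.2 ≤ v.1 * u.2 + H) →
  (∀ u, |α u| ≤ 1) →
  (∀ (D : Finset ℕ) (q : ℕ → ℕ) (ρ : ℝ), D ⊆ D₀ → D.card ≤ 33 * H → (P : ℝ) ≤ 8 * K * ρ →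
    K * ρ ≤ P → Cell Q ρ D q →
    ∑ s ∈ range (Λ * P / K + 1), ∑ a ∈ D, ∑ k ∈ D,
      mp D (loc G (Icc P (Λ * P)) q s) r a k ^ 2 ≤ W) →
  |∑ u ∈ D₀ ×ˢ Icc P (Λ * P), ∑ v ∈ D₀ ×ˢ Icc P (Λ * P), α u * α v * G u v| ^ (2 * r) ≤
    (2 * Q * (Λ * P / K + 1 : ℕ) : ℝ) ^ (2 * r - 1) * (33 * H : ℝ) ^ (2 * r) * (2 * Q * W)

/-- the slowly varying part of an edge -/
noncomputable def ed (X Δ ρ : ℝ) (q : ℕ → ℕ) (s a b : ℕ) (h : ℤ) : ℂ :=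
  (am X Δ Δ ((b : ℝ) * (q a + s * a : ℕ)) ((a : ℝ) * (q b + s * b : ℕ)) h : ℝ) *
    ex (h * (ct X Δ Δ ((b : ℝ) * (q a + s * a : ℕ)) ((a : ℝ) * (q b + s * b : ℕ)) -
      X / (a * b * (s + ρ))))

def EdgeStmt : Prop := ∃ C : ℝ, 0 < C ∧ ∀ (X Δ ρ : ℝ) (K Q H S a b : ℕ) (q : ℕ → ℕ) (h : ℤ),
  0 < X → 0 < Δ → 1 ≤ ρ → 1 ≤ K → K ≤ a → K ≤ b → 2 ≤ Q → K ^ 2 ≤ 2 * Q * H →
  Cell Q ρ {a, b} q → b * q a ≤ a * q b + H → a * q b ≤ b * q a + H →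
  nv S (fun s => ed X Δ ρ q s a b h) ≤
    C * (X / (Δ * K ^ 2 * ρ)) * (1 + |(h : ℝ)| * X * H / (K ^ 4 * ρ ^ 2))

def LocStmt : Prop := ∀ r : ℕ, 1 ≤ r → ∃ C : ℝ, 0 < C ∧
  ∀ (K B H Q S P P' : ℕ) (D : Finset ℕ) (q : ℕ → ℕ) (X Δ ρ w F : ℝ), PrK K D →
    4 ^ (2 * r + 1) * B < K → B ≤ H → D.card ≤ 33 * H → 2 ≤ Q → K ^ 2 ≤ 2 * Q * H →
    Cell Q ρ D q → 0 < X → 0 < Δ → 1 ≤ ρ → 1 ≤ w → ρ + S ≤ w * ρ →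
    ρ * (2 * K) ^ (2 * r) ≤ w * X → Real.log (66 * H + 1) ≤ w → 2 * r * B * X ≤ F * ρ * K ^ 2 →
    B * X * H ≤ w * (K ^ 4 * ρ ^ 2) →
    ∑ s ∈ range S, ∑ a ∈ D, ∑ k ∈ D, mp D (loc (G0 X Δ B H) (Icc P P') q s) r a k ^ 2 ≤
      C * w ^ (2 * r + 6) * (X / (Δ * K ^ 2 * ρ)) ^ (2 * r) *
        (ρ * H ^ (r + 1) * B ^ r + H ^ (2 * r) * B ^ (2 * r) * (zb F ρ + √ρ))

/-! ### the terms with nonzero frequency -/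

/-- the loss in the first step -/
noncomputable def Lm (X Δ : ℝ) (K P : ℕ) : ℝ := max 1 (K * P / (X * Δ))

structure Geo (x μ : ℝ) (r : ℕ) (X Δ : ℝ) (K P : ℕ) : Prop where
  x1 : x / 2 ≤ X
  x2 : X ≤ 2 * x
  d1 : x ^ (-(1 / 2) : ℝ) ≤ Δ
  d2 : Δ ≤ x ^ (-(1 / 3) : ℝ)
  k1 : 1 ≤ K
  p1 : 1 ≤ P
  h1 : P * Δ * x ^ μ ≤ 1
  h2 : Lm X Δ K P ^ r * x ^ μ ≤ (K * P * Δ) ^ (r - 1)
  h3 : (K : ℝ) ^ (2 * r - 2) * (K * P) ≤ X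
  h4 : Lm X Δ K P ^ (2 * r) * zb (1 / Δ) (P / K) * x ^ μ ≤ P / K
  h5 : Lm X Δ K P * x ^ (1 / 400 : ℝ) ≤ K
  h6 : Lm X Δ K P ^ 2 * K * (K * P) * x ^ (1 / 400 : ℝ) ≤ X
  h7 : Lm X Δ K P ^ 2 * √(1 / Δ) * x ^ (1 / 400 : ℝ) ≤ P

/-- the width of the long interval -/
def Wid (x Γ : ℝ) : Prop := x ^ (-(1 / 1000) : ℝ) / 2 ≤ Γ ∧ Γ ≤ x ^ (-(1 / 1000) : ℝ)

/-- a quadratic form in products -/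
noncomputable def QF (D R : Finset ℕ) (b c : ℕ → ℝ) (κ : ℝ → ℝ → ℝ) : ℝ :=
  ∑ u ∈ D ×ˢ R, ∑ v ∈ D ×ˢ R,
    b u.1 * c u.2 * (b v.1 * c v.2) * κ ((u.1 : ℝ) * u.2) ((v.1 : ℝ) * v.2)

noncomputable def bb (x X Δ : ℝ) (Λ K P : ℕ) : ℕ := ⌊3 * Λ * Real.log x * (K * P / (X * Δ))⌋₊

noncomputable def hh (x Δ : ℝ) (Λ K P : ℕ) : ℕ := ⌈3 * Λ * Real.log x * (K * P * Δ)⌉₊

/-- the shape of the statements below -/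
def Sav (Φ : ℝ → ℝ → ℝ → ℝ → ℕ → ℕ → ℕ → Finset ℕ → (ℕ → ℝ) → (ℕ → ℝ) → ℝ) : Prop :=
  ∀ (r Λ : ℕ) (μ : ℝ), 2 ≤ r → 1 ≤ Λ → 0 < μ → ∃ ν : ℝ, 0 < ν ∧ ∀ᶠ x : ℝ in atTop,
    ∀ (X Δ Γ : ℝ) (K P : ℕ) (D : Finset ℕ) (b c : ℕ → ℝ), Geo x μ r X Δ K P → Wid x Γ →
      PrK K D → (∀ n, |b n| ≤ 1) → (∀ n, |c n| ≤ 1) →
      |Φ x X Δ Γ Λ K P D b c| ≤ X * (K * P) * x ^ (-ν)

/-- the truncated form -/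
noncomputable def S0 (x X Δ : ℝ) (Λ K P : ℕ) (D : Finset ℕ) (b c : ℕ → ℝ) : ℝ :=
  ∑ u ∈ D ×ˢ Icc P (Λ * P), ∑ v ∈ D ×ˢ Icc P (Λ * P), b u.1 * c u.2 * (b v.1 * c v.2) *
    G0 X Δ (bb x X Δ Λ K P) (hh x Δ Λ K P) u v

def MainStmt : Prop := Sav fun x X Δ _ Λ K P D b c => S0 x X Δ Λ K P D b c

def SmallStmt : Prop := Sav fun x X Δ _ Λ K P D b c =>
  QF D (Icc P (Λ * P)) b c (og X Δ Δ) - S0 x X Δ Λ K P D b c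

def ZeroStmt : Prop := Sav fun _ X _ Γ Λ K P D b c => QF D (Icc P (Λ * P)) b c (og X Γ Γ)

/-- the slowly varying part of a mixed term -/
noncomputable def ec (X Δ Γ n' : ℝ) (P s k : ℕ) (h : ℤ) : ℂ :=
  (am X Δ Γ ((k : ℝ) * (P + s : ℕ)) n' h : ℝ) *
    ex (h * (ct X Δ Γ ((k : ℝ) * (P + s : ℕ)) n' - X / (k * (s + P))))

def CEdgeStmt : Prop := ∃ C : ℝ, 0 < C ∧ ∀ (X Δ Γ n' w : ℝ) (K P S k : ℕ) (h : ℤ), 0 < X →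
  0 < Δ → 0 < Γ → 0 < n' → 1 ≤ w → 1 ≤ K → 1 ≤ P → K ≤ k → n' ≤ w * (K * P) →
  nv S (fun s => ec X Δ Γ n' P s k h) ≤
    C * (X / (Γ * (K * P))) * (1 + w ^ 2 * |(h : ℝ)| * X * Δ ^ 2 / (K * P * Γ ^ 2))

def CRowStmt : Prop := ∃ C : ℝ, 0 < C ∧ ∀ (X Δ Γ n' w F : ℝ) (K P Λ B : ℕ) (D : Finset ℕ)
  (b c : ℕ → ℝ), 0 < X → 0 < Δ → 0 < Γ → 0 < n' → 1 ≤ K → 1 ≤ P → 1 ≤ Λ → 2 * Λ ≤ w →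
  n' ≤ w * (K * P) → PrK K D → B < K → B * X * Δ ^ 2 ≤ K * P * Γ ^ 2 → 2 * B * X ≤ F * (K * P) →
  (∀ n, |b n| ≤ 1) → (∀ n, |c n| ≤ 1) →
  (∑ u ∈ D ×ˢ Icc P (Λ * P), b u.1 * c u.2 * rb X Δ Γ B ((u.1 : ℝ) * u.2) n') ^ 2 ≤
    C * w ^ 9 * P * (X / (Γ * (K * P))) ^ 2 *
      (K * B * P + K ^ 2 * B ^ 2 * (P * K * (K * P) / X + √F + √P))

def CrossStmt : Prop := Sav fun _ X Δ Γ Λ K P D b c => QF D (Icc P (Λ * P)) b c (og X Δ Γ)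

/-! ### from logarithmic to linear Gaussians -/

def Cmp0Stmt : Prop := ∃ C : ℝ, 0 < C ∧ ∀ z Δ : ℝ, 0 < z → 0 < Δ → Δ ≤ 1 →
  (|z - 1| ≤ 1 / 2 → |Z.gg Δ (Real.log z) - √z * Z.gg Δ (z - 1)| ≤ C) ∧
  ∀ δ : ℝ, 0 ≤ δ → δ ≤ 1 / 2 → δ ≤ |z - 1| →
    Z.gg Δ (Real.log z) ≤ C / Δ * Real.exp (-(δ ^ 2 / Δ ^ 2)) ∧
    √z * Z.gg Δ (z - 1) ≤ C / Δ * Real.exp (-(δ ^ 2 / Δ ^ 2))

/-- the inner sum -/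
noncomputable def FF (X Δ Γ : ℝ) (D R : Finset ℕ) (b c : ℕ → ℝ) (m : ℕ) : ℝ :=
  ∑ u ∈ D ×ˢ R, b u.1 * c u.2 * E.dg (Real.log X) Δ Γ (Real.log ((m : ℝ) * u.1 * u.2))

/-- the inner sum with linear Gaussians -/
noncomputable def FL (X Δ Γ : ℝ) (D R : Finset ℕ) (b c : ℕ → ℝ) (m : ℕ) : ℝ :=
  ∑ u ∈ D ×ˢ R, b u.1 * c u.2 *
    (Z.gg Δ (m * ((u.1 : ℝ) * u.2) / X - 1) - Z.gg Γ (m * ((u.1 : ℝ) * u.2) / X - 1))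

/-- coefficients times a square root -/
noncomputable def sq' (K : ℕ) (b : ℕ → ℝ) (n : ℕ) : ℝ := b n * √((n : ℝ) / K)

/-- the common setting of the comparisons -/
def Set0 (x X Δ Γ : ℝ) (K P : ℕ) (D : Finset ℕ) : Prop :=
  0 < X ∧ x ^ (-(1 / 2) : ℝ) ≤ Δ ∧ Δ ≤ Γ ∧ Γ ≤ x ^ (-(1 / 1000) : ℝ) ∧ 1 ≤ K ∧
    x ^ (1 / 400 : ℝ) ≤ P ∧ D ⊆ Ico K (2 * K)

def Cmp1Stmt : Prop := ∀ Λ : ℕ, 1 ≤ Λ → ∀ᶠ x : ℝ in atTop, ∀ (X Δ Γ : ℝ) (K P m : ℕ)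
  (D : Finset ℕ) (b c : ℕ → ℝ), Set0 x X Δ Γ K P D → 1 ≤ m → (∀ n, |b n| ≤ 1) →
  (∀ n, |c n| ≤ 1) →
  |FF X Δ Γ D (Icc P (Λ * P)) b c m -
      √(m * (K * P) / X) * FL X Δ Γ D (Icc P (Λ * P)) (sq' K b) (sq' P c) m| ≤
    K * P * x ^ (-(1 / 2000) : ℝ)

def Cmp2Stmt : Prop := ∃ C : ℝ, 0 < C ∧ ∀ X Δ Γ n n' : ℝ, 0 < X → 0 < Δ → Δ ≤ Γ → Γ ≤ 1 / 4 →
  0 < n → 0 < n' →
  (|n' / n - 1| ≤ 1 / 2 → |√(n * n') / X * am X Δ Γ n n' 0 -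
    Z.gg (√(Δ ^ 2 + Γ ^ 2)) (Real.log n - Real.log n')| ≤ C) ∧
  ∀ δ : ℝ, 0 ≤ δ → δ ≤ 1 / 2 → δ ≤ |n' / n - 1| →
    √(n * n') / X * am X Δ Γ n n' 0 ≤ C / Γ * √(n' / n) * Real.exp (-(δ ^ 2 / (4 * Γ ^ 2))) ∧
    Z.gg (√(Δ ^ 2 + Γ ^ 2)) (Real.log n - Real.log n') ≤
      C / Γ * Real.exp (-(δ ^ 2 / (4 * Γ ^ 2)))

def Cmp3Stmt : Prop := ∀ Λ : ℕ, 1 ≤ Λ → ∀ᶠ x : ℝ in atTop, ∀ (X Δ Γ : ℝ) (K P : ℕ)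
  (D : Finset ℕ) (b c : ℕ → ℝ), Set0 x X Δ Γ K P D → (∀ n, |b n| ≤ 1) → (∀ n, |c n| ≤ 1) →
  |QF D (Icc P (Λ * P)) (sq' K b) (sq' P c) (fun n n' => am X Δ Γ n n' 0) -
      X / (K * P) * QF D (Icc P (Λ * P)) b c
        (fun n n' => Z.gg (√(Δ ^ 2 + Γ ^ 2)) (Real.log n - Real.log n'))| ≤
    X * (K * P) * x ^ (-(1 / 2000) : ℝ)

/-- the frequency zero -/
def VTrStmt : Prop := ∀ Λ : ℕ, 1 ≤ Λ → ∀ᶠ x : ℝ in atTop, ∀ (X Δ Γ W : ℝ) (K P : ℕ)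
  (D : Finset ℕ) (b c : ℕ → ℝ), Set0 x X Δ Γ K P D → (∀ n, |b n| ≤ 1) → (∀ n, |c n| ≤ 1) →
  ∫ t in (x ^ (1 / 2000 : ℝ))..(Real.log x / Δ),
    ‖E.FP D b t‖ ^ 2 * ‖E.FP (Icc P (Λ * P)) c t‖ ^ 2 ≤ W →
  |QF D (Icc P (Λ * P)) b c (fun n n' =>
      Z.gg (√(Δ ^ 2 + Δ ^ 2)) (Real.log n - Real.log n') -
        2 * Z.gg (√(Δ ^ 2 + Γ ^ 2)) (Real.log n - Real.log n') +
        Z.gg (√(Γ ^ 2 + Γ ^ 2)) (Real.log n - Real.log n'))| ≤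
    2 * W + (K * P) ^ 2 * x ^ (-(1 / 3000) : ℝ)

def SqStmt : Prop := ∀ (X Δ Γ : ℝ) (I D R : Finset ℕ) (b c : ℕ → ℝ), 0 < X → 0 < Δ → 0 < Γ →
  0 ∉ D → 0 ∉ R → ∑ m ∈ I, FL X Δ Γ D R b c m ^ 2 ≤
    QF D R b c (Th X Δ Δ) - 2 * QF D R b c (Th X Δ Γ) + QF D R b c (Th X Γ Γ)

/-- the mean square of the inner sum -/
def MeanStmt : Prop := ∀ (r Λ : ℕ) (μ : ℝ), 2 ≤ r → 1 ≤ Λ → 0 < μ → ∃ ν : ℝ, 0 < ν ∧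
  ∀ᶠ x : ℝ in atTop, ∀ (X Δ Γ W : ℝ) (M K P : ℕ) (D : Finset ℕ) (b c : ℕ → ℝ),
    Geo x μ r X Δ K P → Wid x Γ → PrK K D → 1 ≤ M → (M : ℝ) * (K * P) ≤ 2 * x →
    (∀ n, |b n| ≤ 1) → (∀ n, |c n| ≤ 1) →
    ∫ t in (x ^ (1 / 2000 : ℝ))..(Real.log x / Δ),
      ‖E.FP D b t‖ ^ 2 * ‖E.FP (Icc P (Λ * P)) c t‖ ^ 2 ≤ W →
    ∑ m ∈ Icc M (Λ * M), FF X Δ Γ D (Icc P (Λ * P)) b c m ^ 2 ≤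
      32 * Λ * (x / (K * P)) * W + x * (K * P) * x ^ (-ν)

/-! ### the mean value of the last two groups -/

def GridVStmt : Prop := ∀ (ι : Type) [Fintype ι] (K A : ℕ) (η c₀ : ℝ) (ia ic : ι), ia ≠ ic →
  0 < η → 0 < c₀ → ∃ γ : ℝ, 0 < γ ∧ ∀ᶠ x : ℝ in atTop,
  ∀ (τ u : ℝ) (b : ι → ℝ) (T : ℕ) (N : ι → ℕ) (c : ι → ℕ → ℝ) (S : Finset ℤ),
    0 ≤ τ → τ ≤ 1 / 2 → (∀ j, 0 ≤ b j ∧ b j ≤ 1) →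
    E.Eval K τ η ((τ + ∑ j, b j) / 2) (fun o : Option ι => o.elim τ b) → 1 ≤ T →
    (T : ℝ) ≤ x ^ (τ + γ) → (∀ j, 1 ≤ N j ∧ x ^ (b j - γ) ≤ N j ∧ (N j : ℝ) ≤ x ^ (b j + γ)) →
    x ^ c₀ ≤ (N ia : ℝ) → (∀ j n, |c j n| ≤ 1) → S ⊆ Icc 0 (T : ℤ) →
    (∀ m ∈ S, ‖E.BP (N ic) (c ic) (u + m)‖ ≤ N ic / Real.log x ^ (A + 2)) →
    ∑ m ∈ S, ∏ j, ‖E.BP (N j) (c j) (u + m)‖ ^ 2 ≤ (∏ j, (N j : ℝ)) ^ 2 / Real.log x ^ A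

def BoxVStmt : Prop := ∀ (ι : Type) [Fintype ι] (K A : ℕ) (η c₀ : ℝ) (ia ic : ι), ia ≠ ic →
  0 < η → 0 < c₀ → ∃ γ : ℝ, 0 < γ ∧ ∀ᶠ x : ℝ in atTop,
  ∀ (τ T₁ : ℝ) (b : ι → ℝ) (N : ι → ℕ) (c : ι → ℕ → ℝ),
    0 ≤ τ → τ ≤ 1 / 2 → x ^ (1 / 2000 : ℝ) ≤ T₁ → T₁ ≤ x ^ τ * Real.log x →
    (∀ j, 0 ≤ b j ∧ b j ≤ 1) →
    E.Eval K τ η ((τ + ∑ j, b j) / 2) (fun o : Option ι => o.elim τ b) →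
    (∀ j, 1 ≤ N j ∧ x ^ (b j - γ) ≤ N j ∧ (N j : ℝ) ≤ x ^ (b j + γ)) →
    x ^ c₀ ≤ (N ia : ℝ) → (∀ j n, |c j n| ≤ 1) →
    (∀ t : ℝ, x ^ (1 / 2000 : ℝ) ≤ t → t ≤ x →
      ‖E.BP (N ic) (c ic) t‖ ≤ N ic / Real.log x ^ (A + 2)) →
    ∫ t in (x ^ (1 / 2000 : ℝ))..T₁, ∏ j, ‖E.BP (N j) (c j) t‖ ^ 2 ≤
      (∏ j, (N j : ℝ)) ^ 2 / Real.log x ^ A

/-! ### groups of slots and longer intervals -/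

def L2Stmt : Prop := ∀ k Y : ℕ, 1 ≤ Y →
  ∑ m ∈ Icc 1 Y, (((ArithmeticFunction.zeta ^ k : ArithmeticFunction ℕ) m : ℕ) : ℝ) ^ 2 ≤
    Y * (1 + Real.log Y) ^ (k ^ 2)

def GrpStmt : Prop := ∀ (ι : Type) (A : Finset ι) (N : ι → ℕ) (g : ι → AF),
  (∀ i ∈ A, Slot (N i) (g i)) →
  (∀ m, (∏ i ∈ A, g i) m ≠ 0 → m ∈ Icc (∏ i ∈ A, N i) (2 ^ A.card * ∏ i ∈ A, N i)) ∧
  (∀ m, |(∏ i ∈ A, g i) m| ≤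
    (((ArithmeticFunction.zeta ^ A.card : ArithmeticFunction ℕ) m : ℕ) : ℝ)) ∧
  (∀ m, |(∏ i ∈ A, g i) m| ≤ (m.divisors.card : ℝ) ^ A.card) ∧
  ∀ (R : Finset ℕ) (t : ℝ), (∀ m, (∏ i ∈ A, g i) m ≠ 0 → m ∈ R) →
    E.FP R (∏ i ∈ A, g i : AF) t = ∏ i ∈ A, E.BP (N i) (g i) t

def ConvStmt : Prop := ∃ C : ℝ, 0 < C ∧ ∀ (ι : Type) (s : Finset ι) (a z : ι → ℝ)
  (v Δ₁ Δ Γ B : ℝ), 0 < Δ₁ → Δ₁ ≤ Δ → Δ ≤ Γ → Γ ≤ 1 →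
  (∀ v' : ℝ, |v' - v| ≤ 1 / 2 →
    |∑ i ∈ s, a i * E.dg v' Δ₁ (√(Γ ^ 2 - Δ ^ 2 + Δ₁ ^ 2)) (z i)| ≤ B) →
  |∑ i ∈ s, a i * E.dg v Δ Γ (z i)| ≤
    B + C * (∑ i ∈ s, |a i|) / Δ₁ * Real.exp (-(1 / (4 * Δ ^ 2)))

/-- three groups, all shorter heights -/
def TriStmt : Prop := ∀ (r Λ A C₀ : ℕ) (μ : ℝ), 2 ≤ r → 1 ≤ Λ → 0 < μ → ∃ ε : ℝ, 0 < ε ∧
  ∀ᶠ x : ℝ in atTop, ∀ (t t₁ : ℝ) (M K P : ℕ) (D : Finset ℕ) (a b c : AF), 1 / 3 ≤ t →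
    t ≤ t₁ → (∀ X : ℝ, x / 2 ≤ X → X ≤ 2 * x → Geo x μ r X (x ^ (-t₁)) K P) → PrK K D →
    1 ≤ M → (M : ℝ) * (K * P) ≤ 2 * x →
    (∀ n, a n ≠ 0 → n ∈ Icc M (Λ * M)) → (∀ n, b n ≠ 0 → n ∈ D) →
    (∀ n, c n ≠ 0 → n ∈ Icc P (Λ * P)) → (∀ n, |a n| ≤ x ^ ε) → (∀ n, |b n| ≤ 1) →
    (∀ n, |c n| ≤ x ^ ε) → ∑ m ∈ Icc M (Λ * M), a m ^ 2 ≤ M * Real.log x ^ C₀ →
    ∫ u in (x ^ (1 / 2000 : ℝ))..(Real.log x / x ^ (-t₁)),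
      ‖E.FP D b u‖ ^ 2 * ‖E.FP (Icc P (Λ * P)) c u‖ ^ 2 ≤
        (K * P) ^ 2 / Real.log x ^ (2 * A + C₀ + 2) →
    |Dl t x (a * b * c)| ≤ x / Real.log x ^ A

/-- from exponents to sizes -/
def GeoStmt : Prop := ∀ (r : ℕ) (η : ℝ), 2 ≤ r → 0 < η → ∃ μ γ : ℝ, 0 < μ ∧ 0 < γ ∧
  ∀ᶠ x : ℝ in atTop, ∀ (τ t₁ a₀ a₂ a₁ : ℝ) (M K P : ℕ), 1 / 3 ≤ t₁ → t₁ ≤ τ → τ ≤ 1 / 2 →
    τ - η / 2 ≤ t₁ → DispOK τ η r a₀ a₂ a₁ → x ^ (a₀ - γ) ≤ M → x ^ (a₂ - γ) ≤ K →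
    (K : ℝ) ≤ x ^ (a₂ + γ) → x ^ (a₁ - γ) ≤ P → (P : ℝ) ≤ x ^ (a₁ + γ) →
    (M : ℝ) * (K * P) ≤ 2 * x → ∀ X : ℝ, x / 2 ≤ X → X ≤ 2 * x → Geo x μ r X (x ^ (-t₁)) K P

end Pool.Agent.MP_c853c5_nt.DS
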