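import Pool.Agent.MP_c853c5_nt.DS.GrpA

set_option autoImplicit false

namespace Pool.Agent.MP_c853c5_nt.DS

theorem grp_stmt : GrpStmt := grp_fix

end Pool.Agent.MP_c853c5_nt.DS
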