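import Pool.Agent.MP_c853c5_nt.DS.Basic

/-!
Real inequalities for the main term of the dispersion.
-/

set_option autoImplicit false

open Finset Filter Real
open scoped ComplexConjugate

namespace Pool.Agent.MP_c853c5_nt.DS

open Pool.Agent.MP_88bd62_nt.U (ex)

lemma zb_scale_Main {A D ρ : ℝ} (hA : 1 ≤ A) (hD : 0 ≤ D) : zb (A * D) ρ ≤ A * zb D ρ := by
  have hA0 : 0 ≤ A := by linarith
  unfold zb
  rw [mul_min_of_nonneg _ _ hA0]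
  refine min_le_min ?_ ?_
  · rw [Real.sqrt_mul hA0]
    refine mul_le_mul_of_nonneg_right ?_ (Real.sqrt_nonneg _)
    exact Real.sqrt_le_iff.2 ⟨hA0, by nlinarith⟩
  · rw [Real.mul_rpow hA0 hD, mul_assoc]
    refine mul_le_mul_of_nonneg_right ?_ (by positivity)
    have := Real.rpow_le_rpow_of_exponent_le hA (show (1 / 6 : ℝ) ≤ 1 by norm_num)
    rwa [Real.rpow_one] at this

lemma sqrt_le_zb_Main {D ρ : ℝ} (h : ρ ≤ D) (h1 : 1 ≤ D) : √ρ ≤ zb D ρ := by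
  unfold zb
  refine le_min (Real.sqrt_le_sqrt h) ?_
  exact le_mul_of_one_le_left (Real.sqrt_nonneg _) (Real.one_le_rpow h1 (by norm_num))

lemma inner_Main (m : ℕ) {ρ H B ZF s Z y c E L : ℝ} (hρ : 0 ≤ ρ) (hH0 : 0 ≤ H) (hB0 : 0 ≤ B)
    (hc : 1 ≤ c) (hE : 0 ≤ E) (hL : 0 ≤ L) (hy : 0 ≤ y) (hZ : 0 ≤ Z)
    (hH : H ≤ 2 * c * E) (hB : B ≤ c * L) (h2 : L ^ (m + 1) * y ≤ E ^ m)
    (h4 : L ^ (2 * (m + 1)) * Z * y ≤ ρ) (hZF : ZF ≤ 16 * ((m + 1 : ℕ) : ℝ) * c * Z)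
    (hs : s ≤ Z) :
    (ρ * H ^ (m + 1 + 1) * B ^ (m + 1) + H ^ (2 * (m + 1)) * B ^ (2 * (m + 1)) * (ZF + s)) * y ≤
      ρ * ((8 * ((m + 1 : ℕ) : ℝ) + 2) * (2 * c) ^ (4 * (m + 1) + 1)) * E ^ (2 * (m + 1)) := by
  have hB' : B ≤ 2 * c * L := hB.trans (by nlinarith)
  have hc2 : 1 ≤ 2 * c := by linarith
  have hm : (0 : ℝ) ≤ ((m + 1 : ℕ) : ℝ) := Nat.cast_nonneg _
  have a1 : H ^ (m + 1 + 1) * B ^ (m + 1) * y ≤ (2 * c) ^ (4 * (m + 1) + 1) * E ^ (2 * (m + 1)) := by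
    calc H ^ (m + 1 + 1) * B ^ (m + 1) * y
        ≤ (2 * c * E) ^ (m + 1 + 1) * (2 * c * L) ^ (m + 1) * y := by gcongr
      _ = (2 * c) ^ (2 * (m + 1) + 1) * E ^ (m + 2) * (L ^ (m + 1) * y) := by
        rw [mul_pow (2 * c), mul_pow (2 * c)]
        ring
      _ ≤ (2 * c) ^ (4 * (m + 1) + 1) * E ^ (m + 2) * E ^ m :=
        mul_le_mul (mul_le_mul_of_nonneg_right (pow_le_pow_right₀ hc2 (by omega))
          (by positivity)) h2 (by positivity) (by positivity)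
      _ = _ := by ring
  have a2 : H ^ (2 * (m + 1)) * B ^ (2 * (m + 1)) * (ZF + s) * y ≤
      ρ * ((8 * ((m + 1 : ℕ) : ℝ) + 1) * (2 * c) ^ (4 * (m + 1) + 1)) * E ^ (2 * (m + 1)) := by
    have b1 : ZF + s ≤ (8 * ((m + 1 : ℕ) : ℝ) + 1) * (2 * c) * Z := by nlinarith
    calc H ^ (2 * (m + 1)) * B ^ (2 * (m + 1)) * (ZF + s) * y
        ≤ H ^ (2 * (m + 1)) * B ^ (2 * (m + 1)) *
          ((8 * ((m + 1 : ℕ) : ℝ) + 1) * (2 * c) * Z) * y := by gcongr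
      _ ≤ (2 * c * E) ^ (2 * (m + 1)) * (2 * c * L) ^ (2 * (m + 1)) *
          ((8 * ((m + 1 : ℕ) : ℝ) + 1) * (2 * c) * Z) * y := by gcongr
      _ = (L ^ (2 * (m + 1)) * Z * y) *
          ((8 * ((m + 1 : ℕ) : ℝ) + 1) * (2 * c) ^ (4 * (m + 1) + 1)) * E ^ (2 * (m + 1)) := by
        rw [mul_pow (2 * c), mul_pow (2 * c)]
        generalize ((m + 1 : ℕ) : ℝ) = t
        generalize 2 * c = d
        ring
      _ ≤ _ := by gcongr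
  have a3 := mul_le_mul_of_nonneg_left a1 hρ
  generalize (2 * c) ^ (4 * (m + 1) + 1) = u at *
  generalize E ^ (2 * (m + 1)) = v at *
  generalize H ^ (m + 1 + 1) = p at *
  generalize B ^ (m + 1) = q at *
  generalize H ^ (2 * (m + 1)) * B ^ (2 * (m + 1)) * (ZF + s) = t at *
  nlinarith

lemma outer_Main (m : ℕ) {Q S H ρ K2 N Λ : ℝ} (hQ : 0 ≤ Q) (hS0 : 0 ≤ S) (hH : 0 ≤ H)
    (hρ : 0 ≤ ρ) (hΛ : 1 ≤ Λ) (hS : S ≤ 2 * Λ * ρ) (hQH : Q * H ≤ K2) (hN : K2 * ρ = N) :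
    (2 * Q * S) ^ (2 * (m + 1) - 1) * (33 * H) ^ (2 * (m + 1)) * (2 * Q) * ρ ≤
      (132 * Λ * N) ^ (2 * (m + 1)) := by
  have e : 2 * (m + 1) - 1 = 2 * m + 1 := by omega
  have h1 : ρ ≤ 2 * Λ * ρ := by nlinarith
  rw [e]
  calc (2 * Q * S) ^ (2 * m + 1) * (33 * H) ^ (2 * (m + 1)) * (2 * Q) * ρ
      ≤ (2 * Q * (2 * Λ * ρ)) ^ (2 * m + 1) * (33 * H) ^ (2 * (m + 1)) * (2 * Q) *
        (2 * Λ * ρ) := by gcongr
    _ = (2 * Q * (2 * Λ * ρ) * (33 * H)) ^ (2 * (m + 1)) := by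
      rw [mul_pow _ (33 * H), show 2 * (m + 1) = 2 * m + 1 + 1 by ring,
        pow_succ (2 * Q * (2 * Λ * ρ)) (2 * m + 1)]
      ring
    _ ≤ _ := by
      refine pow_le_pow_left₀ (by positivity) ?_ _
      rw [← hN]
      have : 0 ≤ Λ * ρ := by positivity
      nlinarith

lemma fin_Main (m : ℕ) {T Q S H B ρ K2 N X Δ Λ C w ZF s Z y c L : ℝ} (hQ : 0 ≤ Q) (hS0 : 0 ≤ S)
    (hH0 : 0 ≤ H) (hB0 : 0 ≤ B) (hρ : 0 ≤ ρ) (hΛ : 1 ≤ Λ) (hS : S ≤ 2 * Λ * ρ)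
    (hQH : Q * H ≤ K2) (hN : K2 * ρ = N) (hN0 : 0 < N) (hX : 0 < X) (hΔ : 0 < Δ) (hC : 0 ≤ C)
    (hw : 0 ≤ w) (hc : 1 ≤ c) (hL : 0 ≤ L) (hy : 0 ≤ y) (hZ : 0 ≤ Z)
    (hH : H ≤ 2 * c * (N * Δ)) (hB : B ≤ c * L) (h2 : L ^ (m + 1) * y ≤ (N * Δ) ^ m)
    (h4 : L ^ (2 * (m + 1)) * Z * y ≤ ρ) (hZF : ZF ≤ 16 * ((m + 1 : ℕ) : ℝ) * c * Z)
    (hs : s ≤ Z)
    (hT : T ≤ (2 * Q * S) ^ (2 * (m + 1) - 1) * (33 * H) ^ (2 * (m + 1)) * (2 * Q *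
      (C * w ^ (2 * (m + 1) + 6) * (8 * X / (Δ * N)) ^ (2 * (m + 1)) *
        (ρ * H ^ (m + 1 + 1) * B ^ (m + 1) +
          H ^ (2 * (m + 1)) * B ^ (2 * (m + 1)) * (ZF + s))))) :
    T * y ≤ (1056 * Λ) ^ (2 * (m + 1)) * C * w ^ (2 * (m + 1) + 6) *
      ((8 * ((m + 1 : ℕ) : ℝ) + 2) * (2 * c) ^ (4 * (m + 1) + 1)) * (X * N) ^ (2 * (m + 1)) := by
  have a1 := inner_Main m hρ hH0 hB0 hc (by positivity : 0 ≤ N * Δ) hL hy hZ hH hB h2 h4 hZF hs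
  have a2 := outer_Main m hQ hS0 hH0 hρ hΛ hS hQH hN
  have a3 : (132 * Λ * N) ^ (2 * (m + 1)) * (8 * X / (Δ * N)) ^ (2 * (m + 1)) *
      (N * Δ) ^ (2 * (m + 1)) = (1056 * Λ) ^ (2 * (m + 1)) * (X * N) ^ (2 * (m + 1)) := by
    rw [← mul_pow, ← mul_pow, ← mul_pow]
    congr 1
    field_simp
    ring
  have p1 : 0 ≤ (2 * Q * S) ^ (2 * (m + 1) - 1) * (33 * H) ^ (2 * (m + 1)) * (2 * Q) := by
    positivity
  have p2 : 0 ≤ C * w ^ (2 * (m + 1) + 6) := by positivity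
  have p3 : 0 ≤ (8 * X / (Δ * N)) ^ (2 * (m + 1)) := by positivity
  have p4 : 0 ≤ (8 * ((m + 1 : ℕ) : ℝ) + 2) * (2 * c) ^ (4 * (m + 1) + 1) := by positivity
  have p5 : 0 ≤ (N * Δ) ^ (2 * (m + 1)) := by positivity
  generalize (ρ * H ^ (m + 1 + 1) * B ^ (m + 1) +
    H ^ (2 * (m + 1)) * B ^ (2 * (m + 1)) * (ZF + s)) = I at *
  generalize (8 * ((m + 1 : ℕ) : ℝ) + 2) * (2 * c) ^ (4 * (m + 1) + 1) = u at *
  generalize (8 * X / (Δ * N)) ^ (2 * (m + 1)) = v at *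
  generalize (N * Δ) ^ (2 * (m + 1)) = e at *
  generalize (132 * Λ * N) ^ (2 * (m + 1)) = o at *
  generalize (1056 * Λ) ^ (2 * (m + 1)) = k at *
  generalize (X * N) ^ (2 * (m + 1)) = g at *
  generalize w ^ (2 * (m + 1) + 6) = W at *
  generalize (2 * Q * S) ^ (2 * (m + 1) - 1) = a at *
  generalize (33 * H) ^ (2 * (m + 1)) = b at *
  calc T * y ≤ a * b * (2 * Q * (C * W * v * I)) * y := mul_le_mul_of_nonneg_right hT hy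
    _ = a * b * (2 * Q) * (C * W) * v * (I * y) := by ring
    _ ≤ a * b * (2 * Q) * (C * W) * v * (ρ * u * e) :=
      mul_le_mul_of_nonneg_left a1 (mul_nonneg (mul_nonneg p1 p2) p3)
    _ = a * b * (2 * Q) * ρ * (C * W * v * u * e) := by ring
    _ ≤ o * (C * W * v * u * e) :=
      mul_le_mul_of_nonneg_right a2 (mul_nonneg (mul_nonneg (mul_nonneg p2 p3) p4) p5)
    _ = o * v * e * (C * W * u) := by ring
    _ = _ := by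
      rw [a3]
      ring

end Pool.Agent.MP_c853c5_nt.DS
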