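import Pool.Agent.MP_c853c5_nt.DS.Basic

set_option autoImplicit false

open Finset Filter Real
open scoped ComplexConjugate

namespace Pool.Agent.MP_c853c5_nt.DS

open Pool.Agent.MP_88bd62_nt.U (ex)

/-- few vertices outside `U`, and the value is integral at the primes outside `U` -/
def Gd_Tree (D U : Finset ℕ) (j a : ℕ) (q : ℚ) (l : List (ℕ × ℤ)) : Prop :=
  ((l.map Prod.fst).toFinset \ U).card ≤ j ∧ ∀ p ∈ D, p ∉ U → padicNorm p (vl a l - q) ≤ 1

open Classical in
noncomputable def cnt_Tree (D : Finset ℕ) (B n a : ℕ) (U : Finset ℕ) (j : ℕ) (q : ℚ) : ℕ :=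
  ∑ l ∈ paths D B n a, if Gd_Tree D U j a q l then 1 else 0

lemma old_Tree {D U : Finset ℕ} {j a k : ℕ} {q : ℚ} {h : ℤ} {m : List (ℕ × ℤ)} (hk : k ∈ U)
    (hg : Gd_Tree D U j a q ((k, h) :: m)) :
    Gd_Tree D U j k (q - (h : ℚ) / ((a : ℚ) * k)) m := by
  refine ⟨?_, fun p hp hpU => ?_⟩
  · have h1 := hg.1
    rwa [List.map_cons, List.toFinset_cons, insert_sdiff_of_mem _ hk] at h1
  · have h1 := hg.2 p hp hpU
    have e : vl a ((k, h) :: m) - q = vl k m - (q - (h : ℚ) / ((a : ℚ) * k)) := by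
      simp only [vl]
      ring
    rwa [e] at h1

lemma card_new_Tree {U : Finset ℕ} {k : ℕ} (V : Finset ℕ) (hk : k ∉ U) :
    (insert k V \ U).card = (V \ insert k U).card + 1 := by
  have e : insert k V \ U = insert k (V \ insert k U) := by
    ext p
    simp only [mem_sdiff, mem_insert]
    by_cases hp : p = k
    · simp [hp, hk]
    · simp [hp]
  rw [e, card_insert_of_notMem (by simp)]

lemma new_Tree {K : ℕ} {D U : Finset ℕ} (hD : PrK K D) {j a k : ℕ} {q : ℚ} {h : ℤ}
    {m : List (ℕ × ℤ)} (haD : a ∈ D) (ha : a ∈ U) (hkD : k ∈ D) (hk : k ∉ U)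
    (hg : Gd_Tree D U j a q ((k, h) :: m)) :
    1 ≤ j ∧ Gd_Tree D (insert k U) (j - 1) k q m := by
  have h1 := hg.1
  rw [List.map_cons, List.toFinset_cons, card_new_Tree _ hk] at h1
  refine ⟨by omega, by omega, fun p hp hpU => ?_⟩
  rw [mem_insert, not_or] at hpU
  have _ : Fact p.Prime := ⟨(hD p hp).1⟩
  have _ : Fact a.Prime := ⟨(hD a haD).1⟩
  have _ : Fact k.Prime := ⟨(hD k hkD).1⟩
  have hpa : p ≠ a := fun e => hpU.2 (e ▸ ha)
  have h2 := hg.2 p hp hpU.2
  have h3 : padicNorm p ((h : ℚ) / ((a : ℚ) * k)) ≤ 1 := by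
    rw [padicNorm.div, padicNorm.mul, padicNorm.padicNorm_of_prime_of_ne hpa,
      padicNorm.padicNorm_of_prime_of_ne hpU.1, mul_one, div_one]
    exact padicNorm.of_int h
  have e : vl k m - q = (vl a ((k, h) :: m) - q) - (h : ℚ) / ((a : ℚ) * k) := by
    simp only [vl]
    ring
  rw [e]
  exact padicNorm.sub.trans (max_le h2 h3)

lemma uniq_Tree {K B : ℕ} {D U : Finset ℕ} (hD : PrK K D) (hB : 2 * B < K) {j a k : ℕ} {q : ℚ}
    {h h' : ℤ} {m : List (ℕ × ℤ)} (haD : a ∈ D) (ha : a ∈ U) (hkD : k ∈ D) (hk : k ∉ U)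
    (hh : h ∈ hs B) (hh' : h' ∈ hs B) (hg : Gd_Tree D U j a q ((k, h) :: m))
    (hg' : Gd_Tree D U j a q ((k, h') :: m)) : h = h' := by
  have _ : Fact a.Prime := ⟨(hD a haD).1⟩
  have hkp : Fact k.Prime := ⟨(hD k hkD).1⟩
  have hka : k ≠ a := fun e => hk (e ▸ ha)
  have h1 := padicNorm.sub.trans (max_le (hg.2 k hkD hk) (hg'.2 k hkD hk))
  have e : (vl a ((k, h) :: m) - q) - (vl a ((k, h') :: m) - q) =
      ((h - h' : ℤ) : ℚ) / ((a : ℚ) * k) := by
    simp only [vl]
    push_cast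
    ring
  have hk1 : (1 : ℚ) < k := by exact_mod_cast hkp.out.one_lt
  rw [e, padicNorm.div, padicNorm.mul, padicNorm.padicNorm_of_prime_of_ne hka, one_mul,
    padicNorm.padicNorm_p_of_prime, div_le_one (by positivity)] at h1
  have h2 : (k : ℤ) ∣ h - h' :=
    (padicNorm.int_lt_one_iff _).1 (h1.trans_lt (inv_lt_one_of_one_lt₀ hk1))
  have h3 := (mem_hs.1 hh).2
  have h4 := (mem_hs.1 hh').2
  have h5 := (hD k hkD).2.1
  have h6 : |h - h'| < (k : ℤ) := by
    rw [abs_le] at h3 h4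
    rw [abs_lt]
    omega
  exact sub_eq_zero.1 (Int.eq_zero_of_abs_lt_dvd h2 h6)

lemma main_Tree (n : ℕ) : ∀ u : ℕ, ∃ c : ℕ, ∀ (K B H : ℕ) (D : Finset ℕ), PrK K D → 2 * B < K →
    B ≤ H → D.card ≤ H → ∀ (U : Finset ℕ) (a j : ℕ) (q : ℚ), a ∈ D → a ∈ U → U.card ≤ u →
      cnt_Tree D B n a U j q * B ^ j ≤ c * H ^ j * B ^ n := by
  classical
  induction n with
  | zero =>
    intro u
    refine ⟨1, fun K B H D _ _ hBH _ U a j q _ _ _ => ?_⟩
    have h1 : cnt_Tree D B 0 a U j q ≤ 1 := by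
      rw [cnt_Tree, paths, sum_singleton]
      split_ifs <;> simp
    rw [pow_zero, mul_one]
    exact Nat.mul_le_mul h1 (Nat.pow_le_pow_left hBH j)
  | succ n ih =>
    intro u
    obtain ⟨c₁, hc₁⟩ := ih u
    obtain ⟨c₂, hc₂⟩ := ih (u + 1)
    refine ⟨2 * u * c₁ + c₂, fun K B H D hD hB hBH hH U a j q haD ha hU => ?_⟩
    have hold : ∀ k ∈ D, k ∈ U → (∑ h ∈ hs B, ∑ m ∈ paths D B n k,
        if Gd_Tree D U j a q ((k, h) :: m) then 1 else 0) * B ^ j ≤
          2 * B * (c₁ * H ^ j * B ^ n) := by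
      intro k hkD hk
      rw [sum_mul, ← card_hs, ← smul_eq_mul]
      refine sum_le_card_nsmul _ _ _ fun h _ => le_trans (Nat.mul_le_mul_right _ ?_)
        (hc₁ K B H D hD hB hBH hH U k j (q - (h : ℚ) / ((a : ℚ) * k)) hkD hk hU)
      refine sum_le_sum fun m _ => ?_
      by_cases hg : Gd_Tree D U j a q ((k, h) :: m)
      · rw [if_pos hg, if_pos (old_Tree hk hg)]
      · rw [if_neg hg]
        exact Nat.zero_le _
    have hnew : ∀ k ∈ D, k ∉ U → (∑ h ∈ hs B, ∑ m ∈ paths D B n k,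
        if Gd_Tree D U j a q ((k, h) :: m) then 1 else 0) * B ^ j ≤
          if j = 0 then 0 else c₂ * H ^ (j - 1) * B ^ (n + 1) := by
      intro k hkD hk
      by_cases hj : j = 0
      · rw [if_pos hj, sum_eq_zero, zero_mul]
        refine fun h _ => sum_eq_zero fun m _ => if_neg fun hg => ?_
        have := (new_Tree hD haD ha hkD hk hg).1
        omega
      · obtain ⟨i, rfl⟩ := Nat.exists_eq_succ_of_ne_zero hj
        have h1 := hc₂ K B H D hD hB hBH hH (insert k U) k i q hkD (mem_insert_self _ _)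
          ((card_insert_le _ _).trans (by omega))
        have h2 : (∑ h ∈ hs B, ∑ m ∈ paths D B n k,
            if Gd_Tree D U (i + 1) a q ((k, h) :: m) then 1 else 0) ≤
              cnt_Tree D B n k (insert k U) i q := by
          rw [sum_comm]
          refine sum_le_sum fun m _ => ?_
          rw [← card_filter]
          split_ifs with hm
          · refine card_le_one.2 fun h hh h' hh' => ?_
            rw [mem_filter] at hh hh'
            exact uniq_Tree hD hB haD ha hkD hk hh.1 hh'.1 hh.2 hh'.2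
          · rw [Nat.le_zero, card_eq_zero, filter_eq_empty_iff]
            exact fun h _ hg => hm (new_Tree hD haD ha hkD hk hg).2
        rw [if_neg hj, Nat.succ_eq_add_one, Nat.add_sub_cancel, pow_succ, pow_succ, ← mul_assoc,
          ← mul_assoc]
        exact Nat.mul_le_mul_right _ ((Nat.mul_le_mul_right _ h2).trans h1)
    rw [cnt_Tree, sum_paths_succ, sum_mul, ← sum_filter_add_sum_filter_not _ (· ∈ U)]
    have h1 := sum_le_card_nsmul ((D.erase a).filter (· ∈ U)) _ _ fun k hk =>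
      hold k (mem_of_mem_erase (mem_filter.1 hk).1) (mem_filter.1 hk).2
    have h2 := sum_le_card_nsmul ((D.erase a).filter (· ∉ U)) _ _ fun k hk =>
      hnew k (mem_of_mem_erase (mem_filter.1 hk).1) (mem_filter.1 hk).2
    have h3 : ((D.erase a).filter (· ∈ U)).card ≤ u :=
      (card_le_card fun k hk => (mem_filter.1 hk).2).trans hU
    have h4 : ((D.erase a).filter (· ∉ U)).card ≤ H :=
      (card_le_card fun k hk => mem_of_mem_erase (mem_filter.1 hk).1).trans hH
    rw [smul_eq_mul] at h1 h2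
    have h5 : H * (if j = 0 then 0 else c₂ * H ^ (j - 1) * B ^ (n + 1)) ≤
        c₂ * H ^ j * B ^ (n + 1) := by
      split_ifs with hj
      · simp
      · obtain ⟨i, rfl⟩ := Nat.exists_eq_succ_of_ne_zero hj
        rw [Nat.succ_eq_add_one, Nat.add_sub_cancel]
        exact le_of_eq (by ring)
    refine (add_le_add (h1.trans (Nat.mul_le_mul_right _ h3))
      ((h2.trans (Nat.mul_le_mul_right _ h4)).trans h5)).trans (le_of_eq ?_)
    ring

theorem tree_stmt : TreeStmt := by
  classical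
  intro n
  obtain ⟨c, hc⟩ := main_Tree n 1
  refine ⟨c, fun K B H j D hD hB hB1 hBH hH hj a ha => ?_⟩
  have h1 := hc K B H D hD hB hBH hH {a} a j 0 ha (mem_singleton_self _) (by simp)
  have h2 : ((paths D B n a).filter fun l => vl a l = 0 ∧ nw a l ≤ j).card ≤
      cnt_Tree D B n a {a} j 0 := by
    rw [card_filter]
    refine sum_le_sum fun l _ => ?_
    by_cases hl : vl a l = 0 ∧ nw a l ≤ j
    · rw [if_pos hl, if_pos]
      refine ⟨?_, fun p _ _ => ?_⟩
      · rw [sdiff_singleton_eq_erase]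
        exact hl.2
      · rw [hl.1, sub_zero, padicNorm.zero]
        exact zero_le_one
    · rw [if_neg hl]
      exact Nat.zero_le _
  have e : c * H ^ j * B ^ n = c * H ^ j * B ^ (n - j) * B ^ j := by
    rw [mul_assoc _ (B ^ (n - j)), ← pow_add, Nat.sub_add_cancel hj]
  rw [e] at h1
  exact h2.trans (Nat.le_of_mul_le_mul_right h1 (by positivity))

end Pool.Agent.MP_c853c5_nt.DS
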